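import Pool.Agent.H662.RC.FinW
import Pool.Agent.Y882.KW.Num

set_option autoImplicit false

namespace Pool.Agent.H662.RC

open Finset Filter Polynomial

theorem almC_mono (a b c : ℤ) (r : ℕ) (w w' : ℝ) (h : w ≤ w') (X q t : ℕ) :
    almC a b c r w' X q t ≤ almC a b c r w X q t := by
  classical
  unfold almC
  apply card_le_card
  intro n hn
  rw [mem_filter] at hn ⊢
  exact ⟨hn.1, hn.2.1, hn.2.2.1, fun p hp hd => h.trans (hn.2.2.2 p hp hd)⟩

open Classical in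
theorem alm_main (a b c : ℤ) (ha : 0 < a)
    (hg : ∀ p : ℕ, p.Prime → (p : ℤ) ∣ a → (p : ℤ) ∣ b → ¬ (p : ℤ) ∣ c)
    (h2' : ¬ ((2 : ℤ) ∣ a + b ∧ (2 : ℤ) ∣ c)) (hD : ¬ IsSquare (b ^ 2 - 4 * a * c))
    (r : ℕ) (θ : ℝ) (hθ : 0 < θ)
    (hpar : (r = 5 ∧ θ < 1) ∨ (r = 4 ∧ θ < 231 / 250) ∨ (r = 3 ∧ θ < 11 / 20)) :
    ∃ δ κ : ℝ, 0 < δ ∧ 0 < κ ∧ ∀ᶠ X : ℕ in atTop, ∀ q : ℕ, 1 ≤ q → (q : ℝ) ≤ (X : ℝ) ^ θ →
      (((range q).filter (fun t : ℕ => IsCoprime (a * (t : ℤ) ^ 2 + b * (t : ℤ) + c) (q : ℤ) ∧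
        (almC a b c r ((X : ℝ) ^ (1 / 8 : ℝ)) X q t : ℝ) <
          δ * X / (((range q).filter (fun n : ℕ => IsCoprime (a * (n : ℤ) ^ 2 + b * (n : ℤ) + c)
            (q : ℤ))).card * Real.log X))).card : ℝ) ≤
      ((range q).filter (fun n : ℕ => IsCoprime (a * (n : ℤ) ^ 2 + b * (n : ℤ) + c)
            (q : ℤ))).card * (X : ℝ) ^ (-κ) := by
  have key : ∃ ζ : ℝ, 1 / 8 ≤ ζ ∧ ∃ δ κ : ℝ, 0 < δ ∧ 0 < κ ∧ ∀ᶠ X : ℕ in atTop, ∀ q : ℕ, 0 < q →
      (q : ℝ) ≤ (X : ℝ) ^ θ →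
      (((range q).filter (fun t : ℕ => ((QG a b c).eval (t : ℤ)).natAbs.Coprime q ∧
        (almC a b c r ((X : ℝ) ^ ζ) X q t : ℝ) <
          δ * (X / (clsG (QG a b c) q * Real.log X)))).card : ℝ) ≤
      clsG (QG a b c) q * (X : ℝ) ^ (-κ) := by
    rcases hpar with ⟨rfl, h1⟩ | ⟨rfl, h1⟩ | ⟨rfl, h1⟩
    · have hc := Pool.Agent.Y882.KW.cond_B (1 / 2) (20 / 31) (by norm_num) (by norm_num)
        (by norm_num)
      refine ⟨2 / 5 * (1 / 2), by norm_num, ?_⟩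
      exact finW a b c ha hg h2' hD 5 (1 / 2) (2 / 5 * (1 / 2)) (9 / 10 * (1 / 2)) (20 / 31)
        (1001 / 500) θ (by norm_num) (by norm_num) (by norm_num) (by norm_num) (by norm_num)
        (by norm_num) (by norm_num) (by norm_num) hc (by norm_num) (by norm_num) hθ (by linarith)
    · have hc := Pool.Agent.Y882.KW.cond_A (269 / 500) (8 / 9) (by norm_num) (by norm_num)
        (by norm_num)
      refine ⟨(269 / 500) / 4, by norm_num, ?_⟩
      exact finW a b c ha hg h2' hD 4 (269 / 500) ((269 / 500) / 4) (24 / 25 * (269 / 500)) (8 / 9)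
        (2001 / 1000) θ (by norm_num) (by norm_num) (by norm_num) (by norm_num) (by norm_num)
        (by norm_num) (by norm_num) (by norm_num) hc (by norm_num) (by norm_num) hθ (by linarith)
    · have hc := Pool.Agent.Y882.KW.cond_A (29 / 40) (8 / 9) (by norm_num) (by norm_num)
        (by norm_num)
      refine ⟨(29 / 40) / 4, by norm_num, ?_⟩
      exact finW a b c ha hg h2' hD 3 (29 / 40) ((29 / 40) / 4) (24 / 25 * (29 / 40)) (8 / 9)
        (2001 / 1000) θ (by norm_num) (by norm_num) (by norm_num) (by norm_num) (by norm_num)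
        (by norm_num) (by norm_num) (by norm_num) hc (by norm_num) (by norm_num) hθ (by linarith)
  obtain ⟨ζ, hζ, δ, κ, hδ, hκ, H⟩ := key
  refine ⟨δ, κ, hδ, hκ, ?_⟩
  have hcop : ∀ (q n : ℕ), IsCoprime (a * (n : ℤ) ^ 2 + b * (n : ℤ) + c) (q : ℤ) ↔
      ((QG a b c).eval (n : ℤ)).natAbs.Coprime q := by
    intro q n
    rw [QG_eval, Int.isCoprime_iff_gcd_eq_one, Nat.coprime_iff_gcd_eq_one]
    rfl
  filter_upwards [H, eventually_ge_atTop 1] with X hX hX1 q hq hqX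
  have hcls : ((range q).filter (fun n : ℕ => IsCoprime (a * (n : ℤ) ^ 2 + b * (n : ℤ) + c)
            (q : ℤ))).card = clsG (QG a b c) q := by
    unfold clsG
    congr 1
    apply filter_congr
    intro n _
    exact hcop q n
  rw [hcls]
  refine le_trans ?_ (hX q hq hqX)
  have hsub : (range q).filter (fun t : ℕ => IsCoprime (a * (t : ℤ) ^ 2 + b * (t : ℤ) + c)
        (q : ℤ) ∧ (almC a b c r ((X : ℝ) ^ (1 / 8 : ℝ)) X q t : ℝ) <
          δ * X / (clsG (QG a b c) q * Real.log X)) ⊆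
      (range q).filter (fun t : ℕ => ((QG a b c).eval (t : ℤ)).natAbs.Coprime q ∧
        (almC a b c r ((X : ℝ) ^ ζ) X q t : ℝ) <
          δ * (X / (clsG (QG a b c) q * Real.log X))) := by
    intro t ht
    rw [mem_filter] at ht ⊢
    refine ⟨ht.1, (hcop q t).1 ht.2.1, ?_⟩
    have hX1r : (1 : ℝ) ≤ X := by exact_mod_cast hX1
    have h1 : (almC a b c r ((X : ℝ) ^ ζ) X q t : ℝ) ≤ almC a b c r ((X : ℝ) ^ (1 / 8 : ℝ)) X q t :=
      Nat.cast_le.2 (almC_mono a b c r _ _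
        (Real.rpow_le_rpow_of_exponent_le hX1r hζ) X q t)
    rw [← mul_div_assoc]
    exact h1.trans_lt ht.2.2
  exact_mod_cast card_le_card hsub

end Pool.Agent.H662.RC
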