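import Pool.Agent.H20R2.EN.FLem
import Pool.Agent.Y882.VV

/-! Lower bound sieve weights of dimension `κ` (Brun-Hooley). -/

set_option autoImplicit false

namespace Pool.Agent.H662.BHW

open Finset
open Pool.Agent.Y882
open Pool.Agent.Helper112.LP Pool.Agent.Helper112.LP.Kba Pool.Agent.Helper112.LP.Kbh
open Pool.Agent.H483R2.BHKD Pool.Agent.H20R2.FL

theorem VV_congr (P : Finset ℕ) (c c' : Finset ℕ → ℝ) (h : ℕ → ℝ) (hc : ∀ T ⊆ P, c T = c' T) :
    VV P c h = VV P c' h := by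
  unfold VV
  apply sum_congr rfl
  intro T hT
  rw [hc T (mem_powerset.1 hT)]

theorem VV_bi {J : ℕ} (Pi : Fin J → Finset ℕ) (hdis : ∀ i j, i ≠ j → Disjoint (Pi i) (Pi j))
    (f : Fin J → Finset ℕ → ℝ) (h : ℕ → ℝ) (s : Finset (Fin J)) :
    VV (s.biUnion Pi) (fun T => ∏ i ∈ s, f i (T ∩ Pi i)) h = ∏ i ∈ s, VV (Pi i) (f i) h := by
  classical
  induction s using Finset.induction_on with
  | empty => simp [VV]
  | insert j s hj ih =>
    rw [biUnion_insert, prod_insert hj, ← ih]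
    have hd : Disjoint (Pi j) (s.biUnion Pi) := by
      rw [disjoint_biUnion_right]
      intro i hi
      exact hdis j i (by rintro rfl; exact hj hi)
    have h1 := VV_union (Pi j) (s.biUnion Pi) hd (f j) (fun T => ∏ i ∈ s, f i (T ∩ Pi i)) h
    rw [← h1]
    apply VV_congr
    intro T _
    rw [prod_insert hj]
    congr 1
    apply prod_congr rfl
    intro i hi
    congr 1
    ext x
    simp only [mem_inter, mem_biUnion]
    constructor
    · rintro ⟨h1, h2⟩
      exact ⟨⟨h1, i, hi, h2⟩, h2⟩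
    · rintro ⟨⟨h1, _⟩, h2⟩
      exact ⟨h1, h2⟩

/-- truncated Möbius weights -/
noncomputable def fA (b : ℕ) (U : Finset ℕ) : ℝ := if U.card ≤ b then (-1) ^ U.card else 0

/-- the weights of the remainder -/
noncomputable def fE (b : ℕ) (U : Finset ℕ) : ℝ := if U.card = b + 1 then 1 else 0

theorem VV_fA (b : ℕ) (P : Finset ℕ) (h : ℕ → ℝ) : VV P (fA b) h = bhA h b P := by
  unfold VV fA bhA
  rw [sum_filter]
  apply sum_congr rfl
  intro U _
  split_ifs
  · rfl
  · rw [zero_mul]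

theorem VV_fE (b : ℕ) (P : Finset ℕ) (h : ℕ → ℝ) : VV P (fE b) h = bhE h (b + 1) P := by
  unfold VV fE bhE
  rw [powersetCard_eq_filter, sum_filter]
  apply sum_congr rfl
  intro U _
  split_ifs
  · rw [one_mul]
  · rw [zero_mul]

/-- the weights -/
noncomputable def cBH {J : ℕ} (Pi : Fin J → Finset ℕ) (bb : Fin J → ℕ) (T : Finset ℕ) : ℝ :=
  (∏ i, fA (bb i) (T ∩ Pi i)) -
    ∑ k, ∏ i, (if i = k then fE (bb i) else fA (bb i)) (T ∩ Pi i)

theorem VV_cBH {J : ℕ} (Pi : Fin J → Finset ℕ) (hdis : ∀ i j, i ≠ j → Disjoint (Pi i) (Pi j))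
    (bb : Fin J → ℕ) (h : ℕ → ℝ) :
    VV (univ.biUnion Pi) (cBH Pi bb) h = (∏ i, bhA h (bb i) (Pi i)) -
      ∑ k, bhE h (bb k + 1) (Pi k) * ∏ i ∈ univ.erase k, bhA h (bb i) (Pi i) := by
  classical
  have h1 := VV_bi Pi hdis (fun i => fA (bb i)) h univ
  have h2 : ∀ k : Fin J, VV (univ.biUnion Pi)
      (fun T => ∏ i, (if i = k then fE (bb i) else fA (bb i)) (T ∩ Pi i)) h =
      bhE h (bb k + 1) (Pi k) * ∏ i ∈ univ.erase k, bhA h (bb i) (Pi i) := by
    intro k
    have h3 := VV_bi Pi hdis (fun i => if i = k then fE (bb i) else fA (bb i)) h univ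
    refine h3.trans ?_
    rw [← mul_prod_erase univ _ (mem_univ k), if_pos rfl, VV_fE]
    congr 1
    apply prod_congr rfl
    intro i hi
    rw [if_neg (ne_of_mem_erase hi), VV_fA]
  have h4 : VV (univ.biUnion Pi) (cBH Pi bb) h =
      VV (univ.biUnion Pi) (fun T => ∏ i, fA (bb i) (T ∩ Pi i)) h -
      ∑ k, VV (univ.biUnion Pi)
        (fun T => ∏ i, (if i = k then fE (bb i) else fA (bb i)) (T ∩ Pi i)) h := by
    unfold VV cBH
    rw [sum_comm, ← sum_sub_distrib]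
    apply sum_congr rfl
    intro T _
    rw [sub_mul, sum_mul]
  rw [h4, h1]
  congr 1
  · exact prod_congr rfl fun i _ => VV_fA _ _ _
  · exact sum_congr rfl fun k _ => h2 k

theorem abs_fA (b : ℕ) (U : Finset ℕ) : |fA b U| ≤ 1 := by
  unfold fA
  split_ifs
  · rw [abs_neg_one_pow]
  · simp

theorem abs_fE (b : ℕ) (U : Finset ℕ) : |fE b U| ≤ 1 := by
  unfold fE
  split_ifs <;> simp

theorem abs_cBH {J : ℕ} (Pi : Fin J → Finset ℕ) (bb : Fin J → ℕ) (T : Finset ℕ) :
    |cBH Pi bb T| ≤ J + 1 := by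
  unfold cBH
  refine (abs_sub _ _).trans ?_
  have h1 : |∏ i, fA (bb i) (T ∩ Pi i)| ≤ 1 := by
    rw [abs_prod]
    exact prod_le_one (fun _ _ => abs_nonneg _) (fun i _ => abs_fA _ _)
  have h2 : |∑ k : Fin J, ∏ i, (if i = k then fE (bb i) else fA (bb i)) (T ∩ Pi i)| ≤ J := by
    refine (abs_sum_le_sum_abs _ _).trans ?_
    calc ∑ k : Fin J, |∏ i, (if i = k then fE (bb i) else fA (bb i)) (T ∩ Pi i)| ≤
        ∑ _k : Fin J, (1 : ℝ) := by
          apply sum_le_sum
          intro k _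
          rw [abs_prod]
          apply prod_le_one (fun _ _ => abs_nonneg _)
          intro i _
          split_ifs
          · exact abs_fE _ _
          · exact abs_fA _ _
      _ = J := by simp
  linarith

theorem supp_cBH {J : ℕ} (Pi : Fin J → Finset ℕ) (bb : Fin J → ℕ) (T : Finset ℕ)
    (h : cBH Pi bb T ≠ 0) (i : Fin J) : (T ∩ Pi i).card ≤ bb i + 1 := by
  by_contra hc
  apply h
  have hA : fA (bb i) (T ∩ Pi i) = 0 := by
    unfold fA
    rw [if_neg (by omega)]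
  have hE : fE (bb i) (T ∩ Pi i) = 0 := by
    unfold fE
    rw [if_neg (by omega)]
  unfold cBH
  rw [prod_eq_zero (mem_univ i) hA, sum_eq_zero, sub_zero]
  intro k _
  apply prod_eq_zero (mem_univ i)
  split_ifs
  · exact hE
  · exact hA

theorem ind_A (P : Finset ℕ) (b V : ℕ) : bhA (fun p => if p ∣ V then (1 : ℝ) else 0) b P =
    ∑ U ∈ P.powerset.filter (fun U => U.card ≤ b), if ∀ l ∈ U, l ∣ V then ((-1 : ℝ)) ^ U.card else 0 := by
  unfold bhA
  apply sum_congr rfl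
  intro U _
  rw [prod_ite_zero]
  split_ifs <;> simp

theorem ind_E (P : Finset ℕ) (b V : ℕ) : bhE (fun p => if p ∣ V then (1 : ℝ) else 0) b P =
    ∑ U ∈ powersetCard b P, if ∀ l ∈ U, l ∣ V then (1 : ℝ) else 0 := by
  unfold bhE
  apply sum_congr rfl
  intro U _
  rw [prod_ite_zero]
  split_ifs <;> simp

/-- **lower bound sieve weights** -/
theorem bh_weights (κ : ℕ) : ∃ C0 : ℕ, 1 ≤ C0 ∧ ∀ (b J : ℕ) (P : Finset ℕ), C0 ≤ b →
    (∀ p ∈ P, p.Prime ∧ C0 < p ∧ p ≤ 2 ^ 2 ^ J) → ∃ c : Finset ℕ → ℝ, (∀ T, |c T| ≤ J + 1) ∧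
      (∀ T ⊆ P, c T ≠ 0 → ∏ p ∈ T, p ≤ (2 ^ 2 ^ J) ^ (C0 * b)) ∧
      (∀ V : ℕ, VV P c (fun p => if p ∣ V then 1 else 0) ≤ if ∀ p ∈ P, ¬ p ∣ V then 1 else 0) ∧
      (∀ g : ℕ → ℝ, (∀ p ∈ P, 0 ≤ g p ∧ g p ≤ κ / ((p : ℝ) - 1)) →
        (1 - (1 / 2) ^ b) * ∏ p ∈ P, (1 - g p) ≤ VV P c g) := by
  classical
  obtain ⟨CM, hCM, hM⟩ := mertens_group
  set L : ℝ := Real.log 2 + CM with hLdef
  have hlog2 : 0 < Real.log 2 := Real.log_pos (by norm_num)
  have hL0 : 0 < L := by rw [hLdef]; linarith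
  have hLs : ∀ i : ℕ, ∑ l ∈ Gj (i + 1), (1 : ℝ) / l ≤ L := by
    intro i
    have h1 := (abs_le.1 (hM (i + 1) (by omega))).2
    have h2 : CM / 2 ^ (i + 1) ≤ CM := div_le_self hCM.le (one_le_pow₀ (by norm_num))
    rw [hLdef]; linarith
  obtain ⟨N, hN⟩ := exists_nat_ge (21 * (κ * L))
  refine ⟨N + 2 * κ + 10, by omega, ?_⟩
  intro b J P hb hP
  have hκ0 : (0 : ℝ) ≤ κ := Nat.cast_nonneg κ
  -- primes of P are less than 2^2^J
  have hPlt : ∀ p ∈ P, p < 2 ^ 2 ^ J := by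
    intro p hp
    obtain ⟨h1, h2, h3⟩ := hP p hp
    rcases lt_or_eq_of_le h3 with h | h
    · exact h
    · exfalso
      have h4 : 2 ∣ p := by rw [h]; exact dvd_pow_self 2 (by positivity)
      have h5 : p = 2 := ((Nat.prime_dvd_prime_iff_eq Nat.prime_two h1).1 h4).symm
      omega
  set bb : Fin J → ℕ := fun i => 2 * b + 2 * (J - 1 - (i : ℕ)) with hbdef
  set Pi : Fin J → Finset ℕ := fun i => P.filter (fun p => p ∈ Gj ((i : ℕ) + 1)) with hPdef
  have hPG : ∀ i, Pi i ⊆ Gj ((i : ℕ) + 1) := fun i p hp => (mem_filter.1 hp).2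
  have hPiP : ∀ i, Pi i ⊆ P := fun i => filter_subset _ _
  have hU : univ.biUnion Pi = P := by
    ext p
    rw [mem_biUnion]
    constructor
    · rintro ⟨i, _, hi⟩
      exact hPiP i hi
    · intro hp
      obtain ⟨i, hi⟩ := bh_cover (hP p hp).1 (hPlt p hp)
      exact ⟨i, mem_univ _, mem_filter.2 ⟨hp, hi⟩⟩
  have hdis : ∀ i j, i ≠ j → Disjoint (Pi i) (Pi j) := by
    intro i j hij
    rw [disjoint_left]
    intro p hp hp'
    exact hij (Fin.ext (bh_Gj_disj (hPG i hp) (hPG j hp')))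
  have hbe : ∀ i, Even (bb i) := fun i => by
    simp only [hbdef]
    exact (even_two_mul _).add (even_two_mul _)
  have hb1 : 1 ≤ b := by omega
  refine ⟨cBH Pi bb, abs_cBH Pi bb, ?_, ?_, ?_⟩
  · -- the level
    intro T hT hcT
    have h1 : ∀ i : Fin J, (T ∩ Pi i) ⊆ Gj ((i : ℕ) + 1) := fun i =>
      inter_subset_right.trans (hPG i)
    have h2 : ∀ i : Fin J, (T ∩ Pi i).card ≤ 2 * b + 2 * (J - 1 - (i : ℕ)) + 1 :=
      fun i => supp_cBH Pi bb T hcT i
    have h3 := bh_level (fun i => T ∩ Pi i) h1 h2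
    have h4 : bhU (fun i => T ∩ Pi i) = T := by
      unfold bhU
      ext x
      rw [mem_biUnion]
      constructor
      · rintro ⟨i, _, hi⟩
        exact (mem_inter.1 hi).1
      · intro hx
        have hxP : x ∈ univ.biUnion Pi := by rw [hU]; exact hT hx
        obtain ⟨i, _, hi⟩ := mem_biUnion.1 hxP
        exact ⟨i, mem_univ i, mem_inter.2 ⟨hx, hi⟩⟩
    rw [h4] at h3
    refine h3.trans ?_
    apply Nat.pow_le_pow_right (by positivity)
    nlinarith
  · -- at an integer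
    intro V
    set x : Fin J → ℝ := fun i => if ∀ l ∈ Pi i, ¬ l ∣ V then (1 : ℝ) else 0 with hx
    set y : Fin J → ℝ := fun i => bhA (fun p => if p ∣ V then (1 : ℝ) else 0) (bb i) (Pi i) with hy
    set e : Fin J → ℝ := fun i => bhE (fun p => if p ∣ V then (1 : ℝ) else 0) (bb i + 1) (Pi i)
      with he
    have hloc : ∀ i, 0 ≤ x i ∧ x i ≤ y i ∧ y i - x i ≤ e i := by
      intro i
      have := bh_local (Pi i) (bb i) (hbe i) V
      simp only [hx, hy, he]
      rw [ind_A, ind_E]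
      exact this
    have h1 := bh_prod_sub univ x y e (fun i => (hloc i).1) (fun i => (hloc i).2.1)
      (fun i => (hloc i).2.2)
    have key : VV P (cBH Pi bb) (fun p => if p ∣ V then (1 : ℝ) else 0) ≤ ∏ i, x i := by
      rw [← hU, VV_cBH Pi hdis bb]
      have h3 : ∀ i, bhA (fun p => if p ∣ V then (1 : ℝ) else 0) (bb i) (Pi i) = y i :=
        fun i => rfl
      have h4 : ∀ i, bhE (fun p => if p ∣ V then (1 : ℝ) else 0) (bb i + 1) (Pi i) = e i :=
        fun i => rfl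
      simp only [h3, h4]
      linarith
    refine key.trans ?_
    by_cases hall : ∀ p ∈ P, ¬ p ∣ V
    · rw [if_pos hall]
      apply prod_le_one (fun i _ => (hloc i).1)
      intro i _
      simp only [hx]
      split_ifs <;> norm_num
    · rw [if_neg hall]
      push Not at hall
      obtain ⟨p, hp, hpV⟩ := hall
      have hpU : p ∈ univ.biUnion Pi := by rw [hU]; exact hp
      obtain ⟨i, _, hi⟩ := mem_biUnion.1 hpU
      have h5 : x i = 0 := by
        simp only [hx]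
        rw [if_neg]
        intro h
        exact h p hi hpV
      rw [prod_eq_zero (mem_univ i) h5]
  · -- the main term
    intro g hg
    rw [← hU, VV_cBH Pi hdis bb, prod_biUnion (fun i _ j _ hij => hdis i j hij)]
    set x0 : ℝ := 2 * (κ * L) with hx0
    have hx00 : 0 ≤ x0 := by positivity
    set v : ℝ := Real.exp (-(2 * x0)) with hv
    have hv0 : 0 < v := Real.exp_pos _
    set V : Fin J → ℝ := fun i => ∏ l ∈ Pi i, (1 - g l) with hVdef
    set Tr : Fin J → ℝ := fun i => bhA g (bb i) (Pi i) with hTr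
    set Er : Fin J → ℝ := fun i => bhE g (bb i + 1) (Pi i) with hEr
    have hpb : ∀ p ∈ P, (2 * κ + 10 : ℝ) ≤ (p : ℝ) - 1 := by
      intro p hp
      have h2 : 2 * κ + 10 + 1 ≤ p := by
        have := (hP p hp).2.1
        omega
      have h3 : ((2 * κ + 10 + 1 : ℕ) : ℝ) ≤ p := by exact_mod_cast h2
      push_cast at h3
      linarith
    have hgk : ∀ p ∈ P, g p ≤ 1 / 2 := by
      intro p hp
      have h1 := (hg p hp).2
      have h2 := hpb p hp
      refine h1.trans ?_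
      rw [div_le_iff₀ (by linarith)]
      linarith
    have hg2 : ∀ p ∈ P, g p ≤ 2 * κ * (1 / (p : ℝ)) := by
      intro p hp
      have h1 := (hg p hp).2
      have h2 := hpb p hp
      refine h1.trans ?_
      rw [mul_one_div, div_le_div_iff₀ (by linarith) (by linarith)]
      nlinarith
    have hgb : ∀ i, ∀ l ∈ Pi i, 0 ≤ g l ∧ g l ≤ 1 := fun i l hl =>
      ⟨(hg l (hPiP i hl)).1, by linarith [hgk l (hPiP i hl)]⟩
    have hbonf : ∀ i, V i ≤ Tr i ∧ Tr i ≤ V i + Er i := by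
      intro i
      have h := bh_bonf g (Pi i) (hgb i) (bb i)
      rw [(hbe i).neg_one_pow, one_mul] at h
      constructor
      · have := h.1; simp only [hVdef, hTr]; linarith
      · have := h.2; simp only [hVdef, hTr, hEr]; linarith
    have hgsum : ∀ i, ∑ l ∈ Pi i, g l ≤ x0 := by
      intro i
      calc ∑ l ∈ Pi i, g l ≤ ∑ l ∈ Pi i, 2 * (κ : ℝ) * (1 / (l : ℝ)) := by
            apply sum_le_sum
            intro l hl
            exact hg2 l (hPiP i hl)
        _ = 2 * κ * ∑ l ∈ Pi i, 1 / (l : ℝ) := by rw [mul_sum]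
        _ ≤ 2 * κ * ∑ l ∈ Gj ((i : ℕ) + 1), 1 / (l : ℝ) := by
            apply mul_le_mul_of_nonneg_left _ (by positivity)
            apply sum_le_sum_of_subset_of_nonneg (hPG i)
            intro l _ _
            positivity
        _ ≤ 2 * κ * L := mul_le_mul_of_nonneg_left (hLs i) (by positivity)
        _ = x0 := by rw [hx0]; ring
    have hVv : ∀ i, v ≤ V i := by
      intro i
      have h1 : Real.exp (-(2 * ∑ l ∈ Pi i, g l)) ≤ V i := by
        have h2 : -(2 * ∑ l ∈ Pi i, g l) = ∑ l ∈ Pi i, -(2 * g l) := by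
          rw [mul_sum, ← sum_neg_distrib]
        rw [h2, Real.exp_sum]
        refine prod_le_prod (fun l _ => (Real.exp_pos _).le) fun l hl => ?_
        exact bh_inv_ge (hgb i l hl).1 (hgk l (hPiP i hl))
      refine le_trans ?_ h1
      rw [hv]
      exact Real.exp_le_exp.2 (by linarith [hgsum i])
    have hEr0 : ∀ i, 0 ≤ Er i := fun i => bhE_nonneg _ _ _ fun l hl => (hgb i l hl).1
    have hErle : ∀ i, Er i ≤ x0 ^ (bb i + 1) / (bb i + 1).factorial := by
      intro i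
      refine (bhE_le g (Pi i) (fun l hl => (hgb i l hl).1) (bb i + 1)).trans ?_
      have h0 : 0 ≤ ∑ l ∈ Pi i, g l := sum_nonneg fun l hl => (hgb i l hl).1
      have h1 := hgsum i
      gcongr
    have hErv : ∀ i, Er i / v ≤ (1 / 2) ^ (bb i + 1) := by
      intro i
      have h1 : Er i / v = Er i * Real.exp (2 * x0) := by
        rw [hv, Real.exp_neg, div_inv_eq_mul]
      rw [h1]
      refine le_trans (mul_le_mul_of_nonneg_right (hErle i) (Real.exp_pos _).le) ?_
      apply tail_one x0 hx00 (bb i + 1) (by omega)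
      have h2 : ((2 * N : ℕ) : ℝ) ≤ ((bb i + 1 : ℕ) : ℝ) := by
        have : 2 * N ≤ bb i + 1 := by simp only [hbdef]; omega
        exact_mod_cast this
      push_cast at h2 ⊢
      rw [hx0]
      linarith
    set s : ℝ := ∑ i, Er i / v with hs
    have hs0 : 0 ≤ s := sum_nonneg fun i _ => div_nonneg (hEr0 i) hv0.le
    have hErsum : s ≤ 2 / 3 * (1 / 4) ^ b :=
      le_trans (sum_le_sum fun i _ => hErv i) (tail_b b J)
    have h4b : (1 / 4 : ℝ) ^ b ≤ 1 / 4 * (1 / 2) ^ b * 2 := by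
      have h1 : (1 / 4 : ℝ) ^ b = (1 / 2) ^ b * (1 / 2) ^ b := by
        rw [← mul_pow]; norm_num
      have h2 : (1 / 2 : ℝ) ^ b ≤ (1 / 2) ^ 1 :=
        pow_le_pow_of_le_one (by norm_num) (by norm_num) hb1
      have h3 : (0 : ℝ) ≤ (1 / 2) ^ b := by positivity
      rw [h1]
      nlinarith
    have hhb : (1 / 2 : ℝ) ^ b ≤ 1 / 2 := by
      have h2 : (1 / 2 : ℝ) ^ b ≤ (1 / 2) ^ 1 :=
        pow_le_pow_of_le_one (by norm_num) (by norm_num) hb1
      linarith
    have hhb0 : (0 : ℝ) ≤ (1 / 2) ^ b := by positivity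
    have hs1 : 2 * s ≤ (1 / 2) ^ b := by linarith
    have hV0 : ∀ i, 0 < V i := fun i => lt_of_lt_of_le hv0 (hVv i)
    have hTr0 : ∀ i, 0 < Tr i := fun i => lt_of_lt_of_le (hV0 i) (hbonf i).1
    have hTr00 : 0 ≤ ∏ i, Tr i := prod_nonneg fun i _ => (hTr0 i).le
    have hTp : ∏ i, V i ≤ ∏ i, Tr i := prod_le_prod (fun i _ => (hV0 i).le)
      fun i _ => (hbonf i).1
    have hk : ∀ k, Er k * ∏ i ∈ univ.erase k, Tr i ≤ Er k / v * ∏ i, Tr i := by
      intro k
      have h1 : ∏ i, Tr i = Tr k * ∏ i ∈ univ.erase k, Tr i :=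
        (mul_prod_erase univ Tr (mem_univ k)).symm
      have h2 : 0 ≤ ∏ i ∈ univ.erase k, Tr i := prod_nonneg fun i _ => (hTr0 i).le
      rw [h1, div_mul_eq_mul_div, le_div_iff₀ hv0]
      have h3 : v ≤ Tr k := (hVv k).trans (hbonf k).1
      have h4 : Er k * (∏ i ∈ univ.erase k, Tr i) * v ≤
          Er k * (∏ i ∈ univ.erase k, Tr i) * Tr k :=
        mul_le_mul_of_nonneg_left h3 (mul_nonneg (hEr0 k) h2)
      linarith
    have hsum : ∑ k, Er k * ∏ i ∈ univ.erase k, Tr i ≤ (1 / 2) ^ b * ∏ i, Tr i := by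
      calc ∑ k, Er k * ∏ i ∈ univ.erase k, Tr i ≤ ∑ k, Er k / v * ∏ i, Tr i :=
            sum_le_sum fun k _ => hk k
        _ = s * ∏ i, Tr i := by rw [← sum_mul]
        _ ≤ (1 / 2) ^ b * ∏ i, Tr i :=
            mul_le_mul_of_nonneg_right (by linarith) hTr00
    have h6 : (1 - (1 / 2 : ℝ) ^ b) * ∏ i, V i ≤ (1 - (1 / 2) ^ b) * ∏ i, Tr i :=
      mul_le_mul_of_nonneg_left hTp (by linarith)
    linarith

end Pool.Agent.H662.BHW
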