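import Pool.Agent.H662.RC.Eng
import Pool.Agent.Y882.JR.Fin

/-! Numbers of residue classes and of integers in them. -/

set_option autoImplicit false

namespace Pool.Agent.H662.RC

open Finset Polynomial Filter
open Pool.Agent.Y882
open Pool.Agent.Y882.PX
open Pool.Agent.Y882.SI
open Pool.Agent.Y882.JR

theorem NC_le (q X a : ℕ) (hq : 0 < q) : (NC q X a : ℝ) ≤ X / q + 1 := by
  have hq0 : (0 : ℝ) < q := by exact_mod_cast hq
  have h1 : NC q X a ≤ X / q + 1 := by
    unfold NC
    rw [← card_range (X / q + 1)]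
    apply card_le_card_of_injOn (fun N => (N + 1) / q)
    · intro N hN
      rw [mem_coe, mem_filter, mem_range] at hN
      rw [mem_coe, mem_range]
      have h9 : (N + 1) / q ≤ X / q := Nat.div_le_div_right (by omega)
      exact Nat.lt_succ_of_le h9
    · intro N hN N' hN' h
      rw [mem_coe, mem_filter] at hN hN'
      simp only at h
      have e1 := Nat.div_add_mod (N + 1) q
      have e2 := Nat.div_add_mod (N' + 1) q
      rw [hN.2, h] at e1
      rw [hN'.2] at e2
      omega
  have h2 : ((X / q : ℕ) : ℝ) ≤ X / q := Nat.cast_div_le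
  have h3 : (NC q X a : ℝ) ≤ ((X / q + 1 : ℕ) : ℝ) := by exact_mod_cast h1
  push_cast at h3
  linarith

theorem le_NC (q X a : ℕ) (hq : 0 < q) (ha : a < q) : X / q ≤ NC q X a := by
  unfold NC
  rw [← card_range (X / q)]
  apply card_le_card_of_injOn (fun j => (a + q - 1) % q + q * j)
  · intro j hj
    rw [mem_coe, mem_range] at hj
    rw [mem_coe, mem_filter, mem_range]
    have h1 : (a + q - 1) % q < q := Nat.mod_lt _ hq
    have h2 : q * (j + 1) ≤ q * (X / q) := Nat.mul_le_mul_left q hj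
    have h3 : q * (X / q) ≤ X := Nat.mul_div_le X q
    constructor
    · rw [Nat.mul_succ] at h2
      show (a + q - 1) % q + q * j < X
      omega
    · show ((a + q - 1) % q + q * j + 1) % q = a
      have h4 : (a + q - 1) % q + q * j + 1 ≡ a [MOD q] := by
        have h5 : (a + q - 1) % q ≡ a + q - 1 [MOD q] := Nat.mod_modEq _ _
        have h6 : (a + q - 1) % q + q * j + 1 ≡ a + q - 1 + q * j + 1 [MOD q] :=
          (h5.add_right _).add_right _
        refine h6.trans ?_
        have h7 : a + q - 1 + q * j + 1 = a + q * (j + 1) := by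
          rw [Nat.mul_succ]
          omega
        rw [h7]
        exact (Nat.modEq_iff_dvd' (by omega)).2 ⟨j + 1, by omega⟩ |>.symm
      have h8 : ((a + q - 1) % q + q * j + 1) % q = a % q := h4
      rw [h8, Nat.mod_eq_of_lt ha]
  · intro j _ j' _ h
    simp only at h
    have h1 : q * j = q * j' := by omega
    exact Nat.eq_of_mul_eq_mul_left hq h1

/-- the number of the roots in a multiple of the period -/
theorem roots_mul (G : ℤ[X]) (d c : ℕ) (hd : 0 < d) :
    ((range (d * c)).filter (fun a : ℕ => (d : ℤ) ∣ G.eval (a : ℤ))).card = c * ro G 0 d := by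
  have h0 : ro G 0 d = ((range d).filter (fun a : ℕ => (d : ℤ) ∣ G.eval (a : ℤ))).card := by
    rw [ro_eq]
    simp
  induction c with
  | zero => simp
  | succ c ih =>
    have h1 : range (d * (c + 1)) = range (d * c) ∪ (range d).map (addLeftEmbedding (d * c)) := by
      rw [Nat.mul_succ, range_add_eq_union]
    have hdisj : Disjoint (range (d * c)) ((range d).map (addLeftEmbedding (d * c))) := by
      rw [disjoint_left]
      intro x hx hx'
      rw [mem_range] at hx
      rw [Finset.mem_map] at hx'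
      obtain ⟨y, _, hxy⟩ := hx'
      simp only [addLeftEmbedding_apply] at hxy
      omega
    rw [h1, filter_union, card_union_of_disjoint (disjoint_filter_filter hdisj), ih, filter_map,
      card_map, h0, Nat.succ_mul]
    congr 1
    congr 1
    apply filter_congr
    intro a _
    simp only [Function.comp, addLeftEmbedding_apply]
    apply dvd_eval_congr
    push_cast
    exact ⟨c, by ring⟩

/-- the number of the residue classes at which the value is prime to the primes in `S` -/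
theorem class_prod (G : ℤ[X]) (q : ℕ) (hq : 0 < q) (S : Finset ℕ) (hS : ∀ p ∈ S, p.Prime ∧ p ∣ q) :
    (((range q).filter (fun a : ℕ => ∀ p ∈ S, ¬ p ∣ (G.eval (a : ℤ)).natAbs)).card : ℝ) =
      q * ∏ p ∈ S, (1 - (ro G 0 p : ℝ) / p) := by
  classical
  have hq0 : (0 : ℝ) < q := by exact_mod_cast hq
  have h1 : ∀ a : ℕ, (if ∀ p ∈ S, ¬ p ∣ (G.eval (a : ℤ)).natAbs then (1 : ℝ) else 0) =
      ∑ T ∈ S.powerset, (-1 : ℝ) ^ T.card *
        (if (∏ p ∈ T, p) ∣ (G.eval (a : ℤ)).natAbs then (1 : ℝ) else 0) := by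
    intro a
    have h2 : ∏ p ∈ S, (1 + -(if p ∣ (G.eval (a : ℤ)).natAbs then (1 : ℝ) else 0)) =
        ∑ T ∈ S.powerset, ∏ p ∈ T, (-(if p ∣ (G.eval (a : ℤ)).natAbs then (1 : ℝ) else 0)) := by
      rw [prod_one_add]
    have h3 : ∏ p ∈ S, (1 + -(if p ∣ (G.eval (a : ℤ)).natAbs then (1 : ℝ) else 0)) =
        if ∀ p ∈ S, ¬ p ∣ (G.eval (a : ℤ)).natAbs then (1 : ℝ) else 0 := by
      split_ifs with h
      · apply prod_eq_one
        intro p hp
        rw [if_neg (h p hp)]
        norm_num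
      · push Not at h
        obtain ⟨p, hp, hpd⟩ := h
        apply prod_eq_zero hp
        rw [if_pos hpd]
        norm_num
    rw [← h3, h2]
    apply sum_congr rfl
    intro T hT
    rw [mem_powerset] at hT
    rw [prod_neg, prod_ind T (fun p hp => (hS p (hT hp)).1)]
  rw [card_filter]
  push_cast
  rw [sum_congr rfl fun a _ => h1 a, sum_comm]
  have h4 : ∀ T ∈ S.powerset, ∑ a ∈ range q, (-1 : ℝ) ^ T.card *
        (if (∏ p ∈ T, p) ∣ (G.eval (a : ℤ)).natAbs then (1 : ℝ) else 0) =
      q * ∏ p ∈ T, (-((ro G 0 p : ℝ) / p)) := by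
    intro T hT
    rw [mem_powerset] at hT
    have hTp : ∀ p ∈ T, p.Prime := fun p hp => (hS p (hT hp)).1
    rw [← mul_sum]
    have h5 : ∏ p ∈ T, p ∣ q := Finset.prod_primes_dvd q (fun p hp => (hTp p hp).prime)
      (fun p hp => (hS p (hT hp)).2)
    obtain ⟨c, hc⟩ := h5
    have hd : 0 < ∏ p ∈ T, p := Nat.pos_of_ne_zero (prod_ne_zero_iff.2 fun p hp => (hTp p hp).ne_zero)
    have h6 : ∑ a ∈ range q, (if (∏ p ∈ T, p) ∣ (G.eval (a : ℤ)).natAbs then (1 : ℝ) else 0) =
        c * ro G 0 (∏ p ∈ T, p) := by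
      have h7 := roots_mul G (∏ p ∈ T, p) c hd
      rw [← hc] at h7
      have h8 : (((range q).filter (fun a : ℕ => ((∏ p ∈ T, p : ℕ) : ℤ) ∣ G.eval (a : ℤ))).card : ℝ) =
          c * ro G 0 (∏ p ∈ T, p) := by exact_mod_cast h7
      rw [← h8, card_filter]
      push_cast
      apply sum_congr rfl
      intro a _
      have h9 : ((∏ p ∈ T, p : ℕ) : ℤ) ∣ G.eval (a : ℤ) ↔ (∏ p ∈ T, p) ∣ (G.eval (a : ℤ)).natAbs :=
        Int.natCast_dvd
      push_cast at h9
      by_cases h10 : (∏ p ∈ T, p) ∣ (G.eval (a : ℤ)).natAbs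
      · rw [if_pos h10, if_pos (h9.2 h10)]
      · rw [if_neg h10, if_neg (fun h => h10 (h9.1 h))]
    rw [h6, ro_prod G 0 T hTp, prod_neg, prod_div_distrib]
    push_cast
    have hd0 : (∏ p ∈ T, (p : ℝ)) ≠ 0 := prod_ne_zero_iff.2 fun p hp => by
      exact_mod_cast (hTp p hp).ne_zero
    have hqc : (q : ℝ) = (∏ p ∈ T, (p : ℝ)) * c := by
      have : (q : ℝ) = (((∏ p ∈ T, p) * c : ℕ) : ℝ) := by exact_mod_cast congrArg Nat.cast hc
      rw [this]
      push_cast
      ring
    rw [hqc]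
    field_simp
  rw [sum_congr rfl h4, ← mul_sum]
  congr 1
  have h7 : ∏ p ∈ S, (1 - (ro G 0 p : ℝ) / p) = ∏ p ∈ S, (1 + -((ro G 0 p : ℝ) / p)) := by
    apply prod_congr rfl
    intro p _
    ring
  rw [h7, prod_one_add]

/-- the number of the residue classes `a mod q` such that `a ^ 2 + 1` is prime to `q` -/
def classes (q : ℕ) : ℕ := ((range q).filter (fun a : ℕ => (a ^ 2 + 1).Coprime q)).card

theorem QF_natAbs (a : ℕ) : ((QF 1).eval (a : ℤ)).natAbs = a ^ 2 + 1 := by
  rw [QF_eval]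
  have : ((a : ℤ) ^ 2 + 1) = ((a ^ 2 + 1 : ℕ) : ℤ) := by push_cast; ring
  rw [this, Int.natAbs_natCast]

theorem classes_pos (q : ℕ) (hq : 0 < q) : 0 < classes q := by
  have h1 := class_prod (QF 1) q hq q.primeFactors (fun p hp =>
    ⟨Nat.prime_of_mem_primeFactors hp, Nat.dvd_of_mem_primeFactors hp⟩)
  have h2 : ((range q).filter (fun a : ℕ => ∀ p ∈ q.primeFactors,
      ¬ p ∣ ((QF 1).eval (a : ℤ)).natAbs)).card = classes q := by
    unfold classes
    congr 1
    apply filter_congr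
    intro a _
    rw [QF_natAbs]
    constructor
    · intro h
      apply Nat.Coprime.symm
      apply Nat.Coprime.symm
      rw [Nat.coprime_iff_gcd_eq_one]
      by_contra hne
      obtain ⟨p, hp, hpd⟩ := Nat.exists_prime_and_dvd hne
      have h3 := hpd.trans (Nat.gcd_dvd_left _ _)
      have h4 := hpd.trans (Nat.gcd_dvd_right _ _)
      exact h p (Nat.mem_primeFactors.2 ⟨hp, h4, hq.ne'⟩) h3
    · intro h p hp hd
      have h4 := Nat.dvd_of_mem_primeFactors hp
      have h5 := Nat.eq_one_of_dvd_coprimes h hd h4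
      exact (Nat.prime_of_mem_primeFactors hp).one_lt.ne' h5
  have h3 : (0 : ℝ) < classes q := by
    rw [← h2, h1]
    have hq0 : (0 : ℝ) < q := by exact_mod_cast hq
    apply mul_pos hq0
    apply prod_pos
    intro p hp
    have hpp := Nat.prime_of_mem_primeFactors hp
    have hp0 : (0 : ℝ) < p := by exact_mod_cast hpp.pos
    rw [sub_pos, div_lt_one hp0]
    by_cases h2 : p = 2
    · rw [h2, ro_quad_two]
      norm_num
    · have h4 : ro (QF 1) 0 p ≤ 2 := ro_quad_le 1 p hpp
      have h5 : 2 < p := by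
        have := hpp.two_le
        omega
      exact_mod_cast h4.trans_lt h5
  exact_mod_cast h3

theorem classes_le (q : ℕ) : classes q ≤ q := by
  unfold classes
  refine (card_filter_le _ _).trans ?_
  rw [card_range]

theorem classes_vC (Y : ℕ) (ζ : ℝ) (q : ℕ) (hq : 0 < q) :
    (classes q : ℝ) * vC (QF 1) Y ζ q ≤ q * vv (QF 1) Y ζ := by
  classical
  have hPZ : ∀ p ∈ PZ Y ζ, p.Prime := by
    intro p hp
    unfold PZ at hp
    rw [mem_filter] at hp
    exact hp.2.1
  have h1 := class_prod (QF 1) q hq ((PZ Y ζ).filter (fun p => p ∣ q)) (fun p hp => by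
    rw [mem_filter] at hp
    exact ⟨hPZ p hp.1, hp.2⟩)
  have h2 : classes q ≤ ((range q).filter (fun a : ℕ => ∀ p ∈ (PZ Y ζ).filter (fun p => p ∣ q),
      ¬ p ∣ ((QF 1).eval (a : ℤ)).natAbs)).card := by
    unfold classes
    apply card_le_card
    intro a ha
    rw [mem_filter] at ha ⊢
    refine ⟨ha.1, fun p hp hd => ?_⟩
    rw [mem_filter] at hp
    rw [QF_natAbs] at hd
    have h5 := Nat.eq_one_of_dvd_coprimes ha.2 hd hp.2
    exact (hPZ p hp.1).one_lt.ne' h5
  have h3 : (classes q : ℝ) ≤ q * ∏ p ∈ (PZ Y ζ).filter (fun p => p ∣ q), (1 - (ro (QF 1) 0 p : ℝ) / p) := by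
    rw [← h1]
    exact_mod_cast h2
  have h4 : vv (QF 1) Y ζ = (∏ p ∈ (PZ Y ζ).filter (fun p => p ∣ q), (1 - (ro (QF 1) 0 p : ℝ) / p)) *
      vC (QF 1) Y ζ q := by
    unfold vv vC PQ
    rw [prod_filter_mul_prod_filter_not]
  have hv0 : 0 ≤ vC (QF 1) Y ζ q := by
    unfold vC PQ
    apply prod_nonneg
    intro p hp
    have hpp := hPZ p (mem_filter.1 hp).1
    have hp0 : (0 : ℝ) < p := by exact_mod_cast hpp.pos
    have h5 : (ro (QF 1) 0 p : ℝ) ≤ p := by exact_mod_cast ro_le_self (QF 1) 0 p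
    rw [sub_nonneg, div_le_one hp0]
    exact h5
  rw [h4, ← mul_assoc]
  exact mul_le_mul_of_nonneg_right h3 hv0

end Pool.Agent.H662.RC
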