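import Pool.Agent.H662.RC.Quad

/-! The upper bound for quadratic polynomials in almost all residue classes. -/

set_option autoImplicit false

namespace Pool.Agent.H662.RC

open Filter Finset Topology Polynomial
open Pool.Agent.W23.DC
open Pool.Agent.Y882
open Pool.Agent.Y882.PX
open Pool.Agent.Y882.SI
open Pool.Agent.Y882.JR
open Pool.Agent.Y781.JR

/-- the number of the `t ≤ X`, `t ≡ r mod q`, with `|a t ^ 2 + b t + c|` prime -/
def quadCount (a b c : ℤ) (X q r : ℕ) : ℕ :=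
  ((Icc 1 X).filter (fun t : ℕ =>
    t ≡ r [MOD q] ∧ (a * (t : ℤ) ^ 2 + b * (t : ℤ) + c).natAbs.Prime)).card

/-- the number of the classes modulo `q` at which the value is prime to `q` -/
def quadAdm (a b c : ℤ) (q : ℕ) : ℕ :=
  ((range q).filter (fun t : ℕ => (a * (t : ℤ) ^ 2 + b * (t : ℤ) + c).natAbs.Coprime q)).card

/-- the number of the roots modulo `p` -/
def quadRoots (a b c : ℤ) (p : ℕ) : ℕ :=
  ((range p).filter (fun t : ℕ => (p : ℤ) ∣ a * (t : ℤ) ^ 2 + b * (t : ℤ) + c)).card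

theorem quadCount_eq (a b c : ℤ) (X q r : ℕ) : quadCount a b c X q r = PG (QG a b c) q X r := by
  unfold quadCount PG
  congr 1
  apply filter_congr
  intro t _
  rw [QG_eval]

theorem quadAdm_eq (a b c : ℤ) (q : ℕ) : quadAdm a b c q = clsG (QG a b c) q := by
  unfold quadAdm clsG
  congr 1
  apply filter_congr
  intro t _
  rw [QG_eval]

theorem quadRoots_eq (a b c : ℤ) (p : ℕ) : quadRoots a b c p = ro (QG a b c) 0 p := by
  rw [ro_eq]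
  unfold quadRoots
  congr 1
  apply filter_congr
  intro t _
  rw [QG_eval, add_zero]

open Classical in
theorem quad_main (a b c : ℤ) (ha : 0 < a)
    (hg : ∀ p : ℕ, p.Prime → (p : ℤ) ∣ a → (p : ℤ) ∣ b → ¬ (p : ℤ) ∣ c)
    (h2 : ¬ ((2 : ℤ) ∣ a + b ∧ (2 : ℤ) ∣ c)) (hD : ¬ IsSquare (b ^ 2 - 4 * a * c)) :
    ∃ C : ℝ, 0 < C ∧
      Tendsto (fun x : ℕ => 1 / 2 * ∏ p ∈ (range (x + 1)).filter Nat.Prime,
        (1 - (quadRoots a b c p : ℝ) / p) / (1 - 1 / (p : ℝ))) atTop (𝓝 C) ∧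
      ∀ θ δ : ℝ, 0 < θ → θ < 1 → 0 < δ → ∃ κ : ℝ, 0 < κ ∧
        ∀ᶠ X : ℕ in atTop, ∀ q : ℕ, 0 < q → (q : ℝ) ≤ (X : ℝ) ^ θ →
          (((range q).filter (fun r : ℕ =>
            (8 + δ) * C * ((X : ℝ) / ((quadAdm a b c q : ℝ) * Real.log ((X : ℝ) ^ 2 / q))) <
              (quadCount a b c X q r : ℝ))).card : ℝ) ≤ (quadAdm a b c q : ℝ) * (X : ℝ) ^ (-κ) := by
  obtain ⟨C, hC, hlim, hReg⟩ := Reg_quad a b c ha hg h2 hD
  refine ⟨C / 2, by positivity, ?_, ?_⟩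
  · have h3 := hlim.const_mul (1 / 2)
    rw [show (1 / 2 : ℝ) * C = C / 2 by ring] at h3
    refine h3.congr (fun x => ?_)
    congr 1
    apply prod_congr rfl
    intro p _
    rw [quadRoots_eq]
  · intro θ δ hθ0 hθ hδ
    obtain ⟨κ, hκ, hX⟩ := main2G (QG a b c) C hC hReg θ δ hθ0 hθ hδ
    refine ⟨κ, hκ, ?_⟩
    filter_upwards [hX] with X hX q hq hqX
    have h4 := hX q hq hqX
    rw [quadAdm_eq]
    simp only [quadCount_eq]
    exact h4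

theorem gcd_cond (a b c : ℤ) (h : Int.gcd (Int.gcd a b : ℤ) c = 1) :
    ∀ p : ℕ, p.Prime → (p : ℤ) ∣ a → (p : ℤ) ∣ b → ¬ (p : ℤ) ∣ c := by
  intro p hp h1 h2 h3
  have h4 : (p : ℤ) ∣ ((Int.gcd a b : ℕ) : ℤ) := Int.dvd_coe_gcd h1 h2
  have h5 : (p : ℤ) ∣ ((Int.gcd (Int.gcd a b : ℤ) c : ℕ) : ℤ) := Int.dvd_coe_gcd h4 h3
  rw [h] at h5
  have h6 : p ∣ 1 := by exact_mod_cast h5
  exact hp.one_lt.ne' (Nat.dvd_one.1 h6)

theorem even_cond (a b c : ℤ) (h : ¬ (Even (a + b) ∧ Even c)) :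
    ¬ ((2 : ℤ) ∣ a + b ∧ (2 : ℤ) ∣ c) := by
  rintro ⟨h1, h2⟩
  exact h ⟨even_iff_two_dvd.2 h1, even_iff_two_dvd.2 h2⟩

open Classical in
/-- the case `n ^ 2 + a` with the constant as a product of values of the Jacobi symbol -/
theorem sq_main (a : ℤ) (ha : ¬ IsSquare (-a)) :
    ∃ C : ℝ, 0 < C ∧
      Tendsto (fun x : ℕ => 1 / 2 * ∏ p ∈ (range (x + 1)).filter (fun p => p.Prime ∧ p ≠ 2),
        (1 - (jacobiSym (-a) p : ℝ) / ((p : ℝ) - 1))) atTop (𝓝 C) ∧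
      ∀ θ δ : ℝ, 0 < θ → θ < 1 → 0 < δ → ∃ κ : ℝ, 0 < κ ∧
        ∀ᶠ X : ℕ in atTop, ∀ q : ℕ, 0 < q → (q : ℝ) ≤ (X : ℝ) ^ θ →
          (((range q).filter (fun r : ℕ =>
            (8 + δ) * C * ((X : ℝ) / ((quadAdm 1 0 a q : ℝ) * Real.log ((X : ℝ) ^ 2 / q))) <
              (quadCount 1 0 a X q r : ℝ))).card : ℝ) ≤
            (quadAdm 1 0 a q : ℝ) * (X : ℝ) ^ (-κ) := by
  have hD : ¬ IsSquare ((0 : ℤ) ^ 2 - 4 * 1 * a) := by
    rintro ⟨m, hm⟩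
    apply ha
    have h1 : (2 : ℤ) ∣ m := by
      have h2 : (2 : ℤ) ∣ m * m := ⟨-(2 * a), by rw [← hm]; ring⟩
      exact (Int.prime_two.dvd_mul.1 h2).elim id id
    obtain ⟨k, hk⟩ := h1
    refine ⟨k, ?_⟩
    rw [hk] at hm
    linarith
  obtain ⟨C, hC, hlim, hm⟩ := quad_main 1 0 a one_pos (by
    intro p hp h1
    have h2 : p ∣ 1 := by exact_mod_cast h1
    exact absurd (Nat.dvd_one.1 h2) hp.one_lt.ne') (by
    rintro ⟨h1, _⟩
    norm_num at h1) hD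
  refine ⟨C, hC, ?_, hm⟩
  refine hlim.congr (fun x => ?_)
  congr 1
  have h3 : ∏ p ∈ (range (x + 1)).filter (fun p => p.Prime ∧ p ≠ 2),
      (1 - (jacobiSym (-a) p : ℝ) / ((p : ℝ) - 1)) = RR a (x + 1) := rfl
  rw [h3]
  have h4 := dens_eq a ((x + 1 : ℕ) : ℝ)
  rw [Nat.ceil_natCast] at h4
  have h5 : ∏ p ∈ (range (x + 1)).filter Nat.Prime,
      (1 - (quadRoots 1 0 a p : ℝ) / p) / (1 - 1 / (p : ℝ)) =
      Pool.Agent.Y882.JR.dens a ((x + 1 : ℕ) : ℝ) / GG (x + 1) := by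
    rw [prod_div_distrib]
    unfold Pool.Agent.Y882.JR.dens GG
    rw [Nat.ceil_natCast]
    congr 1
    apply prod_congr rfl
    intro p _
    congr 3
    unfold quadRoots
    congr 1
    apply filter_congr
    intro t _
    rw [one_mul, zero_mul, add_zero]
  rw [h5, h4, mul_div_cancel_left₀ _ (GG_pos _).ne']

end Pool.Agent.H662.RC
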