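import Pool.Agent.H662.RC.FinW

/-! Almost prime values of polynomials in almost all residue classes. -/

set_option autoImplicit false

namespace Pool.Agent.H662.RC

open Finset Polynomial Filter
open Pool.Agent.W23.DC
open Pool.Agent.Y882
open Pool.Agent.Y882.PX
open Pool.Agent.Y882.SI
open Pool.Agent.Y882.JR
open Pool.Agent.Y882.KW
open Pool.Agent.Y882.MG

theorem hensel_uniq (G : ℤ[X]) (A B : ℤ[X]) (R : ℤ) (hR : A * G + B * derivative G = C R)
    (p : ℕ) (hp : p.Prime) (hpR : ¬ (p : ℤ) ∣ R) (n n0 : ℤ) (h1 : ((p ^ 2 : ℕ) : ℤ) ∣ G.eval n)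
    (h0 : ((p ^ 2 : ℕ) : ℤ) ∣ G.eval n0) (hd : (p : ℤ) ∣ n - n0) :
    ((p ^ 2 : ℕ) : ℤ) ∣ n - n0 := by
  have hpZ : Prime (p : ℤ) := Nat.prime_iff_prime_int.1 hp
  obtain ⟨k, hk⟩ := Polynomial.binomExpansion G n0 (n - n0)
  rw [add_sub_cancel] at hk
  have hpp : (p : ℤ) ∣ ((p ^ 2 : ℕ) : ℤ) := by
    push_cast
    exact dvd_pow_self _ (by norm_num)
  have h2 : ((p ^ 2 : ℕ) : ℤ) ∣ k * (n - n0) ^ 2 := by
    apply Dvd.dvd.mul_left
    push_cast
    exact pow_dvd_pow_of_dvd hd 2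
  have h3 : ((p ^ 2 : ℕ) : ℤ) ∣ G.derivative.eval n0 * (n - n0) := by
    have h4 := dvd_sub (dvd_sub h1 h0) h2
    have e : G.eval n - G.eval n0 - k * (n - n0) ^ 2 = G.derivative.eval n0 * (n - n0) := by
      rw [hk]
      ring
    rwa [e] at h4
  have h5 : ¬ (p : ℤ) ∣ G.derivative.eval n0 := by
    intro h6
    apply hpR
    have h7 := congrArg (Polynomial.eval n0) hR
    rw [eval_add, eval_mul, eval_mul, eval_C] at h7
    rw [← h7]
    exact dvd_add (Dvd.dvd.mul_left (hpp.trans h0) _) (Dvd.dvd.mul_left h6 _)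
  have h6 : IsCoprime ((p ^ 2 : ℕ) : ℤ) (G.derivative.eval n0) := by
    push_cast
    apply IsCoprime.pow_left
    exact (Prime.coprime_iff_not_dvd hpZ).2 h5
  exact h6.dvd_of_dvd_mul_left h3

theorem sq_countP (G : ℤ[X]) (A B : ℤ[X]) (R : ℤ) (hR : A * G + B * derivative G = C R)
    (K : ℕ) (p : ℕ) (hp : p.Prime) (hpR : ¬ (p : ℤ) ∣ R) (hK : ro G 0 p ≤ K) (M : ℕ) :
    ((((Icc 1 M).filter (fun n : ℕ =>
      ((p ^ 2 : ℕ) : ℤ) ∣ G.eval (n : ℤ))).card : ℕ) : ℝ) ≤ K * (M / (p : ℝ) ^ 2 + 1) := by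
  classical
  set S := (Icc 1 M).filter (fun n : ℕ => ((p ^ 2 : ℕ) : ℤ) ∣ G.eval (n : ℤ)) with hS
  have hm : 0 < p ^ 2 := pow_pos hp.pos 2
  have hpp : (p : ℤ) ∣ ((p ^ 2 : ℕ) : ℤ) := by
    push_cast
    exact dvd_pow_self _ (by norm_num)
  set T := (range p).filter (fun a : ℕ => (p : ℤ) ∣ G.eval (a : ℤ) + 0) with hT
  have hTc : T.card = ro G 0 p := by rw [ro_eq]
  have hmap : ∀ n ∈ S, n % p ∈ T := by
    intro n hn
    rw [hS, mem_filter] at hn
    rw [hT, mem_filter, mem_range, add_zero]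
    refine ⟨Nat.mod_lt _ hp.pos, ?_⟩
    have h1 : (p : ℤ) ∣ ((n % p : ℕ) : ℤ) - (n : ℤ) := by
      rw [← Nat.modEq_iff_dvd]
      exact (Nat.mod_modEq n p).symm
    have h2 : ((n % p : ℕ) : ℤ) - (n : ℤ) ∣ G.eval ((n % p : ℕ) : ℤ) - G.eval (n : ℤ) :=
      sub_dvd_eval_sub _ _ _
    have h3 := dvd_add (h1.trans h2) (hpp.trans hn.2)
    rwa [sub_add_cancel] at h3
  have hfib : ∀ t ∈ T, (((S.filter (fun n => n % p = t)).card : ℕ) : ℝ) ≤ M / (p : ℝ) ^ 2 + 1 := by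
    intro t _
    rcases (S.filter (fun n => n % p = t)).eq_empty_or_nonempty with h | ⟨n0, hn0⟩
    · rw [h]
      simp only [card_empty, Nat.cast_zero]
      positivity
    · rw [mem_filter, hS, mem_filter] at hn0
      have hsub : S.filter (fun n => n % p = t) ⊆
          (Icc 1 M).filter (fun n : ℕ => ((p ^ 2 : ℕ) : ℤ) ∣ (n : ℤ) - (n0 : ℤ)) := by
        intro n hn
        rw [mem_filter, hS, mem_filter] at hn
        rw [mem_filter]
        refine ⟨hn.1.1, hensel_uniq G A B R hR p hp hpR n n0 hn.1.2 hn0.1.2 ?_⟩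
        rw [← Nat.modEq_iff_dvd]
        unfold Nat.ModEq
        rw [hn.2, hn0.2]
      have c1 := class_count (p ^ 2) hm M (n0 : ℤ)
      have h3 : (((S.filter (fun n => n % p = t)).card : ℕ) : ℝ) ≤
          (((Icc 1 M).filter (fun n : ℕ => ((p ^ 2 : ℕ) : ℤ) ∣ (n : ℤ) - (n0 : ℤ))).card : ℝ) := by
        exact_mod_cast card_le_card hsub
      refine h3.trans (c1.trans (le_of_eq ?_))
      push_cast
      ring
  have h1 := card_eq_sum_card_fiberwise (f := fun n => n % p) (s := S) (t := T) hmap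
  calc ((S.card : ℕ) : ℝ) = ∑ t ∈ T, (((S.filter (fun n => n % p = t)).card : ℕ) : ℝ) := by
        rw [h1]
        push_cast
        rfl
    _ ≤ ∑ _t ∈ T, ((M : ℝ) / (p : ℝ) ^ 2 + 1) := sum_le_sum hfib
    _ = T.card * ((M : ℝ) / (p : ℝ) ^ 2 + 1) := by rw [sum_const, nsmul_eq_mul]
    _ ≤ K * ((M : ℝ) / (p : ℝ) ^ 2 + 1) := by
        apply mul_le_mul_of_nonneg_right _ (by positivity)
        rw [hTc]
        exact_mod_cast hK

open Classical in
/-- the integers with a value divisible by the square of a medium prime -/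
noncomputable def sqsP (G : ℤ[X]) (ζ υ : ℝ) (X : ℕ) : Finset ℕ :=
  (range X).filter (fun N => ∃ p ∈ pr X ζ υ, p ^ 2 ∣ (G.eval ((N + 1 : ℕ) : ℤ)).natAbs)

theorem sq_totalP (G : ℤ[X]) (A B : ℤ[X]) (R : ℤ) (hR0 : R ≠ 0)
    (hR : A * G + B * derivative G = C R) (K : ℕ) (hK : ∀ p : ℕ, p.Prime → ro G 0 p ≤ K)
    (ζ υ : ℝ) (hζ : 0 < ζ) :
    ∃ X0 : ℕ, ∀ X : ℕ, X0 ≤ X →
      ((sqsP G ζ υ X).card : ℝ) ≤ K * (2 * (X : ℝ) ^ (1 - ζ) + (X : ℝ) ^ υ) := by
  classical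
  have ev1 : ∀ᶠ Y : ℕ in atTop, ((R.natAbs + 2 : ℕ) : ℝ) < (Y : ℝ) ^ ζ :=
    ((tendsto_rpow_atTop hζ).comp tendsto_natCast_atTop_atTop).eventually_gt_atTop _
  obtain ⟨X1, hX1⟩ := eventually_atTop.1 (ev1.and (eventually_ge_atTop 3))
  refine ⟨X1, fun X hX => ?_⟩
  obtain ⟨e1, e2⟩ := hX1 X hX
  have hXr : (3 : ℝ) ≤ X := by exact_mod_cast e2
  have hX0 : (0 : ℝ) < X := by linarith
  have hprm : ∀ p ∈ pr X ζ υ, p.Prime ∧ (X : ℝ) ^ ζ ≤ p ∧ (p : ℝ) ≤ (X : ℝ) ^ υ := by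
    intro p hp
    obtain ⟨u1, u2, u3⟩ := pr_mem X p ζ υ (by omega) hp
    exact ⟨u1, u2, u3.le⟩
  have hz2 : (2 : ℝ) ≤ (X : ℝ) ^ ζ := by
    have h0 : ((2 : ℕ) : ℝ) ≤ ((R.natAbs + 2 : ℕ) : ℝ) := Nat.cast_le.2 (Nat.le_add_left 2 _)
    have h1 : ((2 : ℕ) : ℝ) ≤ (X : ℝ) ^ ζ := h0.trans e1.le
    exact_mod_cast h1
  have hsub : sqsP G ζ υ X ⊆ (pr X ζ υ).biUnion (fun p => (range X).filter
      (fun N => p ^ 2 ∣ (G.eval ((N + 1 : ℕ) : ℤ)).natAbs)) := by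
    intro N hN
    unfold sqsP at hN
    rw [mem_filter] at hN
    obtain ⟨hN1, p, hp, hd⟩ := hN
    rw [mem_biUnion]
    exact ⟨p, hp, mem_filter.2 ⟨hN1, hd⟩⟩
  have hone : ∀ p ∈ pr X ζ υ, (((range X).filter
      (fun N => p ^ 2 ∣ (G.eval ((N + 1 : ℕ) : ℤ)).natAbs)).card : ℝ) ≤
      K * (X * (1 / (p : ℝ) ^ 2) + 1) := by
    intro p hp
    obtain ⟨u1, u2, u3⟩ := hprm p hp
    have u4 : R.natAbs + 2 < p := by
      have : ((R.natAbs + 2 : ℕ) : ℝ) < p := e1.trans_le u2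
      exact_mod_cast this
    have hpR : ¬ (p : ℤ) ∣ R := by
      intro hd
      have := Nat.le_of_dvd (Int.natAbs_pos.2 hR0) (Int.natCast_dvd.1 hd)
      omega
    have h5 := sq_countP G A B R hR K p u1 hpR (hK p u1) X
    have h6 : ((range X).filter
      (fun N => p ^ 2 ∣ (G.eval ((N + 1 : ℕ) : ℤ)).natAbs)).card ≤
      ((Icc 1 X).filter (fun n : ℕ => ((p ^ 2 : ℕ) : ℤ) ∣ G.eval (n : ℤ))).card := by
      apply card_le_card_of_injOn (fun N => N + 1)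
      · intro N hN
        rw [mem_coe, mem_filter, mem_range] at hN
        rw [mem_coe, mem_filter, mem_Icc]
        exact ⟨⟨Nat.succ_le_succ (Nat.zero_le N), hN.1⟩, Int.natCast_dvd.2 hN.2⟩
      · intro N _ N' _ h
        exact Nat.succ_injective h
    have h7 : (((range X).filter
      (fun N => p ^ 2 ∣ (G.eval ((N + 1 : ℕ) : ℤ)).natAbs)).card : ℝ) ≤
      ((((Icc 1 X).filter (fun n : ℕ =>
        ((p ^ 2 : ℕ) : ℤ) ∣ G.eval (n : ℤ))).card : ℕ) : ℝ) := by exact_mod_cast h6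
    refine h7.trans (h5.trans (le_of_eq ?_))
    ring
  have h1 : ((sqsP G ζ υ X).card : ℝ) ≤ ∑ p ∈ pr X ζ υ, K * (X * (1 / (p : ℝ) ^ 2) + 1) := by
    calc ((sqsP G ζ υ X).card : ℝ) ≤ (((pr X ζ υ).biUnion (fun p => (range X).filter
      (fun N => p ^ 2 ∣ (G.eval ((N + 1 : ℕ) : ℤ)).natAbs))).card : ℝ) := by
          exact_mod_cast card_le_card hsub
      _ ≤ ((∑ p ∈ pr X ζ υ, ((range X).filter
      (fun N => p ^ 2 ∣ (G.eval ((N + 1 : ℕ) : ℤ)).natAbs)).card : ℕ) : ℝ) := by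
          exact_mod_cast card_biUnion_le
      _ = ∑ p ∈ pr X ζ υ, (((range X).filter
      (fun N => p ^ 2 ∣ (G.eval ((N + 1 : ℕ) : ℤ)).natAbs)).card : ℝ) := by push_cast; rfl
      _ ≤ _ := sum_le_sum hone
  have h2 := tail_sq (pr X ζ υ) ((X : ℝ) ^ ζ) hz2 (fun p hp => (hprm p hp).2.1)
  have h3 := card_lt (pr X ζ υ) ((X : ℝ) ^ υ) (by positivity) (fun p hp =>
    ⟨(hprm p hp).1.one_le, (hprm p hp).2.2⟩)
  rw [← mul_sum, sum_add_distrib, ← mul_sum, sum_const, nsmul_eq_mul, mul_one] at h1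
  have h4 : (X : ℝ) * (2 / (X : ℝ) ^ ζ) = 2 * (X : ℝ) ^ (1 - ζ) := by
    rw [Real.rpow_sub hX0, Real.rpow_one]
    ring
  have h5 : (X : ℝ) * ∑ p ∈ pr X ζ υ, 1 / (p : ℝ) ^ 2 ≤ X * (2 / (X : ℝ) ^ ζ) :=
    mul_le_mul_of_nonneg_left h2 hX0.le
  refine h1.trans (mul_le_mul_of_nonneg_left ?_ (Nat.cast_nonneg _))
  linarith

open Classical in
/-- the number of the `n ≤ X`, `n ≡ t mod q`, at which the value has at most `r` prime factors, all of
them at least `w` -/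
noncomputable def almP (G : ℤ[X]) (r : ℕ) (w : ℝ) (X q t : ℕ) : ℕ :=
  ((Icc 1 X).filter (fun n : ℕ => n ≡ t [MOD q] ∧
    (G.eval (n : ℤ)).natAbs.primeFactorsList.length ≤ r ∧
    ∀ p : ℕ, p.Prime → p ∣ (G.eval (n : ℤ)).natAbs → w ≤ p)).card

theorem almP_mono (G : ℤ[X]) (r : ℕ) (w w' : ℝ) (h : w ≤ w') (X q t : ℕ) :
    almP G r w' X q t ≤ almP G r w X q t := by
  classical
  unfold almP
  apply card_le_card
  intro n hn
  rw [mem_filter] at hn ⊢
  exact ⟨hn.1, hn.2.1, hn.2.2.1, fun p hp hd => h.trans (hn.2.2.2 p hp hd)⟩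

open Classical in
/-- **Almost prime values in almost all residue classes.** -/
theorem finP (G : ℤ[X]) (C : ℝ) (hReg : Reg G C) (U V : ℤ[X]) (R : ℤ) (hR0 : R ≠ 0)
    (hR : U * G + V * derivative G = Polynomial.C R)
    (S : ℝ) (hsize : ∃ X0 : ℕ, ∀ X : ℕ, X0 ≤ X → ∀ n : ℕ, 1 ≤ n → n ≤ X →
      ((G.eval (n : ℤ)).natAbs : ℝ) ≤ (X : ℝ) ^ S) (hnz : ∀ n : ℕ, G.eval (n : ℤ) ≠ 0)
    (r : ℕ) (τ ζ υ lam θ : ℝ) (hζ : 0 < ζ) (h2 : 2 * ζ < τ)
    (h4 : τ ≤ 4 * ζ) (hτ : τ < 1) (hτ2 : 1 / 2 ≤ τ) (hζυ : ζ ≤ υ) (hυτ : υ < τ)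
    (hlam : 0 < lam)
    (hJ0 : ∫ x in ζ..υ, (lam - lam / υ * x) / (τ - x) / x < Real.log (τ / ζ - 1) / τ)
    (hr : 1 / lam + S / υ ≤ r + 1) (hθ0 : 0 < θ) (hθ : θ + 2 * τ < 2) :
    ∃ δ κ : ℝ, 0 < δ ∧ 0 < κ ∧ ∀ᶠ X : ℕ in atTop, ∀ q : ℕ, 0 < q → (q : ℝ) ≤ (X : ℝ) ^ θ →
      (((range q).filter (fun t : ℕ => (G.eval (t : ℤ)).natAbs.Coprime q ∧
        (almP G r ((X : ℝ) ^ ζ) X q t : ℝ) <
          δ * (X / (clsG G q * Real.log X)))).card : ℝ) ≤
      clsG G q * (X : ℝ) ^ (-κ) := by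
  have hθ1 : θ < 1 := by linarith
  have hυ0 : 0 < υ := by linarith
  have hυ1 : υ ≤ 1 := by linarith
  obtain ⟨κ, hκ, k1, k2, k3⟩ : ∃ κ : ℝ, 0 < κ ∧ κ ≤ (2 - θ - 2 * τ) / 8 ∧ κ ≤ ζ / 8 ∧
      κ ≤ (1 - υ) / 8 :=
    ⟨min (min ((2 - θ - 2 * τ) / 8) (ζ / 8)) ((1 - υ) / 8),
      lt_min (lt_min (by linarith) (by linarith)) (by linarith),
      (min_le_left _ _).trans (min_le_left _ _), (min_le_left _ _).trans (min_le_right _ _),
      min_le_right _ _⟩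
  obtain ⟨K, hK⟩ := hReg.le
  obtain ⟨δ₁, ε₁, η, hδ₁, hε₁, hε₁ζ, hη, Y1, HE⟩ := engW K τ ζ υ lam (lam / υ) κ hζ h2 h4 hτ hζυ
    hυτ hlam.le (by positivity) (by rw [div_mul_cancel₀ _ hυ0.ne']) hJ0 hκ
  obtain ⟨Y2, HM⟩ := hReg.mer ε₁ υ η hε₁ hυ1 hη
  obtain ⟨c₀, hc₀, HL⟩ := hReg.low
  obtain ⟨Y3, HC⟩ := clsG_low K ε₁ hε₁
  obtain ⟨Y4, HQ⟩ := sq_totalP G U V R hR0 hR K hK ζ υ hζ
  obtain ⟨Y5, HS⟩ := hsize
  have hXr : Tendsto (fun X : ℕ => (X : ℝ)) atTop atTop := tendsto_natCast_atTop_atTop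
  have ev3 : ∀ᶠ Y : ℕ in atTop, Real.log Y / c₀ ≤ (Y : ℝ) ^ (κ / 32) := by
    have h1 := (isLittleO_log_rpow_atTop (show 0 < κ / 32 by linarith)).bound hc₀
    filter_upwards [tendsto_natCast_atTop_atTop.eventually h1, eventually_ge_atTop 1] with Y hY hY1
    have hY1r : (1 : ℝ) ≤ Y := by exact_mod_cast hY1
    rw [Real.norm_of_nonneg (Real.log_nonneg hY1r), Real.norm_of_nonneg (by positivity)] at hY
    rw [div_le_iff₀ hc₀]
    linarith
  have ev4 : ∀ᶠ Y : ℕ in atTop, (8 + 3 * K : ℝ) ≤ (Y : ℝ) ^ κ :=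
    ((tendsto_rpow_atTop hκ).comp hXr).eventually_ge_atTop _
  have ev5 : ∀ᶠ Y : ℕ in atTop, 8 / (δ₁ * c₀) * Real.log Y ≤ (Y : ℝ) ^ κ := by
    have h1 := (isLittleO_log_rpow_atTop hκ).bound (show 0 < δ₁ * c₀ / 8 by positivity)
    filter_upwards [tendsto_natCast_atTop_atTop.eventually h1, eventually_ge_atTop 1] with Y hY hY1
    have hY1r : (1 : ℝ) ≤ Y := by exact_mod_cast hY1
    rw [Real.norm_of_nonneg (Real.log_nonneg hY1r), Real.norm_of_nonneg (by positivity)] at hY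
    rw [div_mul_eq_mul_div, div_le_iff₀ (by positivity)]
    linarith
  refine ⟨δ₁ * c₀ / 8, κ, by positivity, hκ, ?_⟩
  filter_upwards [ev3, ev4, ev5, eventually_ge_atTop 3, eventually_ge_atTop Y1,
    eventually_ge_atTop Y2, eventually_ge_atTop Y3, eventually_ge_atTop Y4,
    eventually_ge_atTop Y5] with X e3 e4 e5 hX3 hX1 hX2 hXY3 hXY4 hXY5 q hq hqX
  have hX3r : (3 : ℝ) ≤ X := by exact_mod_cast hX3
  have hX0 : (0 : ℝ) < X := by linarith
  have hX1r : (1 : ℝ) ≤ X := by linarith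
  have hl : 0 < Real.log X := Real.log_pos (by linarith)
  have hq0 : (0 : ℝ) < q := by exact_mod_cast hq
  have hqX' : (q : ℝ) ≤ X := by
    refine hqX.trans ?_
    calc (X : ℝ) ^ θ ≤ (X : ℝ) ^ (1 : ℝ) := Real.rpow_le_rpow_of_exponent_le hX1r hθ1.le
      _ = X := Real.rpow_one _
  have hqXn : q ≤ X := by exact_mod_cast hqX'
  have hH : 0 < X / q := Nat.div_pos hqXn hq
  have hlo := lo_vvG G X ε₁
  have hL := HL X hX3
  have hlo0 : 0 < lo G X := lt_of_lt_of_le (by positivity) hL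
  have hLX : (X : ℝ) ^ (-(κ / 32)) ≤ lo G X := by
    refine le_trans ?_ hL
    rw [Real.rpow_neg hX0.le]
    have h6 := inv_anti₀ (show 0 < Real.log X / c₀ by positivity) e3
    rwa [inv_div] at h6
  have hV : (X : ℝ) ^ (-(κ / 32)) ≤ vv G X ε₁ := hLX.trans hlo
  have hA := HE X hX1 G X q (X / q) hK hq hqXn hH
    (fun t ht => le_NC q X t hq (mem_range.1 ht)) hV (HM X hX2)
  have hclo := clsG_lo G X q hq hqXn
  have hcl : (0 : ℝ) < clsG G q := lt_of_lt_of_le (by positivity) hclo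
  have hclq : (clsG G q : ℝ) ≤ q := by exact_mod_cast clsG_le G q
  have hcV := HC X hXY3 G q hK hq hqXn
  have hsq := HQ X hXY4
  have hHr : (X : ℝ) / (2 * q) ≤ ((X / q : ℕ) : ℝ) := by
    have h1 : X < (X / q + 1) * q := by
      have := Nat.div_add_mod X q
      have h2 := Nat.mod_lt X hq
      nlinarith
    have h2 : (X : ℝ) < (((X / q : ℕ) : ℝ) + 1) * q := by exact_mod_cast h1
    have h3 : (1 : ℝ) ≤ ((X / q : ℕ) : ℝ) := by exact_mod_cast hH
    rw [div_le_iff₀ (by positivity)]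
    nlinarith
  have hXκ : (0 : ℝ) < (X : ℝ) ^ κ := by positivity
  have hXκn : (X : ℝ) ^ (-κ) = 1 / (X : ℝ) ^ κ := by
    rw [Real.rpow_neg hX0.le, one_div]
  -- the two exceptional sets
  set E1 := (range q).filter (fun t => ((posC G X ζ υ lam (lam / υ) q X t).card : ℝ) <
          δ₁ * (NC q X t * vC G X ε₁ q)) with hE1
  set fib : ℕ → Finset ℕ := fun t => (sqsP G ζ υ X).filter (fun N => (N + 1) % q = t) with hfib
  set E2 := (range q).filter (fun t => (X : ℝ) / q * (X : ℝ) ^ (-κ) < ((fib t).card : ℝ)) with hE2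
  have hE2c : (E2.card : ℝ) ≤ 3 * K * (q * (X : ℝ) ^ (-(7 * κ))) := by
    have h1 : ∑ t ∈ range q, ((fib t).card : ℝ) = ((sqsP G ζ υ X).card : ℝ) := by
      have := card_eq_sum_card_fiberwise (f := fun N => (N + 1) % q) (s := sqsP G ζ υ X)
        (t := range q) (fun N _ => by
          rw [mem_coe, mem_range]
          exact Nat.mod_lt _ hq)
      rw [this]
      push_cast
      rfl
    have h3 : (E2.card : ℝ) * ((X : ℝ) / q * (X : ℝ) ^ (-κ)) ≤ ∑ t ∈ range q, ((fib t).card : ℝ) := by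
      calc (E2.card : ℝ) * ((X : ℝ) / q * (X : ℝ) ^ (-κ)) =
          ∑ _t ∈ E2, ((X : ℝ) / q * (X : ℝ) ^ (-κ)) := by rw [sum_const, nsmul_eq_mul]
        _ ≤ ∑ t ∈ E2, ((fib t).card : ℝ) := by
            apply sum_le_sum
            intro t ht
            rw [hE2, mem_filter] at ht
            exact ht.2.le
        _ ≤ _ := sum_le_sum_of_subset_of_nonneg (filter_subset _ _)
            (fun _ _ _ => Nat.cast_nonneg _)
    rw [h1] at h3
    have h5 : ((sqsP G ζ υ X).card : ℝ) ≤ 3 * K * (X : ℝ) ^ (1 - 8 * κ) := by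
      refine hsq.trans ?_
      have u1 : (X : ℝ) ^ (1 - ζ) ≤ (X : ℝ) ^ (1 - 8 * κ) :=
        Real.rpow_le_rpow_of_exponent_le hX1r (by linarith)
      have u2 : (X : ℝ) ^ υ ≤ (X : ℝ) ^ (1 - 8 * κ) :=
        Real.rpow_le_rpow_of_exponent_le hX1r (by linarith)
      calc (K : ℝ) * (2 * (X : ℝ) ^ (1 - ζ) + (X : ℝ) ^ υ) ≤ K * (3 * (X : ℝ) ^ (1 - 8 * κ)) :=
            mul_le_mul_of_nonneg_left (by linarith) (Nat.cast_nonneg _)
        _ = _ := by ring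
    have h6 : 3 * K * (X : ℝ) ^ (1 - 8 * κ) =
        3 * K * (q * (X : ℝ) ^ (-(7 * κ))) * ((X : ℝ) / q * (X : ℝ) ^ (-κ)) := by
      have u1 : (X : ℝ) ^ (1 - 8 * κ) = (X : ℝ) ^ (-(7 * κ)) * (X : ℝ) ^ (1 : ℝ) * (X : ℝ) ^ (-κ) := by
        rw [← Real.rpow_add hX0, ← Real.rpow_add hX0]
        congr 1
        ring
      rw [u1, Real.rpow_one]
      field_simp
    rw [h6] at h5
    exact le_of_mul_le_mul_right (h3.trans h5) (by positivity)
  have hE1c : (E1.card : ℝ) ≤ 8 * (q * (X : ℝ) ^ (-(7 * κ))) := by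
    calc (E1.card : ℝ) ≤ (X + (X : ℝ) ^ (2 * τ)) / ((X / q : ℕ) : ℝ) ^ 2 * (X : ℝ) ^ κ := hA
      _ ≤ (2 * (X : ℝ) ^ (2 * τ)) / ((X : ℝ) / (2 * q)) ^ 2 * (X : ℝ) ^ κ := by
          have u1 : (X : ℝ) ≤ (X : ℝ) ^ (2 * τ) := by
            calc (X : ℝ) = (X : ℝ) ^ (1 : ℝ) := (Real.rpow_one _).symm
              _ ≤ _ := Real.rpow_le_rpow_of_exponent_le hX1r (by linarith)
          apply mul_le_mul_of_nonneg_right _ (by positivity)
          apply div_le_div₀ (by positivity) (by linarith) (by positivity)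
          exact pow_le_pow_left₀ (by positivity) hHr 2
      _ = 8 * (q * q * ((X : ℝ) ^ (2 * τ) / (X : ℝ) ^ (2 : ℝ))) * (X : ℝ) ^ κ := by
          rw [Real.rpow_two]
          field_simp
          ring
      _ ≤ 8 * (q * (X : ℝ) ^ θ * ((X : ℝ) ^ (2 * τ) / (X : ℝ) ^ (2 : ℝ))) * (X : ℝ) ^ κ := by
          gcongr
      _ = 8 * (q * (X : ℝ) ^ (θ + (2 * τ - 2) + κ)) := by
          rw [← Real.rpow_sub hX0, Real.rpow_add hX0, Real.rpow_add hX0]
          ring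
      _ ≤ 8 * (q * (X : ℝ) ^ (-(7 * κ))) := by
          apply mul_le_mul_of_nonneg_left _ (by norm_num)
          apply mul_le_mul_of_nonneg_left _ hq0.le
          apply Real.rpow_le_rpow_of_exponent_le hX1r
          linarith
  have hsub : (range q).filter (fun t : ℕ => (G.eval (t : ℤ)).natAbs.Coprime q ∧
        (almP G r ((X : ℝ) ^ ζ) X q t : ℝ) < δ₁ * c₀ / 8 * (X / (clsG G q * Real.log X))) ⊆
      E1 ∪ E2 := by
    intro t ht
    rw [mem_filter] at ht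
    obtain ⟨ht1, ht2, ht3⟩ := ht
    have htq : t < q := mem_range.1 ht1
    rw [mem_union]
    by_contra hcon
    push Not at hcon
    obtain ⟨hc1, hc2⟩ := hcon
    apply absurd ht3 (not_lt.2 _)
    have g1 : δ₁ * (NC q X t * vC G X ε₁ q) ≤ ((posC G X ζ υ lam (lam / υ) q X t).card : ℝ) := by
      by_contra h'
      exact hc1 (by rw [hE1, mem_filter]; exact ⟨ht1, not_le.1 h'⟩)
    have g2 : ((fib t).card : ℝ) ≤ (X : ℝ) / q * (X : ℝ) ^ (-κ) := by
      by_contra h'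
      exact hc2 (by rw [hE2, mem_filter]; exact ⟨ht1, not_le.1 h'⟩)
    -- the almost primes
    have g3 : (posC G X ζ υ lam (lam / υ) q X t \ fib t).card ≤
        almP G r ((X : ℝ) ^ ζ) X q t := by
      unfold almP
      apply card_le_card_of_injOn (fun N => N + 1)
      · intro N hN
        rw [mem_coe, Finset.mem_sdiff] at hN
        obtain ⟨hN1, hN2⟩ := hN
        unfold posC at hN1
        rw [mem_filter, mem_filter, mem_range] at hN1
        obtain ⟨⟨u1, u2⟩, u3⟩ := hN1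
        have hnsq : ∀ p ∈ pr X ζ υ, ¬ p ^ 2 ∣ (G.eval ((N + 1 : ℕ) : ℤ)).natAbs := by
          intro p hp hd
          apply hN2
          rw [hfib]
          show N ∈ (sqsP G ζ υ X).filter (fun N => (N + 1) % q = t)
          rw [mem_filter]
          refine ⟨?_, u2⟩
          unfold sqsP
          rw [mem_filter, mem_range]
          exact ⟨u1, p, hp, hd⟩
        have hmodeq : (N + 1) ≡ t [MOD q] := by
          unfold Nat.ModEq
          rw [u2, Nat.mod_eq_of_lt htq]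
        have hcopr : ∀ p : ℕ, p.Prime → p ∣ q → ¬ p ∣ (G.eval ((N + 1 : ℕ) : ℤ)).natAbs := by
          intro p hp hpq hd
          have v1 : (p : ℤ) ∣ G.eval ((N + 1 : ℕ) : ℤ) := Int.natCast_dvd.2 hd
          have v2 : (p : ℤ) ∣ ((N + 1 : ℕ) : ℤ) - (t : ℤ) := by
            have v3 : (q : ℤ) ∣ ((N + 1 : ℕ) : ℤ) - (t : ℤ) :=
              (Nat.modEq_iff_dvd.1 hmodeq.symm)
            exact dvd_trans (by exact_mod_cast hpq) v3
          have v4 : ((N + 1 : ℕ) : ℤ) - (t : ℤ) ∣ G.eval ((N + 1 : ℕ) : ℤ) - G.eval (t : ℤ) :=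
            sub_dvd_eval_sub _ _ _
          have v5 : (p : ℤ) ∣ G.eval (t : ℤ) := by
            have := dvd_sub v1 (v2.trans v4)
            rwa [sub_sub_cancel] at this
          have v6 := Nat.eq_one_of_dvd_coprimes ht2 (Int.natCast_dvd.1 v5) hpq
          exact hp.one_lt.ne' v6
        have hWW : WW X ζ υ lam (lam / υ) (cop X υ q (G.eval ((N + 1 : ℕ) : ℤ)).natAbs) =
            WW X ζ υ lam (lam / υ) (G.eval ((N + 1 : ℕ) : ℤ)).natAbs := by
          apply WW_cgr X ζ υ _ _ hζυ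
          intro p hp
          rw [cop_dvd X υ q _ p hp]
          constructor
          · exact fun h => h.2
          · intro h
            exact ⟨fun hpq => hcopr p (PZ_prime X υ p hp) hpq h, h⟩
        rw [hWW] at u3
        have hne : (G.eval ((N + 1 : ℕ) : ℤ)).natAbs ≠ 0 := by
          rw [Int.natAbs_ne_zero]
          exact hnz _
        have hsz := HS X hXY5 (N + 1) (by omega) (by omega)
        have hal := almost X (by omega) ζ υ lam S r hζυ hυ0 hυ1 hlam hr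
          (G.eval ((N + 1 : ℕ) : ℤ)).natAbs hne hsz u3 hnsq
        show N + 1 ∈ _
        rw [mem_coe, mem_filter, mem_Icc]
        exact ⟨⟨by omega, by omega⟩, hmodeq, hal.1, hal.2⟩
      · intro N _ N' _ h
        exact Nat.succ_injective h
    have g4 : ((posC G X ζ υ lam (lam / υ) q X t).card : ℝ) - ((fib t).card : ℝ) ≤
        (almP G r ((X : ℝ) ^ ζ) X q t : ℝ) := by
      have h1 := le_card_sdiff (fib t) (posC G X ζ υ lam (lam / υ) q X t)
      have h3 : (posC G X ζ υ lam (lam / υ) q X t).card ≤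
          almP G r ((X : ℝ) ^ ζ) X q t + (fib t).card := by omega
      have h5 : ((posC G X ζ υ lam (lam / υ) q X t).card : ℝ) ≤
          (almP G r ((X : ℝ) ^ ζ) X q t : ℝ) + ((fib t).card : ℝ) := by exact_mod_cast h3
      linarith
    refine le_trans ?_ g4
    -- the sizes
    have hNC : (X : ℝ) / (2 * q) ≤ NC q X t := by
      refine hHr.trans ?_
      exact_mod_cast le_NC q X t hq htq
    have hvC0 := vC_nonnegG G X ε₁ q
    have w1 : (q : ℝ) / 2 * (c₀ / Real.log X) ≤ clsG G q * vC G X ε₁ q := by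
      refine le_trans ?_ hcV
      apply mul_le_mul_of_nonneg_left _ (by positivity)
      exact hL.trans hlo
    have w2 : δ₁ * c₀ / 4 * (X / (clsG G q * Real.log X)) ≤ δ₁ * (NC q X t * vC G X ε₁ q) := by
      have v1 : δ₁ * ((X : ℝ) / (2 * q) * vC G X ε₁ q) ≤ δ₁ * (NC q X t * vC G X ε₁ q) := by
        apply mul_le_mul_of_nonneg_left _ hδ₁.le
        exact mul_le_mul_of_nonneg_right hNC hvC0
      refine le_trans ?_ v1
      have v2 : δ₁ * c₀ / 4 * (X / (clsG G q * Real.log X)) =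
          δ₁ * ((X : ℝ) / (2 * q)) * (((q : ℝ) / 2 * (c₀ / Real.log X)) / clsG G q) := by
        field_simp
        ring
      have v3 : ((q : ℝ) / 2 * (c₀ / Real.log X)) / clsG G q ≤ vC G X ε₁ q := by
        rw [div_le_iff₀ hcl]
        linarith
      rw [v2]
      calc δ₁ * ((X : ℝ) / (2 * q)) * (((q : ℝ) / 2 * (c₀ / Real.log X)) / clsG G q) ≤
          δ₁ * ((X : ℝ) / (2 * q)) * vC G X ε₁ q :=
            mul_le_mul_of_nonneg_left v3 (by positivity)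
        _ = _ := by ring
    have w3 : (X : ℝ) / q * (X : ℝ) ^ (-κ) ≤ δ₁ * c₀ / 8 * (X / (clsG G q * Real.log X)) := by
      have v1 : (X : ℝ) / q ≤ X / clsG G q := div_le_div_of_nonneg_left hX0.le hcl hclq
      have v2 : (X : ℝ) ^ (-κ) ≤ δ₁ * c₀ / 8 / Real.log X := by
        rw [hXκn, div_le_div_iff₀ hXκ hl, one_mul]
        rw [div_mul_eq_mul_div, div_le_iff₀ (by positivity)] at e5
        linarith
      calc (X : ℝ) / q * (X : ℝ) ^ (-κ) ≤ X / clsG G q * (δ₁ * c₀ / 8 / Real.log X) :=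
            mul_le_mul v1 v2 (by positivity) (by positivity)
        _ = _ := by field_simp
    have w4 : δ₁ * c₀ / 4 * (X / (clsG G q * Real.log X)) =
        δ₁ * c₀ / 8 * (X / (clsG G q * Real.log X)) +
        δ₁ * c₀ / 8 * (X / (clsG G q * Real.log X)) := by ring
    linarith
  calc (((range q).filter (fun t : ℕ => (G.eval (t : ℤ)).natAbs.Coprime q ∧
        (almP G r ((X : ℝ) ^ ζ) X q t : ℝ) <
          δ₁ * c₀ / 8 * (X / (clsG G q * Real.log X)))).card : ℝ) ≤ ((E1 ∪ E2).card : ℝ) := by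
        exact_mod_cast card_le_card hsub
    _ ≤ E1.card + E2.card := by exact_mod_cast card_union_le _ _
    _ ≤ (8 + 3 * K) * (q * (X : ℝ) ^ (-(7 * κ))) := by linarith
    _ ≤ (X : ℝ) ^ κ * (q * (X : ℝ) ^ (-(7 * κ))) := by gcongr
    _ = q * ((X : ℝ) ^ (-(5 * κ)) * (X : ℝ) ^ (-κ)) := by
        have u1 : (X : ℝ) ^ κ * (q * (X : ℝ) ^ (-(7 * κ))) =
            q * ((X : ℝ) ^ κ * (X : ℝ) ^ (-(7 * κ))) := by ring
        rw [u1, ← Real.rpow_add hX0, ← Real.rpow_add hX0]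
        congr 2
        ring
    _ ≤ q * (lo G X * (X : ℝ) ^ (-κ)) := by
        apply mul_le_mul_of_nonneg_left _ hq0.le
        apply mul_le_mul_of_nonneg_right _ (by positivity)
        refine le_trans ?_ hLX
        apply Real.rpow_le_rpow_of_exponent_le hX1r
        linarith
    _ = (q * lo G X) * (X : ℝ) ^ (-κ) := by ring
    _ ≤ clsG G q * (X : ℝ) ^ (-κ) := mul_le_mul_of_nonneg_right hclo (by positivity)

end Pool.Agent.H662.RC
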