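import Pool.Agent.H662.RC.NF
import Pool.Agent.H662.RC.FinP
import Pool.Agent.Y882.KW.Num

/-! Values of `m ^ 3 + k` in almost all residue classes. -/

set_option autoImplicit false

namespace Pool.Agent.H662.RC

open Filter Finset Topology Polynomial
open Pool.Agent.W23.DC
open Pool.Agent.Y882
open Pool.Agent.Y882.PX
open Pool.Agent.Y882.SI
open Pool.Agent.Y882.JR

/-- the polynomial -/
noncomputable def CG (k : ℤ) : ℤ[X] := X ^ 3 + C k

theorem CG_eval (k n : ℤ) : (CG k).eval n = n ^ 3 + k := by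
  unfold CG
  simp

theorem CG_monic (k : ℤ) : (CG k).Monic := by
  unfold CG
  exact monic_X_pow_add_C k (by norm_num)

theorem CG_deg (k : ℤ) : (CG k).natDegree = 3 := by
  unfold CG
  exact natDegree_X_pow_add_C

theorem CG_ne (k : ℤ) (hk : ∀ a : ℤ, k ≠ a ^ 3) (n : ℤ) : (CG k).eval n ≠ 0 := by
  rw [CG_eval]
  intro h
  apply hk (-n)
  linear_combination h

theorem CG_irred (k : ℤ) (hk : ∀ a : ℤ, k ≠ a ^ 3) : Irreducible (CG k) := by
  rw [Monic.irreducible_iff_roots_eq_zero_of_degree_le_three (CG_monic k)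
    (by rw [CG_deg]; norm_num) (by rw [CG_deg])]
  rw [Multiset.eq_zero_iff_forall_notMem]
  intro x hx
  rw [mem_roots (CG_monic k).ne_zero, IsRoot.def] at hx
  exact CG_ne k hk x hx

theorem CG_lt (k : ℤ) (p : ℕ) (hp : p.Prime) : ro (CG k) 0 p < p := by
  by_contra hcon
  have h1 : ro (CG k) 0 p = p := le_antisymm (ro_le_self _ _ _) (not_lt.1 hcon)
  rw [ro_eq] at h1
  have h3 : (range p).filter (fun n : ℕ => (p : ℤ) ∣ (CG k).eval (n : ℤ) + 0) = range p := by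
    apply eq_of_subset_of_card_le (filter_subset _ _)
    rw [h1, card_range]
  have h4 : ∀ n : ℕ, n < p → (p : ℤ) ∣ (n : ℤ) ^ 3 + k := by
    intro n hn
    have h5 : n ∈ (range p).filter (fun n : ℕ => (p : ℤ) ∣ (CG k).eval (n : ℤ) + 0) := by
      rw [h3, mem_range]
      exact hn
    have h6 := (mem_filter.1 h5).2
    rwa [CG_eval, add_zero] at h6
  have e0 := h4 0 hp.pos
  have e1 := h4 1 hp.one_lt
  have e2 := dvd_sub e1 e0
  have e3 : (((1 : ℕ) : ℤ)) ^ 3 + k - ((((0 : ℕ) : ℤ)) ^ 3 + k) = 1 := by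
    push_cast
    ring
  rw [e3] at e2
  have e4 := Int.eq_one_of_dvd_one (by positivity) e2
  have := hp.one_lt
  omega

theorem CG_grow (k : ℤ) : ∃ n₀ : ℕ, ∀ n : ℕ, n₀ ≤ n → n ≤ ((CG k).eval (n : ℤ)).natAbs := by
  refine ⟨k.natAbs + 2, fun n hn => ?_⟩
  rw [CG_eval]
  have h1 : (k.natAbs : ℤ) + 2 ≤ n := by exact_mod_cast hn
  have h2 : -(k.natAbs : ℤ) ≤ k := by
    rw [Int.natCast_natAbs]
    exact neg_abs_le k
  have h0 : (0 : ℤ) ≤ (k.natAbs : ℤ) := by positivity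
  have h3 : (2 : ℤ) ≤ n := by linarith
  have h4 : (n : ℤ) + n ≤ (n : ℤ) ^ 3 := by
    have h6 : (4 : ℤ) ≤ (n : ℤ) ^ 2 := by nlinarith
    have h7 : (n : ℤ) ^ 3 = n * (n : ℤ) ^ 2 := by ring
    have h8 : (n : ℤ) * 4 ≤ n * (n : ℤ) ^ 2 := mul_le_mul_of_nonneg_left h6 (by linarith)
    linarith
  have h5 : (n : ℤ) ≤ (n : ℤ) ^ 3 + k := by linarith
  omega

theorem Reg_cub (k : ℤ) (hk : ∀ a : ℤ, k ≠ a ^ 3) : ∃ C : ℝ, 0 < C ∧
    Tendsto (fun x : ℕ => ∏ p ∈ (range (x + 1)).filter Nat.Prime,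
      (1 - (ro (CG k) 0 p : ℝ) / p) / (1 - 1 / (p : ℝ))) atTop (𝓝 C) ∧ Reg (CG k) C := by
  obtain ⟨c, hc⟩ := conv_ro (CG k) (CG_irred k hk) (by rw [CG_deg]; norm_num)
  exact Reg_of_conv (CG k) (CG_lt k) 3 (fun p hp => by
    have := ro_le_deg (CG k) (CG_monic k) p hp
    rwa [CG_deg] at this) c hc (CG_grow k)

theorem CG_size (k : ℤ) (S : ℝ) (hS : 3 < S) : ∃ X0 : ℕ, ∀ X : ℕ, X0 ≤ X → ∀ n : ℕ, 1 ≤ n →
    n ≤ X → (((CG k).eval (n : ℤ)).natAbs : ℝ) ≤ (X : ℝ) ^ S := by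
  have ev : ∀ᶠ Y : ℕ in atTop, 1 + |(k : ℝ)| ≤ (Y : ℝ) ^ (S - 3) :=
    ((tendsto_rpow_atTop (by linarith)).comp tendsto_natCast_atTop_atTop).eventually_ge_atTop _
  obtain ⟨X0, hX0⟩ := eventually_atTop.1 (ev.and (eventually_ge_atTop 3))
  refine ⟨X0, fun X hX n hn hnX => ?_⟩
  obtain ⟨e1, e2⟩ := hX0 X hX
  have hXr : (3 : ℝ) ≤ X := by exact_mod_cast e2
  have hXp : (0 : ℝ) < X := by linarith
  have hn1 : (1 : ℝ) ≤ n := by exact_mod_cast hn
  have hnr : (n : ℝ) ≤ X := by exact_mod_cast hnX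
  have h1 : (((CG k).eval (n : ℤ)).natAbs : ℝ) = |(n : ℝ) ^ 3 + k| := by
    rw [Nat.cast_natAbs, CG_eval]
    push_cast
    rfl
  have hX3 : (n : ℝ) ^ 3 ≤ (X : ℝ) ^ 3 := pow_le_pow_left₀ (by linarith) hnr 3
  have h1X3 : (1 : ℝ) ≤ (X : ℝ) ^ 3 := one_le_pow₀ (by linarith)
  rw [h1]
  calc |(n : ℝ) ^ 3 + k| ≤ |(n : ℝ) ^ 3| + |(k : ℝ)| := abs_add_le _ _
    _ = (n : ℝ) ^ 3 + |(k : ℝ)| * 1 := by
        rw [abs_of_nonneg (show (0 : ℝ) ≤ (n : ℝ) ^ 3 by positivity), mul_one]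
    _ ≤ (X : ℝ) ^ 3 + |(k : ℝ)| * (X : ℝ) ^ 3 := by gcongr
    _ = (1 + |(k : ℝ)|) * (X : ℝ) ^ 3 := by ring
    _ ≤ (X : ℝ) ^ (S - 3) * (X : ℝ) ^ 3 := mul_le_mul_of_nonneg_right e1 (by positivity)
    _ = (X : ℝ) ^ S := by
        rw [← Real.rpow_natCast, ← Real.rpow_add hXp]
        congr 1
        push_cast
        ring

theorem CG_bez (k : ℤ) : (C 3 : ℤ[X]) * CG k + (-X) * derivative (CG k) = C (3 * k) := by
  unfold CG
  rw [derivative_add, derivative_C, derivative_X_pow, add_zero]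
  simp only [map_mul]
  push_cast
  have : (C 3 : ℤ[X]) = 3 := by simp
  rw [this]
  ring

theorem cop_iff (G : ℤ[X]) (q n : ℕ) : IsCoprime (G.eval (n : ℤ)) (q : ℤ) ↔
    (G.eval (n : ℤ)).natAbs.Coprime q := by
  rw [Int.isCoprime_iff_gcd_eq_one, Nat.coprime_iff_gcd_eq_one]
  rfl

open Classical in
/-- almost primes -/
theorem cub_alm (k : ℤ) (hk : ∀ a : ℤ, k ≠ a ^ 3) (r : ℕ) (θ : ℝ) (hθ : 0 < θ)
    (hpar : (r = 7 ∧ θ < 1) ∨ (r = 6 ∧ θ < 467 / 500) ∨ (r = 5 ∧ θ < 179 / 250) ∨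
      (r = 4 ∧ θ < 193 / 500)) :
    ∃ δ κ : ℝ, 0 < δ ∧ 0 < κ ∧ ∀ᶠ X : ℕ in atTop, ∀ q : ℕ, 1 ≤ q → (q : ℝ) ≤ (X : ℝ) ^ θ →
      (((range q).filter (fun t : ℕ => IsCoprime ((CG k).eval (t : ℤ)) (q : ℤ) ∧
        (almP (CG k) r ((X : ℝ) ^ (1 / 8 : ℝ)) X q t : ℝ) <
          δ * X / (((range q).filter (fun n : ℕ => IsCoprime ((CG k).eval (n : ℤ))
            (q : ℤ))).card * Real.log X))).card : ℝ) ≤
      ((range q).filter (fun n : ℕ => IsCoprime ((CG k).eval (n : ℤ)) (q : ℤ))).card *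
        (X : ℝ) ^ (-κ) := by
  obtain ⟨C, hC, _, hReg⟩ := Reg_cub k hk
  have hk0 : (3 * k : ℤ) ≠ 0 := by
    intro h
    apply hk 0
    have : k = 0 := by omega
    rw [this]
    ring
  have hs := CG_size k (1501 / 500) (by norm_num)
  have key : ∃ ζ : ℝ, 1 / 8 ≤ ζ ∧ ∃ δ κ : ℝ, 0 < δ ∧ 0 < κ ∧ ∀ᶠ X : ℕ in atTop, ∀ q : ℕ, 0 < q →
      (q : ℝ) ≤ (X : ℝ) ^ θ →
      (((range q).filter (fun t : ℕ => ((CG k).eval (t : ℤ)).natAbs.Coprime q ∧
        (almP (CG k) r ((X : ℝ) ^ ζ) X q t : ℝ) <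
          δ * (X / (clsG (CG k) q * Real.log X)))).card : ℝ) ≤
      clsG (CG k) q * (X : ℝ) ^ (-κ) := by
    rcases hpar with ⟨rfl, h1⟩ | ⟨rfl, h1⟩ | ⟨rfl, h1⟩ | ⟨rfl, h1⟩
    · have hc := Pool.Agent.Y882.KW.cond_A (1 / 2) (8 / 9) (by norm_num) (by norm_num)
        (by norm_num)
      refine ⟨(1 / 2) / 4, by norm_num, ?_⟩
      exact finP (CG k) C hReg _ _ _ hk0 (CG_bez k) (1501 / 500) hs (fun n => CG_ne k hk n) 7
        (1 / 2) ((1 / 2) / 4) (24 / 25 * (1 / 2)) (8 / 9) θ (by norm_num) (by norm_num)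
        (by norm_num) (by norm_num) (by norm_num) (by norm_num) (by norm_num) (by norm_num) hc
        (by norm_num) hθ (by linarith)
    · have hc := Pool.Agent.Y882.KW.cond_A (533 / 1000) (8 / 9) (by norm_num) (by norm_num)
        (by norm_num)
      refine ⟨(533 / 1000) / 4, by norm_num, ?_⟩
      exact finP (CG k) C hReg _ _ _ hk0 (CG_bez k) (1501 / 500) hs (fun n => CG_ne k hk n) 6
        (533 / 1000) ((533 / 1000) / 4) (24 / 25 * (533 / 1000)) (8 / 9) θ (by norm_num)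
        (by norm_num) (by norm_num) (by norm_num) (by norm_num) (by norm_num) (by norm_num)
        (by norm_num) hc (by norm_num) hθ (by linarith)
    · have hc := Pool.Agent.Y882.KW.cond_A (321 / 500) (8 / 9) (by norm_num) (by norm_num)
        (by norm_num)
      refine ⟨(321 / 500) / 4, by norm_num, ?_⟩
      exact finP (CG k) C hReg _ _ _ hk0 (CG_bez k) (1501 / 500) hs (fun n => CG_ne k hk n) 5
        (321 / 500) ((321 / 500) / 4) (24 / 25 * (321 / 500)) (8 / 9) θ (by norm_num)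
        (by norm_num) (by norm_num) (by norm_num) (by norm_num) (by norm_num) (by norm_num)
        (by norm_num) hc (by norm_num) hθ (by linarith)
    · have hc := Pool.Agent.Y882.KW.cond_A (807 / 1000) (8 / 9) (by norm_num) (by norm_num)
        (by norm_num)
      refine ⟨(807 / 1000) / 4, by norm_num, ?_⟩
      exact finP (CG k) C hReg _ _ _ hk0 (CG_bez k) (1501 / 500) hs (fun n => CG_ne k hk n) 4
        (807 / 1000) ((807 / 1000) / 4) (24 / 25 * (807 / 1000)) (8 / 9) θ (by norm_num)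
        (by norm_num) (by norm_num) (by norm_num) (by norm_num) (by norm_num) (by norm_num)
        (by norm_num) hc (by norm_num) hθ (by linarith)
  obtain ⟨ζ, hζ, δ, κ, hδ, hκ, H⟩ := key
  refine ⟨δ, κ, hδ, hκ, ?_⟩
  filter_upwards [H, eventually_ge_atTop 1] with X hX hX1 q hq hqX
  have hcls : ((range q).filter (fun n : ℕ => IsCoprime ((CG k).eval (n : ℤ)) (q : ℤ))).card =
      clsG (CG k) q := by
    unfold clsG
    congr 1
    apply filter_congr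
    intro n _
    exact cop_iff (CG k) q n
  rw [hcls]
  refine le_trans ?_ (hX q hq hqX)
  have hsub : (range q).filter (fun t : ℕ => IsCoprime ((CG k).eval (t : ℤ)) (q : ℤ) ∧
        (almP (CG k) r ((X : ℝ) ^ (1 / 8 : ℝ)) X q t : ℝ) <
          δ * X / (clsG (CG k) q * Real.log X)) ⊆
      (range q).filter (fun t : ℕ => ((CG k).eval (t : ℤ)).natAbs.Coprime q ∧
        (almP (CG k) r ((X : ℝ) ^ ζ) X q t : ℝ) <
          δ * (X / (clsG (CG k) q * Real.log X))) := by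
    intro t ht
    rw [mem_filter] at ht ⊢
    refine ⟨ht.1, (cop_iff (CG k) q t).1 ht.2.1, ?_⟩
    have hX1r : (1 : ℝ) ≤ X := by exact_mod_cast hX1
    have h1 : (almP (CG k) r ((X : ℝ) ^ ζ) X q t : ℝ) ≤
        almP (CG k) r ((X : ℝ) ^ (1 / 8 : ℝ)) X q t :=
      Nat.cast_le.2 (almP_mono (CG k) r _ _
        (Real.rpow_le_rpow_of_exponent_le hX1r hζ) X q t)
    rw [← mul_div_assoc]
    exact h1.trans_lt ht.2.2
  exact_mod_cast card_le_card hsub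

end Pool.Agent.H662.RC
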