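import Pool.Agent.H662.RC.Few
import Pool.Agent.Y882.JR.Eng

/-! The linear sieve for the values of a polynomial in residue classes: few exceptions. -/

set_option autoImplicit false

namespace Pool.Agent.H662.RC

open Finset Polynomial Filter
open Pool.Agent.W23.DC
open Pool.Agent.Y882
open Pool.Agent.Y882.PX
open Pool.Agent.Y882.SI
open Pool.Agent.Y882.JR

theorem VV_res (P P' : Finset ℕ) (hsub : P' ⊆ P) (c : Finset ℕ → ℝ) (h : ℕ → ℝ)
    (h0 : ∀ p ∈ P, p ∉ P' → h p = 0) : VV P c h = VV P' c h := by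
  unfold VV
  symm
  apply sum_subset (powerset_mono.2 hsub)
  intro T hT hT'
  rw [mem_powerset] at hT hT'
  obtain ⟨p, hp, hp'⟩ := not_subset.1 hT'
  rw [prod_eq_zero hp (h0 p (hT hp) hp'), mul_zero]

theorem VV_cgr (P : Finset ℕ) (c : Finset ℕ → ℝ) (h h' : ℕ → ℝ) (hh : ∀ p ∈ P, h p = h' p) :
    VV P c h = VV P c h' := by
  unfold VV
  apply sum_congr rfl
  intro T hT
  rw [mem_powerset] at hT
  congr 1
  exact prod_congr rfl fun p hp => hh p (hT hp)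

open Classical in
/-- the sieving primes which do not divide `q` -/
noncomputable def PQ (Y : ℕ) (ζ : ℝ) (q : ℕ) : Finset ℕ := (PZ Y ζ).filter (fun p => ¬ p ∣ q)

open Classical in
/-- the number of the `n ≤ X`, `n ≡ a mod q`, at which the value is rough -/
noncomputable def rgC (G : ℤ[X]) (Y : ℕ) (ζ : ℝ) (q X a : ℕ) : ℝ :=
  (((range X).filter (fun N => (N + 1) % q = a)).filter
    (fun N => ∀ p ∈ PQ Y ζ q, ¬ p ∣ (G.eval ((N + 1 : ℕ) : ℤ)).natAbs)).card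

/-- the number of the `n ≤ X`, `n ≡ a mod q` -/
def NC (q X a : ℕ) : ℕ := ((range X).filter (fun N => (N + 1) % q = a)).card

/-- the sieve density -/
noncomputable def vC (G : ℤ[X]) (Y : ℕ) (ζ : ℝ) (q : ℕ) : ℝ :=
  ∏ p ∈ PQ Y ζ q, (1 - (ro G 0 p : ℝ) / p)

theorem wsum1 (G : ℤ[X]) (P : Finset ℕ) (hP : ∀ p ∈ P, p.Prime) (c : Finset ℕ → ℝ) (N : ℕ) :
    VV P c (fun p => if p ∣ (G.eval ((N + 1 : ℕ) : ℤ)).natAbs then 1 else 0) =
      VV P c (fun p => (ro G 0 p : ℝ) / p) + UU G P c N := by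
  have h := wsum G P hP c 1 N
  rw [Icc_self, sum_singleton] at h
  unfold UU
  rw [← one_mul (VV P c fun p => (ro G 0 p : ℝ) / p)]
  push_cast at h ⊢
  exact h

theorem wsumC (G : ℤ[X]) (P : Finset ℕ) (hP : ∀ p ∈ P, p.Prime) (c : Finset ℕ → ℝ) (q X a : ℕ) :
    ∑ N ∈ (range X).filter (fun N => (N + 1) % q = a),
      VV P c (fun p => if p ∣ (G.eval ((N + 1 : ℕ) : ℤ)).natAbs then 1 else 0) =
      NC q X a * VV P c (fun p => (ro G 0 p : ℝ) / p) + TC (UU G P c) q X a := by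
  rw [sum_congr rfl fun N _ => wsum1 G P hP c N, sum_add_distrib, sum_const, nsmul_eq_mul]
  rfl

/-- the weights on the primes which do not divide `q` -/
theorem ind_res (Y : ℕ) (ζ : ℝ) (q : ℕ) (w : Finset ℕ → ℝ) (V : ℕ) :
    VV (PZ Y ζ) w (fun p => if p ∣ ∏ l ∈ (PQ Y ζ q).filter (fun l => l ∣ V), l then 1 else 0) =
      VV (PQ Y ζ q) w (fun p => if p ∣ V then 1 else 0) ∧
    ((∀ p ∈ PZ Y ζ, ¬ p ∣ ∏ l ∈ (PQ Y ζ q).filter (fun l => l ∣ V), l) ↔
      ∀ p ∈ PQ Y ζ q, ¬ p ∣ V) := by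
  classical
  have hPZ : ∀ p ∈ PZ Y ζ, p.Prime := by
    intro p hp
    unfold PZ at hp
    rw [mem_filter] at hp
    exact hp.2.1
  have hsub : PQ Y ζ q ⊆ PZ Y ζ := filter_subset _ _
  have key : ∀ p ∈ PZ Y ζ, p ∣ ∏ l ∈ (PQ Y ζ q).filter (fun l => l ∣ V), l ↔
      p ∈ PQ Y ζ q ∧ p ∣ V := by
    intro p hp
    rw [(hPZ p hp).prime.dvd_finset_prod_iff]
    constructor
    · rintro ⟨l, hl, hpl⟩
      rw [mem_filter] at hl
      have : p = l := (Nat.prime_dvd_prime_iff_eq (hPZ p hp) (hPZ l (hsub hl.1))).1 hpl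
      subst this
      exact hl
    · intro h
      exact ⟨p, mem_filter.2 h, dvd_rfl⟩
  constructor
  · rw [VV_res (PZ Y ζ) (PQ Y ζ q) hsub w]
    · apply VV_cgr
      intro p hp
      have h1 := key p (hsub hp)
      by_cases h2 : p ∣ V
      · rw [if_pos h2, if_pos (h1.2 ⟨hp, h2⟩)]
      · rw [if_neg h2, if_neg (fun h => h2 (h1.1 h).2)]
    · intro p hp hp'
      rw [if_neg]
      intro h
      exact hp' ((key p hp).1 h).1
  · constructor
    · intro h p hp hpV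
      exact h p (hsub hp) ((key p (hsub hp)).2 ⟨hp, hpV⟩)
    · intro h p hp hd
      obtain ⟨h1, h2⟩ := (key p hp).1 hd
      exact h p h1 h2

open Classical in
/-- removing the prime factors of `q` does not change the regularity -/
theorem mer_res (K : ℕ) (ε₁ ζ η : ℝ) (hε₁ : 0 < ε₁) (hη : 0 < η) :
    ∃ Y0 : ℕ, ∀ Y : ℕ, Y0 ≤ Y → ∀ (r : ℕ → ℝ) (q : ℕ), (∀ p ∈ pr Y ε₁ ζ, 0 ≤ r p ∧ r p ≤ K / p) →
      0 < q → q ≤ Y → Mer (pr Y ε₁ ζ) (tt Y) r ε₁ ζ (η / 2) →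
      Mer (pr Y ε₁ ζ) (tt Y) (fun p => if p ∣ q then 0 else r p) ε₁ ζ η := by
  have ev1 : ∀ᶠ Y : ℕ in atTop, 2 * (K / ε₁) / η ≤ (Y : ℝ) ^ ε₁ :=
    ((tendsto_rpow_atTop hε₁).comp tendsto_natCast_atTop_atTop).eventually_ge_atTop _
  obtain ⟨Y1, hY1⟩ := eventually_atTop.1 (ev1.and (eventually_ge_atTop 3))
  refine ⟨Y1, fun Y hY r q hr hq hqY hmer a b ha hab hb => ?_⟩
  obtain ⟨e1, e2⟩ := hY1 Y hY
  have hYr : (3 : ℝ) ≤ Y := by exact_mod_cast e2
  have hY0 : (0 : ℝ) < Y := by linarith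
  have hlY : 0 < Real.log Y := Real.log_pos (by linarith)
  have hK0 : (0 : ℝ) ≤ K := Nat.cast_nonneg K
  have h1 := hmer a b ha hab hb
  set S := (pr Y ε₁ ζ).filter (fun p => a ≤ tt Y p ∧ tt Y p < b) with hS
  have h2 : ∑ p ∈ S, (if p ∣ q then 0 else r p) = ∑ p ∈ S, r p - ∑ p ∈ S.filter (fun p => p ∣ q), r p := by
    have h20 := sum_filter (s := S) (fun p => p ∣ q) r
    rw [h20, ← sum_sub_distrib]
    apply sum_congr rfl
    intro p _
    split_ifs <;> ring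
  have hprop : ∀ p ∈ S.filter (fun p => p ∣ q), p ∈ pr Y ε₁ ζ ∧ p.Prime ∧ p ∣ q ∧ (Y : ℝ) ^ ε₁ ≤ p := by
    intro p hp
    rw [mem_filter, hS, mem_filter] at hp
    have h3 := hp.1.1
    unfold pr at h3
    rw [mem_filter] at h3
    refine ⟨hp.1.1, h3.2.1, hp.2, ?_⟩
    have hp0 : (0 : ℝ) < p := by exact_mod_cast h3.2.1.pos
    have h4 := h3.2.2.1
    unfold tt at h4
    rw [le_div_iff₀ hlY, ← Real.log_rpow hY0] at h4
    exact (Real.log_le_log_iff (by positivity) hp0).1 h4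
  set k := (S.filter (fun p => p ∣ q)).card with hk
  have hkε : (k : ℝ) * ε₁ ≤ 1 := by
    have h3 : ∏ p ∈ S.filter (fun p => p ∣ q), p ∣ q := by
      apply Finset.prod_primes_dvd
      · intro p hp
        exact (hprop p hp).2.1.prime
      · intro p hp
        exact (hprop p hp).2.2.1
    have h4 : ((∏ p ∈ S.filter (fun p => p ∣ q), p : ℕ) : ℝ) ≤ Y := by
      exact_mod_cast (Nat.le_of_dvd hq h3).trans hqY
    have h5 : ((Y : ℝ) ^ ε₁) ^ k ≤ ((∏ p ∈ S.filter (fun p => p ∣ q), p : ℕ) : ℝ) := by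
      push_cast
      rw [hk, ← prod_const]
      apply Finset.prod_le_prod
      · intro _ _; positivity
      · intro p hp
        exact (hprop p hp).2.2.2
    have h6 : (Y : ℝ) ^ (ε₁ * k) ≤ (Y : ℝ) ^ (1 : ℝ) := by
      rw [Real.rpow_mul hY0.le, Real.rpow_natCast, Real.rpow_one]
      exact h5.trans h4
    have h7 := (Real.rpow_le_rpow_left_iff (by linarith : (1 : ℝ) < Y)).1 h6
    linarith
  have h3 : 0 ≤ ∑ p ∈ S.filter (fun p => p ∣ q), r p :=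
    sum_nonneg fun p hp => (hr p (hprop p hp).1).1
  have h4 : ∑ p ∈ S.filter (fun p => p ∣ q), r p ≤ η / 2 := by
    have hYe : 0 < (Y : ℝ) ^ ε₁ := by positivity
    calc ∑ p ∈ S.filter (fun p => p ∣ q), r p ≤ ∑ p ∈ S.filter (fun p => p ∣ q), K / (Y : ℝ) ^ ε₁ := by
          apply sum_le_sum
          intro p hp
          refine (hr p (hprop p hp).1).2.trans ?_
          exact div_le_div_of_nonneg_left hK0 hYe (hprop p hp).2.2.2
      _ = k * (K / (Y : ℝ) ^ ε₁) := by rw [sum_const, nsmul_eq_mul]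
      _ ≤ (1 / ε₁) * (K / (Y : ℝ) ^ ε₁) := by
          apply mul_le_mul_of_nonneg_right _ (by positivity)
          rw [le_div_iff₀ hε₁]
          exact hkε
      _ = (K / ε₁) / (Y : ℝ) ^ ε₁ := by ring
      _ ≤ η / 2 := by
          rw [div_le_iff₀ hYe]
          rw [div_le_iff₀ hη] at e1
          nlinarith
  rw [h2]
  rw [abs_le] at h1 ⊢
  constructor <;> linarith [h1.1, h1.2]

open Classical in
/-- **The linear sieve in residue classes.** -/
theorem engC (K : ℕ) (A0 : ℝ) (F f : ℝ → ℝ) (hSF : SF A0 F f) (τ ζ δ ε : ℝ) (hζ : 0 < ζ)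
    (h1 : ζ ≤ τ) (hτ : τ < 1) (hδ : 0 < δ) (hε : 0 < ε) :
    ∃ ε₁ η : ℝ, 0 < ε₁ ∧ ε₁ ≤ ζ ∧ 0 < η ∧ ∃ Y0 : ℕ, ∀ Y : ℕ, Y0 ≤ Y →
      ∀ (G : ℤ[X]) (X q H : ℕ), (∀ p : ℕ, p.Prime → ro G 0 p ≤ K) → 0 < q → q ≤ Y → 0 < H →
        (∀ a ∈ range q, H ≤ NC q X a) → (Y : ℝ) ^ (-(ε / 32)) ≤ vv G Y ζ →
        Mer (pr Y ε₁ ζ) (tt Y) (fun p => (ro G 0 p : ℝ) / p) ε₁ ζ η →
        (((range q).filter (fun a => ¬ ((f (τ / ζ) - δ) * (NC q X a * vC G Y ζ q) ≤ rgC G Y ζ q X a ∧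
          rgC G Y ζ q X a ≤ (F (τ / ζ) + δ) * (NC q X a * vC G Y ζ q)))).card : ℝ) ≤
          (X + (Y : ℝ) ^ (2 * τ)) / (H : ℝ) ^ 2 * (Y : ℝ) ^ ε := by
  obtain ⟨s, hs0, hs1, hs2⟩ : ∃ s : ℝ, 0 < s ∧ s ≤ ε / 8 ∧ s ≤ 1 - τ :=
    ⟨min (ε / 8) (1 - τ), lt_min (by linarith) (by linarith), min_le_left _ _, min_le_right _ _⟩
  set τ' : ℝ := τ + s with hτ'
  have hττ' : τ < τ' := by linarith
  obtain ⟨ε₁, η₀, hε₁, hε₁ζ, hη₀, Y1, HC⟩ :=
    core5 K A0 F f hSF τ ζ τ' (δ / 2) hζ h1 hτ.le hττ' (by linarith)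
  obtain ⟨Y2, HE⟩ := few_errC K τ' ε (by linarith) (by linarith) hε
  obtain ⟨Y4, HMr⟩ := mer_res K ε₁ ζ η₀ hε₁ hη₀
  have ev1 : ∀ᶠ Y : ℕ in atTop, 5 * Real.log Y ≤ (Y : ℝ) ^ (ε / 64) := by
    have h1 := (isLittleO_log_rpow_atTop (show 0 < ε / 64 by linarith)).bound
      (show (0 : ℝ) < 1 / 5 by norm_num)
    filter_upwards [tendsto_natCast_atTop_atTop.eventually h1, eventually_ge_atTop 1] with Y hY hY1
    have hY1r : (1 : ℝ) ≤ Y := by exact_mod_cast hY1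
    rw [Real.norm_of_nonneg (Real.log_nonneg hY1r), Real.norm_of_nonneg (by positivity)] at hY
    linarith
  have ev2 : ∀ᶠ Y : ℕ in atTop, 2 / δ ≤ (Y : ℝ) ^ (ε / 32) :=
    ((tendsto_rpow_atTop (by linarith)).comp tendsto_natCast_atTop_atTop).eventually_ge_atTop _
  have ev3 : ∀ᶠ Y : ℕ in atTop, 2 ≤ (Y : ℝ) ^ (ε / 4) :=
    ((tendsto_rpow_atTop (by linarith)).comp tendsto_natCast_atTop_atTop).eventually_ge_atTop _
  obtain ⟨Y3, hY3⟩ := eventually_atTop.1 (ev1.and (ev2.and (ev3.and (eventually_ge_atTop 3))))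
  refine ⟨ε₁, η₀ / 2, hε₁, hε₁ζ, by linarith, max (max Y1 Y4) (max Y2 Y3), ?_⟩
  intro Y hY G X q H hK hq hqY hH hNC hV hmer0
  have hYY1 : Y1 ≤ Y := ((le_max_left _ _).trans (le_max_left _ _)).trans hY
  have hYY4 : Y4 ≤ Y := ((le_max_right _ _).trans (le_max_left _ _)).trans hY
  have hYY2 : Y2 ≤ Y := ((le_max_left _ _).trans (le_max_right _ _)).trans hY
  obtain ⟨e1, e2, e2', e3⟩ := hY3 Y (((le_max_right _ _).trans (le_max_right _ _)).trans hY)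
  have hYr : (3 : ℝ) ≤ Y := by exact_mod_cast e3
  have hY0 : (0 : ℝ) < Y := by linarith
  have hY1r : (1 : ℝ) ≤ Y := by linarith
  have hH0 : (0 : ℝ) < H := by exact_mod_cast hH
  obtain ⟨wU, wL, c1, c2, c3, c4⟩ := HC Y hYY1
  have hPZ : ∀ p ∈ PZ Y ζ, p.Prime := by
    intro p hp
    unfold PZ at hp
    rw [mem_filter] at hp
    exact hp.2.1
  have hsubQ : PQ Y ζ q ⊆ PZ Y ζ := filter_subset _ _
  have hPQ : ∀ p ∈ PQ Y ζ q, p.Prime := fun p hp => hPZ p (hsubQ hp)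
  have hPQq : ∀ p ∈ PQ Y ζ q, ¬ p ∣ q := fun p hp => by
    unfold PQ at hp
    exact (mem_filter.1 hp).2
  have hmer : Mer (pr Y ε₁ ζ) (tt Y) (fun p => if p ∣ q then 0 else (ro G 0 p : ℝ) / p) ε₁ ζ η₀ := by
    apply HMr Y hYY4 (fun p => (ro G 0 p : ℝ) / p) q _ hq hqY hmer0
    intro p hp
    have hpp : p.Prime := by
      unfold pr at hp
      exact (mem_filter.1 hp).2.1
    refine ⟨by positivity, ?_⟩
    apply div_le_div_of_nonneg_right _ (Nat.cast_nonneg _)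
    exact_mod_cast hK p hpp
  have hA1 := HE Y hYY2 G (PQ Y ζ q) wU X q H hPQ (fun p hp => hK p (hPQ p hp)) hPQq
    (fun T => (c1 T).1.trans e1) (fun T hT h0 => c2 T (hT.trans hsubQ) (Or.inl h0)) hq hqY hH0
  have hA2 := HE Y hYY2 G (PQ Y ζ q) wL X q H hPQ (fun p hp => hK p (hPQ p hp)) hPQq
    (fun T => (c1 T).2.trans e1) (fun T hT h0 => c2 T (hT.trans hsubQ) (Or.inr h0)) hq hqY hH0
  set A1 := (range q).filter (fun a => (H : ℝ) * (Y : ℝ) ^ (-(ε / 16)) <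
        |TC (UU G (PQ Y ζ q) wU) q X a|) with hA1d
  set A2 := (range q).filter (fun a => (H : ℝ) * (Y : ℝ) ^ (-(ε / 16)) <
        |TC (UU G (PQ Y ζ q) wL) q X a|) with hA2d
  obtain ⟨m1, m2⟩ := c4 (fun p => if p ∣ q then 0 else (ro G 0 p : ℝ) / p)
    (fun p _ => by
      show 0 ≤ (if p ∣ q then (0 : ℝ) else (ro G 0 p : ℝ) / p)
      split_ifs <;> positivity) (by
    intro p hp
    show (if p ∣ q then (0 : ℝ) else (ro G 0 p : ℝ) / p) ≤ 1
    have hp0 : (0 : ℝ) < p := by exact_mod_cast (hPZ p hp).pos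
    have h1 : (ro G 0 p : ℝ) ≤ p := by exact_mod_cast ro_le_self G 0 p
    split_ifs
    · norm_num
    · rw [div_le_one hp0]
      exact h1) (by
    intro p hp _
    show (if p ∣ q then (0 : ℝ) else (ro G 0 p : ℝ) / p) ≤ K / ((p : ℝ) - 1)
    have hp0 : (2 : ℝ) ≤ p := by exact_mod_cast (hPZ p hp).two_le
    have h1 : (ro G 0 p : ℝ) ≤ K := by exact_mod_cast hK p (hPZ p hp)
    split_ifs
    · apply div_nonneg (Nat.cast_nonneg _)
      linarith
    · apply div_le_div₀ (Nat.cast_nonneg _) h1 (by linarith) (by linarith)) hmer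
  have hprod : ∏ p ∈ PZ Y ζ, (1 - (if p ∣ q then (0 : ℝ) else (ro G 0 p : ℝ) / p)) = vC G Y ζ q := by
    unfold vC PQ
    rw [prod_filter]
    apply prod_congr rfl
    intro p _
    by_cases h : p ∣ q
    · rw [if_pos h, if_neg (not_not.2 h), sub_zero]
    · rw [if_neg h, if_pos h]
  have hres : ∀ w : Finset ℕ → ℝ, VV (PZ Y ζ) w (fun p => if p ∣ q then 0 else (ro G 0 p : ℝ) / p) =
      VV (PQ Y ζ q) w (fun p => (ro G 0 p : ℝ) / p) := by
    intro w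
    rw [VV_res (PZ Y ζ) (PQ Y ζ q) hsubQ w]
    · apply VV_cgr
      intro p hp
      rw [if_neg (hPQq p hp)]
    · intro p hp hp'
      rw [if_pos]
      by_contra h
      apply hp'
      unfold PQ
      exact mem_filter.2 ⟨hp, h⟩
  rw [hprod, hres] at m1 m2
  have hvC : vv G Y ζ ≤ vC G Y ζ q := by
    unfold vv vC
    have h01 : ∀ p ∈ PZ Y ζ, 0 ≤ 1 - (ro G 0 p : ℝ) / p ∧ 1 - (ro G 0 p : ℝ) / p ≤ 1 := by
      intro p hp
      have hp0 : (0 : ℝ) < p := by exact_mod_cast (hPZ p hp).pos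
      have h1 : (ro G 0 p : ℝ) ≤ p := by exact_mod_cast ro_le_self G 0 p
      constructor
      · rw [sub_nonneg, div_le_one hp0]
        exact h1
      · have : 0 ≤ (ro G 0 p : ℝ) / p := by positivity
        linarith
    rw [← prod_sdiff hsubQ]
    calc (∏ p ∈ PZ Y ζ \ PQ Y ζ q, (1 - (ro G 0 p : ℝ) / p)) *
        ∏ p ∈ PQ Y ζ q, (1 - (ro G 0 p : ℝ) / p) ≤
        1 * ∏ p ∈ PQ Y ζ q, (1 - (ro G 0 p : ℝ) / p) := by
          apply mul_le_mul_of_nonneg_right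
          · apply prod_le_one
            · intro p hp
              exact (h01 p (mem_sdiff.1 hp).1).1
            · intro p hp
              exact (h01 p (mem_sdiff.1 hp).1).2
          · exact prod_nonneg fun p hp => (h01 p (hsubQ hp)).1
      _ = _ := one_mul _
  have hV' : (Y : ℝ) ^ (-(ε / 32)) ≤ vC G Y ζ q := hV.trans hvC
  have hvpos : 0 < vC G Y ζ q := lt_of_lt_of_le (by positivity) hV'
  have herr : ∀ a ∈ range q, (H : ℝ) * (Y : ℝ) ^ (-(ε / 16)) ≤ δ / 2 * (NC q X a * vC G Y ζ q) := by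
    intro a ha
    have hNr : (H : ℝ) ≤ NC q X a := by exact_mod_cast hNC a ha
    have h2 : (Y : ℝ) ^ (-(ε / 16)) = (Y : ℝ) ^ (-(ε / 32)) * (Y : ℝ) ^ (-(ε / 32)) := by
      rw [← Real.rpow_add hY0]
      congr 1
      ring
    have h3 : (Y : ℝ) ^ (-(ε / 32)) ≤ δ / 2 := by
      rw [Real.rpow_neg hY0.le, inv_le_comm₀ (by positivity) (by positivity)]
      rw [inv_div]
      exact e2
    rw [h2]
    calc (H : ℝ) * ((Y : ℝ) ^ (-(ε / 32)) * (Y : ℝ) ^ (-(ε / 32))) ≤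
        NC q X a * (δ / 2 * vC G Y ζ q) := by
          apply mul_le_mul hNr _ (by positivity) (Nat.cast_nonneg _)
          exact mul_le_mul h3 hV' (by positivity) (by positivity)
      _ = _ := by ring
  have hsub : (range q).filter (fun a => ¬ ((f (τ / ζ) - δ) * (NC q X a * vC G Y ζ q) ≤ rgC G Y ζ q X a ∧
          rgC G Y ζ q X a ≤ (F (τ / ζ) + δ) * (NC q X a * vC G Y ζ q))) ⊆ A1 ∪ A2 := by
    intro a ha
    rw [mem_filter] at ha
    rw [mem_union]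
    by_contra hcon
    push Not at hcon
    obtain ⟨hc1, hc2⟩ := hcon
    apply ha.2
    have g1 : |TC (UU G (PQ Y ζ q) wU) q X a| ≤ (H : ℝ) * (Y : ℝ) ^ (-(ε / 16)) := by
      by_contra h'
      exact hc1 (by rw [hA1d, mem_filter]; exact ⟨ha.1, not_le.1 h'⟩)
    have g2 : |TC (UU G (PQ Y ζ q) wL) q X a| ≤ (H : ℝ) * (Y : ℝ) ^ (-(ε / 16)) := by
      by_contra h'
      exact hc2 (by rw [hA2d, mem_filter]; exact ⟨ha.1, not_le.1 h'⟩)
    have hN0 : (0 : ℝ) ≤ NC q X a := Nat.cast_nonneg _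
    have hr : rgC G Y ζ q X a = ∑ N ∈ (range X).filter (fun N => (N + 1) % q = a),
        (if ∀ p ∈ PQ Y ζ q, ¬ p ∣ (G.eval ((N + 1 : ℕ) : ℤ)).natAbs then (1 : ℝ) else 0) := by
      unfold rgC
      rw [card_filter]
      push_cast
      rfl
    have herra := herr a ha.1
    constructor
    · have g3 : ∑ N ∈ (range X).filter (fun N => (N + 1) % q = a), VV (PQ Y ζ q) wL
          (fun p => if p ∣ (G.eval ((N + 1 : ℕ) : ℤ)).natAbs then 1 else 0) ≤ rgC G Y ζ q X a := by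
        rw [hr]
        apply sum_le_sum
        intro N _
        have h5 := ind_res Y ζ q wL (G.eval ((N + 1 : ℕ) : ℤ)).natAbs
        have h6 := (c3 (∏ l ∈ (PQ Y ζ q).filter
          (fun l => l ∣ (G.eval ((N + 1 : ℕ) : ℤ)).natAbs), l)).1
        rw [h5.1] at h6
        simp only [h5.2] at h6
        exact h6
      rw [wsumC G (PQ Y ζ q) hPQ wL q X a] at g3
      have g4 := mul_le_mul_of_nonneg_left m1 hN0
      have g5 := neg_le_of_abs_le g2
      have g6 : (f (τ / ζ) - δ) * (NC q X a * vC G Y ζ q) =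
          NC q X a * ((f (τ / ζ) - δ / 2) * vC G Y ζ q) - δ / 2 * (NC q X a * vC G Y ζ q) := by ring
      rw [g6]
      linarith
    · have g3 : rgC G Y ζ q X a ≤ ∑ N ∈ (range X).filter (fun N => (N + 1) % q = a), VV (PQ Y ζ q) wU
          (fun p => if p ∣ (G.eval ((N + 1 : ℕ) : ℤ)).natAbs then 1 else 0) := by
        rw [hr]
        apply sum_le_sum
        intro N _
        have h5 := ind_res Y ζ q wU (G.eval ((N + 1 : ℕ) : ℤ)).natAbs
        have h6 := (c3 (∏ l ∈ (PQ Y ζ q).filter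
          (fun l => l ∣ (G.eval ((N + 1 : ℕ) : ℤ)).natAbs), l)).2
        rw [h5.1] at h6
        simp only [h5.2] at h6
        exact h6
      rw [wsumC G (PQ Y ζ q) hPQ wU q X a] at g3
      have g4 := mul_le_mul_of_nonneg_left m2 hN0
      have g5 := le_of_abs_le g1
      have g6 : (F (τ / ζ) + δ) * (NC q X a * vC G Y ζ q) =
          NC q X a * ((F (τ / ζ) + δ / 2) * vC G Y ζ q) + δ / 2 * (NC q X a * vC G Y ζ q) := by ring
      rw [g6]
      linarith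
  calc (((range q).filter (fun a => ¬ ((f (τ / ζ) - δ) * (NC q X a * vC G Y ζ q) ≤ rgC G Y ζ q X a ∧
          rgC G Y ζ q X a ≤ (F (τ / ζ) + δ) * (NC q X a * vC G Y ζ q)))).card : ℝ) ≤
      ((A1 ∪ A2).card : ℝ) := by exact_mod_cast card_le_card hsub
    _ ≤ A1.card + A2.card := by exact_mod_cast card_union_le _ _
    _ ≤ 2 * ((X + (Y : ℝ) ^ (2 * τ')) / (H : ℝ) ^ 2 * (Y : ℝ) ^ (ε / 2)) := by linarith
    _ ≤ (Y : ℝ) ^ (ε / 4) * (((X + (Y : ℝ) ^ (2 * τ)) * (Y : ℝ) ^ (ε / 4)) / (H : ℝ) ^ 2 *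
        (Y : ℝ) ^ (ε / 2)) := by
        apply mul_le_mul e2' _ (by positivity) (by positivity)
        apply mul_le_mul_of_nonneg_right _ (by positivity)
        apply div_le_div_of_nonneg_right _ (by positivity)
        have h1 : (Y : ℝ) ^ (2 * τ') ≤ (Y : ℝ) ^ (2 * τ) * (Y : ℝ) ^ (ε / 4) := by
          rw [← Real.rpow_add hY0]
          exact Real.rpow_le_rpow_of_exponent_le hY1r (by linarith)
        have h3 : (1 : ℝ) ≤ (Y : ℝ) ^ (ε / 4) := Real.one_le_rpow hY1r (by linarith)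
        have h4 : (0 : ℝ) ≤ X := Nat.cast_nonneg _
        nlinarith
    _ = (X + (Y : ℝ) ^ (2 * τ)) / (H : ℝ) ^ 2 *
        ((Y : ℝ) ^ (ε / 4) * (Y : ℝ) ^ (ε / 4) * (Y : ℝ) ^ (ε / 2)) := by ring
    _ = _ := by
        rw [← Real.rpow_add hY0, ← Real.rpow_add hY0]
        congr 2
        ring

end Pool.Agent.H662.RC
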