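import Pool.Agent.H662.RC.Quad
import Pool.Agent.Y882.KW.Alm

/-! The weighted sieve for the values of a polynomial in residue classes: few exceptions. -/

set_option autoImplicit false

namespace Pool.Agent.H662.RC

open Finset Polynomial Filter
open Pool.Agent.W23.DC
open Pool.Agent.Y882
open Pool.Agent.Y882.PX
open Pool.Agent.Y882.SI
open Pool.Agent.Y882.JR
open Pool.Agent.Y882.KW

/-- the product of the sieving primes, prime to `q`, which divide `V` -/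
noncomputable def cop (Y : ℕ) (υ : ℝ) (q V : ℕ) : ℕ := ∏ l ∈ (PQ Y υ q).filter (fun l => l ∣ V), l

open Classical in
/-- the integers `N < X`, `N + 1 ≡ a mod q`, at which the weight is positive -/
noncomputable def posC (G : ℤ[X]) (Y : ℕ) (ζ υ aw bw : ℝ) (q X a : ℕ) : Finset ℕ :=
  ((range X).filter (fun N => (N + 1) % q = a)).filter
    (fun N => 0 < WW Y ζ υ aw bw (cop Y υ q (G.eval ((N + 1 : ℕ) : ℤ)).natAbs))

open Classical in
/-- **The weighted sieve in residue classes.** -/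
theorem engW (K : ℕ) (τ ζ υ aw bw ε : ℝ) (hζ : 0 < ζ) (h2 : 2 * ζ < τ)
    (h4 : τ ≤ 4 * ζ) (hτ : τ < 1) (hζυ : ζ ≤ υ) (hυτ : υ < τ) (ha : 0 ≤ aw) (hb : 0 ≤ bw)
    (hab : bw * υ ≤ aw)
    (hJ0 : ∫ x in ζ..υ, (aw - bw * x) / (τ - x) / x < Real.log (τ / ζ - 1) / τ) (hε : 0 < ε) :
    ∃ δ ε₁ η : ℝ, 0 < δ ∧ 0 < ε₁ ∧ ε₁ ≤ ζ ∧ 0 < η ∧ ∃ Y0 : ℕ, ∀ Y : ℕ, Y0 ≤ Y →
      ∀ (G : ℤ[X]) (X q H : ℕ), (∀ p : ℕ, p.Prime → ro G 0 p ≤ K) → 0 < q → q ≤ Y → 0 < H →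
        (∀ a ∈ range q, H ≤ NC q X a) → (Y : ℝ) ^ (-(ε / 32)) ≤ vv G Y ε₁ →
        Mer (pr Y ε₁ υ) (tt Y) (fun p => (ro G 0 p : ℝ) / p) ε₁ υ η →
        (((range q).filter (fun a => ((posC G Y ζ υ aw bw q X a).card : ℝ) <
          δ * (NC q X a * vC G Y ε₁ q))).card : ℝ) ≤
          (X + (Y : ℝ) ^ (2 * τ)) / (H : ℝ) ^ 2 * (Y : ℝ) ^ ε := by
  obtain ⟨s, hs0, hs1, hs2⟩ : ∃ s : ℝ, 0 < s ∧ s ≤ ε / 4 ∧ s ≤ 1 - τ :=
    ⟨min (ε / 4) (1 - τ), lt_min (by linarith) (by linarith), min_le_left _ _, min_le_right _ _⟩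
  set τ' : ℝ := τ + s with hτ'
  have hττ' : τ < τ' := by linarith
  obtain ⟨ε₁, η₀, f, hε₁, hε₁ζ, _, hη₀, hf, Y1, HC⟩ :=
    core3 K τ ζ υ aw bw τ' 1 hζ h2 h4 hτ.le hζυ hυτ ha hb hab hJ0 hττ' one_pos
  obtain ⟨Y2, HE⟩ := few_errC K τ' ε (by linarith) (by linarith) hε
  obtain ⟨Y4, HMr⟩ := mer_res K ε₁ υ η₀ hε₁ hη₀
  have ev1 : ∀ᶠ Y : ℕ in atTop, 5 * Real.log Y ≤ (Y : ℝ) ^ (ε / 64) := by
    have h1 := (isLittleO_log_rpow_atTop (show 0 < ε / 64 by linarith)).bound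
      (show (0 : ℝ) < 1 / 5 by norm_num)
    filter_upwards [tendsto_natCast_atTop_atTop.eventually h1, eventually_ge_atTop 1] with Y hY hY1
    have hY1r : (1 : ℝ) ≤ Y := by exact_mod_cast hY1
    rw [Real.norm_of_nonneg (Real.log_nonneg hY1r), Real.norm_of_nonneg (by positivity)] at hY
    linarith
  have ev2 : ∀ᶠ Y : ℕ in atTop, 2 / f ≤ (Y : ℝ) ^ (ε / 32) :=
    ((tendsto_rpow_atTop (by linarith)).comp tendsto_natCast_atTop_atTop).eventually_ge_atTop _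
  obtain ⟨Y3, hY3⟩ := eventually_atTop.1 (ev1.and (ev2.and (eventually_ge_atTop 3)))
  refine ⟨f / 2, ε₁, η₀ / 2, by linarith, hε₁, hε₁ζ, by linarith, max (max Y1 Y4) (max Y2 Y3), ?_⟩
  intro Y hY G X q H hK hq hqY hH hNC hV hmer0
  have hYY1 : Y1 ≤ Y := ((le_max_left _ _).trans (le_max_left _ _)).trans hY
  have hYY4 : Y4 ≤ Y := ((le_max_right _ _).trans (le_max_left _ _)).trans hY
  have hYY2 : Y2 ≤ Y := ((le_max_left _ _).trans (le_max_right _ _)).trans hY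
  obtain ⟨e1, e2, e3⟩ := hY3 Y (((le_max_right _ _).trans (le_max_right _ _)).trans hY)
  have hYr : (3 : ℝ) ≤ Y := by exact_mod_cast e3
  have hY0 : (0 : ℝ) < Y := by linarith
  have hY1r : (1 : ℝ) ≤ Y := by linarith
  have hH0 : (0 : ℝ) < H := by exact_mod_cast hH
  obtain ⟨c, c1, c2, c3, c4⟩ := HC Y hYY1
  have hsubQ : PQ Y υ q ⊆ PZ Y υ := filter_subset _ _
  have hPQ : ∀ p ∈ PQ Y υ q, p.Prime := fun p hp => PZ_prime Y υ p (hsubQ hp)
  have hPQq : ∀ p ∈ PQ Y υ q, ¬ p ∣ q := fun p hp => by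
    unfold PQ at hp
    exact (mem_filter.1 hp).2
  have hmer : Mer (pr Y ε₁ υ) (tt Y) (fun p => if p ∣ q then 0 else (ro G 0 p : ℝ) / p) ε₁ υ η₀ := by
    apply HMr Y hYY4 (fun p => (ro G 0 p : ℝ) / p) q _ hq hqY hmer0
    intro p hp
    have hpp : p.Prime := by
      unfold pr at hp
      exact (mem_filter.1 hp).2.1
    refine ⟨by positivity, ?_⟩
    apply div_le_div_of_nonneg_right _ (Nat.cast_nonneg _)
    exact_mod_cast hK p hpp
  have hA1 := HE Y hYY2 G (PQ Y υ q) c X q H hPQ (fun p hp => hK p (hPQ p hp)) hPQq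
    (fun T => (c1 T).trans e1) (fun T hT h0 => c2 T (hT.trans hsubQ) h0) hq hqY hH0
  have m1 := c4 (fun p => if p ∣ q then 0 else (ro G 0 p : ℝ) / p)
    (fun p _ => by
      show 0 ≤ (if p ∣ q then (0 : ℝ) else (ro G 0 p : ℝ) / p)
      split_ifs <;> positivity) (by
    intro p hp
    show (if p ∣ q then (0 : ℝ) else (ro G 0 p : ℝ) / p) ≤ 1
    have hp0 : (0 : ℝ) < p := by exact_mod_cast (PZ_prime Y ε₁ p hp).pos
    have h1 : (ro G 0 p : ℝ) ≤ p := by exact_mod_cast ro_le_self G 0 p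
    split_ifs
    · norm_num
    · rw [div_le_one hp0]
      exact h1) (by
    intro p hp _
    show (if p ∣ q then (0 : ℝ) else (ro G 0 p : ℝ) / p) ≤ K / ((p : ℝ) - 1)
    have hp0 : (2 : ℝ) ≤ p := by exact_mod_cast (PZ_prime Y ε₁ p hp).two_le
    have h1 : (ro G 0 p : ℝ) ≤ K := by exact_mod_cast hK p (PZ_prime Y ε₁ p hp)
    split_ifs
    · apply div_nonneg (Nat.cast_nonneg _)
      linarith
    · apply div_le_div₀ (Nat.cast_nonneg _) h1 (by linarith) (by linarith)) hmer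
  have hprod : ∏ p ∈ PZ Y ε₁, (1 - (if p ∣ q then (0 : ℝ) else (ro G 0 p : ℝ) / p)) =
      vC G Y ε₁ q := by
    unfold vC PQ
    rw [prod_filter]
    apply prod_congr rfl
    intro p _
    by_cases h : p ∣ q
    · rw [if_pos h, if_neg (not_not.2 h), sub_zero]
    · rw [if_neg h, if_pos h]
  have hres : VV (PZ Y υ) c (fun p => if p ∣ q then 0 else (ro G 0 p : ℝ) / p) =
      VV (PQ Y υ q) c (fun p => (ro G 0 p : ℝ) / p) := by
    rw [VV_res (PZ Y υ) (PQ Y υ q) hsubQ c]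
    · apply VV_cgr
      intro p hp
      rw [if_neg (hPQq p hp)]
    · intro p hp hp'
      rw [if_pos]
      by_contra h
      apply hp'
      unfold PQ
      exact mem_filter.2 ⟨hp, h⟩
  rw [hprod, hres] at m1
  have hvC : vv G Y ε₁ ≤ vC G Y ε₁ q := by
    unfold vv vC
    apply prod_sub
    · exact filter_subset _ _
    · intro p hp
      exact PZ_prime Y ε₁ p hp
  have hV' : (Y : ℝ) ^ (-(ε / 32)) ≤ vC G Y ε₁ q := hV.trans hvC
  have hvpos : 0 < vC G Y ε₁ q := lt_of_lt_of_le (by positivity) hV'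
  have herr : ∀ a ∈ range q, (H : ℝ) * (Y : ℝ) ^ (-(ε / 16)) ≤ f / 2 * (NC q X a * vC G Y ε₁ q) := by
    intro a ha
    have hNr : (H : ℝ) ≤ NC q X a := by exact_mod_cast hNC a ha
    have h2 : (Y : ℝ) ^ (-(ε / 16)) = (Y : ℝ) ^ (-(ε / 32)) * (Y : ℝ) ^ (-(ε / 32)) := by
      rw [← Real.rpow_add hY0]
      congr 1
      ring
    have h3 : (Y : ℝ) ^ (-(ε / 32)) ≤ f / 2 := by
      rw [Real.rpow_neg hY0.le, inv_le_comm₀ (by positivity) (by positivity)]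
      rw [inv_div]
      exact e2
    rw [h2]
    calc (H : ℝ) * ((Y : ℝ) ^ (-(ε / 32)) * (Y : ℝ) ^ (-(ε / 32))) ≤
        NC q X a * (f / 2 * vC G Y ε₁ q) := by
          apply mul_le_mul hNr _ (by positivity) (Nat.cast_nonneg _)
          exact mul_le_mul h3 hV' (by positivity) (by positivity)
      _ = _ := by ring
  have hsub : (range q).filter (fun a => ((posC G Y ζ υ aw bw q X a).card : ℝ) <
          f / 2 * (NC q X a * vC G Y ε₁ q)) ⊆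
      (range q).filter (fun a => (H : ℝ) * (Y : ℝ) ^ (-(ε / 16)) <
        |TC (UU G (PQ Y υ q) c) q X a|) := by
    intro a ha
    rw [mem_filter] at ha ⊢
    refine ⟨ha.1, ?_⟩
    by_contra hcon
    push Not at hcon
    apply absurd ha.2 (not_lt.2 _)
    have hN0 : (0 : ℝ) ≤ NC q X a := Nat.cast_nonneg _
    have herra := herr a ha.1
    have hr : ((posC G Y ζ υ aw bw q X a).card : ℝ) =
        ∑ N ∈ (range X).filter (fun N => (N + 1) % q = a),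
        (if 0 < WW Y ζ υ aw bw (cop Y υ q (G.eval ((N + 1 : ℕ) : ℤ)).natAbs)
          then (1 : ℝ) else 0) := by
      unfold posC
      rw [card_filter]
      push_cast
      rfl
    have g3 : ∑ N ∈ (range X).filter (fun N => (N + 1) % q = a), VV (PQ Y υ q) c
        (fun p => if p ∣ (G.eval ((N + 1 : ℕ) : ℤ)).natAbs then 1 else 0) ≤
        ((posC G Y ζ υ aw bw q X a).card : ℝ) := by
      rw [hr]
      apply sum_le_sum
      intro N _
      have h5 := ind_res Y υ q c (G.eval ((N + 1 : ℕ) : ℤ)).natAbs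
      have h6 := c3 (cop Y υ q (G.eval ((N + 1 : ℕ) : ℤ)).natAbs)
      have h7 : VV (PZ Y υ) c (fun p => if p ∣ cop Y υ q (G.eval ((N + 1 : ℕ) : ℤ)).natAbs
          then 1 else 0) = VV (PQ Y υ q) c
          (fun p => if p ∣ (G.eval ((N + 1 : ℕ) : ℤ)).natAbs then 1 else 0) := h5.1
      rw [h7] at h6
      refine h6.trans ?_
      have h8 := WW_le_one Y ζ υ aw bw hb hab (cop Y υ q (G.eval ((N + 1 : ℕ) : ℤ)).natAbs)
      split_ifs with h9
      · exact h8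
      · exact not_lt.1 h9
    rw [wsumC G (PQ Y υ q) hPQ c q X a] at g3
    have g4 := mul_le_mul_of_nonneg_left m1 hN0
    have g5 := neg_le_of_abs_le hcon
    have g6 : (NC q X a : ℝ) * (f * vC G Y ε₁ q) =
        f / 2 * (NC q X a * vC G Y ε₁ q) + f / 2 * (NC q X a * vC G Y ε₁ q) := by ring
    rw [g6] at g4
    linarith
  calc (((range q).filter (fun a => ((posC G Y ζ υ aw bw q X a).card : ℝ) <
          f / 2 * (NC q X a * vC G Y ε₁ q))).card : ℝ) ≤ _ := by exact_mod_cast card_le_card hsub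
    _ ≤ _ := hA1
    _ ≤ ((X + (Y : ℝ) ^ (2 * τ)) * (Y : ℝ) ^ (ε / 2)) / (H : ℝ) ^ 2 * (Y : ℝ) ^ (ε / 2) := by
        apply mul_le_mul_of_nonneg_right _ (by positivity)
        apply div_le_div_of_nonneg_right _ (by positivity)
        have h1 : (Y : ℝ) ^ (2 * τ') ≤ (Y : ℝ) ^ (2 * τ) * (Y : ℝ) ^ (ε / 2) := by
          rw [← Real.rpow_add hY0]
          exact Real.rpow_le_rpow_of_exponent_le hY1r (by linarith)
        have h3 : (1 : ℝ) ≤ (Y : ℝ) ^ (ε / 2) := Real.one_le_rpow hY1r (by linarith)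
        have h4 : (0 : ℝ) ≤ X := Nat.cast_nonneg _
        nlinarith
    _ = (X + (Y : ℝ) ^ (2 * τ)) / (H : ℝ) ^ 2 * ((Y : ℝ) ^ (ε / 2) * (Y : ℝ) ^ (ε / 2)) := by ring
    _ = _ := by
        rw [← Real.rpow_add hY0]
        congr 2
        ring

theorem few_large (Y q : ℕ) (ζ : ℝ) (hY : 3 ≤ Y) (hq : 0 < q) (hqY : q ≤ Y) (S : Finset ℕ)
    (hS : ∀ p ∈ S, p.Prime ∧ p ∣ q ∧ (Y : ℝ) ^ ζ ≤ p) : (S.card : ℝ) * ζ ≤ 1 := by
  have hYr : (3 : ℝ) ≤ Y := by exact_mod_cast hY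
  have hY0 : (0 : ℝ) < Y := by linarith
  have h3 : ∏ p ∈ S, p ∣ q := by
    apply Finset.prod_primes_dvd
    · intro p hp
      exact (hS p hp).1.prime
    · intro p hp
      exact (hS p hp).2.1
  have h4 : ((∏ p ∈ S, p : ℕ) : ℝ) ≤ Y := by
    exact_mod_cast (Nat.le_of_dvd hq h3).trans hqY
  have h5 : ((Y : ℝ) ^ ζ) ^ S.card ≤ ((∏ p ∈ S, p : ℕ) : ℝ) := by
    push_cast
    rw [← prod_const]
    apply Finset.prod_le_prod
    · intro _ _; positivity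
    · intro p hp
      exact (hS p hp).2.2
  have h6 : (Y : ℝ) ^ (ζ * S.card) ≤ (Y : ℝ) ^ (1 : ℝ) := by
    rw [Real.rpow_mul hY0.le, Real.rpow_natCast, Real.rpow_one]
    exact h5.trans h4
  have h7 := (Real.rpow_le_rpow_left_iff (by linarith : (1 : ℝ) < Y)).1 h6
  linarith

/-- the density in the admissible classes -/
theorem clsG_low (K : ℕ) (ζ : ℝ) (hζ : 0 < ζ) : ∃ Y0 : ℕ, ∀ Y : ℕ, Y0 ≤ Y →
    ∀ (G : ℤ[X]) (q : ℕ), (∀ p : ℕ, p.Prime → ro G 0 p ≤ K) → 0 < q → q ≤ Y →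
      (q : ℝ) / 2 * vv G Y ζ ≤ clsG G q * vC G Y ζ q := by
  classical
  have ev1 : ∀ᶠ Y : ℕ in atTop, (2 * K / ζ + K : ℝ) ≤ (Y : ℝ) ^ ζ :=
    ((tendsto_rpow_atTop hζ).comp tendsto_natCast_atTop_atTop).eventually_ge_atTop _
  obtain ⟨Y1, hY1⟩ := eventually_atTop.1 (ev1.and (eventually_ge_atTop 3))
  refine ⟨Y1, fun Y hY G q hK hq hqY => ?_⟩
  obtain ⟨e1, e2⟩ := hY1 Y hY
  have hYr : (3 : ℝ) ≤ Y := by exact_mod_cast e2
  have hY0 : (0 : ℝ) < Y := by linarith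
  have hq0 : (0 : ℝ) < q := by exact_mod_cast hq
  have hYζ : 0 < (Y : ℝ) ^ ζ := by positivity
  have hK0 : (0 : ℝ) ≤ K := Nat.cast_nonneg _
  have h1 := class_prod G q hq q.primeFactors (fun p hp =>
    ⟨Nat.prime_of_mem_primeFactors hp, Nat.dvd_of_mem_primeFactors hp⟩)
  have h2 : ((range q).filter (fun a : ℕ => ∀ p ∈ q.primeFactors,
      ¬ p ∣ (G.eval (a : ℤ)).natAbs)).card ≤ clsG G q := by
    unfold clsG
    apply card_le_card
    intro a ha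
    rw [mem_filter] at ha ⊢
    refine ⟨ha.1, ?_⟩
    rw [Nat.coprime_iff_gcd_eq_one]
    by_contra hne
    obtain ⟨p, hp, hpd⟩ := Nat.exists_prime_and_dvd hne
    have h3 := hpd.trans (Nat.gcd_dvd_left _ _)
    have h4 := hpd.trans (Nat.gcd_dvd_right _ _)
    exact ha.2 p (Nat.mem_primeFactors.2 ⟨hp, h4, hq.ne'⟩) h3
  have h3 : (q : ℝ) * ∏ p ∈ q.primeFactors, (1 - (ro G 0 p : ℝ) / p) ≤ clsG G q := by
    rw [← h1]
    exact_mod_cast h2
  set S := q.primeFactors.filter (fun p => ¬ p ∈ PZ Y ζ) with hS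
  have hSprop : ∀ p ∈ S, p.Prime ∧ p ∣ q ∧ (Y : ℝ) ^ ζ ≤ p := by
    intro p hp
    rw [hS, mem_filter] at hp
    have hpp := Nat.prime_of_mem_primeFactors hp.1
    have hpq := Nat.dvd_of_mem_primeFactors hp.1
    refine ⟨hpp, hpq, ?_⟩
    by_contra hlt
    push Not at hlt
    apply hp.2
    unfold PZ
    rw [mem_filter, mem_Icc]
    exact ⟨⟨hpp.one_le, (Nat.le_of_dvd hq hpq).trans hqY⟩, hpp,
      (tt_lt Y p ζ (by omega) hpp.pos).2 hlt⟩
  have hk := few_large Y q ζ e2 hq hqY S hSprop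
  have hhalf : 1 / 2 ≤ ∏ p ∈ S, (1 - (ro G 0 p : ℝ) / p) := by
    have hx0 : K / (Y : ℝ) ^ ζ ≤ 1 := by
      rw [div_le_one hYζ]
      have : 0 ≤ 2 * (K : ℝ) / ζ := by positivity
      linarith
    calc (1 / 2 : ℝ) ≤ 1 + (S.card : ℝ) * (-(K / (Y : ℝ) ^ ζ)) := by
          have g1 : (S.card : ℝ) ≤ 1 / ζ := by
            rw [le_div_iff₀ hζ]
            exact hk
          have g2 : (S.card : ℝ) * (K / (Y : ℝ) ^ ζ) ≤ 1 / ζ * (K / (Y : ℝ) ^ ζ) :=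
            mul_le_mul_of_nonneg_right g1 (by positivity)
          have g3 : 1 / ζ * (K / (Y : ℝ) ^ ζ) ≤ 1 / 2 := by
            have : 1 / ζ * (K / (Y : ℝ) ^ ζ) = (K / ζ) / (Y : ℝ) ^ ζ := by ring
            rw [this, div_le_iff₀ hYζ]
            have : 2 * (K : ℝ) / ζ = 2 * (K / ζ) := by ring
            linarith
          linarith
      _ ≤ (1 + -(K / (Y : ℝ) ^ ζ)) ^ S.card := one_add_mul_le_pow (by linarith) _
      _ = ∏ _p ∈ S, (1 + -(K / (Y : ℝ) ^ ζ)) := by rw [prod_const]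
      _ ≤ ∏ p ∈ S, (1 - (ro G 0 p : ℝ) / p) := by
          apply Finset.prod_le_prod
          · intro _ _
            linarith
          · intro p hp
            obtain ⟨u1, u2, u3⟩ := hSprop p hp
            have hp0 : (0 : ℝ) < p := by exact_mod_cast u1.pos
            have : (ro G 0 p : ℝ) / p ≤ K / (Y : ℝ) ^ ζ := by
              apply div_le_div₀ hK0 _ hYζ u3
              exact_mod_cast hK p u1
            linarith
  have hsplit : ∏ p ∈ q.primeFactors, (1 - (ro G 0 p : ℝ) / p) =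
      (∏ p ∈ q.primeFactors.filter (fun p => p ∈ PZ Y ζ), (1 - (ro G 0 p : ℝ) / p)) *
      ∏ p ∈ S, (1 - (ro G 0 p : ℝ) / p) :=
    (prod_filter_mul_prod_filter_not q.primeFactors (fun p => p ∈ PZ Y ζ) _).symm
  have hset : q.primeFactors.filter (fun p => p ∈ PZ Y ζ) = (PZ Y ζ).filter (fun p => p ∣ q) := by
    ext p
    rw [mem_filter, mem_filter, Nat.mem_primeFactors]
    constructor
    · rintro ⟨⟨_, u2, _⟩, u3⟩
      exact ⟨u3, u2⟩
    · rintro ⟨u1, u2⟩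
      exact ⟨⟨PZ_prime Y ζ p u1, u2, hq.ne'⟩, u1⟩
  have h4 : vv G Y ζ = (∏ p ∈ (PZ Y ζ).filter (fun p => p ∣ q), (1 - (ro G 0 p : ℝ) / p)) *
      vC G Y ζ q := by
    unfold vv vC PQ
    rw [prod_filter_mul_prod_filter_not]
  rw [hsplit, hset] at h3
  set P1 := ∏ p ∈ (PZ Y ζ).filter (fun p => p ∣ q), (1 - (ro G 0 p : ℝ) / p) with hP1
  set P2 := ∏ p ∈ S, (1 - (ro G 0 p : ℝ) / p) with hP2
  have hP10 : 0 ≤ P1 := prod_nonneg fun p hp => (fac01 G p (PZ_prime Y ζ p (mem_filter.1 hp).1)).1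
  have hv0 := vC_nonnegG G Y ζ q
  rw [h4]
  calc (q : ℝ) / 2 * (P1 * vC G Y ζ q) = (q * (P1 * (1 / 2))) * vC G Y ζ q := by ring
    _ ≤ (q * (P1 * P2)) * vC G Y ζ q := by
        apply mul_le_mul_of_nonneg_right _ hv0
        apply mul_le_mul_of_nonneg_left _ hq0.le
        exact mul_le_mul_of_nonneg_left hhalf hP10
    _ ≤ clsG G q * vC G Y ζ q := mul_le_mul_of_nonneg_right h3 hv0

theorem WW_cgr (Y : ℕ) (ζ υ a b : ℝ) (hζυ : ζ ≤ υ) (V V' : ℕ)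
    (h : ∀ p ∈ PZ Y υ, (p ∣ V ↔ p ∣ V')) : WW Y ζ υ a b V = WW Y ζ υ a b V' := by
  have h1 : PZ Y ζ ⊆ PZ Y υ := by
    intro p hp
    unfold PZ at hp ⊢
    rw [mem_filter] at hp ⊢
    exact ⟨hp.1, hp.2.1, hp.2.2.trans_le hζυ⟩
  have h2 : pr Y ζ υ ⊆ PZ Y υ := by
    intro p hp
    unfold pr at hp
    unfold PZ
    rw [mem_filter] at hp ⊢
    exact ⟨hp.1, hp.2.1, hp.2.2.2⟩
  have h3 : (∀ p ∈ PZ Y ζ, ¬ p ∣ V) ↔ ∀ p ∈ PZ Y ζ, ¬ p ∣ V' := by
    constructor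
    · intro h4 p hp hd
      exact h4 p hp ((h p (h1 hp)).2 hd)
    · intro h4 p hp hd
      exact h4 p hp ((h p (h1 hp)).1 hd)
  have h4 : ∑ q ∈ pr Y ζ υ, (a - b * tt Y q) * (if q ∣ V then (1 : ℝ) else 0) =
      ∑ q ∈ pr Y ζ υ, (a - b * tt Y q) * (if q ∣ V' then (1 : ℝ) else 0) := by
    apply sum_congr rfl
    intro p hp
    have h5 := h p (h2 hp)
    by_cases h6 : p ∣ V
    · rw [if_pos h6, if_pos (h5.1 h6)]
    · rw [if_neg h6, if_neg (fun h7 => h6 (h5.2 h7))]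
  unfold WW
  rw [h4]
  by_cases h5 : ∀ p ∈ PZ Y ζ, ¬ p ∣ V
  · rw [if_pos h5, if_pos (h3.1 h5)]
  · rw [if_neg h5, if_neg (fun h6 => h5 (h3.2 h6))]

theorem cop_dvd (Y : ℕ) (υ : ℝ) (q V p : ℕ) (hp : p ∈ PZ Y υ) :
    p ∣ cop Y υ q V ↔ ¬ p ∣ q ∧ p ∣ V := by
  unfold cop
  rw [(PZ_prime Y υ p hp).prime.dvd_finset_prod_iff]
  constructor
  · rintro ⟨l, hl, hpl⟩
    rw [mem_filter] at hl
    have hl1 := hl.1
    unfold PQ at hl1
    rw [mem_filter] at hl1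
    have : p = l := (Nat.prime_dvd_prime_iff_eq (PZ_prime Y υ p hp)
      (PZ_prime Y υ l hl1.1)).1 hpl
    subst this
    exact ⟨hl1.2, hl.2⟩
  · rintro ⟨h1, h2⟩
    refine ⟨p, ?_, dvd_rfl⟩
    rw [mem_filter]
    refine ⟨?_, h2⟩
    unfold PQ
    rw [mem_filter]
    exact ⟨hp, h1⟩

end Pool.Agent.H662.RC
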