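import Pool.Agent.H662.RC.Few

/-! Few residue classes with a large error term: uniform version. -/

set_option autoImplicit false

namespace Pool.Agent.H662.RC

open Finset Polynomial Filter
open Pool.Agent.Y882.PX
open Pool.Agent.Y882.SI

open Classical in
/-- few residue classes with a large error term -/
theorem few_errU (K : ℕ) (ε : ℝ) (hε : 0 < ε) :
    ∃ Y0 : ℕ, ∀ Y : ℕ, Y0 ≤ Y → ∀ (τ' : ℝ), 0 < τ' → τ' ≤ 1 →
      ∀ (F : ℤ[X]) (P : Finset ℕ) (c : Finset ℕ → ℝ) (X q : ℕ) (H : ℝ),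
      (∀ p ∈ P, p.Prime) → (∀ p ∈ P, ro F 0 p ≤ K) → (∀ p ∈ P, ¬ p ∣ q) →
      (∀ T, |c T| ≤ (Y : ℝ) ^ (ε / 64)) →
      (∀ T ⊆ P, c T ≠ 0 → ((∏ p ∈ T, p : ℕ) : ℝ) ≤ (Y : ℝ) ^ τ') → 0 < q → q ≤ Y → 0 < H →
      (((range q).filter (fun a => H * (Y : ℝ) ^ (-(ε / 16)) < |TC (UU F P c) q X a|)).card : ℝ) ≤
      (X + (Y : ℝ) ^ (2 * τ')) / H ^ 2 * (Y : ℝ) ^ (ε / 2) := by
  obtain ⟨C, hC1, HC⟩ := pow_card_le K (ε / 32) (by positivity)
  have ev1 : ∀ᶠ Y : ℕ in atTop, 96 * (C + 1) ^ 2 * (Real.log ((Y : ℝ))) ^ 5 ≤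
      (Y : ℝ) ^ (ε / 32) := by
    have h1 : Tendsto (fun x : ℝ => Real.log x ^ (5 : ℝ) / x ^ (ε / 32)) atTop (nhds 0) := by
      have := isLittleO_log_rpow_rpow_atTop (5 : ℝ) (show 0 < ε / 32 by linarith)
      exact this.tendsto_div_nhds_zero
    have h2 := h1.eventually_le_const (show (0 : ℝ) < 1 / (96 * (C + 1) ^ 2) by
      positivity)
    have h3 := tendsto_natCast_atTop_atTop.eventually (h2.and (eventually_gt_atTop (0 : ℝ)))
    filter_upwards [h3] with X hX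
    obtain ⟨h4, h5⟩ := hX
    have h6 : (0 : ℝ) < (X : ℝ) ^ (ε / 32) := by positivity
    rw [div_le_div_iff₀ h6 (by positivity), one_mul] at h4
    have h7 : Real.log (X : ℝ) ^ (5 : ℝ) = Real.log (X : ℝ) ^ (5 : ℕ) := by
      rw [← Real.rpow_natCast]
      norm_num
    rw [h7] at h4
    linarith
  obtain ⟨Y1, hY1⟩ := eventually_atTop.1 (ev1.and (eventually_ge_atTop 3))
  refine ⟨Y1, fun Y hY τ' hτ0 hτ1 F P c X q H hP hK hPq hc1 hc2 hq hqY hH => ?_⟩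
  obtain ⟨e1, e3⟩ := hY1 Y hY
  have hY3 : (3 : ℝ) ≤ Y := by exact_mod_cast e3
  have hY0 : (0 : ℝ) < Y := by linarith
  have hY1r : (1 : ℝ) ≤ Y := by linarith
  have hq0 : (0 : ℝ) < q := by exact_mod_cast hq
  have hlY1 : 1 ≤ Real.log Y := by
    rw [Real.le_log_iff_exp_le (by linarith)]
    linarith [Real.exp_one_lt_d9]
  set D : ℕ := ⌊(Y : ℝ) ^ τ'⌋₊ with hD
  have hYτ1 : (1 : ℝ) ≤ (Y : ℝ) ^ τ' := Real.one_le_rpow (by linarith) hτ0.le
  have hD1 : 1 ≤ D := by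
    rw [hD]
    exact Nat.le_floor (by exact_mod_cast hYτ1)
  have hDle : (D : ℝ) ≤ (Y : ℝ) ^ τ' := Nat.floor_le (by positivity)
  have hDY : (D : ℝ) ≤ Y := by
    refine hDle.trans ?_
    calc (Y : ℝ) ^ τ' ≤ (Y : ℝ) ^ (1 : ℝ) := Real.rpow_le_rpow_of_exponent_le (by linarith) hτ1
      _ = Y := Real.rpow_one _
  have hB : ∀ T ⊆ P, ∏ p ∈ T, p ≤ D →
      (ro F 0 (∏ p ∈ T, p) : ℝ) ≤ C * (Y : ℝ) ^ (ε / 32) := by
    intro T hT hTD
    have hTp : ∀ p ∈ T, p.Prime := fun p hp => hP p (hT hp)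
    refine (Pool.Agent.Y882.PY.ro_le_pow2 F K 0 T hTp (fun p hp => hK p (hT hp))).trans
      ((HC T hTp).trans ?_)
    apply mul_le_mul_of_nonneg_left _ (by linarith)
    have h1 : ((∏ p ∈ T, p : ℕ) : ℝ) ≤ (Y : ℝ) ^ τ' := le_trans (by exact_mod_cast hTD) hDle
    calc ((∏ p ∈ T, p : ℕ) : ℝ) ^ (ε / 32) ≤ ((Y : ℝ) ^ (1 : ℝ)) ^ (ε / 32) :=
          Real.rpow_le_rpow (Nat.cast_nonneg _)
            (h1.trans (Real.rpow_le_rpow_of_exponent_le (by linarith) hτ1)) (by positivity)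
      _ = (Y : ℝ) ^ (ε / 32) := by rw [Real.rpow_one]
  have herr := err_sq_cls F P hP c ((Y : ℝ) ^ (ε / 64)) hc1 D hD1 (C * (Y : ℝ) ^ (ε / 32)) hB (by
    intro T hT hcT
    exact Nat.le_floor (hc2 T hT hcT)) X q hq hPq
  set A := (range q).filter (fun a => H * (Y : ℝ) ^ (-(ε / 16)) < |TC (UU F P c) q X a|) with hA
  have hYe : (0 : ℝ) < (Y : ℝ) ^ (-(ε / 16)) := by positivity
  have hlDY : Real.log D ≤ Real.log Y := Real.log_le_log (by exact_mod_cast hD1) hDY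
  have hlqY : Real.log q ≤ Real.log Y := Real.log_le_log hq0 (by exact_mod_cast hqY)
  have hlD0 : 0 ≤ Real.log D := Real.log_natCast_nonneg D
  have hlq0 : 0 ≤ Real.log q := Real.log_natCast_nonneg q
  set E : ℝ := (X : ℝ) + (Y : ℝ) ^ (2 * τ') with hE
  have hE0 : 0 ≤ E := by positivity
  have hX0 : (0 : ℝ) ≤ X := Nat.cast_nonneg _
  have hsum : 2 * X + (D : ℝ) ^ 2 * (1 + 2 * Real.log D) ≤ 3 * Real.log Y * E := by
    have h3 : (D : ℝ) ^ 2 ≤ (Y : ℝ) ^ (2 * τ') := by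
      calc (D : ℝ) ^ 2 ≤ ((Y : ℝ) ^ τ') ^ 2 := pow_le_pow_left₀ (Nat.cast_nonneg _) hDle 2
        _ = (Y : ℝ) ^ (2 * τ') := by
            rw [← Real.rpow_natCast, ← Real.rpow_mul hY0.le]
            congr 1
            push_cast
            ring
    have h4 : (D : ℝ) ^ 2 * (1 + 2 * Real.log D) ≤ (Y : ℝ) ^ (2 * τ') * (3 * Real.log Y) :=
      mul_le_mul h3 (by linarith) (by linarith) (by positivity)
    have h5 : 2 * (X : ℝ) ≤ 3 * Real.log Y * X := by nlinarith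
    rw [hE]
    linarith
  have p1 : ((Y : ℝ) ^ (ε / 64) * (C * (Y : ℝ) ^ (ε / 32))) ^ 2 =
      C ^ 2 * ((Y : ℝ) ^ (ε / 32) * (Y : ℝ) ^ (ε / 16)) := by
    rw [mul_pow, mul_pow, ← Real.rpow_natCast ((Y : ℝ) ^ (ε / 32)), ← Real.rpow_mul hY0.le,
      ← Real.rpow_natCast ((Y : ℝ) ^ (ε / 64)), ← Real.rpow_mul hY0.le]
    push_cast
    rw [show ε / 64 * 2 = ε / 32 by ring, show ε / 32 * 2 = ε / 16 by ring]
    ring
  have h1 : (A.card : ℝ) * (H * (Y : ℝ) ^ (-(ε / 16))) ^ 2 ≤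
      96 * (C + 1) ^ 2 * (Real.log Y) ^ 5 * ((Y : ℝ) ^ (ε / 32) * (Y : ℝ) ^ (ε / 16) * E) := by
    calc (A.card : ℝ) * (H * (Y : ℝ) ^ (-(ε / 16))) ^ 2 =
        ∑ k ∈ A, (H * (Y : ℝ) ^ (-(ε / 16))) ^ 2 := by rw [sum_const, nsmul_eq_mul]
      _ ≤ ∑ a ∈ A, TC (UU F P c) q X a ^ 2 := by
          apply sum_le_sum
          intro a ha
          rw [hA, mem_filter] at ha
          rw [← sq_abs (TC (UU F P c) q X a)]
          exact pow_le_pow_left₀ (by positivity) ha.2.le 2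
      _ ≤ ∑ a ∈ range q, TC (UU F P c) q X a ^ 2 :=
          sum_le_sum_of_subset_of_nonneg (filter_subset _ _) (fun _ _ _ => by positivity)
      _ ≤ _ := herr
      _ ≤ 3 * Real.log Y * E * ((C ^ 2 * ((Y : ℝ) ^ (ε / 32) * (Y : ℝ) ^ (ε / 16))) *
          (2 * Real.log Y) ^ 3 * (4 * Real.log Y)) := by
          rw [p1]
          apply mul_le_mul hsum _ (by positivity) (by positivity)
          apply mul_le_mul _ (by linarith) (by linarith) (by positivity)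
          apply mul_le_mul_of_nonneg_left _ (by positivity)
          exact pow_le_pow_left₀ (by linarith) (by linarith) 3
      _ = 96 * C ^ 2 * (Real.log Y) ^ 5 * ((Y : ℝ) ^ (ε / 32) * (Y : ℝ) ^ (ε / 16) * E) := by ring
      _ ≤ _ := by
          have hCC : C ^ 2 ≤ (C + 1) ^ 2 := by nlinarith
          have : 0 ≤ Real.log Y := by linarith
          gcongr
  have h3 : 96 * (C + 1) ^ 2 * (Real.log Y) ^ 5 * ((Y : ℝ) ^ (ε / 32) * (Y : ℝ) ^ (ε / 16) * E) ≤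
      (E / H ^ 2 * (Y : ℝ) ^ (ε / 2)) * (H * (Y : ℝ) ^ (-(ε / 16))) ^ 2 := by
    calc 96 * (C + 1) ^ 2 * (Real.log Y) ^ 5 * ((Y : ℝ) ^ (ε / 32) * (Y : ℝ) ^ (ε / 16) * E) ≤
        (Y : ℝ) ^ (ε / 32) * ((Y : ℝ) ^ (ε / 32) * (Y : ℝ) ^ (ε / 16) * E) :=
          mul_le_mul_of_nonneg_right e1 (by positivity)
      _ = (Y : ℝ) ^ (ε / 8) * E := by
          have : (Y : ℝ) ^ (ε / 8) = (Y : ℝ) ^ (ε / 32) * ((Y : ℝ) ^ (ε / 32) * (Y : ℝ) ^ (ε / 16)) := by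
            rw [← Real.rpow_add hY0, ← Real.rpow_add hY0]
            congr 1
            ring
          rw [this]
          ring
      _ ≤ (Y : ℝ) ^ (ε / 2 + -(ε / 16) * 2) * E := by
          apply mul_le_mul_of_nonneg_right _ (by positivity)
          exact Real.rpow_le_rpow_of_exponent_le hY1r (by linarith)
      _ = _ := by
          rw [Real.rpow_add hY0, Real.rpow_mul hY0.le (-(ε / 16)) 2]
          rw [show ((Y : ℝ) ^ (-(ε / 16))) ^ (2 : ℝ) = ((Y : ℝ) ^ (-(ε / 16))) ^ 2 by norm_num]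
          field_simp
  exact le_of_mul_le_mul_right (h1.trans h3) (by positivity)

end Pool.Agent.H662.RC
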