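import Pool.Agent.H662.RC.EngW
import Pool.Agent.Y882.MG.EngS
import Pool.Agent.Y882.KW.Num

/-! Almost prime values of quadratic polynomials in almost all residue classes. -/

set_option autoImplicit false

namespace Pool.Agent.H662.RC

open Finset Polynomial Filter
open Pool.Agent.W23.DC
open Pool.Agent.Y882
open Pool.Agent.Y882.PX
open Pool.Agent.Y882.SI
open Pool.Agent.Y882.JR
open Pool.Agent.Y882.KW
open Pool.Agent.Y882.MG

theorem sq_countG (a b c : ℤ) (p : ℕ) (hp : p.Prime) (hpa : ¬ (p : ℤ) ∣ a)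
    (hpD : ¬ (p : ℤ) ∣ b ^ 2 - 4 * a * c) (M : ℕ) :
    ((((Icc 1 M).filter (fun n : ℕ =>
      ((p ^ 2 : ℕ) : ℤ) ∣ (QG a b c).eval (n : ℤ))).card : ℕ) : ℝ) ≤
      2 * (M / (p : ℝ) ^ 2 + 1) := by
  classical
  set A := (Icc 1 M).filter (fun n : ℕ => ((p ^ 2 : ℕ) : ℤ) ∣ (QG a b c).eval (n : ℤ)) with hA
  rcases A.eq_empty_or_nonempty with h | ⟨n0, hn0⟩
  · rw [h]
    simp only [card_empty, Nat.cast_zero]
    positivity
  have hm : 0 < p ^ 2 := pow_pos hp.pos 2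
  have hpZ : Prime (p : ℤ) := Nat.prime_iff_prime_int.1 hp
  rw [hA, mem_filter, QG_eval] at hn0
  set B := A.filter (fun n : ℕ => ((p ^ 2 : ℕ) : ℤ) ∣ a * ((n : ℤ) + n0) + b) with hB
  have hkey : ∀ n ∈ A, ((p ^ 2 : ℕ) : ℤ) ∣ (n : ℤ) - n0 ∨ n ∈ B := by
    intro n hn
    have hn' := hn
    rw [hA, mem_filter, QG_eval] at hn'
    have h3 : ((p ^ 2 : ℕ) : ℤ) ∣ ((n : ℤ) - n0) * (a * ((n : ℤ) + n0) + b) := by
      have := dvd_sub hn'.2 hn0.2
      have e : a * (n : ℤ) ^ 2 + b * n + c - (a * (n0 : ℤ) ^ 2 + b * n0 + c) =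
          ((n : ℤ) - n0) * (a * ((n : ℤ) + n0) + b) := by ring
      rwa [e] at this
    by_cases h4 : (p : ℤ) ∣ (n : ℤ) - n0
    · left
      have h5 : ¬ (p : ℤ) ∣ a * ((n : ℤ) + n0) + b := by
        intro h6
        apply hpD
        have h7 : (p : ℤ) ∣ 2 * a * n + b := by
          have h8 := dvd_add (Dvd.dvd.mul_left h4 a) h6
          have e : a * ((n : ℤ) - n0) + (a * ((n : ℤ) + n0) + b) = 2 * a * n + b := by ring
          rwa [e] at h8
        have h9 : (p : ℤ) ∣ a * (n : ℤ) ^ 2 + b * n + c := by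
          refine dvd_trans ?_ hn'.2
          push_cast
          exact dvd_pow_self _ (by norm_num)
        have h10 := dvd_sub (Dvd.dvd.mul_left h7 (2 * a * n + b)) (Dvd.dvd.mul_left h9 (4 * a))
        have e : (2 * a * (n : ℤ) + b) * (2 * a * n + b) - 4 * a * (a * (n : ℤ) ^ 2 + b * n + c) =
            b ^ 2 - 4 * a * c := by ring
        rwa [e] at h10
      have h6 : IsCoprime ((p ^ 2 : ℕ) : ℤ) (a * ((n : ℤ) + n0) + b) := by
        push_cast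
        apply IsCoprime.pow_left
        exact (Prime.coprime_iff_not_dvd hpZ).2 h5
      exact h6.dvd_of_dvd_mul_right h3
    · right
      rw [hB, mem_filter]
      refine ⟨hn, ?_⟩
      have h6 : IsCoprime ((p ^ 2 : ℕ) : ℤ) ((n : ℤ) - n0) := by
        push_cast
        apply IsCoprime.pow_left
        exact (Prime.coprime_iff_not_dvd hpZ).2 h4
      exact h6.dvd_of_dvd_mul_left h3
  obtain ⟨n1, hn1⟩ : ∃ n1 : ℕ, ∀ n ∈ B, ((p ^ 2 : ℕ) : ℤ) ∣ (n : ℤ) - n1 := by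
    rcases B.eq_empty_or_nonempty with h | ⟨n1, hn1⟩
    · refine ⟨0, fun n hn => ?_⟩
      rw [h] at hn
      exact absurd hn (notMem_empty _)
    · refine ⟨n1, fun n hn => ?_⟩
      rw [hB, mem_filter] at hn hn1
      have h5 := dvd_sub hn.2 hn1.2
      have e : a * ((n : ℤ) + n0) + b - (a * ((n1 : ℤ) + n0) + b) = a * ((n : ℤ) - n1) := by ring
      rw [e] at h5
      have h6 : IsCoprime ((p ^ 2 : ℕ) : ℤ) a := by
        push_cast
        apply IsCoprime.pow_left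
        exact (Prime.coprime_iff_not_dvd hpZ).2 hpa
      exact h6.dvd_of_dvd_mul_left h5
  have hsub : A ⊆ (Icc 1 M).filter (fun n : ℕ => ((p ^ 2 : ℕ) : ℤ) ∣ (n : ℤ) - (n0 : ℤ)) ∪
      (Icc 1 M).filter (fun n : ℕ => ((p ^ 2 : ℕ) : ℤ) ∣ (n : ℤ) - (n1 : ℤ)) := by
    intro n hn
    have hn' := hn
    rw [hA, mem_filter] at hn'
    rw [mem_union, mem_filter, mem_filter]
    rcases hkey n hn with h | h
    · exact Or.inl ⟨hn'.1, h⟩
    · exact Or.inr ⟨hn'.1, hn1 n h⟩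
  have c1 := class_count (p ^ 2) hm M (n0 : ℤ)
  have c2 := class_count (p ^ 2) hm M (n1 : ℤ)
  have h3 : ((A.card : ℕ) : ℝ) ≤
      (((Icc 1 M).filter (fun n : ℕ => ((p ^ 2 : ℕ) : ℤ) ∣ (n : ℤ) - (n0 : ℤ))).card : ℝ) +
      (((Icc 1 M).filter (fun n : ℕ => ((p ^ 2 : ℕ) : ℤ) ∣ (n : ℤ) - (n1 : ℤ))).card : ℝ) := by
    exact_mod_cast (card_le_card hsub).trans (card_union_le _ _)
  refine h3.trans ((add_le_add c1 c2).trans (le_of_eq ?_))
  push_cast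
  ring

open Classical in
/-- the integers with a value divisible by the square of a medium prime -/
noncomputable def sqs (a b c : ℤ) (ζ υ : ℝ) (X : ℕ) : Finset ℕ :=
  (range X).filter (fun N => ∃ p ∈ pr X ζ υ, p ^ 2 ∣ ((QG a b c).eval ((N + 1 : ℕ) : ℤ)).natAbs)

theorem sq_total (a b c : ℤ) (ha : a ≠ 0) (hD : b ^ 2 - 4 * a * c ≠ 0) (ζ υ : ℝ) (hζ : 0 < ζ) :
    ∃ X0 : ℕ, ∀ X : ℕ, X0 ≤ X →
      ((sqs a b c ζ υ X).card : ℝ) ≤ 4 * (X : ℝ) ^ (1 - ζ) + 2 * (X : ℝ) ^ υ := by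
  classical
  have ev1 : ∀ᶠ Y : ℕ in atTop, ((a.natAbs + (b ^ 2 - 4 * a * c).natAbs + 2 : ℕ) : ℝ) <
      (Y : ℝ) ^ ζ :=
    ((tendsto_rpow_atTop hζ).comp tendsto_natCast_atTop_atTop).eventually_gt_atTop _
  obtain ⟨X1, hX1⟩ := eventually_atTop.1 (ev1.and (eventually_ge_atTop 3))
  refine ⟨X1, fun X hX => ?_⟩
  obtain ⟨e1, e2⟩ := hX1 X hX
  have hXr : (3 : ℝ) ≤ X := by exact_mod_cast e2
  have hX0 : (0 : ℝ) < X := by linarith
  have hprm : ∀ p ∈ pr X ζ υ, p.Prime ∧ (X : ℝ) ^ ζ ≤ p ∧ (p : ℝ) ≤ (X : ℝ) ^ υ := by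
    intro p hp
    obtain ⟨u1, u2, u3⟩ := pr_mem X p ζ υ (by omega) hp
    exact ⟨u1, u2, u3.le⟩
  have hz2 : (2 : ℝ) ≤ (X : ℝ) ^ ζ := by
    have h0 : ((2 : ℕ) : ℝ) ≤ ((a.natAbs + (b ^ 2 - 4 * a * c).natAbs + 2 : ℕ) : ℝ) :=
      Nat.cast_le.2 (Nat.le_add_left 2 _)
    have h1 : ((2 : ℕ) : ℝ) ≤ (X : ℝ) ^ ζ := h0.trans e1.le
    exact_mod_cast h1
  have hsub : sqs a b c ζ υ X ⊆ (pr X ζ υ).biUnion (fun p => (range X).filter
      (fun N => p ^ 2 ∣ ((QG a b c).eval ((N + 1 : ℕ) : ℤ)).natAbs)) := by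
    intro N hN
    unfold sqs at hN
    rw [mem_filter] at hN
    obtain ⟨hN1, p, hp, hd⟩ := hN
    rw [mem_biUnion]
    exact ⟨p, hp, mem_filter.2 ⟨hN1, hd⟩⟩
  have hone : ∀ p ∈ pr X ζ υ, (((range X).filter
      (fun N => p ^ 2 ∣ ((QG a b c).eval ((N + 1 : ℕ) : ℤ)).natAbs)).card : ℝ) ≤
      2 * (X * (1 / (p : ℝ) ^ 2) + 1) := by
    intro p hp
    obtain ⟨u1, u2, u3⟩ := hprm p hp
    have u4 : a.natAbs + (b ^ 2 - 4 * a * c).natAbs + 2 < p := by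
      have : ((a.natAbs + (b ^ 2 - 4 * a * c).natAbs + 2 : ℕ) : ℝ) < p := e1.trans_le u2
      exact_mod_cast this
    have hpa : ¬ (p : ℤ) ∣ a := by
      intro hd
      have := Nat.le_of_dvd (Int.natAbs_pos.2 ha) (Int.natCast_dvd.1 hd)
      omega
    have hpD : ¬ (p : ℤ) ∣ b ^ 2 - 4 * a * c := by
      intro hd
      have := Nat.le_of_dvd (Int.natAbs_pos.2 hD) (Int.natCast_dvd.1 hd)
      omega
    have h5 := sq_countG a b c p u1 hpa hpD X
    have h6 : ((range X).filter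
      (fun N => p ^ 2 ∣ ((QG a b c).eval ((N + 1 : ℕ) : ℤ)).natAbs)).card ≤
      ((Icc 1 X).filter (fun n : ℕ => ((p ^ 2 : ℕ) : ℤ) ∣ (QG a b c).eval (n : ℤ))).card := by
      apply card_le_card_of_injOn (fun N => N + 1)
      · intro N hN
        rw [mem_coe, mem_filter, mem_range] at hN
        rw [mem_coe, mem_filter, mem_Icc]
        exact ⟨⟨Nat.succ_le_succ (Nat.zero_le N), hN.1⟩, Int.natCast_dvd.2 hN.2⟩
      · intro N _ N' _ h
        exact Nat.succ_injective h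
    have h7 : (((range X).filter
      (fun N => p ^ 2 ∣ ((QG a b c).eval ((N + 1 : ℕ) : ℤ)).natAbs)).card : ℝ) ≤
      ((((Icc 1 X).filter (fun n : ℕ =>
        ((p ^ 2 : ℕ) : ℤ) ∣ (QG a b c).eval (n : ℤ))).card : ℕ) : ℝ) := by exact_mod_cast h6
    refine h7.trans (h5.trans (le_of_eq ?_))
    ring
  have h1 : ((sqs a b c ζ υ X).card : ℝ) ≤ ∑ p ∈ pr X ζ υ, 2 * (X * (1 / (p : ℝ) ^ 2) + 1) := by
    calc ((sqs a b c ζ υ X).card : ℝ) ≤ (((pr X ζ υ).biUnion (fun p => (range X).filter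
      (fun N => p ^ 2 ∣ ((QG a b c).eval ((N + 1 : ℕ) : ℤ)).natAbs))).card : ℝ) := by
          exact_mod_cast card_le_card hsub
      _ ≤ ((∑ p ∈ pr X ζ υ, ((range X).filter
      (fun N => p ^ 2 ∣ ((QG a b c).eval ((N + 1 : ℕ) : ℤ)).natAbs)).card : ℕ) : ℝ) := by
          exact_mod_cast card_biUnion_le
      _ = ∑ p ∈ pr X ζ υ, (((range X).filter
      (fun N => p ^ 2 ∣ ((QG a b c).eval ((N + 1 : ℕ) : ℤ)).natAbs)).card : ℝ) := by push_cast; rfl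
      _ ≤ _ := sum_le_sum hone
  have h2 := tail_sq (pr X ζ υ) ((X : ℝ) ^ ζ) hz2 (fun p hp => (hprm p hp).2.1)
  have h3 := card_lt (pr X ζ υ) ((X : ℝ) ^ υ) (by positivity) (fun p hp =>
    ⟨(hprm p hp).1.one_le, (hprm p hp).2.2⟩)
  rw [← mul_sum, sum_add_distrib, ← mul_sum, sum_const, nsmul_eq_mul, mul_one] at h1
  have h4 : (X : ℝ) * (2 / (X : ℝ) ^ ζ) = 2 * (X : ℝ) ^ (1 - ζ) := by
    rw [Real.rpow_sub hX0, Real.rpow_one]
    ring
  have h5 : (X : ℝ) * ∑ p ∈ pr X ζ υ, 1 / (p : ℝ) ^ 2 ≤ X * (2 / (X : ℝ) ^ ζ) :=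
    mul_le_mul_of_nonneg_left h2 hX0.le
  linarith

open Classical in
/-- the number of the `n ≤ X`, `n ≡ t mod q`, at which the value has at most `r` prime factors, all of
them at least `w` -/
noncomputable def almC (a b c : ℤ) (r : ℕ) (w : ℝ) (X q t : ℕ) : ℕ :=
  ((Icc 1 X).filter (fun n : ℕ => n ≡ t [MOD q] ∧
    (a * (n : ℤ) ^ 2 + b * (n : ℤ) + c).natAbs.primeFactorsList.length ≤ r ∧
    ∀ p : ℕ, p.Prime → p ∣ (a * (n : ℤ) ^ 2 + b * (n : ℤ) + c).natAbs → w ≤ p)).card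

theorem size_QG (a b c : ℤ) (S : ℝ) (hS : 2 < S) : ∃ X0 : ℕ, ∀ X : ℕ, X0 ≤ X → ∀ n : ℕ, 1 ≤ n →
    n ≤ X → ((a * (n : ℤ) ^ 2 + b * (n : ℤ) + c).natAbs : ℝ) ≤ (X : ℝ) ^ S := by
  have ev : ∀ᶠ Y : ℕ in atTop, |(a : ℝ)| + |(b : ℝ)| + |(c : ℝ)| ≤ (Y : ℝ) ^ (S - 2) :=
    ((tendsto_rpow_atTop (by linarith)).comp tendsto_natCast_atTop_atTop).eventually_ge_atTop _
  obtain ⟨X0, hX0⟩ := eventually_atTop.1 (ev.and (eventually_ge_atTop 3))
  refine ⟨X0, fun X hX n hn hnX => ?_⟩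
  obtain ⟨e1, e2⟩ := hX0 X hX
  have hXr : (3 : ℝ) ≤ X := by exact_mod_cast e2
  have hXp : (0 : ℝ) < X := by linarith
  have hn1 : (1 : ℝ) ≤ n := by exact_mod_cast hn
  have hnr : (n : ℝ) ≤ X := by exact_mod_cast hnX
  have h1 : ((a * (n : ℤ) ^ 2 + b * (n : ℤ) + c).natAbs : ℝ) =
      |(a : ℝ) * (n : ℝ) ^ 2 + b * n + c| := by
    rw [Nat.cast_natAbs]
    push_cast
    rfl
  have ha := abs_nonneg (a : ℝ)
  have hb := abs_nonneg (b : ℝ)
  have hc := abs_nonneg (c : ℝ)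
  have hX2 : (n : ℝ) ^ 2 ≤ (X : ℝ) ^ 2 := pow_le_pow_left₀ (by linarith) hnr 2
  have hnX2 : (n : ℝ) ≤ (X : ℝ) ^ 2 := by nlinarith
  have h1X2 : (1 : ℝ) ≤ (X : ℝ) ^ 2 := by nlinarith
  rw [h1]
  calc |(a : ℝ) * (n : ℝ) ^ 2 + b * n + c| ≤ |(a : ℝ) * (n : ℝ) ^ 2 + b * n| + |(c : ℝ)| :=
        abs_add_le _ _
    _ ≤ |(a : ℝ) * (n : ℝ) ^ 2| + |(b : ℝ) * n| + |(c : ℝ)| := by
        have := abs_add_le ((a : ℝ) * (n : ℝ) ^ 2) ((b : ℝ) * n)
        linarith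
    _ = |(a : ℝ)| * (n : ℝ) ^ 2 + |(b : ℝ)| * n + |(c : ℝ)| * 1 := by
        rw [abs_mul, abs_mul, abs_of_nonneg (show (0 : ℝ) ≤ (n : ℝ) ^ 2 by positivity),
          abs_of_nonneg (show (0 : ℝ) ≤ (n : ℝ) by positivity), mul_one]
    _ ≤ |(a : ℝ)| * (X : ℝ) ^ 2 + |(b : ℝ)| * (X : ℝ) ^ 2 + |(c : ℝ)| * (X : ℝ) ^ 2 := by
        gcongr
    _ = (|(a : ℝ)| + |(b : ℝ)| + |(c : ℝ)|) * (X : ℝ) ^ 2 := by ring
    _ ≤ (X : ℝ) ^ (S - 2) * (X : ℝ) ^ 2 := mul_le_mul_of_nonneg_right e1 (by positivity)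
    _ = (X : ℝ) ^ S := by
        rw [← Real.rpow_two, ← Real.rpow_add hXp]
        congr 1
        ring

theorem QG_ne (a b c : ℤ) (hD : ¬ IsSquare (b ^ 2 - 4 * a * c)) (n : ℤ) :
    a * n ^ 2 + b * n + c ≠ 0 := by
  intro h
  apply hD
  refine ⟨2 * a * n + b, ?_⟩
  linear_combination (-4 * a) * h

open Classical in
/-- **Almost prime values in almost all residue classes.** -/
theorem finW (a b c : ℤ) (ha : 0 < a)
    (hg : ∀ p : ℕ, p.Prime → (p : ℤ) ∣ a → (p : ℤ) ∣ b → ¬ (p : ℤ) ∣ c)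
    (h2' : ¬ ((2 : ℤ) ∣ a + b ∧ (2 : ℤ) ∣ c)) (hD : ¬ IsSquare (b ^ 2 - 4 * a * c))
    (r : ℕ) (τ ζ υ lam S θ : ℝ) (hζ : 0 < ζ) (h2 : 2 * ζ < τ)
    (h4 : τ ≤ 4 * ζ) (hτ : τ < 1) (hτ2 : 1 / 2 ≤ τ) (hζυ : ζ ≤ υ) (hυτ : υ < τ)
    (hlam : 0 < lam)
    (hJ0 : ∫ x in ζ..υ, (lam - lam / υ * x) / (τ - x) / x < Real.log (τ / ζ - 1) / τ) (hS : 2 < S)
    (hr : 1 / lam + S / υ ≤ r + 1) (hθ0 : 0 < θ) (hθ : θ + 2 * τ < 2) :
    ∃ δ κ : ℝ, 0 < δ ∧ 0 < κ ∧ ∀ᶠ X : ℕ in atTop, ∀ q : ℕ, 0 < q → (q : ℝ) ≤ (X : ℝ) ^ θ →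
      (((range q).filter (fun t : ℕ => ((QG a b c).eval (t : ℤ)).natAbs.Coprime q ∧
        (almC a b c r ((X : ℝ) ^ ζ) X q t : ℝ) <
          δ * (X / (clsG (QG a b c) q * Real.log X)))).card : ℝ) ≤
      clsG (QG a b c) q * (X : ℝ) ^ (-κ) := by
  obtain ⟨C, hC, _, hReg⟩ := Reg_quad a b c ha hg h2' hD
  have hθ1 : θ < 1 := by linarith
  have hυ0 : 0 < υ := by linarith
  have hυ1 : υ ≤ 1 := by linarith
  have hD0 : b ^ 2 - 4 * a * c ≠ 0 := by
    intro h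
    apply hD
    rw [h]
    exact ⟨0, by ring⟩
  obtain ⟨κ, hκ, k1, k2, k3⟩ : ∃ κ : ℝ, 0 < κ ∧ κ ≤ (2 - θ - 2 * τ) / 8 ∧ κ ≤ ζ / 8 ∧
      κ ≤ (1 - υ) / 8 :=
    ⟨min (min ((2 - θ - 2 * τ) / 8) (ζ / 8)) ((1 - υ) / 8),
      lt_min (lt_min (by linarith) (by linarith)) (by linarith),
      (min_le_left _ _).trans (min_le_left _ _), (min_le_left _ _).trans (min_le_right _ _),
      min_le_right _ _⟩
  obtain ⟨K, hK⟩ := hReg.le
  obtain ⟨δ₁, ε₁, η, hδ₁, hε₁, hε₁ζ, hη, Y1, HE⟩ := engW K τ ζ υ lam (lam / υ) κ hζ h2 h4 hτ hζυ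
    hυτ hlam.le (by positivity) (by rw [div_mul_cancel₀ _ hυ0.ne']) hJ0 hκ
  obtain ⟨Y2, HM⟩ := hReg.mer ε₁ υ η hε₁ hυ1 hη
  obtain ⟨c₀, hc₀, HL⟩ := hReg.low
  obtain ⟨Y3, HC⟩ := clsG_low K ε₁ hε₁
  obtain ⟨Y4, HQ⟩ := sq_total a b c ha.ne' hD0 ζ υ hζ
  obtain ⟨Y5, HS⟩ := size_QG a b c S hS
  have hXr : Tendsto (fun X : ℕ => (X : ℝ)) atTop atTop := tendsto_natCast_atTop_atTop
  have ev3 : ∀ᶠ Y : ℕ in atTop, Real.log Y / c₀ ≤ (Y : ℝ) ^ (κ / 32) := by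
    have h1 := (isLittleO_log_rpow_atTop (show 0 < κ / 32 by linarith)).bound hc₀
    filter_upwards [tendsto_natCast_atTop_atTop.eventually h1, eventually_ge_atTop 1] with Y hY hY1
    have hY1r : (1 : ℝ) ≤ Y := by exact_mod_cast hY1
    rw [Real.norm_of_nonneg (Real.log_nonneg hY1r), Real.norm_of_nonneg (by positivity)] at hY
    rw [div_le_iff₀ hc₀]
    linarith
  have ev4 : ∀ᶠ Y : ℕ in atTop, (14 : ℝ) ≤ (Y : ℝ) ^ κ :=
    ((tendsto_rpow_atTop hκ).comp hXr).eventually_ge_atTop _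
  have ev5 : ∀ᶠ Y : ℕ in atTop, 8 / (δ₁ * c₀) * Real.log Y ≤ (Y : ℝ) ^ κ := by
    have h1 := (isLittleO_log_rpow_atTop hκ).bound (show 0 < δ₁ * c₀ / 8 by positivity)
    filter_upwards [tendsto_natCast_atTop_atTop.eventually h1, eventually_ge_atTop 1] with Y hY hY1
    have hY1r : (1 : ℝ) ≤ Y := by exact_mod_cast hY1
    rw [Real.norm_of_nonneg (Real.log_nonneg hY1r), Real.norm_of_nonneg (by positivity)] at hY
    rw [div_mul_eq_mul_div, div_le_iff₀ (by positivity)]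
    linarith
  refine ⟨δ₁ * c₀ / 8, κ, by positivity, hκ, ?_⟩
  filter_upwards [ev3, ev4, ev5, eventually_ge_atTop 3, eventually_ge_atTop Y1,
    eventually_ge_atTop Y2, eventually_ge_atTop Y3, eventually_ge_atTop Y4,
    eventually_ge_atTop Y5] with X e3 e4 e5 hX3 hX1 hX2 hXY3 hXY4 hXY5 q hq hqX
  set G : ℤ[X] := QG a b c with hG
  have hX3r : (3 : ℝ) ≤ X := by exact_mod_cast hX3
  have hX0 : (0 : ℝ) < X := by linarith
  have hX1r : (1 : ℝ) ≤ X := by linarith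
  have hl : 0 < Real.log X := Real.log_pos (by linarith)
  have hq0 : (0 : ℝ) < q := by exact_mod_cast hq
  have hqX' : (q : ℝ) ≤ X := by
    refine hqX.trans ?_
    calc (X : ℝ) ^ θ ≤ (X : ℝ) ^ (1 : ℝ) := Real.rpow_le_rpow_of_exponent_le hX1r hθ1.le
      _ = X := Real.rpow_one _
  have hqXn : q ≤ X := by exact_mod_cast hqX'
  have hH : 0 < X / q := Nat.div_pos hqXn hq
  have hlo := lo_vvG G X ε₁
  have hL := HL X hX3
  have hlo0 : 0 < lo G X := lt_of_lt_of_le (by positivity) hL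
  have hLX : (X : ℝ) ^ (-(κ / 32)) ≤ lo G X := by
    refine le_trans ?_ hL
    rw [Real.rpow_neg hX0.le]
    have h6 := inv_anti₀ (show 0 < Real.log X / c₀ by positivity) e3
    rwa [inv_div] at h6
  have hV : (X : ℝ) ^ (-(κ / 32)) ≤ vv G X ε₁ := hLX.trans hlo
  have hA := HE X hX1 G X q (X / q) hK hq hqXn hH
    (fun t ht => le_NC q X t hq (mem_range.1 ht)) hV (HM X hX2)
  have hclo := clsG_lo G X q hq hqXn
  have hcl : (0 : ℝ) < clsG G q := lt_of_lt_of_le (by positivity) hclo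
  have hclq : (clsG G q : ℝ) ≤ q := by exact_mod_cast clsG_le G q
  have hcV := HC X hXY3 G q hK hq hqXn
  have hsq := HQ X hXY4
  have hHr : (X : ℝ) / (2 * q) ≤ ((X / q : ℕ) : ℝ) := by
    have h1 : X < (X / q + 1) * q := by
      have := Nat.div_add_mod X q
      have h2 := Nat.mod_lt X hq
      nlinarith
    have h2 : (X : ℝ) < (((X / q : ℕ) : ℝ) + 1) * q := by exact_mod_cast h1
    have h3 : (1 : ℝ) ≤ ((X / q : ℕ) : ℝ) := by exact_mod_cast hH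
    rw [div_le_iff₀ (by positivity)]
    nlinarith
  have hXκ : (0 : ℝ) < (X : ℝ) ^ κ := by positivity
  have hXκn : (X : ℝ) ^ (-κ) = 1 / (X : ℝ) ^ κ := by
    rw [Real.rpow_neg hX0.le, one_div]
  -- the two exceptional sets
  set E1 := (range q).filter (fun t => ((posC G X ζ υ lam (lam / υ) q X t).card : ℝ) <
          δ₁ * (NC q X t * vC G X ε₁ q)) with hE1
  set fib : ℕ → Finset ℕ := fun t => (sqs a b c ζ υ X).filter (fun N => (N + 1) % q = t) with hfib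
  set E2 := (range q).filter (fun t => (X : ℝ) / q * (X : ℝ) ^ (-κ) < ((fib t).card : ℝ)) with hE2
  have hE2c : (E2.card : ℝ) ≤ 6 * (q * (X : ℝ) ^ (-(7 * κ))) := by
    have h1 : ∑ t ∈ range q, ((fib t).card : ℝ) = ((sqs a b c ζ υ X).card : ℝ) := by
      have := card_eq_sum_card_fiberwise (f := fun N => (N + 1) % q) (s := sqs a b c ζ υ X)
        (t := range q) (fun N _ => by
          rw [mem_coe, mem_range]
          exact Nat.mod_lt _ hq)
      rw [this]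
      push_cast
      rfl
    have h3 : (E2.card : ℝ) * ((X : ℝ) / q * (X : ℝ) ^ (-κ)) ≤ ∑ t ∈ range q, ((fib t).card : ℝ) := by
      calc (E2.card : ℝ) * ((X : ℝ) / q * (X : ℝ) ^ (-κ)) =
          ∑ _t ∈ E2, ((X : ℝ) / q * (X : ℝ) ^ (-κ)) := by rw [sum_const, nsmul_eq_mul]
        _ ≤ ∑ t ∈ E2, ((fib t).card : ℝ) := by
            apply sum_le_sum
            intro t ht
            rw [hE2, mem_filter] at ht
            exact ht.2.le
        _ ≤ _ := sum_le_sum_of_subset_of_nonneg (filter_subset _ _)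
            (fun _ _ _ => Nat.cast_nonneg _)
    rw [h1] at h3
    have h5 : ((sqs a b c ζ υ X).card : ℝ) ≤ 6 * (X : ℝ) ^ (1 - 8 * κ) := by
      refine hsq.trans ?_
      have u1 : (X : ℝ) ^ (1 - ζ) ≤ (X : ℝ) ^ (1 - 8 * κ) :=
        Real.rpow_le_rpow_of_exponent_le hX1r (by linarith)
      have u2 : (X : ℝ) ^ υ ≤ (X : ℝ) ^ (1 - 8 * κ) :=
        Real.rpow_le_rpow_of_exponent_le hX1r (by linarith)
      linarith
    have h6 : 6 * (X : ℝ) ^ (1 - 8 * κ) =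
        6 * (q * (X : ℝ) ^ (-(7 * κ))) * ((X : ℝ) / q * (X : ℝ) ^ (-κ)) := by
      have u1 : (X : ℝ) ^ (1 - 8 * κ) = (X : ℝ) ^ (-(7 * κ)) * (X : ℝ) ^ (1 : ℝ) * (X : ℝ) ^ (-κ) := by
        rw [← Real.rpow_add hX0, ← Real.rpow_add hX0]
        congr 1
        ring
      rw [u1, Real.rpow_one]
      field_simp
    rw [h6] at h5
    exact le_of_mul_le_mul_right (h3.trans h5) (by positivity)
  have hE1c : (E1.card : ℝ) ≤ 8 * (q * (X : ℝ) ^ (-(7 * κ))) := by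
    calc (E1.card : ℝ) ≤ (X + (X : ℝ) ^ (2 * τ)) / ((X / q : ℕ) : ℝ) ^ 2 * (X : ℝ) ^ κ := hA
      _ ≤ (2 * (X : ℝ) ^ (2 * τ)) / ((X : ℝ) / (2 * q)) ^ 2 * (X : ℝ) ^ κ := by
          have u1 : (X : ℝ) ≤ (X : ℝ) ^ (2 * τ) := by
            calc (X : ℝ) = (X : ℝ) ^ (1 : ℝ) := (Real.rpow_one _).symm
              _ ≤ _ := Real.rpow_le_rpow_of_exponent_le hX1r (by linarith)
          apply mul_le_mul_of_nonneg_right _ (by positivity)
          apply div_le_div₀ (by positivity) (by linarith) (by positivity)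
          exact pow_le_pow_left₀ (by positivity) hHr 2
      _ = 8 * (q * q * ((X : ℝ) ^ (2 * τ) / (X : ℝ) ^ (2 : ℝ))) * (X : ℝ) ^ κ := by
          rw [Real.rpow_two]
          field_simp
          ring
      _ ≤ 8 * (q * (X : ℝ) ^ θ * ((X : ℝ) ^ (2 * τ) / (X : ℝ) ^ (2 : ℝ))) * (X : ℝ) ^ κ := by
          gcongr
      _ = 8 * (q * (X : ℝ) ^ (θ + (2 * τ - 2) + κ)) := by
          rw [← Real.rpow_sub hX0, Real.rpow_add hX0, Real.rpow_add hX0]
          ring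
      _ ≤ 8 * (q * (X : ℝ) ^ (-(7 * κ))) := by
          apply mul_le_mul_of_nonneg_left _ (by norm_num)
          apply mul_le_mul_of_nonneg_left _ hq0.le
          apply Real.rpow_le_rpow_of_exponent_le hX1r
          linarith
  have hsub : (range q).filter (fun t : ℕ => (G.eval (t : ℤ)).natAbs.Coprime q ∧
        (almC a b c r ((X : ℝ) ^ ζ) X q t : ℝ) < δ₁ * c₀ / 8 * (X / (clsG G q * Real.log X))) ⊆
      E1 ∪ E2 := by
    intro t ht
    rw [mem_filter] at ht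
    obtain ⟨ht1, ht2, ht3⟩ := ht
    have htq : t < q := mem_range.1 ht1
    rw [mem_union]
    by_contra hcon
    push Not at hcon
    obtain ⟨hc1, hc2⟩ := hcon
    apply absurd ht3 (not_lt.2 _)
    have g1 : δ₁ * (NC q X t * vC G X ε₁ q) ≤ ((posC G X ζ υ lam (lam / υ) q X t).card : ℝ) := by
      by_contra h'
      exact hc1 (by rw [hE1, mem_filter]; exact ⟨ht1, not_le.1 h'⟩)
    have g2 : ((fib t).card : ℝ) ≤ (X : ℝ) / q * (X : ℝ) ^ (-κ) := by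
      by_contra h'
      exact hc2 (by rw [hE2, mem_filter]; exact ⟨ht1, not_le.1 h'⟩)
    -- the almost primes
    have g3 : (posC G X ζ υ lam (lam / υ) q X t \ fib t).card ≤
        almC a b c r ((X : ℝ) ^ ζ) X q t := by
      unfold almC
      apply card_le_card_of_injOn (fun N => N + 1)
      · intro N hN
        rw [mem_coe, Finset.mem_sdiff] at hN
        obtain ⟨hN1, hN2⟩ := hN
        unfold posC at hN1
        rw [mem_filter, mem_filter, mem_range] at hN1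
        obtain ⟨⟨u1, u2⟩, u3⟩ := hN1
        have hnsq : ∀ p ∈ pr X ζ υ, ¬ p ^ 2 ∣ (G.eval ((N + 1 : ℕ) : ℤ)).natAbs := by
          intro p hp hd
          apply hN2
          rw [hfib]
          show N ∈ (sqs a b c ζ υ X).filter (fun N => (N + 1) % q = t)
          rw [mem_filter]
          refine ⟨?_, u2⟩
          unfold sqs
          rw [mem_filter, mem_range]
          exact ⟨u1, p, hp, hd⟩
        have hev : (G.eval ((N + 1 : ℕ) : ℤ)) =
            a * ((N + 1 : ℕ) : ℤ) ^ 2 + b * ((N + 1 : ℕ) : ℤ) + c := by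
          rw [hG, QG_eval]
        have hmodeq : (N + 1) ≡ t [MOD q] := by
          unfold Nat.ModEq
          rw [u2, Nat.mod_eq_of_lt htq]
        have hcopr : ∀ p : ℕ, p.Prime → p ∣ q → ¬ p ∣ (G.eval ((N + 1 : ℕ) : ℤ)).natAbs := by
          intro p hp hpq hd
          have v1 : (p : ℤ) ∣ G.eval ((N + 1 : ℕ) : ℤ) := Int.natCast_dvd.2 hd
          have v2 : (p : ℤ) ∣ ((N + 1 : ℕ) : ℤ) - (t : ℤ) := by
            have v3 : (q : ℤ) ∣ ((N + 1 : ℕ) : ℤ) - (t : ℤ) :=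
              (Nat.modEq_iff_dvd.1 hmodeq.symm)
            exact dvd_trans (by exact_mod_cast hpq) v3
          have v4 : ((N + 1 : ℕ) : ℤ) - (t : ℤ) ∣ G.eval ((N + 1 : ℕ) : ℤ) - G.eval (t : ℤ) :=
            sub_dvd_eval_sub _ _ _
          have v5 : (p : ℤ) ∣ G.eval (t : ℤ) := by
            have := dvd_sub v1 (v2.trans v4)
            rwa [sub_sub_cancel] at this
          have v6 := Nat.eq_one_of_dvd_coprimes ht2 (Int.natCast_dvd.1 v5) hpq
          exact hp.one_lt.ne' v6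
        have hWW : WW X ζ υ lam (lam / υ) (cop X υ q (G.eval ((N + 1 : ℕ) : ℤ)).natAbs) =
            WW X ζ υ lam (lam / υ) (G.eval ((N + 1 : ℕ) : ℤ)).natAbs := by
          apply WW_cgr X ζ υ _ _ hζυ
          intro p hp
          rw [cop_dvd X υ q _ p hp]
          constructor
          · exact fun h => h.2
          · intro h
            exact ⟨fun hpq => hcopr p (PZ_prime X υ p hp) hpq h, h⟩
        rw [hWW] at u3
        have hne : (G.eval ((N + 1 : ℕ) : ℤ)).natAbs ≠ 0 := by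
          rw [Int.natAbs_ne_zero, hev]
          exact QG_ne a b c hD _
        have hsz := HS X hXY5 (N + 1) (by omega) (by omega)
        rw [← hev] at hsz
        have hal := almost X (by omega) ζ υ lam S r hζυ hυ0 hυ1 hlam hr
          (G.eval ((N + 1 : ℕ) : ℤ)).natAbs hne hsz u3 hnsq
        rw [hev] at hal
        show N + 1 ∈ _
        rw [mem_coe, mem_filter, mem_Icc]
        exact ⟨⟨by omega, by omega⟩, hmodeq, hal.1, hal.2⟩
      · intro N _ N' _ h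
        exact Nat.succ_injective h
    have g4 : ((posC G X ζ υ lam (lam / υ) q X t).card : ℝ) - ((fib t).card : ℝ) ≤
        (almC a b c r ((X : ℝ) ^ ζ) X q t : ℝ) := by
      have h1 := le_card_sdiff (fib t) (posC G X ζ υ lam (lam / υ) q X t)
      have h3 : (posC G X ζ υ lam (lam / υ) q X t).card ≤
          almC a b c r ((X : ℝ) ^ ζ) X q t + (fib t).card := by omega
      have h5 : ((posC G X ζ υ lam (lam / υ) q X t).card : ℝ) ≤
          (almC a b c r ((X : ℝ) ^ ζ) X q t : ℝ) + ((fib t).card : ℝ) := by exact_mod_cast h3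
      linarith
    refine le_trans ?_ g4
    -- the sizes
    have hNC : (X : ℝ) / (2 * q) ≤ NC q X t := by
      refine hHr.trans ?_
      exact_mod_cast le_NC q X t hq htq
    have hvC0 := vC_nonnegG G X ε₁ q
    have w1 : (q : ℝ) / 2 * (c₀ / Real.log X) ≤ clsG G q * vC G X ε₁ q := by
      refine le_trans ?_ hcV
      apply mul_le_mul_of_nonneg_left _ (by positivity)
      exact hL.trans hlo
    have w2 : δ₁ * c₀ / 4 * (X / (clsG G q * Real.log X)) ≤ δ₁ * (NC q X t * vC G X ε₁ q) := by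
      have v1 : δ₁ * ((X : ℝ) / (2 * q) * vC G X ε₁ q) ≤ δ₁ * (NC q X t * vC G X ε₁ q) := by
        apply mul_le_mul_of_nonneg_left _ hδ₁.le
        exact mul_le_mul_of_nonneg_right hNC hvC0
      refine le_trans ?_ v1
      have v2 : δ₁ * c₀ / 4 * (X / (clsG G q * Real.log X)) =
          δ₁ * ((X : ℝ) / (2 * q)) * (((q : ℝ) / 2 * (c₀ / Real.log X)) / clsG G q) := by
        field_simp
        ring
      have v3 : ((q : ℝ) / 2 * (c₀ / Real.log X)) / clsG G q ≤ vC G X ε₁ q := by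
        rw [div_le_iff₀ hcl]
        linarith
      rw [v2]
      calc δ₁ * ((X : ℝ) / (2 * q)) * (((q : ℝ) / 2 * (c₀ / Real.log X)) / clsG G q) ≤
          δ₁ * ((X : ℝ) / (2 * q)) * vC G X ε₁ q :=
            mul_le_mul_of_nonneg_left v3 (by positivity)
        _ = _ := by ring
    have w3 : (X : ℝ) / q * (X : ℝ) ^ (-κ) ≤ δ₁ * c₀ / 8 * (X / (clsG G q * Real.log X)) := by
      have v1 : (X : ℝ) / q ≤ X / clsG G q := div_le_div_of_nonneg_left hX0.le hcl hclq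
      have v2 : (X : ℝ) ^ (-κ) ≤ δ₁ * c₀ / 8 / Real.log X := by
        rw [hXκn, div_le_div_iff₀ hXκ hl, one_mul]
        rw [div_mul_eq_mul_div, div_le_iff₀ (by positivity)] at e5
        linarith
      calc (X : ℝ) / q * (X : ℝ) ^ (-κ) ≤ X / clsG G q * (δ₁ * c₀ / 8 / Real.log X) :=
            mul_le_mul v1 v2 (by positivity) (by positivity)
        _ = _ := by field_simp
    have w4 : δ₁ * c₀ / 4 * (X / (clsG G q * Real.log X)) =
        δ₁ * c₀ / 8 * (X / (clsG G q * Real.log X)) +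
        δ₁ * c₀ / 8 * (X / (clsG G q * Real.log X)) := by ring
    linarith
  calc (((range q).filter (fun t : ℕ => (G.eval (t : ℤ)).natAbs.Coprime q ∧
        (almC a b c r ((X : ℝ) ^ ζ) X q t : ℝ) <
          δ₁ * c₀ / 8 * (X / (clsG G q * Real.log X)))).card : ℝ) ≤ ((E1 ∪ E2).card : ℝ) := by
        exact_mod_cast card_le_card hsub
    _ ≤ E1.card + E2.card := by exact_mod_cast card_union_le _ _
    _ ≤ 14 * (q * (X : ℝ) ^ (-(7 * κ))) := by linarith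
    _ ≤ (X : ℝ) ^ κ * (q * (X : ℝ) ^ (-(7 * κ))) := by gcongr
    _ = q * ((X : ℝ) ^ (-(5 * κ)) * (X : ℝ) ^ (-κ)) := by
        have u1 : (X : ℝ) ^ κ * (q * (X : ℝ) ^ (-(7 * κ))) =
            q * ((X : ℝ) ^ κ * (X : ℝ) ^ (-(7 * κ))) := by ring
        rw [u1, ← Real.rpow_add hX0, ← Real.rpow_add hX0]
        congr 2
        ring
    _ ≤ q * (lo G X * (X : ℝ) ^ (-κ)) := by
        apply mul_le_mul_of_nonneg_left _ hq0.le
        apply mul_le_mul_of_nonneg_right _ (by positivity)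
        refine le_trans ?_ hLX
        apply Real.rpow_le_rpow_of_exponent_le hX1r
        linarith
    _ = (q * lo G X) * (X : ℝ) ^ (-κ) := by ring
    _ ≤ clsG G q * (X : ℝ) ^ (-κ) := mul_le_mul_of_nonneg_right hclo (by positivity)

end Pool.Agent.H662.RC
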