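import Mathlib

/-! A lower bound for the sum in Selberg's sieve, with the sharp constant. -/

set_option autoImplicit false

namespace Pool.Agent.H662.Sel

open Finset
open ArithmeticFunction (cardFactors)

/-- no prime of `S` divides `m` -/
def cp (S : Finset ℕ) (m : ℕ) : Prop := ∀ p ∈ S, ¬ p ∣ m

open Classical in
/-- the harmonic sum -/
noncomputable def S1 (S : Finset ℕ) (x : ℕ) : ℝ := ∑ m ∈ (Icc 1 x).filter (cp S), 1 / (m : ℝ)

open Classical in
/-- the sum with weights -/
noncomputable def Hf (k : ℕ) (S : Finset ℕ) (x : ℕ) : ℝ :=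
  ∑ n ∈ (Icc 1 x).filter (cp S), (k : ℝ) ^ cardFactors n / n

/-- the density -/
noncomputable def Vs (S : Finset ℕ) : ℝ := ∏ p ∈ S, (1 - 1 / (p : ℝ))

theorem Vs_bd (S : Finset ℕ) (hS : ∀ p ∈ S, p.Prime) : 0 < Vs S ∧ Vs S ≤ 1 := by
  have h1 : ∀ p ∈ S, 0 < 1 - 1 / (p : ℝ) ∧ 1 - 1 / (p : ℝ) ≤ 1 := by
    intro p hp
    have h2 : (2 : ℝ) ≤ p := by exact_mod_cast (hS p hp).two_le
    constructor
    · rw [sub_pos, div_lt_one (by linarith)]; linarith
    · have : 0 ≤ 1 / (p : ℝ) := by positivity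
      linarith
  exact ⟨prod_pos fun p hp => (h1 p hp).1, prod_le_one (fun p hp => (h1 p hp).1.le)
    fun p hp => (h1 p hp).2⟩

theorem cp_mul (S : Finset ℕ) (hS : ∀ p ∈ S, p.Prime) (m n : ℕ) : cp S (m * n) ↔ cp S m ∧ cp S n := by
  unfold cp
  constructor
  · intro h
    exact ⟨fun p hp hd => h p hp (Dvd.dvd.mul_right hd n), fun p hp hd => h p hp (Dvd.dvd.mul_left hd m)⟩
  · rintro ⟨h1, h2⟩ p hp hd
    rcases (hS p hp).dvd_mul.1 hd with h | h
    · exact h1 p hp h
    · exact h2 p hp h

theorem S1_insert (S : Finset ℕ) (hS : ∀ p ∈ S, p.Prime) (p : ℕ) (hp : p.Prime) (hpS : p ∉ S)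
    (x : ℕ) : S1 (insert p S) x = S1 S x - 1 / (p : ℝ) * S1 S (x / p) := by
  classical
  have hcpp : cp S p := by
    intro l hl hd
    have := (Nat.prime_dvd_prime_iff_eq (hS l hl) hp).1 hd
    exact hpS (this ▸ hl)
  have h1 : S1 S x = S1 (insert p S) x + ∑ m ∈ ((Icc 1 x).filter (cp S)).filter (fun m => p ∣ m),
      1 / (m : ℝ) := by
    unfold S1
    rw [← sum_filter_add_sum_filter_not ((Icc 1 x).filter (cp S)) (fun m => ¬ p ∣ m)]
    congr 1
    · apply sum_congr _ (fun _ _ => rfl)
      ext m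
      rw [mem_filter, mem_filter, mem_filter]
      unfold cp
      rw [forall_mem_insert]
      tauto
    · apply sum_congr _ (fun _ _ => rfl)
      apply filter_congr
      intro m _
      rw [not_not]
  have h2 : ∑ m ∈ ((Icc 1 x).filter (cp S)).filter (fun m => p ∣ m), 1 / (m : ℝ) =
      1 / (p : ℝ) * S1 S (x / p) := by
    unfold S1
    rw [mul_sum]
    symm
    apply sum_bij' (i := fun m _ => p * m) (j := fun m _ => m / p)
    · intro m hm
      rw [mem_filter, mem_Icc] at hm
      rw [mem_filter, mem_filter, mem_Icc]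
      have h3 : p * m ≤ x := by
        rw [mul_comm]
        exact (Nat.le_div_iff_mul_le hp.pos).1 hm.1.2
      exact ⟨⟨⟨Nat.mul_pos hp.pos hm.1.1, h3⟩, (cp_mul S hS p m).2 ⟨hcpp, hm.2⟩⟩, dvd_mul_right p m⟩
    · intro m hm
      rw [mem_filter, mem_filter, mem_Icc] at hm
      obtain ⟨⟨⟨h3, h4⟩, h5⟩, n, rfl⟩ := hm
      rw [mem_filter, mem_Icc, Nat.mul_div_cancel_left n hp.pos]
      refine ⟨⟨Nat.pos_of_ne_zero fun h => by rw [h] at h3; omega, ?_⟩, ((cp_mul S hS p n).1 h5).2⟩
      rw [Nat.le_div_iff_mul_le hp.pos, mul_comm]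
      exact h4
    · intro m _
      exact Nat.mul_div_cancel_left m hp.pos
    · intro m hm
      rw [mem_filter] at hm
      exact Nat.mul_div_cancel' hm.2
    · intro m _
      push_cast
      rw [one_div_mul_one_div]
  rw [h1, h2]
  ring

theorem S1_asym (S : Finset ℕ) (hS : ∀ p ∈ S, p.Prime) :
    ∃ C : ℝ, 0 ≤ C ∧ ∀ x : ℕ, 1 ≤ x → |S1 S x - Vs S * Real.log x| ≤ C := by
  classical
  induction S using Finset.induction_on with
  | empty =>
    refine ⟨1, by norm_num, fun x hx => ?_⟩
    have h1 : S1 ∅ x = (harmonic x : ℝ) := by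
      unfold S1
      rw [harmonic_eq_sum_Icc]
      push_cast
      apply sum_congr
      · apply filter_true_of_mem
        intro m _ p hp
        exact absurd hp (notMem_empty p)
      · intro m _
        rw [one_div]
    have hx1 : (1 : ℝ) ≤ x := by exact_mod_cast hx
    unfold Vs
    rw [prod_empty, one_mul, h1, abs_le]
    have h2 := log_add_one_le_harmonic x
    have h3 := harmonic_le_one_add_log x
    have h4 : Real.log x ≤ Real.log ((x : ℝ) + 1) := Real.log_le_log (by linarith) (by linarith)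
    push_cast at h2
    constructor <;> linarith
  | insert p S hpS ih =>
    have hp := hS p (mem_insert_self p S)
    have hS' : ∀ l ∈ S, l.Prime := fun l hl => hS l (mem_insert_of_mem hl)
    obtain ⟨C, hC, hCx⟩ := ih hS'
    obtain ⟨hV0, hV1⟩ := Vs_bd S hS'
    have hp2 : (2 : ℝ) ≤ p := by exact_mod_cast hp.two_le
    have hp0 : (0 : ℝ) < p := by linarith
    have hlp : 0 ≤ Real.log p := Real.log_nonneg (by linarith)
    refine ⟨2 * C + 2 * Real.log p + 1, by positivity, fun x hx => ?_⟩
    have hx1 : (1 : ℝ) ≤ x := by exact_mod_cast hx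
    have h1 := hCx x hx
    rw [S1_insert S hS' p hp hpS x]
    have hVs : Vs (insert p S) = (1 - 1 / (p : ℝ)) * Vs S := by
      unfold Vs
      rw [prod_insert hpS]
    -- the second sum
    have h2 : |S1 S (x / p) - Vs S * (Real.log x - Real.log p)| ≤ C + 1 + Real.log p := by
      rcases Nat.eq_zero_or_pos (x / p) with h | h
      · rw [h]
        have h3 : S1 S 0 = 0 := by
          unfold S1
          simp
        have hxp : x < p := by
          rcases Nat.div_eq_zero_iff.1 h with h' | h'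
          · exact absurd h' hp.ne_zero
          · exact h'
        have hxp' : (x : ℝ) ≤ p := by exact_mod_cast hxp.le
        have h4 : Real.log x ≤ Real.log p := Real.log_le_log (by linarith) hxp'
        have h5 : 0 ≤ Real.log x := Real.log_nonneg hx1
        rw [h3, abs_le]
        have h6 : Vs S * (Real.log p - Real.log x) ≤ 1 * (Real.log p - Real.log x) :=
          mul_le_mul_of_nonneg_right hV1 (by linarith)
        have h7 : 0 ≤ Vs S * (Real.log p - Real.log x) := mul_nonneg hV0.le (by linarith)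
        constructor <;> linarith
      · have h3 := hCx (x / p) h
        have h4 : ((x / p : ℕ) : ℝ) ≤ x / p := Nat.cast_div_le
        have h5 : (1 : ℝ) ≤ ((x / p : ℕ) : ℝ) := by exact_mod_cast h
        have h6 : (x : ℝ) / p ≤ 2 * ((x / p : ℕ) : ℝ) := by
          have h7 : x < (x / p + 1) * p := by
            have := Nat.div_add_mod x p
            have h8 := Nat.mod_lt x hp.pos
            nlinarith
          have h8 : (x : ℝ) < (((x / p : ℕ) : ℝ) + 1) * p := by exact_mod_cast h7
          rw [div_le_iff₀ hp0]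
          nlinarith
        have h9 : Real.log ((x / p : ℕ) : ℝ) ≤ Real.log x - Real.log p := by
          rw [← Real.log_div (by linarith) hp0.ne']
          exact Real.log_le_log (by linarith) h4
        have h10 : Real.log x - Real.log p ≤ Real.log 2 + Real.log ((x / p : ℕ) : ℝ) := by
          rw [← Real.log_div (by linarith) hp0.ne', ← Real.log_mul (by norm_num) (by linarith)]
          exact Real.log_le_log (by positivity) h6
        have h11 : Real.log 2 ≤ 1 := by
          have := Real.log_two_lt_d9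
          linarith
        have h12 : |Vs S * (Real.log ((x / p : ℕ) : ℝ) - (Real.log x - Real.log p))| ≤ 1 := by
          rw [abs_mul, abs_of_pos hV0]
          calc Vs S * |Real.log ((x / p : ℕ) : ℝ) - (Real.log x - Real.log p)| ≤ 1 * 1 := by
                apply mul_le_mul hV1 _ (abs_nonneg _) (by norm_num)
                rw [abs_le]
                constructor <;> linarith
            _ = 1 := one_mul 1
        have h13 : S1 S (x / p) - Vs S * (Real.log x - Real.log p) =
            (S1 S (x / p) - Vs S * Real.log ((x / p : ℕ) : ℝ)) +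
            Vs S * (Real.log ((x / p : ℕ) : ℝ) - (Real.log x - Real.log p)) := by ring
        rw [h13]
        refine (abs_add_le _ _).trans ?_
        linarith
    have h3 : S1 S x - 1 / (p : ℝ) * S1 S (x / p) - Vs (insert p S) * Real.log x =
        (S1 S x - Vs S * Real.log x) -
        1 / (p : ℝ) * (S1 S (x / p) - Vs S * (Real.log x - Real.log p)) +
        1 / (p : ℝ) * (Vs S * Real.log p) := by
      rw [hVs]
      ring
    have hpi : 0 ≤ 1 / (p : ℝ) ∧ 1 / (p : ℝ) ≤ 1 := by
      refine ⟨by positivity, ?_⟩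
      rw [div_le_one hp0]
      linarith
    have h4 : |1 / (p : ℝ) * (S1 S (x / p) - Vs S * (Real.log x - Real.log p))| ≤
        C + 1 + Real.log p := by
      rw [abs_mul, abs_of_nonneg hpi.1]
      calc 1 / (p : ℝ) * |S1 S (x / p) - Vs S * (Real.log x - Real.log p)| ≤
          1 * (C + 1 + Real.log p) := mul_le_mul hpi.2 h2 (abs_nonneg _) (by norm_num)
        _ = _ := one_mul _
    have h5 : |1 / (p : ℝ) * (Vs S * Real.log p)| ≤ Real.log p := by
      rw [abs_of_nonneg (by positivity)]
      calc 1 / (p : ℝ) * (Vs S * Real.log p) ≤ 1 * (1 * Real.log p) := by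
            apply mul_le_mul hpi.2 _ (by positivity) (by norm_num)
            exact mul_le_mul_of_nonneg_right hV1 hlp
        _ = _ := by ring
    rw [h3]
    obtain ⟨a1, a2⟩ := abs_le.1 h1
    obtain ⟨a3, a4⟩ := abs_le.1 h4
    obtain ⟨a5, a6⟩ := abs_le.1 h5
    rw [abs_le]
    constructor <;> linarith

theorem div_sum (k N : ℕ) : N ≠ 0 →
    ∑ n ∈ N.divisors, (k : ℝ) ^ cardFactors n ≤ ((k : ℝ) + 1) ^ cardFactors N := by
  classical
  induction N using induction_on_primes with
  | zero => intro h; exact absurd rfl h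
  | one => intro _; simp
  | prime_mul p a hp ih =>
    intro h
    have ha : a ≠ 0 := fun h' => h (by rw [h', mul_zero])
    have ih' := ih ha
    have hsub : (p * a).divisors ⊆ a.divisors ∪ a.divisors.image (fun n => p * n) := by
      intro d hd
      rw [Nat.mem_divisors] at hd
      rw [mem_union, mem_image]
      by_cases hpd : p ∣ d
      · right
        obtain ⟨e, rfl⟩ := hpd
        refine ⟨e, ?_, rfl⟩
        rw [Nat.mem_divisors]
        exact ⟨Nat.dvd_of_mul_dvd_mul_left hp.pos hd.1, ha⟩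
      · left
        rw [Nat.mem_divisors]
        refine ⟨?_, ha⟩
        exact Nat.Coprime.dvd_of_dvd_mul_left ((Nat.Prime.coprime_iff_not_dvd hp).2 hpd).symm hd.1
    have hk0 : (0 : ℝ) ≤ k := Nat.cast_nonneg k
    have h1 : ∑ n ∈ (p * a).divisors, (k : ℝ) ^ cardFactors n ≤
        ∑ n ∈ a.divisors, (k : ℝ) ^ cardFactors n +
        ∑ n ∈ a.divisors.image (fun n => p * n), (k : ℝ) ^ cardFactors n := by
      refine (sum_le_sum_of_subset_of_nonneg hsub fun _ _ _ => by positivity).trans ?_
      rw [← sum_union_inter]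
      have : 0 ≤ ∑ n ∈ a.divisors ∩ a.divisors.image (fun n => p * n), (k : ℝ) ^ cardFactors n :=
        sum_nonneg fun _ _ => by positivity
      linarith
    have h2 : ∑ n ∈ a.divisors.image (fun n => p * n), (k : ℝ) ^ cardFactors n =
        k * ∑ n ∈ a.divisors, (k : ℝ) ^ cardFactors n := by
      rw [sum_image (fun x _ y _ hxy => Nat.eq_of_mul_eq_mul_left hp.pos hxy), mul_sum]
      apply sum_congr rfl
      intro n hn
      rw [Nat.mem_divisors] at hn
      have hn0 : n ≠ 0 := fun h' => hn.2 (by rw [h'] at hn; exact Nat.eq_zero_of_zero_dvd hn.1)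
      rw [ArithmeticFunction.cardFactors_mul hp.ne_zero hn0, ArithmeticFunction.cardFactors_apply_prime hp,
        add_comm, pow_succ]
      ring
    rw [ArithmeticFunction.cardFactors_mul hp.ne_zero ha, ArithmeticFunction.cardFactors_apply_prime hp,
      add_comm 1, pow_succ]
    rw [h2] at h1
    calc ∑ n ∈ (p * a).divisors, (k : ℝ) ^ cardFactors n ≤
        ∑ n ∈ a.divisors, (k : ℝ) ^ cardFactors n + k * ∑ n ∈ a.divisors, (k : ℝ) ^ cardFactors n := h1
      _ = (∑ n ∈ a.divisors, (k : ℝ) ^ cardFactors n) * (k + 1) := by ring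
      _ ≤ _ := mul_le_mul_of_nonneg_right ih' (by linarith)

theorem Hf_rec (k : ℕ) (S : Finset ℕ) (hS : ∀ p ∈ S, p.Prime) (x : ℕ) :
    haveI := Classical.decPred (cp S)
    ∑ m ∈ (Icc 1 x).filter (cp S), 1 / (m : ℝ) * Hf k S (x / m) ≤ Hf (k + 1) S x := by
  classical
  have hk0 : (0 : ℝ) ≤ k := Nat.cast_nonneg k
  set A : Finset (ℕ × ℕ) := ((Icc 1 x) ×ˢ (Icc 1 x)).filter
    (fun z => cp S z.1 ∧ cp S z.2 ∧ z.1 * z.2 ≤ x) with hA
  have h1 : ∑ m ∈ (Icc 1 x).filter (cp S), 1 / (m : ℝ) * Hf k S (x / m) =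
      ∑ z ∈ A, (k : ℝ) ^ cardFactors z.2 / ((z.1 * z.2 : ℕ) : ℝ) := by
    rw [hA, sum_filter, sum_filter, sum_product]
    apply sum_congr rfl
    intro m hm
    rw [mem_Icc] at hm
    by_cases hcm : cp S m
    · rw [if_pos hcm]
      unfold Hf
      rw [mul_sum, ← sum_filter]
      apply sum_congr
      · ext n
        rw [mem_filter, mem_filter, mem_Icc, mem_Icc]
        simp only
        rw [Nat.le_div_iff_mul_le hm.1]
        constructor
        · rintro ⟨⟨h2, h3⟩, h4⟩
          refine ⟨⟨h2, ?_⟩, hcm, h4, by rw [mul_comm]; exact h3⟩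
          calc n = n * 1 := (mul_one n).symm
            _ ≤ n * m := Nat.mul_le_mul_left n hm.1
            _ ≤ x := h3
        · rintro ⟨⟨h2, _⟩, _, h4, h5⟩
          exact ⟨⟨h2, by rw [mul_comm]; exact h5⟩, h4⟩
      · intro n _
        push_cast
        rw [one_div_mul_eq_div, div_div]
        congr 1
        ring
    · rw [if_neg hcm]
      symm
      apply sum_eq_zero
      intro n _
      rw [if_neg]
      exact fun h => hcm h.1
  rw [h1]
  have h2 : ∀ z ∈ A, z.1 * z.2 ∈ (Icc 1 x).filter (cp S) := by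
    intro z hz
    rw [hA, mem_filter, mem_product, mem_Icc, mem_Icc] at hz
    rw [mem_filter, mem_Icc]
    exact ⟨⟨Nat.mul_pos hz.1.1.1 hz.1.2.1, hz.2.2.2⟩, (cp_mul S hS _ _).2 ⟨hz.2.1, hz.2.2.1⟩⟩
  rw [← sum_fiberwise_of_maps_to h2]
  unfold Hf
  apply sum_le_sum
  intro N hN
  rw [mem_filter, mem_Icc] at hN
  have hN0 : N ≠ 0 := by omega
  have hN0' : (0 : ℝ) < N := by exact_mod_cast hN.1.1
  calc ∑ z ∈ A.filter (fun z => z.1 * z.2 = N), (k : ℝ) ^ cardFactors z.2 / ((z.1 * z.2 : ℕ) : ℝ) =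
      ∑ z ∈ A.filter (fun z => z.1 * z.2 = N), (k : ℝ) ^ cardFactors z.2 / (N : ℝ) := by
        apply sum_congr rfl
        intro z hz
        rw [(mem_filter.1 hz).2]
    _ ≤ ∑ z ∈ N.divisorsAntidiagonal, (k : ℝ) ^ cardFactors z.2 / (N : ℝ) := by
        apply sum_le_sum_of_subset_of_nonneg
        · intro z hz
          rw [Nat.mem_divisorsAntidiagonal]
          exact ⟨(mem_filter.1 hz).2, hN0⟩
        · intro _ _ _
          positivity
    _ = (∑ n ∈ N.divisors, (k : ℝ) ^ cardFactors n) / N := by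
        rw [← sum_div, ← Nat.sum_divisorsAntidiagonal' (f := fun _ n => (k : ℝ) ^ cardFactors n)]
    _ ≤ ((k : ℝ) + 1) ^ cardFactors N / N := by
        apply div_le_div_of_nonneg_right _ hN0'.le
        exact div_sum k N hN0
    _ = _ := by push_cast; rfl

theorem Hf_nonneg (k : ℕ) (S : Finset ℕ) (x : ℕ) : 0 ≤ Hf k S x :=
  sum_nonneg fun _ _ => by positivity

theorem Hf_mono (k : ℕ) (S : Finset ℕ) (x y : ℕ) (h : x ≤ y) : Hf k S x ≤ Hf k S y := by
  classical
  unfold Hf
  apply sum_le_sum_of_subset_of_nonneg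
  · intro n hn
    rw [mem_filter, mem_Icc] at hn ⊢
    exact ⟨⟨hn.1.1, hn.1.2.trans h⟩, hn.2⟩
  · intro _ _ _
    positivity

theorem choose_sum (k n : ℕ) : ∑ j ∈ range n, (n - 1 - j).choose k = n.choose (k + 1) := by
  rw [sum_range_reflect (fun i => i.choose k) n]
  induction n with
  | zero => simp
  | succ n ih => rw [sum_range_succ, ih, Nat.choose_succ_succ n k, add_comm]

/-- **the lower bound** -/
theorem Hf_low (S : Finset ℕ) (hS : ∀ p ∈ S, p.Prime) (Q : ℕ) (hQ : 1 ≤ Q) (δ : ℝ) (hδ : 0 ≤ δ)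
    (hstep : ∀ j : ℕ, δ ≤ S1 S (Q ^ (j + 1)) - S1 S (Q ^ j)) (k n : ℕ) :
    (n.choose k : ℝ) * δ ^ k ≤ Hf k S (Q ^ n) := by
  classical
  induction k generalizing n with
  | zero =>
    rw [Nat.choose_zero_right, pow_zero, mul_one]
    unfold Hf
    have h1 : (1 : ℕ) ∈ (Icc 1 (Q ^ n)).filter (cp S) := by
      rw [mem_filter, mem_Icc]
      refine ⟨⟨le_rfl, Nat.one_le_pow _ _ hQ⟩, fun p hp hd => ?_⟩
      exact (hS p hp).one_lt.ne' (Nat.dvd_one.1 hd)
    have h2 := single_le_sum (f := fun m : ℕ => ((0 : ℕ) : ℝ) ^ cardFactors m / (m : ℝ))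
      (fun _ _ => by positivity) h1
    simpa using h2
  | succ k ih =>
    refine le_trans ?_ (Hf_rec k S hS (Q ^ n))
    set F : ℕ → ℝ := fun m => 1 / (m : ℝ) * Hf k S (Q ^ n / m) with hF
    have hF0 : ∀ m, 0 ≤ F m := fun m => mul_nonneg (by positivity) (Hf_nonneg _ _ _)
    have hblock : ∀ i : ℕ, i ≤ n → ∑ j ∈ range i, δ * (((n - 1 - j).choose k : ℝ) * δ ^ k) ≤
        ∑ m ∈ (Icc 1 (Q ^ i)).filter (cp S), F m := by
      intro i
      induction i with
      | zero =>
        intro _
        rw [range_zero, sum_empty]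
        exact sum_nonneg fun m _ => hF0 m
      | succ i ihi =>
        intro hi
        have h1 := ihi (by omega)
        rw [sum_range_succ]
        have hQi : Q ^ i ≤ Q ^ (i + 1) := Nat.pow_le_pow_right hQ (Nat.le_succ i)
        have h2 : ∑ m ∈ (Icc 1 (Q ^ (i + 1))).filter (cp S), F m =
            ∑ m ∈ (Icc 1 (Q ^ i)).filter (cp S), F m +
            ∑ m ∈ (Ioc (Q ^ i) (Q ^ (i + 1))).filter (cp S), F m := by
          rw [← sum_union]
          · apply sum_congr _ (fun _ _ => rfl)
            ext m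
            rw [mem_union, mem_filter, mem_filter, mem_filter, mem_Icc, mem_Icc, mem_Ioc]
            constructor
            · rintro ⟨⟨h3, h4⟩, h5⟩
              rcases le_or_gt m (Q ^ i) with h | h
              · exact Or.inl ⟨⟨h3, h⟩, h5⟩
              · exact Or.inr ⟨⟨h, h4⟩, h5⟩
            · rintro (⟨⟨h3, h4⟩, h5⟩ | ⟨⟨h3, h4⟩, h5⟩)
              · exact ⟨⟨h3, h4.trans hQi⟩, h5⟩
              · exact ⟨⟨by omega, h4⟩, h5⟩
          · rw [disjoint_left]
            intro m hm hm'
            rw [mem_filter, mem_Icc] at hm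
            rw [mem_filter, mem_Ioc] at hm'
            omega
        have h3 : ∑ m ∈ (Ioc (Q ^ i) (Q ^ (i + 1))).filter (cp S), 1 / (m : ℝ) =
            S1 S (Q ^ (i + 1)) - S1 S (Q ^ i) := by
          rw [eq_sub_iff_add_eq]
          unfold S1
          rw [← sum_union]
          · apply sum_congr _ (fun _ _ => rfl)
            ext m
            rw [mem_union, mem_filter, mem_filter, mem_filter, mem_Icc, mem_Icc, mem_Ioc]
            constructor
            · rintro (⟨⟨h3, h4⟩, h5⟩ | ⟨⟨h3, h4⟩, h5⟩)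
              · exact ⟨⟨by omega, h4⟩, h5⟩
              · exact ⟨⟨h3, h4.trans hQi⟩, h5⟩
            · rintro ⟨⟨h3, h4⟩, h5⟩
              rcases le_or_gt m (Q ^ i) with h | h
              · exact Or.inr ⟨⟨h3, h⟩, h5⟩
              · exact Or.inl ⟨⟨h, h4⟩, h5⟩
          · rw [disjoint_left]
            intro m hm hm'
            rw [mem_filter, mem_Ioc] at hm
            rw [mem_filter, mem_Icc] at hm'
            omega
        have h4 : δ * (((n - 1 - i).choose k : ℝ) * δ ^ k) ≤
            ∑ m ∈ (Ioc (Q ^ i) (Q ^ (i + 1))).filter (cp S), F m := by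
          have h5 : ∀ m ∈ (Ioc (Q ^ i) (Q ^ (i + 1))).filter (cp S),
              1 / (m : ℝ) * (((n - 1 - i).choose k : ℝ) * δ ^ k) ≤ F m := by
            intro m hm
            rw [mem_filter, mem_Ioc] at hm
            rw [hF]
            apply mul_le_mul_of_nonneg_left _ (by positivity)
            refine (ih (n - 1 - i)).trans (Hf_mono k S _ _ ?_)
            rw [Nat.le_div_iff_mul_le (by omega)]
            calc Q ^ (n - 1 - i) * m ≤ Q ^ (n - 1 - i) * Q ^ (i + 1) := Nat.mul_le_mul_left _ hm.1.2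
              _ = Q ^ n := by
                  rw [← pow_add]
                  congr 1
                  omega
          calc δ * (((n - 1 - i).choose k : ℝ) * δ ^ k) ≤
              (S1 S (Q ^ (i + 1)) - S1 S (Q ^ i)) * (((n - 1 - i).choose k : ℝ) * δ ^ k) :=
                mul_le_mul_of_nonneg_right (hstep i) (by positivity)
            _ = ∑ m ∈ (Ioc (Q ^ i) (Q ^ (i + 1))).filter (cp S),
                1 / (m : ℝ) * (((n - 1 - i).choose k : ℝ) * δ ^ k) := by
                rw [← h3, sum_mul]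
            _ ≤ _ := sum_le_sum h5
        rw [h2]
        exact add_le_add h1 h4
    refine le_trans (le_of_eq ?_) (hblock n le_rfl)
    rw [← choose_sum k n]
    push_cast
    rw [sum_mul]
    apply sum_congr rfl
    intro j _
    ring

open Classical in
/-- Selberg's sum over the large primes -/
noncomputable def GW (h : ℕ → ℝ) (L : Finset ℕ) (x : ℕ) : ℝ :=
  ∑ B ∈ L.powerset.filter (fun B => ∏ p ∈ B, p ≤ x), ∏ p ∈ B, h p

theorem GW_nonneg (h : ℕ → ℝ) (L : Finset ℕ) (hh : ∀ p ∈ L, 0 ≤ h p) (x : ℕ) : 0 ≤ GW h L x := by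
  classical
  unfold GW
  apply sum_nonneg
  intro B hB
  rw [mem_filter, mem_powerset] at hB
  exact prod_nonneg fun p hp => hh p (hB.1 hp)

theorem GW_mono (h : ℕ → ℝ) (L : Finset ℕ) (hh : ∀ p ∈ L, 0 ≤ h p) (x y : ℕ) (hxy : x ≤ y) :
    GW h L x ≤ GW h L y := by
  classical
  unfold GW
  apply sum_le_sum_of_subset_of_nonneg
  · intro B hB
    rw [mem_filter] at hB ⊢
    exact ⟨hB.1, hB.2.trans hxy⟩
  · intro B hB _
    rw [mem_filter, mem_powerset] at hB
    exact prod_nonneg fun p hp => hh p (hB.1 hp)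

theorem GW_insert (h : ℕ → ℝ) (L : Finset ℕ) (p : ℕ) (hp : 0 < p) (hpL : p ∉ L) (x : ℕ) :
    GW h (insert p L) x = GW h L x + h p * GW h L (x / p) := by
  classical
  unfold GW
  rw [sum_filter, sum_powerset_insert hpL, sum_filter, sum_filter]
  congr 1
  rw [mul_sum]
  apply sum_congr rfl
  intro B hB
  rw [mem_powerset] at hB
  have hpB : p ∉ B := fun h' => hpL (hB h')
  rw [prod_insert hpB, prod_insert hpB]
  have : p * ∏ l ∈ B, l ≤ x ↔ ∏ l ∈ B, l ≤ x / p := by
    rw [Nat.le_div_iff_mul_le hp, mul_comm]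
  by_cases h1 : ∏ l ∈ B, l ≤ x / p
  · rw [if_pos (this.2 h1), if_pos h1]
  · rw [if_neg (fun h2 => h1 (this.1 h2)), if_neg h1, mul_zero]

theorem GW_union (h : ℕ → ℝ) (L T : Finset ℕ) (hT : ∀ p ∈ T, 0 < p) (hd : Disjoint L T)
    (hh : ∀ p ∈ L ∪ T, 0 ≤ h p) (x : ℕ) :
    GW h (L ∪ T) x ≤ (∏ p ∈ T, (1 + h p)) * GW h L x := by
  classical
  induction T using Finset.induction_on with
  | empty => simp
  | insert p T hpT ih =>
    have hd' : Disjoint L T := hd.mono_right (subset_insert p T)
    have hpL : p ∉ L ∪ T := by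
      rw [mem_union, not_or]
      exact ⟨fun h' => (disjoint_left.1 hd) h' (mem_insert_self p T), hpT⟩
    have hh' : ∀ l ∈ L ∪ T, 0 ≤ h l := fun l hl => hh l (by
      rw [union_insert]
      exact mem_insert_of_mem hl)
    have hp0 : 0 ≤ h p := hh p (by
      rw [union_insert]
      exact mem_insert_self _ _)
    have h1 := ih (fun l hl => hT l (mem_insert_of_mem hl)) hd' hh'
    rw [union_insert, GW_insert h (L ∪ T) p (hT p (mem_insert_self p T)) hpL, prod_insert hpT]
    have h2 := GW_mono h (L ∪ T) hh' (x / p) x (Nat.div_le_self x p)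
    have h3 : h p * GW h (L ∪ T) (x / p) ≤ h p * GW h (L ∪ T) x := mul_le_mul_of_nonneg_left h2 hp0
    calc GW h (L ∪ T) x + h p * GW h (L ∪ T) (x / p) ≤ (1 + h p) * GW h (L ∪ T) x := by linarith
      _ ≤ (1 + h p) * ((∏ p ∈ T, (1 + h p)) * GW h L x) :=
          mul_le_mul_of_nonneg_left h1 (by linarith)
      _ = _ := by ring

open Classical in
/-- the sum over the integers composed of the primes of `L` -/
noncomputable def HL (k : ℕ) (L : Finset ℕ) (x : ℕ) : ℝ :=
  ∑ n ∈ (Icc 1 x).filter (fun n => ∀ p : ℕ, p.Prime → p ∣ n → p ∈ L), (k : ℝ) ^ cardFactors n / n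

theorem HL_rec (k : ℕ) (L : Finset ℕ) (p : ℕ) (hp : p.Prime) (hpL : p ∉ L) (x : ℕ) :
    HL k (insert p L) x = HL k L x + (k : ℝ) / p * HL k (insert p L) (x / p) := by
  classical
  unfold HL
  rw [← sum_filter_add_sum_filter_not ((Icc 1 x).filter
    (fun n => ∀ l : ℕ, l.Prime → l ∣ n → l ∈ insert p L)) (fun n => ¬ p ∣ n)]
  congr 1
  · apply sum_congr _ (fun _ _ => rfl)
    ext n
    rw [mem_filter, mem_filter, mem_filter]
    constructor
    · rintro ⟨⟨h1, h2⟩, h3⟩
      refine ⟨h1, fun l hl hln => ?_⟩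
      rcases mem_insert.1 (h2 l hl hln) with h | h
      · exact absurd (h ▸ hln) h3
      · exact h
    · rintro ⟨h1, h2⟩
      exact ⟨⟨h1, fun l hl hln => mem_insert_of_mem (h2 l hl hln)⟩, fun h => hpL (h2 p hp h)⟩
  · rw [mul_sum]
    symm
    apply sum_bij' (i := fun m _ => p * m) (j := fun m _ => m / p)
    · intro m hm
      rw [mem_filter, mem_Icc] at hm
      rw [mem_filter, mem_filter, mem_Icc, not_not]
      have h3 : p * m ≤ x := by
        rw [mul_comm]
        exact (Nat.le_div_iff_mul_le hp.pos).1 hm.1.2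
      refine ⟨⟨⟨Nat.mul_pos hp.pos hm.1.1, h3⟩, fun l hl hd => ?_⟩, dvd_mul_right p m⟩
      rcases hl.dvd_mul.1 hd with h | h
      · rw [(Nat.prime_dvd_prime_iff_eq hl hp).1 h]
        exact mem_insert_self p L
      · exact hm.2 l hl h
    · intro m hm
      rw [mem_filter, mem_filter, mem_Icc, not_not] at hm
      obtain ⟨⟨⟨h3, h4⟩, h5⟩, n, rfl⟩ := hm
      rw [mem_filter, mem_Icc, Nat.mul_div_cancel_left n hp.pos]
      refine ⟨⟨Nat.pos_of_ne_zero fun h => by rw [h] at h3; omega, ?_⟩,
        fun l hl hd => h5 l hl (Dvd.dvd.mul_left hd p)⟩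
      rw [Nat.le_div_iff_mul_le hp.pos, mul_comm]
      exact h4
    · intro m _
      exact Nat.mul_div_cancel_left m hp.pos
    · intro m hm
      rw [mem_filter, not_not] at hm
      exact Nat.mul_div_cancel' hm.2
    · intro m hm
      rw [mem_filter, mem_Icc] at hm
      have hm0 : m ≠ 0 := by omega
      have hm0' : (0 : ℝ) < m := by exact_mod_cast hm.1.1
      have hp0' : (0 : ℝ) < p := by exact_mod_cast hp.pos
      rw [ArithmeticFunction.cardFactors_mul hp.ne_zero hm0, ArithmeticFunction.cardFactors_apply_prime hp,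
        add_comm 1, pow_succ]
      push_cast
      field_simp

/-- comparison -/
theorem HL_le (k : ℕ) (h : ℕ → ℝ) (L : Finset ℕ) (hL : ∀ p ∈ L, p.Prime)
    (hh : ∀ p ∈ L, 0 ≤ h p ∧ (k : ℝ) / p * (1 + h p) = h p) (x : ℕ) : HL k L x ≤ GW h L x := by
  classical
  induction L using Finset.induction_on generalizing x with
  | empty =>
    unfold HL GW
    have h1 : (Icc 1 x).filter (fun n => ∀ p : ℕ, p.Prime → p ∣ n → p ∈ (∅ : Finset ℕ)) ⊆ {1} := by
      intro n hn
      rw [mem_filter, mem_Icc] at hn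
      rw [mem_singleton]
      by_contra hne
      obtain ⟨p, hp, hpn⟩ := Nat.exists_prime_and_dvd hne
      exact absurd (hn.2 p hp hpn) (notMem_empty p)
    rcases Nat.eq_zero_or_pos x with hx | hx
    · subst hx
      have h3 : (Icc 1 0).filter (fun n => ∀ p : ℕ, p.Prime → p ∣ n → p ∈ (∅ : Finset ℕ)) = ∅ := by
        rw [Icc_eq_empty (by norm_num), filter_empty]
      rw [h3, sum_empty]
      apply sum_nonneg
      intro B hB
      rw [mem_filter, mem_powerset, subset_empty] at hB
      rw [hB.1, prod_empty]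
      norm_num
    · have h2 : (∅ : Finset ℕ) ∈ (∅ : Finset ℕ).powerset.filter (fun B => ∏ p ∈ B, p ≤ x) := by
        rw [mem_filter, mem_powerset]
        exact ⟨subset_refl _, by rw [prod_empty]; exact hx⟩
      calc ∑ n ∈ (Icc 1 x).filter (fun n => ∀ p : ℕ, p.Prime → p ∣ n → p ∈ (∅ : Finset ℕ)),
          (k : ℝ) ^ cardFactors n / n ≤ ∑ n ∈ ({1} : Finset ℕ), (k : ℝ) ^ cardFactors n / n :=
            sum_le_sum_of_subset_of_nonneg h1 fun _ _ _ => by positivity
        _ = 1 := by simp
        _ = ∏ p ∈ (∅ : Finset ℕ), h p := by rw [prod_empty]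
        _ ≤ _ := single_le_sum (f := fun B : Finset ℕ => ∏ p ∈ B, h p) (fun B hB => by
            rw [mem_filter, mem_powerset, subset_empty] at hB
            rw [hB.1, prod_empty]
            norm_num) h2
  | insert p L hpL ih =>
    have hp := hL p (mem_insert_self p L)
    have hL' : ∀ l ∈ L, l.Prime := fun l hl => hL l (mem_insert_of_mem hl)
    have hh' : ∀ l ∈ L, 0 ≤ h l ∧ (k : ℝ) / l * (1 + h l) = h l :=
      fun l hl => hh l (mem_insert_of_mem hl)
    obtain ⟨hp0, hpe⟩ := hh p (mem_insert_self p L)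
    have ih' := ih hL' hh'
    have hkp : 0 ≤ (k : ℝ) / p := by positivity
    rw [GW_insert h L p hp.pos hpL]
    induction x using Nat.strong_induction_on with
    | _ x ihx =>
      rcases Nat.eq_zero_or_pos x with hx | hx
      · subst hx
        have h1 : HL k (insert p L) 0 = 0 := by
          unfold HL
          simp
        rw [h1]
        have h2 := GW_nonneg h L (fun l hl => (hh' l hl).1) 0
        have h3 := GW_nonneg h L (fun l hl => (hh' l hl).1) (0 / p)
        positivity
      · rw [HL_rec k L p hp hpL]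
        have h1 := ihx (x / p) (Nat.div_lt_self hx hp.one_lt)
        have h2 := GW_mono h L (fun l hl => (hh' l hl).1) (x / p / p) (x / p) (Nat.div_le_self _ _)
        have h3 : HL k (insert p L) (x / p) ≤ (1 + h p) * GW h L (x / p) := by
          have := mul_le_mul_of_nonneg_left h2 hp0
          linarith
        calc HL k L x + (k : ℝ) / p * HL k (insert p L) (x / p) ≤
            GW h L x + (k : ℝ) / p * ((1 + h p) * GW h L (x / p)) :=
              add_le_add (ih' x) (mul_le_mul_of_nonneg_left h3 hkp)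
          _ = GW h L x + ((k : ℝ) / p * (1 + h p)) * GW h L (x / p) := by ring
          _ = _ := by rw [hpe]

theorem Hf_le_HL (k : ℕ) (S L : Finset ℕ) (x : ℕ) (hSL : ∀ p : ℕ, p.Prime → p ≤ x → p ∉ S → p ∈ L) :
    Hf k S x ≤ HL k L x := by
  classical
  unfold Hf HL
  apply sum_le_sum_of_subset_of_nonneg
  · intro n hn
    rw [mem_filter, mem_Icc] at hn ⊢
    refine ⟨hn.1, fun p hp hd => ?_⟩
    exact hSL p hp ((Nat.le_of_dvd (by omega) hd).trans hn.1.2) fun h => hn.2 p h hd
  · intro _ _ _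
    positivity

end Pool.Agent.H662.Sel
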