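import Pool.Agent.H662.RC.Out

/-! Prime values of a polynomial in almost all residue classes: the upper bound. -/

set_option autoImplicit false

namespace Pool.Agent.H662.RC

open Filter Finset Topology Polynomial
open Pool.Agent.W23.DC
open Pool.Agent.Y882
open Pool.Agent.Y882.PX
open Pool.Agent.Y882.SI
open Pool.Agent.Y882.JR

/-- the sieve product -/
noncomputable def den (G : ℤ[X]) (z : ℝ) : ℝ :=
  ∏ p ∈ (range ⌈z⌉₊).filter Nat.Prime, (1 - (ro G 0 p : ℝ) / p)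

theorem vv_den (G : ℤ[X]) (X : ℕ) (hX : 2 ≤ X) (ζ : ℝ) (hζ : ζ ≤ 1) :
    vv G X ζ = den G ((X : ℝ) ^ ζ) := by
  unfold vv den
  rw [PZ_eq X hX ζ hζ]

/-- the regularity conditions -/
structure Reg (G : ℤ[X]) (C : ℝ) : Prop where
  lt : ∀ p : ℕ, p.Prime → ro G 0 p < p
  le : ∃ K : ℕ, ∀ p : ℕ, p.Prime → ro G 0 p ≤ K
  mer : ∀ ε₁ υ η : ℝ, 0 < ε₁ → υ ≤ 1 → 0 < η → ∃ Y0 : ℕ, ∀ Y : ℕ, Y0 ≤ Y →
      Mer (pr Y ε₁ υ) (tt Y) (fun p => (ro G 0 p : ℝ) / p) ε₁ υ η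
  low : ∃ c : ℝ, 0 < c ∧ ∀ Z : ℕ, 3 ≤ Z → c / Real.log Z ≤ lo G Z
  lim : Tendsto (fun z : ℝ => den G z * Real.log z) atTop
      (𝓝 (C * Real.exp (-Real.eulerMascheroniConstant)))
  grow : ∃ n₀ : ℕ, ∀ n : ℕ, n₀ ≤ n → n ≤ (G.eval (n : ℤ)).natAbs

open Classical in
/-- the number of the residue classes at which the value is prime to `q` -/
noncomputable def clsG (G : ℤ[X]) (q : ℕ) : ℕ :=
  ((range q).filter (fun a : ℕ => (G.eval (a : ℤ)).natAbs.Coprime q)).card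

open Classical in
/-- the number of the `n ≤ X`, `n ≡ a mod q`, such that the value is a prime up to the sign -/
noncomputable def PG (G : ℤ[X]) (q X a : ℕ) : ℕ :=
  ((Icc 1 X).filter (fun n : ℕ => n ≡ a [MOD q] ∧ (G.eval (n : ℤ)).natAbs.Prime)).card

open Classical in
theorem PG_eq (G : ℤ[X]) (q X a : ℕ) (ha : a < q) : PG G q X a =
    ((range X).filter (fun N : ℕ =>
      (N + 1) % q = a ∧ (G.eval ((N + 1 : ℕ) : ℤ)).natAbs.Prime)).card := by
  unfold PG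
  symm
  apply card_bij' (i := fun (N : ℕ) _ => N + 1) (j := fun (n : ℕ) _ => n - 1)
  · intro N hN
    rw [mem_filter, mem_range] at hN
    rw [mem_filter, mem_Icc]
    refine ⟨⟨by omega, by omega⟩, ?_, hN.2.2⟩
    unfold Nat.ModEq
    rw [hN.2.1, Nat.mod_eq_of_lt ha]
  · intro n hn
    rw [mem_filter, mem_Icc] at hn
    rw [mem_filter, mem_range]
    have h1 : n - 1 + 1 = n := by omega
    rw [h1]
    refine ⟨by omega, ?_, hn.2.2⟩
    have h2 := hn.2.1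
    unfold Nat.ModEq at h2
    rw [h2, Nat.mod_eq_of_lt ha]
  · intro N _
    show N + 1 - 1 = N
    omega
  · intro n hn
    rw [mem_filter, mem_Icc] at hn
    show n - 1 + 1 = n
    omega

open Classical in
theorem splitG (G : ℤ[X]) (ζ : ℝ) (q X a M : ℕ) (hX : 2 ≤ X) (ha : a < q)
    (hM : ∀ n : ℕ, M < n → (X : ℝ) ^ ζ ≤ ((G.eval (n : ℤ)).natAbs : ℝ)) :
    (PG G q X a : ℝ) ≤ rgC G X ζ q X a + NC q M a := by
  rw [PG_eq G q X a ha]
  unfold rgC NC
  have h1 : (range X).filter (fun N : ℕ =>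
      (N + 1) % q = a ∧ (G.eval ((N + 1 : ℕ) : ℤ)).natAbs.Prime) ⊆
     (((range X).filter (fun N => (N + 1) % q = a)).filter
      (fun N => ∀ p ∈ PQ X ζ q, ¬ p ∣ (G.eval ((N + 1 : ℕ) : ℤ)).natAbs)) ∪
      ((range M).filter (fun N => (N + 1) % q = a)) := by
    intro N hN
    rw [mem_filter, mem_range] at hN
    rw [mem_union, mem_filter, mem_filter, mem_filter, mem_range, mem_range]
    by_cases hMn : N < M
    · right
      exact ⟨hMn, hN.2.1⟩
    · left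
      refine ⟨⟨hN.1, hN.2.1⟩, fun p hp hd => ?_⟩
      have hp' : p ∈ PZ X ζ := (filter_subset _ _) hp
      unfold PZ at hp'
      rw [mem_filter] at hp'
      have e := (Nat.prime_dvd_prime_iff_eq hp'.2.1 hN.2.2).1 hd
      have h4 := (tt_lt X p ζ hX hp'.2.1.pos).1 hp'.2.2
      have h5 := hM (N + 1) (by omega)
      rw [← e] at h5
      linarith
  have h2 := (card_le_card h1).trans (card_union_le _ _)
  exact_mod_cast h2

theorem fac01 (G : ℤ[X]) (p : ℕ) (hp : p.Prime) :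
    0 ≤ 1 - (ro G 0 p : ℝ) / p ∧ 1 - (ro G 0 p : ℝ) / p ≤ 1 := by
  have hp0 : (0 : ℝ) < p := by exact_mod_cast hp.pos
  have h1 : (ro G 0 p : ℝ) ≤ p := by exact_mod_cast ro_le_self G 0 p
  constructor
  · rw [sub_nonneg, div_le_one hp0]
    exact h1
  · have : 0 ≤ (ro G 0 p : ℝ) / p := by positivity
    linarith

theorem prod_sub (G : ℤ[X]) (S T : Finset ℕ) (hST : S ⊆ T) (hT : ∀ p ∈ T, p.Prime) :
    ∏ p ∈ T, (1 - (ro G 0 p : ℝ) / p) ≤ ∏ p ∈ S, (1 - (ro G 0 p : ℝ) / p) := by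
  rw [← prod_sdiff hST]
  calc (∏ p ∈ T \ S, (1 - (ro G 0 p : ℝ) / p)) * ∏ p ∈ S, (1 - (ro G 0 p : ℝ) / p) ≤
      1 * ∏ p ∈ S, (1 - (ro G 0 p : ℝ) / p) := by
        apply mul_le_mul_of_nonneg_right
        · apply prod_le_one
          · intro p hp
            exact (fac01 G p (hT p (mem_sdiff.1 hp).1)).1
          · intro p hp
            exact (fac01 G p (hT p (mem_sdiff.1 hp).1)).2
        · exact prod_nonneg fun p hp => (fac01 G p (hT p (hST hp))).1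
    _ = _ := one_mul _

theorem PZ_prime (Y : ℕ) (ζ : ℝ) (p : ℕ) (hp : p ∈ PZ Y ζ) : p.Prime := by
  unfold PZ at hp
  rw [mem_filter] at hp
  exact hp.2.1

theorem lo_vvG (G : ℤ[X]) (X : ℕ) (ζ : ℝ) : lo G X ≤ vv G X ζ := by
  unfold lo vv
  apply prod_sub
  · intro p hp
    unfold PZ at hp
    rw [mem_filter] at hp
    rw [mem_filter]
    exact ⟨hp.1, hp.2.1⟩
  · intro p hp
    exact (mem_filter.1 hp).2

theorem vC_nonnegG (G : ℤ[X]) (X : ℕ) (ζ : ℝ) (q : ℕ) : 0 ≤ vC G X ζ q := by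
  unfold vC
  apply prod_nonneg
  intro p hp
  exact (fac01 G p (PZ_prime X ζ p ((filter_subset _ _) hp))).1

theorem clsG_le (G : ℤ[X]) (q : ℕ) : clsG G q ≤ q := by
  unfold clsG
  refine (card_filter_le _ _).trans ?_
  rw [card_range]

theorem clsG_vC (G : ℤ[X]) (Y : ℕ) (ζ : ℝ) (q : ℕ) (hq : 0 < q) :
    (clsG G q : ℝ) * vC G Y ζ q ≤ q * vv G Y ζ := by
  classical
  have h1 := class_prod G q hq ((PZ Y ζ).filter (fun p => p ∣ q)) (fun p hp => by
    rw [mem_filter] at hp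
    exact ⟨PZ_prime Y ζ p hp.1, hp.2⟩)
  have h2 : clsG G q ≤ ((range q).filter (fun a : ℕ => ∀ p ∈ (PZ Y ζ).filter (fun p => p ∣ q),
      ¬ p ∣ (G.eval (a : ℤ)).natAbs)).card := by
    unfold clsG
    apply card_le_card
    intro a ha
    rw [mem_filter] at ha ⊢
    refine ⟨ha.1, fun p hp hd => ?_⟩
    rw [mem_filter] at hp
    have h5 := Nat.eq_one_of_dvd_coprimes ha.2 hd hp.2
    exact (PZ_prime Y ζ p hp.1).one_lt.ne' h5
  have h3 : (clsG G q : ℝ) ≤ q * ∏ p ∈ (PZ Y ζ).filter (fun p => p ∣ q),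
      (1 - (ro G 0 p : ℝ) / p) := by
    rw [← h1]
    exact_mod_cast h2
  have h4 : vv G Y ζ = (∏ p ∈ (PZ Y ζ).filter (fun p => p ∣ q), (1 - (ro G 0 p : ℝ) / p)) *
      vC G Y ζ q := by
    unfold vv vC PQ
    rw [prod_filter_mul_prod_filter_not]
  rw [h4, ← mul_assoc]
  exact mul_le_mul_of_nonneg_right h3 (vC_nonnegG G Y ζ q)

theorem clsG_lo (G : ℤ[X]) (X q : ℕ) (hq : 0 < q) (hqX : q ≤ X) : q * lo G X ≤ clsG G q := by
  have h1 := class_prod G q hq q.primeFactors (fun p hp =>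
    ⟨Nat.prime_of_mem_primeFactors hp, Nat.dvd_of_mem_primeFactors hp⟩)
  have h2 : ((range q).filter (fun a : ℕ => ∀ p ∈ q.primeFactors,
      ¬ p ∣ (G.eval (a : ℤ)).natAbs)).card ≤ clsG G q := by
    unfold clsG
    apply card_le_card
    intro a ha
    rw [mem_filter] at ha ⊢
    refine ⟨ha.1, ?_⟩
    rw [Nat.coprime_iff_gcd_eq_one]
    by_contra hne
    obtain ⟨p, hp, hpd⟩ := Nat.exists_prime_and_dvd hne
    have h3 := hpd.trans (Nat.gcd_dvd_left _ _)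
    have h4 := hpd.trans (Nat.gcd_dvd_right _ _)
    exact ha.2 p (Nat.mem_primeFactors.2 ⟨hp, h4, hq.ne'⟩) h3
  have h3 : (q : ℝ) * ∏ p ∈ q.primeFactors, (1 - (ro G 0 p : ℝ) / p) ≤ clsG G q := by
    rw [← h1]
    exact_mod_cast h2
  refine le_trans ?_ h3
  apply mul_le_mul_of_nonneg_left _ (Nat.cast_nonneg _)
  unfold lo
  apply prod_sub
  · intro p hp
    have hpp := Nat.prime_of_mem_primeFactors hp
    rw [mem_filter, mem_Icc]
    exact ⟨⟨hpp.one_le, (Nat.le_of_dvd hq (Nat.dvd_of_mem_primeFactors hp)).trans hqX⟩, hpp⟩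
  · intro p hp
    exact (mem_filter.1 hp).2

open Classical in
theorem main1G (G : ℤ[X]) (C : ℝ) (hC : 0 < C) (hG : Reg G C) (θ δ κ : ℝ) (hθ0 : 0 < θ)
    (hθ : θ < 1) (hδ : 0 < δ) (hκ : 0 < κ) (hκ1 : κ ≤ (1 - θ) / 4) (hκ2 : κ ≤ δ / 64) :
      ∀ᶠ X : ℕ in atTop, ∀ q : ℕ, 0 < q → (q : ℝ) ≤ (X : ℝ) ^ θ → 0 < clsG G q ∧
        (((range q).filter (fun a : ℕ =>
          (8 / (2 - θ) + δ) * (C / 2 * (X / (clsG G q * Real.log X))) <
          (PG G q X a : ℝ))).card : ℝ) ≤ clsG G q * (X : ℝ) ^ (-κ) := by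
  obtain ⟨A0, F, f, hSF⟩ := Pool.Agent.W366.DC.SFX
  have hAe : A0 = 2 * Real.exp Real.eulerMascheroniConstant :=
    A0_eq Pool.Agent.Y445.JRB.t hSF
  set τ : ℝ := (2 - θ) / 2 - κ with hτd
  have hτh : 1 / 2 ≤ τ := by rw [hτd]; linarith
  have hτ0 : 0 < τ := by linarith
  have hτ : τ < 1 := by rw [hτd]; linarith
  have hz := hG.lim
  have hF1 : F 1 = A0 := by rw [hSF.F3 1 le_rfl (by norm_num), div_one]
  set γ := Real.eulerMascheroniConstant with hγ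
  have hE : 0 < Real.exp γ := Real.exp_pos _
  have hXr : Tendsto (fun X : ℕ => (X : ℝ)) atTop atTop := tendsto_natCast_atTop_atTop
  -- dens at X ^ τ
  have hz2 : Tendsto (fun X : ℕ => den G ((X : ℝ) ^ τ) * Real.log X) atTop
      (𝓝 (C * Real.exp (-γ) / τ)) := by
    have h1 := (hz.comp ((tendsto_rpow_atTop hτ0).comp hXr)).div_const τ
    refine h1.congr' ?_
    filter_upwards [eventually_gt_atTop 0] with X hX
    have hX0 : (0 : ℝ) < X := by exact_mod_cast hX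
    simp only [Function.comp]
    rw [Real.log_rpow hX0]
    field_simp
  -- choice of the small constant
  set δ' : ℝ := δ * Real.exp γ * τ / 8 with hδ'
  have hδ'0 : 0 < δ' := by positivity
  have hlim : Tendsto (fun X : ℕ => (A0 + δ') * (den G ((X : ℝ) ^ τ) * Real.log X)) atTop
      (𝓝 ((A0 + δ') * (C * Real.exp (-γ) / τ))) := hz2.const_mul _
  have hval : (A0 + δ') * (C * Real.exp (-γ) / τ) = (4 / τ + δ / 4) * (C / 2) := by
    rw [hAe, hδ', Real.exp_neg]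
    field_simp
    ring
  rw [hval] at hlim
  have h2θ : 0 < 2 - θ := by linarith
  have h4τ : 4 / τ ≤ 8 / (2 - θ) + δ / 4 := by
    have h1 : 4 / τ - 8 / (2 - θ) = 8 * κ / (τ * (2 - θ)) :=
      aux_frac θ κ τ (by rw [hτd]; ring) hτ0 h2θ
    have h2 : 8 * κ / (τ * (2 - θ)) ≤ 8 * κ / (1 / 2) := by
      apply div_le_div_of_nonneg_left (by positivity) (by norm_num)
      nlinarith
    have h3 : 8 * κ / (1 / 2) = 16 * κ := by ring
    linarith
  set W : ℝ := (8 / (2 - θ) + 5 * δ / 8) * (C / 2) with hW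
  have hW0 : 0 < W := by positivity
  have ev1 : ∀ᶠ X : ℕ in atTop, (A0 + δ') * (den G ((X : ℝ) ^ τ) * Real.log X) < W := by
    apply hlim.eventually (gt_mem_nhds _)
    rw [hW]
    have : 0 < δ * C := by positivity
    nlinarith
  have hA0' : 0 < A0 + δ' := by rw [hAe]; positivity
  obtain ⟨K, hK⟩ := hG.le
  obtain ⟨ε₁, η, hε₁, hε₁ζ, hη, Y1, HE⟩ := engC K A0 F f hSF τ τ δ' (κ / 2) hτ0 le_rfl hτ
    hδ'0 (by linarith)
  rw [div_self hτ0.ne', hF1] at HE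
  obtain ⟨Y2, HM⟩ := hG.mer ε₁ τ η hε₁ hτ.le hη
  obtain ⟨c, hc, HL⟩ := hG.low
  obtain ⟨n₀, hgr⟩ := hG.grow
  have ev3 : ∀ᶠ Y : ℕ in atTop, Real.log Y / c ≤ (Y : ℝ) ^ (κ / 2 / 32) := by
    have h1 := (isLittleO_log_rpow_atTop (show 0 < κ / 2 / 32 by linarith)).bound hc
    filter_upwards [tendsto_natCast_atTop_atTop.eventually h1, eventually_ge_atTop 1] with Y hY hY1
    have hY1r : (1 : ℝ) ≤ Y := by exact_mod_cast hY1
    rw [Real.norm_of_nonneg (Real.log_nonneg hY1r), Real.norm_of_nonneg (by positivity)] at hY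
    rw [div_le_iff₀ hc]
    linarith
  have ev4 : ∀ᶠ Y : ℕ in atTop, (8 : ℝ) ≤ (Y : ℝ) ^ (κ / 4) :=
    ((tendsto_rpow_atTop (by linarith)).comp hXr).eventually_ge_atTop _
  have ev5 : ∀ᶠ Y : ℕ in atTop, (n₀ : ℝ) ≤ (Y : ℝ) ^ τ :=
    ((tendsto_rpow_atTop hτ0).comp hXr).eventually_ge_atTop _
  -- the small n
  have hsmall : ∀ᶠ X : ℕ in atTop, ∀ n : ℕ, ⌊(X : ℝ) ^ τ⌋₊ < n →
      (X : ℝ) ^ τ ≤ ((G.eval (n : ℤ)).natAbs : ℝ) := by
    filter_upwards [eventually_gt_atTop 0, ev5] with X hX h5 n hn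
    have h1 : (X : ℝ) ^ τ < n := Nat.lt_of_floor_lt hn
    have h2 : n₀ ≤ n := by
      have : (n₀ : ℝ) ≤ n := by linarith
      exact_mod_cast this
    have h3 : (n : ℝ) ≤ ((G.eval (n : ℤ)).natAbs : ℝ) := by exact_mod_cast hgr n h2
    linarith
  -- the error terms
  obtain ⟨θ₂, hθ₂1, hθ₂2, hθ₂3⟩ : ∃ θ₂ : ℝ, θ ≤ θ₂ ∧ τ ≤ θ₂ ∧ θ₂ < 1 :=
    ⟨max θ τ, le_max_left _ _, le_max_right _ _, max_lt hθ (by linarith)⟩
  have ev2 : ∀ᶠ X : ℕ in atTop, W * (X : ℝ) ^ θ + Real.log X * ((X : ℝ) ^ τ + (X : ℝ) ^ θ) <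
      3 * δ / 8 * (C / 2) * X := by
    have h1 := (isLittleO_log_rpow_atTop (show 0 < 1 - θ₂ by linarith)).bound
      (show 0 < δ / 16 * (C / 2) by positivity)
    have h2 : ∀ᶠ Y : ℕ in atTop, W / (δ / 16 * (C / 2)) ≤ (Y : ℝ) ^ (1 - θ₂) :=
      ((tendsto_rpow_atTop (by linarith)).comp hXr).eventually_ge_atTop _
    filter_upwards [hXr.eventually h1, h2, eventually_ge_atTop 3] with X hX hX2 hX3
    have hX3r : (3 : ℝ) ≤ X := by exact_mod_cast hX3
    have hX0 : (0 : ℝ) < X := by linarith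
    have hX1 : (1 : ℝ) ≤ X := by linarith
    have hl : 0 < Real.log X := Real.log_pos (by linarith)
    rw [Real.norm_of_nonneg hl.le, Real.norm_of_nonneg (by positivity)] at hX
    rw [div_le_iff₀ (by positivity)] at hX2
    have g1 : (X : ℝ) ^ θ ≤ (X : ℝ) ^ θ₂ := Real.rpow_le_rpow_of_exponent_le hX1 hθ₂1
    have g2 : (X : ℝ) ^ τ ≤ (X : ℝ) ^ θ₂ := Real.rpow_le_rpow_of_exponent_le hX1 hθ₂2
    have g3 : (X : ℝ) ^ (1 - θ₂) * (X : ℝ) ^ θ₂ = X := by
      rw [← Real.rpow_add hX0]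
      have : 1 - θ₂ + θ₂ = 1 := by ring
      rw [this, Real.rpow_one]
    have g4 : 0 < (X : ℝ) ^ θ₂ := by positivity
    calc W * (X : ℝ) ^ θ + Real.log X * ((X : ℝ) ^ τ + (X : ℝ) ^ θ) ≤
        W * (X : ℝ) ^ θ₂ + Real.log X * ((X : ℝ) ^ θ₂ + (X : ℝ) ^ θ₂) := by gcongr
      _ = (W + 2 * Real.log X) * (X : ℝ) ^ θ₂ := by ring
      _ ≤ (3 * (δ / 16 * (C / 2)) * (X : ℝ) ^ (1 - θ₂)) * (X : ℝ) ^ θ₂ := by
          apply mul_le_mul_of_nonneg_right _ g4.le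
          linarith
      _ = 3 * (δ / 16 * (C / 2)) * X := by rw [mul_assoc, g3]
      _ < 3 * δ / 8 * (C / 2) * X := by
          have : 0 < δ * C * X := by positivity
          nlinarith
  filter_upwards [ev1, ev2, ev3, ev4, hsmall, eventually_ge_atTop 3, eventually_ge_atTop Y1,
    eventually_ge_atTop Y2] with X e1 e2 e3 e4 e5 hX3 hX1 hX2 q hq hqX
  have hX3r : (3 : ℝ) ≤ X := by exact_mod_cast hX3
  have hX0 : (0 : ℝ) < X := by linarith
  have hX1r : (1 : ℝ) ≤ X := by linarith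
  have hl : 0 < Real.log X := Real.log_pos (by linarith)
  have hq0 : (0 : ℝ) < q := by exact_mod_cast hq
  have hqX' : (q : ℝ) ≤ X := by
    refine hqX.trans ?_
    calc (X : ℝ) ^ θ ≤ (X : ℝ) ^ (1 : ℝ) := Real.rpow_le_rpow_of_exponent_le hX1r hθ.le
      _ = X := Real.rpow_one _
  have hqXn : q ≤ X := by exact_mod_cast hqX'
  have hH : 0 < X / q := Nat.div_pos hqXn hq
  have hlo := lo_vvG G X τ
  have hL := HL X hX3
  have hlo0 : 0 < lo G X := lt_of_lt_of_le (by positivity) hL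
  have hVpos : 0 < vv G X τ := lt_of_lt_of_le hlo0 hlo
  have hLX : (X : ℝ) ^ (-(κ / 2 / 32)) ≤ lo G X := by
    refine le_trans ?_ hL
    rw [Real.rpow_neg hX0.le]
    have h6 := inv_anti₀ (show 0 < Real.log X / c by positivity) e3
    rwa [inv_div] at h6
  have hV : (X : ℝ) ^ (-(κ / 2 / 32)) ≤ vv G X τ := hLX.trans hlo
  have hA := HE X hX1 G X q (X / q) hK hq hqXn hH
    (fun a ha => le_NC q X a hq (mem_range.1 ha)) hV (HM X hX2)
  have hclo := clsG_lo G X q hq hqXn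
  have hcl : (0 : ℝ) < clsG G q := lt_of_lt_of_le (by positivity) hclo
  refine ⟨by exact_mod_cast hcl, ?_⟩
  have hclq : (clsG G q : ℝ) ≤ q := by exact_mod_cast clsG_le G q
  have hcV := clsG_vC G X τ q hq
  rw [vv_den G X (by omega) _ hτ.le] at hcV hVpos
  set V : ℝ := den G ((X : ℝ) ^ τ) with hVdef
  have hsub : (range q).filter (fun a : ℕ =>
          (8 / (2 - θ) + δ) * (C / 2 * (X / (clsG G q * Real.log X))) < (PG G q X a : ℝ)) ⊆
      (range q).filter (fun a => ¬ ((f 1 - δ') * (NC q X a * vC G X τ q) ≤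
          rgC G X τ q X a ∧
          rgC G X τ q X a ≤ (A0 + δ') * (NC q X a * vC G X τ q))) := by
    intro a ha
    rw [mem_filter] at ha ⊢
    refine ⟨ha.1, fun hcon => ?_⟩
    have haq : a < q := mem_range.1 ha.1
    have h1 := splitG G τ q X a ⌊(X : ℝ) ^ τ⌋₊ (by omega) haq e5
    have h2 := NC_le q ⌊(X : ℝ) ^ τ⌋₊ a hq
    have h3 := NC_le q X a hq
    have h4 : ((⌊(X : ℝ) ^ τ⌋₊ : ℕ) : ℝ) ≤ (X : ℝ) ^ τ := Nat.floor_le (by positivity)
    have h5 : (NC q ⌊(X : ℝ) ^ τ⌋₊ a : ℝ) ≤ (X : ℝ) ^ τ / q + 1 := by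
      refine h2.trans ?_
      gcongr
    have h10 := ha.2
    have hcl2 : 0 < clsG G q * Real.log X := by positivity
    have h11 : (8 / (2 - θ) + δ) * (C / 2 * (X / (clsG G q * Real.log X))) =
        ((8 / (2 - θ) + δ) * (C / 2) * X) / (clsG G q * Real.log X) := by ring
    rw [h11, div_lt_iff₀ hcl2] at h10
    have h12 := aux_pt (clsG G q) q X (Real.log X) (A0 + δ') (NC q X a) (vC G X τ q)
      (rgC G X τ q X a) (NC q ⌊(X : ℝ) ^ τ⌋₊ a) (PG G q X a) W V ((X : ℝ) ^ τ)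
      ((X : ℝ) ^ θ) (3 * δ / 8 * (C / 2) * X) hcl hclq hX0 hqX hl hA0' h3 (vC_nonnegG G X τ q)
      hcon.2 hcV e1 hW0 (by positivity) h5 h1 e2
    have h14 : (8 / (2 - θ) + δ) * (C / 2) * X = W * X + 3 * δ / 8 * (C / 2) * X := by
      rw [hW]; ring
    rw [h14] at h10
    exact lt_asymm h10 h12
  have hHr : (X : ℝ) / (2 * q) ≤ ((X / q : ℕ) : ℝ) := by
    have h1 : X < (X / q + 1) * q := by
      have := Nat.div_add_mod X q
      have h2 := Nat.mod_lt X hq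
      nlinarith
    have h2 : (X : ℝ) < (((X / q : ℕ) : ℝ) + 1) * q := by exact_mod_cast h1
    have h3 : (1 : ℝ) ≤ ((X / q : ℕ) : ℝ) := by exact_mod_cast hH
    rw [div_le_iff₀ (by positivity)]
    nlinarith
  calc (((range q).filter (fun a : ℕ =>
          (8 / (2 - θ) + δ) * (C / 2 * (X / (clsG G q * Real.log X))) <
          (PG G q X a : ℝ))).card : ℝ) ≤ _ := by exact_mod_cast card_le_card hsub
    _ ≤ (X + (X : ℝ) ^ (2 * τ)) / ((X / q : ℕ) : ℝ) ^ 2 * (X : ℝ) ^ (κ / 2) := hA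
    _ ≤ (2 * (X : ℝ) ^ (2 * τ)) / ((X : ℝ) / (2 * q)) ^ 2 * (X : ℝ) ^ (κ / 2) := by
        have u1 : (X : ℝ) ≤ (X : ℝ) ^ (2 * τ) := by
          calc (X : ℝ) = (X : ℝ) ^ (1 : ℝ) := (Real.rpow_one _).symm
            _ ≤ _ := Real.rpow_le_rpow_of_exponent_le hX1r (by linarith)
        apply mul_le_mul_of_nonneg_right _ (by positivity)
        apply div_le_div₀ (by positivity) (by linarith) (by positivity)
        exact pow_le_pow_left₀ (by positivity) hHr 2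
    _ = 8 * (q * q * ((X : ℝ) ^ (2 * τ) / (X : ℝ) ^ (2 : ℝ))) * (X : ℝ) ^ (κ / 2) := by
        rw [Real.rpow_two]
        field_simp
        ring
    _ ≤ (X : ℝ) ^ (κ / 4) * (q * (X : ℝ) ^ θ * ((X : ℝ) ^ (2 * τ) / (X : ℝ) ^ (2 : ℝ))) *
        (X : ℝ) ^ (κ / 2) := by gcongr
    _ = q * (X : ℝ) ^ (-(κ / 4)) * (X : ℝ) ^ (-κ) := by
        rw [← Real.rpow_sub hX0]
        have h1 : (X : ℝ) ^ (κ / 4) * (q * (X : ℝ) ^ θ * (X : ℝ) ^ (2 * τ - 2)) *
            (X : ℝ) ^ (κ / 2) = q * ((X : ℝ) ^ (κ / 4) * (X : ℝ) ^ θ * (X : ℝ) ^ (2 * τ - 2) *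
            (X : ℝ) ^ (κ / 2)) := by ring
        rw [h1, ← Real.rpow_add hX0, ← Real.rpow_add hX0, ← Real.rpow_add hX0, mul_assoc,
          ← Real.rpow_add hX0]
        congr 2
        rw [hτd]
        ring
    _ ≤ (q * lo G X) * (X : ℝ) ^ (-κ) := by
        apply mul_le_mul_of_nonneg_right _ (by positivity)
        apply mul_le_mul_of_nonneg_left _ hq0.le
        refine le_trans ?_ hLX
        apply Real.rpow_le_rpow_of_exponent_le hX1r
        linarith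
    _ ≤ clsG G q * (X : ℝ) ^ (-κ) := mul_le_mul_of_nonneg_right hclo (by positivity)

open Classical in
/-- **Prime values in almost all residue classes.** -/
theorem main2G (G : ℤ[X]) (C : ℝ) (hC : 0 < C) (hG : Reg G C) (θ δ : ℝ) (hθ0 : 0 < θ)
    (hθ : θ < 1) (hδ : 0 < δ) : ∃ κ : ℝ, 0 < κ ∧
      ∀ᶠ X : ℕ in atTop, ∀ q : ℕ, 0 < q → (q : ℝ) ≤ (X : ℝ) ^ θ →
        (((range q).filter (fun a : ℕ =>
          (8 + δ) * (C / 2) * (X / (clsG G q * Real.log (X ^ 2 / q))) <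
          (PG G q X a : ℝ))).card : ℝ) ≤ clsG G q * (X : ℝ) ^ (-κ) := by
  obtain ⟨η, hη, hη1, hη2⟩ : ∃ η : ℝ, 0 < η ∧ η ≤ δ / 32 ∧ η ≤ (1 - θ) / 2 :=
    ⟨min (δ / 32) ((1 - θ) / 2), lt_min (by linarith) (by linarith), min_le_left _ _,
      min_le_right _ _⟩
  obtain ⟨κ, hκ, hκ1, hκ2⟩ : ∃ κ : ℝ, 0 < κ ∧ κ ≤ (1 - θ) / 8 ∧ κ ≤ δ / 256 :=
    ⟨min ((1 - θ) / 8) (δ / 256), lt_min (by linarith) (by linarith), min_le_left _ _,
      min_le_right _ _⟩
  refine ⟨κ, hκ, ?_⟩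
  have hfin : ∀ᶠ X : ℕ in atTop, ∀ i ∈ range (⌊θ / η⌋₊ + 2), 0 < i → (i : ℝ) * η ≤ (1 + θ) / 2 →
      ∀ q : ℕ, 0 < q → (q : ℝ) ≤ (X : ℝ) ^ ((i : ℝ) * η) → 0 < clsG G q ∧
        (((range q).filter (fun a : ℕ =>
          (8 / (2 - (i : ℝ) * η) + δ / 4) * (C / 2 * (X / (clsG G q * Real.log X))) <
          (PG G q X a : ℝ))).card : ℝ) ≤ clsG G q * (X : ℝ) ^ (-κ) := by
    rw [eventually_all_finset]
    intro i _
    by_cases hi : 0 < i ∧ (i : ℝ) * η ≤ (1 + θ) / 2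
    · have hi0 : (0 : ℝ) < i := by exact_mod_cast hi.1
      have h1 := main1G G C hC hG ((i : ℝ) * η) (δ / 4) κ (by positivity) (by linarith [hi.2])
        (by linarith) hκ (by linarith [hi.2]) (by linarith)
      filter_upwards [h1] with X hX _ _
      exact hX
    · filter_upwards with X h1 h2
      exact absurd ⟨h1, h2⟩ hi
  filter_upwards [hfin, eventually_ge_atTop 3] with X hX hX3 q hq hqX
  have hX3r : (3 : ℝ) ≤ X := by exact_mod_cast hX3
  have hX0 : (0 : ℝ) < X := by linarith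
  have hl : 0 < Real.log X := Real.log_pos (by linarith)
  have hq0 : (0 : ℝ) < q := by exact_mod_cast hq
  have hq1 : (1 : ℝ) ≤ q := by exact_mod_cast hq
  set u : ℝ := Real.log q / Real.log X with hu
  have hu0 : 0 ≤ u := div_nonneg (Real.log_nonneg hq1) hl.le
  have huθ : u ≤ θ := by
    rw [hu, div_le_iff₀ hl, ← Real.log_rpow hX0]
    exact Real.log_le_log hq0 hqX
  have hqu : (q : ℝ) = (X : ℝ) ^ u := by
    rw [Real.rpow_def_of_pos hX0, hu, mul_div_cancel₀ _ hl.ne', Real.exp_log hq0]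
  set i : ℕ := ⌊u / η⌋₊ + 1 with hi
  have hi1 : u < (i : ℝ) * η := by
    have := Nat.lt_floor_add_one (u / η)
    rw [div_lt_iff₀ hη] at this
    rw [hi]
    push_cast
    exact this
  have hi2 : (i : ℝ) * η ≤ u + η := by
    have := Nat.floor_le (show 0 ≤ u / η by positivity)
    rw [le_div_iff₀ hη] at this
    rw [hi]
    push_cast
    linarith
  have hi3 : i ∈ range (⌊θ / η⌋₊ + 2) := by
    rw [mem_range, hi]
    have : ⌊u / η⌋₊ ≤ ⌊θ / η⌋₊ := Nat.floor_le_floor (by gcongr)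
    omega
  obtain ⟨hcl1, h1⟩ := hX i hi3 (by omega) (by linarith) q hq (by
    rw [hqu]
    exact Real.rpow_le_rpow_of_exponent_le (by linarith) hi1.le)
  refine le_trans (Nat.cast_le.2 (card_le_card ?_)) h1
  intro a ha
  rw [mem_filter] at ha ⊢
  refine ⟨ha.1, lt_of_le_of_lt ?_ ha.2⟩
  have hlog : Real.log ((X : ℝ) ^ 2 / q) = (2 - u) * Real.log X := by
    rw [Real.log_div (by positivity) hq0.ne', Real.log_pow, hu]
    field_simp
    push_cast
    ring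
  have hcl : (0 : ℝ) < clsG G q := by exact_mod_cast hcl1
  rw [hlog]
  set v : ℝ := (i : ℝ) * η with hv
  have hu2 : 0 < 2 - u := by linarith
  have hv2 : 1 ≤ 2 - v := by linarith
  have h3 : 8 / (2 - v) + δ / 4 ≤ (8 + δ) / (2 - u) := by
    have g1 : 8 / (2 - v) ≤ 8 / (2 - u) + 8 * η := by
      have : 8 / (2 - v) - 8 / (2 - u) = 8 * (v - u) / ((2 - v) * (2 - u)) := by
        field_simp
        ring
      have h5 : 8 * (v - u) / ((2 - v) * (2 - u)) ≤ 8 * (v - u) / 1 := by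
        apply div_le_div_of_nonneg_left (by linarith) (by norm_num)
        nlinarith
      rw [div_one] at h5
      linarith
    have g2 : δ / 2 ≤ δ / (2 - u) := by
      apply div_le_div_of_nonneg_left hδ.le hu2
      linarith
    have g3 : (8 + δ) / (2 - u) = 8 / (2 - u) + δ / (2 - u) := add_div _ _ _
    rw [g3]
    linarith
  calc (8 / (2 - v) + δ / 4) * (C / 2 * (X / (clsG G q * Real.log X))) ≤
      (8 + δ) / (2 - u) * (C / 2 * (X / (clsG G q * Real.log X))) := by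
        apply mul_le_mul_of_nonneg_right h3
        positivity
    _ = _ := by
        field_simp

end Pool.Agent.H662.RC
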