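import Pool.Agent.H662.RC.Gen

/-! The regularity conditions from the convergence of a sum over the primes. -/

set_option autoImplicit false

namespace Pool.Agent.H662.RC

open Filter Finset Topology Polynomial
open Pool.Agent.W23.DC
open Pool.Agent.Y882
open Pool.Agent.Y882.PX
open Pool.Agent.Y882.SI
open Pool.Agent.Y882.JR
open Pool.Agent.Y781.JR
open Pool.Agent.W378.DC.TMP

/-- the sum over the primes below `N` -/
noncomputable def Dv (G : ℤ[X]) (N : ℕ) : ℝ :=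
  ∑ p ∈ (range N).filter Nat.Prime, ((ro G 0 p : ℝ) - 1) / p

/-- the local factors -/
noncomputable def xf (G : ℤ[X]) (p : ℕ) : ℝ := ((ro G 0 p : ℝ) - 1) / ((p : ℝ) - 1)

theorem xf_eq (G : ℤ[X]) (p : ℕ) (hp : p.Prime) :
    (1 - (ro G 0 p : ℝ) / p) / (1 - 1 / (p : ℝ)) = 1 - xf G p := by
  have h2 : (2 : ℝ) ≤ p := by exact_mod_cast hp.two_le
  have h5 : (p : ℝ) - 1 ≠ 0 := by linarith
  have h6 : (p : ℝ) ≠ 0 := by linarith
  have h7 : 1 - 1 / (p : ℝ) ≠ 0 := by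
    have : 1 / (p : ℝ) ≤ 1 / 2 := one_div_le_one_div_of_le (by norm_num) h2
    linarith
  unfold xf
  rw [div_eq_iff h7]
  field_simp
  ring

theorem xf_pos (G : ℤ[X]) (hlt : ∀ p : ℕ, p.Prime → ro G 0 p < p) (p : ℕ) (hp : p.Prime) :
    0 < 1 - xf G p := by
  have h2 : (2 : ℝ) ≤ p := by exact_mod_cast hp.two_le
  have h3 : (ro G 0 p : ℝ) < p := by exact_mod_cast hlt p hp
  unfold xf
  rw [sub_pos, div_lt_one (by linarith)]
  linarith

theorem prodG_conv (G : ℤ[X]) (hlt : ∀ p : ℕ, p.Prime → ro G 0 p < p) (K : ℕ)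
    (hK : ∀ p : ℕ, p.Prime → ro G 0 p ≤ K) (c : ℝ) (hc : Tendsto (Dv G) atTop (𝓝 c)) :
    ∃ C : ℝ, 0 < C ∧ Tendsto (fun N : ℕ => ∏ p ∈ (range N).filter Nat.Prime, (1 - xf G p)) atTop
      (𝓝 C) := by
  classical
  set e : ℕ → ℝ := fun n => if n.Prime then Real.log (1 - xf G n) + ((ro G 0 n : ℝ) - 1) / n else 0
    with he
  have hes : Summable e := by
    have h0 : Summable (fun n : ℕ => (8 * (K + 1 : ℝ) ^ 2 + 2 * (K + 1)) / (n : ℝ) ^ 2) := by
      have := (Real.summable_one_div_nat_pow (p := 2)).2 (by norm_num)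
      exact (this.mul_left (8 * (K + 1 : ℝ) ^ 2 + 2 * (K + 1))).congr (fun n => by ring)
    refine Summable.of_norm_bounded_eventually_nat h0 ?_
    filter_upwards [eventually_ge_atTop (2 * K + 4)] with n hn
    rw [he]
    simp only
    split_ifs with hp
    · have hnr : (2 : ℝ) * K + 4 ≤ n := by exact_mod_cast hn
      have hK0 : (0 : ℝ) ≤ K := Nat.cast_nonneg _
      have hr0 : (0 : ℝ) ≤ ro G 0 n := Nat.cast_nonneg _
      have hrK : (ro G 0 n : ℝ) ≤ K := by exact_mod_cast hK n hp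
      have hr1 : |(ro G 0 n : ℝ) - 1| ≤ K + 1 := by
        rw [abs_le]
        constructor <;> linarith
      have hn0 : (0 : ℝ) < n := by linarith
      have hn1 : (0 : ℝ) < (n : ℝ) - 1 := by linarith
      have hx : |xf G n| ≤ 2 * (K + 1) / n := by
        unfold xf
        rw [abs_div, abs_of_pos hn1, div_le_div_iff₀ hn1 hn0]
        calc |(ro G 0 n : ℝ) - 1| * n ≤ (K + 1) * n := mul_le_mul_of_nonneg_right hr1 hn0.le
          _ ≤ 2 * (K + 1) * ((n : ℝ) - 1) := by nlinarith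
      have hx12 : |xf G n| ≤ 1 / 2 := by
        unfold xf
        rw [abs_div, abs_of_pos hn1, div_le_div_iff₀ hn1 (by norm_num)]
        linarith
      have h1 := Real.abs_log_sub_add_sum_range_le (show |xf G n| < 1 by linarith) 1
      simp only [sum_range_one] at h1
      norm_num at h1
      have h2 : xf G n ^ 2 / (1 - |xf G n|) ≤ 2 * (xf G n) ^ 2 := by
        rw [div_le_iff₀ (by linarith)]
        nlinarith [sq_nonneg (xf G n), abs_nonneg (xf G n)]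
      have h3 : (xf G n) ^ 2 ≤ 4 * (K + 1) ^ 2 / (n : ℝ) ^ 2 := by
        rw [← sq_abs]
        calc |xf G n| ^ 2 ≤ (2 * (K + 1) / n) ^ 2 := pow_le_pow_left₀ (abs_nonneg _) hx 2
          _ = _ := by
            rw [div_pow, mul_pow]
            norm_num
      have h4 : |((ro G 0 n : ℝ) - 1) / n - xf G n| ≤ 2 * (K + 1) / (n : ℝ) ^ 2 := by
        have h5 : ((ro G 0 n : ℝ) - 1) / n - xf G n = -(((ro G 0 n : ℝ) - 1) / (n * ((n : ℝ) - 1))) := by
          unfold xf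
          field_simp
          ring
        rw [h5, abs_neg, abs_div, abs_of_pos (by positivity : (0 : ℝ) < n * ((n : ℝ) - 1)),
          div_le_div_iff₀ (by positivity) (by positivity)]
        calc |(ro G 0 n : ℝ) - 1| * (n : ℝ) ^ 2 ≤ (K + 1) * (n : ℝ) ^ 2 :=
              mul_le_mul_of_nonneg_right hr1 (by positivity)
          _ ≤ 2 * (K + 1) * (n * ((n : ℝ) - 1)) := by
              have : (n : ℝ) ^ 2 ≤ 2 * (n * ((n : ℝ) - 1)) := by nlinarith
              calc ((K : ℝ) + 1) * (n : ℝ) ^ 2 ≤ (K + 1) * (2 * (n * ((n : ℝ) - 1))) :=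
                    mul_le_mul_of_nonneg_left this (by positivity)
                _ = _ := by ring
      rw [Real.norm_eq_abs]
      have h6 : Real.log (1 - xf G n) + ((ro G 0 n : ℝ) - 1) / n =
          (xf G n + Real.log (1 - xf G n)) + (((ro G 0 n : ℝ) - 1) / n - xf G n) := by ring
      rw [h6]
      refine (abs_add_le _ _).trans ?_
      have h7 : (8 * (K + 1 : ℝ) ^ 2 + 2 * (K + 1)) / (n : ℝ) ^ 2 =
          2 * (4 * (K + 1) ^ 2 / (n : ℝ) ^ 2) + 2 * (K + 1) / (n : ℝ) ^ 2 := by ring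
      rw [h7]
      have h8 : |xf G n + Real.log (1 - xf G n)| ≤ xf G n ^ 2 / (1 - |xf G n|) := by
        simpa using h1
      linarith
    · rw [norm_zero]
      positivity
  have he2 := hes.hasSum.tendsto_sum_nat
  refine ⟨Real.exp ((∑' n, e n) - c), Real.exp_pos _, ?_⟩
  have h5 := (Real.continuous_exp.tendsto _).comp (he2.sub hc)
  refine h5.congr (fun N => ?_)
  simp only [Function.comp]
  have h6 : ∑ n ∈ range N, e n = ∑ p ∈ (range N).filter Nat.Prime,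
      (Real.log (1 - xf G p) + ((ro G 0 p : ℝ) - 1) / p) := by
    rw [he, sum_filter]
  rw [h6, sum_add_distrib]
  unfold Dv
  rw [add_sub_cancel_right, Real.exp_sum]
  refine prod_congr rfl (fun p hp => ?_)
  rw [Real.exp_log (xf_pos G hlt p (mem_filter.1 hp).2)]

theorem den_split (G : ℤ[X]) (z : ℝ) : den G z = GG ⌈z⌉₊ *
    ∏ p ∈ (range ⌈z⌉₊).filter Nat.Prime, (1 - xf G p) := by
  unfold den GG
  rw [← prod_mul_distrib]
  refine prod_congr rfl (fun p hp => ?_)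
  have hpp := (mem_filter.1 hp).2
  rw [← xf_eq G p hpp, mul_div_cancel₀ _ (fac_pos p hpp).1.ne']

theorem limG (G : ℤ[X]) (C : ℝ) (hC : Tendsto (fun N : ℕ => ∏ p ∈ (range N).filter Nat.Prime,
    (1 - xf G p)) atTop (𝓝 C)) : Tendsto (fun z : ℝ => den G z * Real.log z) atTop
      (𝓝 (C * Real.exp (-Real.eulerMascheroniConstant))) := by
  have h1 := real_version (fun N => GG (N + 1)) (fun N => (GG_pos _).le) (fun N => GG_le _) _ GG_mertens
  have h2 := (hC.comp (tendsto_nat_ceil_atTop (α := ℝ))).mul h1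
  refine h2.congr' ?_
  filter_upwards [eventually_gt_atTop (0 : ℝ)] with z hz
  have hc : 0 < ⌈z⌉₊ := Nat.ceil_pos.2 hz
  simp only [Function.comp]
  rw [den_split, Nat.sub_add_cancel hc]
  ring

theorem lo_den (G : ℤ[X]) (Z : ℕ) : lo G Z = den G ((Z + 1 : ℕ) : ℝ) := by
  unfold lo den
  rw [Nat.ceil_natCast]
  apply prod_congr _ (fun _ _ => rfl)
  ext p
  rw [mem_filter, mem_filter, mem_Icc, mem_range]
  constructor
  · rintro ⟨⟨_, h2⟩, h3⟩
    exact ⟨by omega, h3⟩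
  · rintro ⟨h2, h3⟩
    exact ⟨⟨h3.one_le, by omega⟩, h3⟩

theorem lo_anti (G : ℤ[X]) (Z Z' : ℕ) (h : Z ≤ Z') : lo G Z' ≤ lo G Z := by
  unfold lo
  apply prod_sub
  · intro p hp
    rw [mem_filter, mem_Icc] at hp ⊢
    exact ⟨⟨hp.1.1, hp.1.2.trans h⟩, hp.2⟩
  · intro p hp
    exact (mem_filter.1 hp).2

theorem lowG (G : ℤ[X]) (hlt : ∀ p : ℕ, p.Prime → ro G 0 p < p) (L : ℝ) (hL : 0 < L)
    (h : Tendsto (fun z : ℝ => den G z * Real.log z) atTop (𝓝 L)) :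
    ∃ c : ℝ, 0 < c ∧ ∀ Z : ℕ, 3 ≤ Z → c / Real.log Z ≤ lo G Z := by
  have hpos : ∀ Z : ℕ, 0 < lo G Z := by
    intro Z
    unfold lo
    apply prod_pos
    intro p hp
    have hpp := (mem_filter.1 hp).2
    have hp0 : (0 : ℝ) < p := by exact_mod_cast hpp.pos
    rw [sub_pos, div_lt_one hp0]
    exact_mod_cast hlt p hpp
  have h1 : Tendsto (fun Z : ℕ => den G ((Z + 1 : ℕ) : ℝ) * Real.log ((Z + 1 : ℕ) : ℝ)) atTop (𝓝 L) :=
    h.comp (tendsto_natCast_atTop_atTop.comp (tendsto_add_atTop_nat 1))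
  have h2 := h1.eventually (eventually_gt_nhds (show L / 2 < L by linarith))
  obtain ⟨Z0, hZ0⟩ := eventually_atTop.1 h2
  refine ⟨min (L / 4) (lo G Z0), lt_min (by linarith) (hpos _), fun Z hZ => ?_⟩
  have hZr : (3 : ℝ) ≤ Z := by exact_mod_cast hZ
  have hlZ : 1 ≤ Real.log Z := by
    rw [Real.le_log_iff_exp_le (by linarith)]
    linarith [Real.exp_one_lt_d9]
  rcases le_or_gt Z0 Z with h3 | h3
  · have h4 := hZ0 Z h3
    rw [lo_den G Z]
    have h5 : Real.log ((Z + 1 : ℕ) : ℝ) ≤ 2 * Real.log Z := by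
      have : 2 * Real.log Z = Real.log ((Z : ℝ) ^ 2) := by
        rw [Real.log_pow]
        norm_num
      rw [this]
      apply Real.log_le_log (by positivity)
      push_cast
      nlinarith
    have h6 : 0 ≤ den G ((Z + 1 : ℕ) : ℝ) := by
      rw [← lo_den G Z]
      exact (hpos Z).le
    rw [div_le_iff₀ (by linarith)]
    have h7 : den G ((Z + 1 : ℕ) : ℝ) * Real.log ((Z + 1 : ℕ) : ℝ) ≤
        den G ((Z + 1 : ℕ) : ℝ) * (2 * Real.log Z) := mul_le_mul_of_nonneg_left h5 h6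
    have h8 := min_le_left (L / 4) (lo G Z0)
    linarith
  · have h4 := lo_anti G Z Z0 h3.le
    have h5 : min (L / 4) (lo G Z0) / Real.log Z ≤ min (L / 4) (lo G Z0) :=
      div_le_self (le_min (by linarith) (hpos _).le) hlZ
    exact h5.trans ((min_le_right _ _).trans h4)

/-- the densities are regular -/
theorem merG (G : ℤ[X]) (c : ℝ) (hc : Tendsto (Dv G) atTop (𝓝 c)) (ε₁ υ η : ℝ) (hε : 0 < ε₁)
    (hυ : υ ≤ 1) (hη : 0 < η) : ∃ Y0 : ℕ, ∀ Y : ℕ, Y0 ≤ Y →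
      Mer (pr Y ε₁ υ) (tt Y) (fun p => (ro G 0 p : ℝ) / p) ε₁ υ η := by
  classical
  obtain ⟨N1, hN1⟩ := Pool.Agent.W378.DC.MP ε₁ (η / 3) hε (by linarith)
  obtain ⟨P0, hP0⟩ := Metric.tendsto_atTop.1 hc (η / 6) (by linarith)
  have ev1 : ∀ᶠ Y : ℕ in atTop, (max (P0 : ℝ) (3 / η)) + 3 ≤ (Y : ℝ) ^ ε₁ :=
    ((tendsto_rpow_atTop hε).comp tendsto_natCast_atTop_atTop).eventually_ge_atTop _
  obtain ⟨Y1, hY1⟩ := eventually_atTop.1 (ev1.and (eventually_ge_atTop 3))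
  refine ⟨max N1 Y1, fun Y hY => ?_⟩
  obtain ⟨e1, e4⟩ := hY1 Y ((le_max_right _ _).trans hY)
  have hYN1 : N1 ≤ Y := (le_max_left _ _).trans hY
  have hYr : (3 : ℝ) ≤ Y := by exact_mod_cast e4
  have hY0 : (0 : ℝ) < Y := by linarith
  have hY1r : (1 : ℝ) < Y := by linarith
  intro u v hu huv hv
  have hv1 : v ≤ 1 := hv.trans hυ
  have hset : (pr Y ε₁ υ).filter (fun p => u ≤ tt Y p ∧ tt Y p < v) = pr Y u v := by
    ext p
    unfold pr
    rw [mem_filter, mem_filter, mem_filter]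
    constructor
    · rintro ⟨⟨h1, h2, h3, h4⟩, h5, h6⟩
      exact ⟨h1, h2, h5, h6⟩
    · rintro ⟨h1, h2, h5, h6⟩
      exact ⟨⟨h1, h2, hu.trans h5, h6.trans_le hv⟩, h5, h6⟩
  rw [hset]
  have m1 := hN1 Y hYN1 u v hu huv hv1
  rw [pr_eq (by omega) hv1] at m1 ⊢
  have hmono : (Y : ℝ) ^ u ≤ (Y : ℝ) ^ v := Real.rpow_le_rpow_of_exponent_le hY1r.le huv
  have hu' : (Y : ℝ) ^ ε₁ ≤ (Y : ℝ) ^ u := Real.rpow_le_rpow_of_exponent_le hY1r.le hu
  have hAB : ⌈(Y : ℝ) ^ u⌉₊ - 1 ≤ ⌈(Y : ℝ) ^ v⌉₊ - 1 := Nat.sub_le_sub_right (Nat.ceil_mono hmono) 1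
  have hAl : (Y : ℝ) ^ ε₁ - 1 ≤ ((⌈(Y : ℝ) ^ u⌉₊ - 1 : ℕ) : ℝ) := by
    have h1 := Nat.le_ceil ((Y : ℝ) ^ u)
    have h2 : 1 ≤ ⌈(Y : ℝ) ^ u⌉₊ := Nat.ceil_pos.2 (by positivity)
    rw [Nat.cast_sub h2]
    push_cast
    linarith
  set A := ⌈(Y : ℝ) ^ u⌉₊ - 1 with hA
  set B := ⌈(Y : ℝ) ^ v⌉₊ - 1 with hB
  have hAmax : max (P0 : ℝ) (3 / η) + 2 ≤ A := by linarith
  have hAP : P0 ≤ A := by
    have : (P0 : ℝ) ≤ A := by linarith [le_max_left (P0 : ℝ) (3 / η)]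
    exact_mod_cast this
  have hAη : 3 / η ≤ A := by linarith [le_max_right (P0 : ℝ) (3 / η)]
  have hA2r : (2 : ℝ) ≤ A := by
    have : (0 : ℝ) ≤ P0 := Nat.cast_nonneg _
    linarith [le_max_left (P0 : ℝ) (3 / η)]
  have hA2 : 2 ≤ A := by exact_mod_cast hA2r
  have m2 := shift_prime (A := A) (B := B) (by omega) hAB
  rw [Finset.sum_sub_distrib] at m2
  have hsum : ∑ p ∈ (Ioc A B).filter Nat.Prime, (ro G 0 p : ℝ) / p =
      ∑ p ∈ (Ioc A B).filter Nat.Prime, 1 / (p : ℝ) + (Dv G (B + 1) - Dv G (A + 1)) := by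
    have h1 : Dv G (B + 1) - Dv G (A + 1) =
        ∑ p ∈ (Ioc A B).filter Nat.Prime, ((ro G 0 p : ℝ) - 1) / p := by
      unfold Dv
      rw [sub_eq_iff_eq_add, ← sum_union]
      · congr 1
        ext p
        rw [mem_union, mem_filter, mem_filter, mem_filter, mem_Ioc, mem_range, mem_range]
        constructor
        · rintro ⟨h3, h4⟩
          rcases le_or_gt p A with h | h
          · exact Or.inr ⟨by omega, h4⟩
          · exact Or.inl ⟨⟨h, by omega⟩, h4⟩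
        · rintro (⟨⟨h3, h4⟩, h5⟩ | ⟨h3, h4⟩)
          · exact ⟨by omega, h5⟩
          · exact ⟨by omega, h4⟩
      · rw [disjoint_left]
        intro p hp hp'
        rw [mem_filter, mem_Ioc] at hp
        rw [mem_filter, mem_range] at hp'
        omega
    rw [h1, ← sum_add_distrib]
    apply sum_congr rfl
    intro p _
    ring
  rw [hsum]
  have m4 : |Dv G (B + 1) - Dv G (A + 1)| ≤ η / 3 := by
    have h1 := hP0 (B + 1) (by omega)
    have h2 := hP0 (A + 1) (by omega)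
    rw [Real.dist_eq] at h1 h2
    obtain ⟨a1, a2⟩ := abs_lt.1 h1
    obtain ⟨a3, a4⟩ := abs_lt.1 h2
    rw [abs_le]
    constructor <;> linarith
  have m5 : 1 / (A : ℝ) ≤ η / 3 := by
    rw [div_le_iff₀ (by linarith)]
    rw [div_le_iff₀ hη] at hAη
    linarith
  obtain ⟨a1, a2⟩ := abs_le.1 m1
  obtain ⟨a3, a4⟩ := abs_le.1 m4
  rw [abs_le]
  constructor <;> linarith [m2.1, m2.2]

theorem Reg_of_conv (G : ℤ[X]) (hlt : ∀ p : ℕ, p.Prime → ro G 0 p < p) (K : ℕ)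
    (hK : ∀ p : ℕ, p.Prime → ro G 0 p ≤ K) (c : ℝ) (hc : Tendsto (Dv G) atTop (𝓝 c))
    (hgrow : ∃ n₀ : ℕ, ∀ n : ℕ, n₀ ≤ n → n ≤ (G.eval (n : ℤ)).natAbs) :
    ∃ C : ℝ, 0 < C ∧ Tendsto (fun x : ℕ => ∏ p ∈ (range (x + 1)).filter Nat.Prime,
      (1 - (ro G 0 p : ℝ) / p) / (1 - 1 / (p : ℝ))) atTop (𝓝 C) ∧ Reg G C := by
  obtain ⟨C, hC, hCt⟩ := prodG_conv G hlt K hK c hc
  have hlim := limG G C hCt
  refine ⟨C, hC, ?_, ?_⟩
  · refine (hCt.comp (tendsto_add_atTop_nat 1)).congr (fun N => ?_)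
    simp only [Function.comp]
    refine prod_congr rfl (fun p hp => ?_)
    rw [xf_eq G p (mem_filter.1 hp).2]
  · exact ⟨hlt, ⟨K, hK⟩, fun ε₁ υ η h1 h2 h3 => merG G c hc ε₁ υ η h1 h2 h3,
      lowG G hlt _ (by positivity) hlim, hlim, hgrow⟩

end Pool.Agent.H662.RC
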