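import Pool.Agent.H662.RC.Tau
import Pool.Agent.H662.RC.GenReg
import Pool.Agent.Y707.RX.Zet
import Pool.Agent.H474R2.GE.RhoHoms

/-! The regularity conditions for irreducible polynomials. -/

set_option autoImplicit false

namespace Pool.Agent.H662.RC

open Filter Finset Topology Polynomial NumberField
open Pool.Agent.W23.DC
open Pool.Agent.Y882
open Pool.Agent.Y882.PX
open Pool.Agent.Y882.SI
open Pool.Agent.Y707.RX
open H332.PIT

section
variable (L : Type) [Field L] [NumberField L]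

/-- the number of the homomorphisms to the prime field -/
noncomputable def hm (n : ℕ) : ℝ := open scoped Classical in
  if n.Prime then (Nat.card (𝓞 L →+* ZMod n) : ℝ) else 0

theorem hasSum_hm (σ : ℝ) (hσ : 0 < σ) : HasSum (fun n : ℕ => hm L n * (n : ℝ) ^ (-(1 + σ)))
    ((PS L ((1 + σ : ℝ) : ℂ)).re) := by
  have hs : 1 < (((1 + σ : ℝ) : ℂ)).re := by
    rw [Complex.ofReal_re]
    linarith
  have h1 := (rn_summable (L := L) hs).hasSum
  have h2 := Complex.reCLM.hasSum h1
  have h3 : (PS L ((1 + σ : ℝ) : ℂ)).re = Complex.reCLM (∑' n : ℕ, LSeries.term (rn L) ((1 + σ : ℝ) : ℂ) n) := by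
    rw [PS_eq]
    rfl
  rw [h3]
  refine h2.congr_fun ?_ 
  intro n
  rcases Nat.eq_zero_or_pos n with h | h
  · subst h
    unfold hm
    rw [LSeries.term_zero, if_neg Nat.not_prime_zero]
    simp
  · simp only [Complex.reCLM_apply]
    rw [LSeries.term_of_ne_zero h.ne']
    unfold rn hm
    split_ifs with hp
    · have h4 : ((n : ℂ) ^ ((1 + σ : ℝ) : ℂ)) = (((n : ℝ) ^ (1 + σ) : ℝ) : ℂ) := by
        rw [Complex.ofReal_cpow (Nat.cast_nonneg n)]
        simp
      rw [h4, Real.rpow_neg (Nat.cast_nonneg n), ← div_eq_mul_inv]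
      have h5 : ((Nat.card (𝓞 L →+* ZMod n) : ℂ)) / (((n : ℝ) ^ (1 + σ) : ℝ) : ℂ) =
          (((Nat.card (𝓞 L →+* ZMod n) : ℝ) / (n : ℝ) ^ (1 + σ) : ℝ) : ℂ) := by
        push_cast
        rfl
      rw [h5, Complex.ofReal_re]
    · simp

end

theorem hm_rat (p : ℕ) (hp : p.Prime) : hm ℚ p = 1 := by
  unfold hm
  rw [if_pos hp]
  have h1 : Nat.card (𝓞 ℚ →+* ZMod p) = 1 := by
    rw [Nat.card_eq_one_iff_unique]
    constructor
    · constructor
      intro f g
      have h2 : f.comp (Rat.ringOfIntegersEquiv.symm : ℤ →+* 𝓞 ℚ) =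
          g.comp (Rat.ringOfIntegersEquiv.symm : ℤ →+* 𝓞 ℚ) := RingHom.ext_int _ _
      refine RingHom.ext fun x => ?_
      have h3 := RingHom.congr_fun h2 (Rat.ringOfIntegersEquiv x)
      rw [RingHom.comp_apply, RingHom.comp_apply] at h3
      have h4 : (Rat.ringOfIntegersEquiv.symm : ℤ →+* 𝓞 ℚ) (Rat.ringOfIntegersEquiv x) = x :=
        Rat.ringOfIntegersEquiv.symm_apply_apply x
      rw [h4] at h3
      exact h3
    · exact ⟨(Int.castRingHom (ZMod p)).comp (Rat.ringOfIntegersEquiv : 𝓞 ℚ →+* ℤ)⟩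
  rw [h1, Nat.cast_one]

theorem conv_hm (L : Type) [Field L] [NumberField L] : ∃ c : ℝ,
    Tendsto (fun N : ℕ => ∑ p ∈ (range N).filter Nat.Prime, (hm L p - 1) / p) atTop (𝓝 c) := by
  classical
  obtain ⟨B1, hB1, hB1'⟩ := PS_log L
  obtain ⟨B2, hB2, hB2'⟩ := PS_log ℚ
  set b : ℕ → ℝ := fun n => (hm L n - hm ℚ n) * Real.log n with hb
  have hp0 : ∀ n : ℕ, ¬ n.Prime → b n = 0 := by
    intro n hn
    rw [hb]
    simp only
    unfold hm
    rw [if_neg hn, if_neg hn]
    ring
  -- the partial sums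
  have hsumb : ∀ N : ℕ, ∑ i ∈ range (N + 1), b i = H332.PIT.TT L N - H332.PIT.TT ℚ N := by
    intro N
    have h1 : ∑ i ∈ range (N + 1), b i = ∑ i ∈ (range (N + 1)).filter Nat.Prime, b i := by
      symm
      apply sum_subset (filter_subset _ _)
      intro n hn hn'
      apply hp0
      intro h
      exact hn' (mem_filter.2 ⟨hn, h⟩)
    rw [h1]
    unfold H332.PIT.TT
    rw [← sum_sub_distrib]
    apply sum_congr rfl
    intro p hp
    have hpp := (mem_filter.1 hp).2
    rw [hb]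
    simp only
    unfold hm
    rw [if_pos hpp, if_pos hpp]
    ring
  have hB : Tendsto (fun N : ℕ => (∑ i ∈ range (N + 1), b i) / N) atTop (𝓝 0) := by
    have h1 := TT_tendsto (K := L) (Pool.Agent.H484R2.continuation L)
    have h2 := TT_tendsto (K := ℚ) (Pool.Agent.H484R2.continuation ℚ)
    have h3 := h1.sub h2
    rw [sub_self] at h3
    refine h3.congr fun N => ?_
    rw [hsumb]
    ring
  have hpath : Tendsto (fun σ : ℝ => (((1 + σ : ℝ) : ℂ))) (𝓝[>] 0) (𝓝 1) := by
    have h : Continuous fun σ : ℝ => (((1 + σ : ℝ) : ℂ)) := by fun_prop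
    have h1 := h.tendsto 0
    simp only [add_zero, Complex.ofReal_one] at h1
    exact h1.mono_left nhdsWithin_le_nhds
  have hf : Tendsto (fun σ : ℝ => (PS L ((1 + σ : ℝ) : ℂ)).re - (PS ℚ ((1 + σ : ℝ) : ℂ)).re)
      (𝓝[>] 0) (𝓝 ((B1 1).re - (B2 1).re)) := by
    have h1 := (Complex.continuous_re.tendsto _).comp
      ((hB1.continuousAt.tendsto.comp hpath).sub (hB2.continuousAt.tendsto.comp hpath))
    rw [Complex.sub_re] at h1
    refine h1.congr' ?_
    filter_upwards [hpath.eventually hB1', hpath.eventually hB2', self_mem_nhdsWithin] with σ e1 e2 hσ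
    have hσ0 : (0 : ℝ) < σ := hσ
    have hre : 1 < (((1 + σ : ℝ) : ℂ)).re := by
      rw [Complex.ofReal_re]
      linarith
    rw [← Complex.sub_re, e1 hre, e2 hre]
    simp only [Function.comp]
    congr 1
    ring
  have hsum : ∀ σ : ℝ, 0 < σ → HasSum (fun n : ℕ => b n * psi2 σ n)
      ((PS L ((1 + σ : ℝ) : ℂ)).re - (PS ℚ ((1 + σ : ℝ) : ℂ)).re) := by
    intro σ hσ
    have h1 := (hasSum_hm L σ hσ).sub (hasSum_hm ℚ σ hσ)
    refine h1.congr_fun ?_
    intro n
    by_cases hn : n.Prime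
    · have hn2 : (2 : ℝ) ≤ n := by exact_mod_cast hn.two_le
      have hl : 0 < Real.log n := Real.log_pos (by linarith)
      have hn0 : (0 : ℝ) < n := by linarith
      rw [hb]
      simp only
      unfold psi2
      rw [show -(1 + σ) = -σ + (-1) by ring, Real.rpow_add hn0, Real.rpow_neg_one]
      field_simp
    · rw [hp0 n hn]
      unfold hm
      rw [if_neg hn, if_neg hn]
      ring
  have ht := tauber b (fun n hn => hp0 n (fun h => by have := h.two_le; omega)) hB _ _ hsum hf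
  refine ⟨(B1 1).re - (B2 1).re, ?_⟩
  rw [← tendsto_add_atTop_iff_nat 1]
  refine ht.congr fun N => ?_
  have h1 : ∑ n ∈ range (N + 1), b n / (n * Real.log n) =
      ∑ n ∈ (range (N + 1)).filter Nat.Prime, b n / (n * Real.log n) := by
    symm
    apply sum_subset (filter_subset _ _)
    intro n hn hn'
    rw [hp0 n (fun h => hn' (mem_filter.2 ⟨hn, h⟩)), zero_div]
  rw [h1]
  apply sum_congr rfl
  intro p hp
  have hpp := (mem_filter.1 hp).2
  have hn2 : (2 : ℝ) ≤ p := by exact_mod_cast hpp.two_le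
  have hl : 0 < Real.log p := Real.log_pos (by linarith)
  rw [hb]
  simp only
  rw [hm_rat p hpp]
  field_simp

theorem rho_ro (f : ℤ[X]) (p : ℕ) : Pool.Agent.H474R2.PG.rho f p = ro f 0 p := by
  rw [ro_eq]
  unfold Pool.Agent.H474R2.PG.rho
  simp

/-- the roots modulo large primes are the homomorphisms -/
theorem rho_homs (f : ℤ[X]) (hf : Irreducible f) (hd : 0 < f.natDegree) :
    ∃ (L : Type) (_ : Field L) (_ : NumberField L), ∃ B : ℕ, ∀ p : ℕ, p.Prime → B < p →
      (ro f 0 p : ℝ) = hm L p := by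
  have hprim : f.IsPrimitive := hf.isPrimitive hd.ne'
  have hF : Irreducible (f.map (Int.castRingHom ℚ)) :=
    (IsPrimitive.Int.irreducible_iff_irreducible_map_cast hprim).1 hf
  have hfact : Fact (Irreducible (f.map (Int.castRingHom ℚ))) := ⟨hF⟩
  have hadj : ∀ x : AdjoinRoot (f.map (Int.castRingHom ℚ)), ∃ q : ℚ[X],
      eval₂ (Rat.castHom (AdjoinRoot (f.map (Int.castRingHom ℚ))))
        (AdjoinRoot.root (f.map (Int.castRingHom ℚ))) q = x := by
    intro x
    obtain ⟨q, rfl⟩ := AdjoinRoot.mk_surjective x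
    refine ⟨q, ?_⟩
    have h2 : Rat.castHom (AdjoinRoot (f.map (Int.castRingHom ℚ))) =
        AdjoinRoot.of (f.map (Int.castRingHom ℚ)) := Subsingleton.elim _ _
    rw [h2]
    have h3 := AdjoinRoot.aeval_eq (f := f.map (Int.castRingHom ℚ)) q
    rw [← h3]
    rfl
  obtain ⟨Ba, hBa⟩ := Pool.Agent.H474R2.PG.P2_core (AdjoinRoot (f.map (Int.castRingHom ℚ))) f hd
    (AdjoinRoot.root (f.map (Int.castRingHom ℚ))) (by
      have h1 := AdjoinRoot.eval₂_root (f.map (Int.castRingHom ℚ))
      rw [eval₂_map] at h1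
      have h2 : (AdjoinRoot.of (f.map (Int.castRingHom ℚ))).comp (Int.castRingHom ℚ) =
          Int.castRingHom (AdjoinRoot (f.map (Int.castRingHom ℚ))) := RingHom.ext_int _ _
      rw [h2] at h1
      exact h1) hadj
  obtain ⟨Bb, hBb⟩ := Pool.Agent.H474R2.GE.M1_core (AdjoinRoot (f.map (Int.castRingHom ℚ))) f
    (AdjoinRoot.root (f.map (Int.castRingHom ℚ))) (by
      intro A hA
      have h1 : AdjoinRoot.mk (f.map (Int.castRingHom ℚ)) (A.map (Int.castRingHom ℚ)) = 0 := by
        have h3 := AdjoinRoot.aeval_eq (f := f.map (Int.castRingHom ℚ)) (A.map (Int.castRingHom ℚ))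
        rw [← h3, aeval_def, eval₂_map]
        have hg : ∀ g : ℤ →+* AdjoinRoot (f.map (Int.castRingHom ℚ)),
            eval₂ g (AdjoinRoot.root (f.map (Int.castRingHom ℚ))) A = 0 := by
          intro g
          rw [RingHom.ext_int g (Int.castRingHom _)]
          exact hA
        exact hg _
      rw [AdjoinRoot.mk_eq_zero] at h1
      exact (IsPrimitive.Int.dvd_iff_map_cast_dvd_map_cast f A hprim).2 h1) hadj
  refine ⟨AdjoinRoot (f.map (Int.castRingHom ℚ)), inferInstance, inferInstance, max Ba Bb, ?_⟩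
  intro p hp hB
  have h1 := hBa p hp (lt_of_le_of_lt (le_max_left _ _) hB)
  have h2 := hBb p hp (lt_of_le_of_lt (le_max_right _ _) hB)
  unfold hm
  rw [if_pos hp, ← rho_ro]
  exact_mod_cast le_antisymm h2 h1

/-- **Mertens' theorem for the roots**, with convergence -/
theorem conv_ro (f : ℤ[X]) (hf : Irreducible f) (hd : 0 < f.natDegree) :
    ∃ c : ℝ, Tendsto (Dv f) atTop (𝓝 c) := by
  classical
  obtain ⟨L, iF, iN, B, hB⟩ := rho_homs f hf hd
  obtain ⟨c, hc⟩ := conv_hm L
  set D : ℝ := ∑ p ∈ (range (B + 1)).filter Nat.Prime, ((ro f 0 p : ℝ) - hm L p) / p with hD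
  refine ⟨c + D, ?_⟩
  refine (hc.add_const D).congr' ?_
  filter_upwards [eventually_ge_atTop (B + 1)] with N hN
  unfold Dv
  have h1 : ∑ p ∈ (range N).filter Nat.Prime, ((ro f 0 p : ℝ) - 1) / p =
      ∑ p ∈ (range N).filter Nat.Prime, (hm L p - 1) / p +
      ∑ p ∈ (range N).filter Nat.Prime, ((ro f 0 p : ℝ) - hm L p) / p := by
    rw [← sum_add_distrib]
    apply sum_congr rfl
    intro p _
    ring
  rw [h1]
  congr 1
  rw [hD]
  apply sum_subset
  · intro p hp
    rw [mem_filter, mem_range] at hp ⊢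
    exact ⟨by omega, hp.2⟩
  · intro p hp hp'
    rw [mem_filter, mem_range] at hp hp'
    have h2 : B < p := by
      by_contra h
      exact hp' ⟨by omega, hp.2⟩
    rw [hB p hp.2 h2, sub_self, zero_div]

theorem ro_le_deg (f : ℤ[X]) (hf : f.Monic) (p : ℕ) (hp : p.Prime) : ro f 0 p ≤ f.natDegree := by
  classical
  have : Fact p.Prime := ⟨hp⟩
  rw [ro_eq]
  have hne : f.map (Int.castRingHom (ZMod p)) ≠ 0 := (hf.map _).ne_zero
  have h1 : ((range p).filter (fun n : ℕ => (p : ℤ) ∣ f.eval (n : ℤ) + 0)).card ≤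
      (f.map (Int.castRingHom (ZMod p))).roots.toFinset.card := by
    apply card_le_card_of_injOn (fun n : ℕ => (n : ZMod p))
    · intro n hn
      rw [mem_coe, mem_filter, mem_range, add_zero] at hn
      rw [mem_coe, Multiset.mem_toFinset, mem_roots hne, IsRoot.def]
      have h2 : (f.map (Int.castRingHom (ZMod p))).eval ((Int.castRingHom (ZMod p)) (n : ℤ)) =
          (Int.castRingHom (ZMod p)) (f.eval (n : ℤ)) := eval_map_apply _ _
      simp only [eq_intCast, Int.cast_natCast] at h2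
      show (f.map (Int.castRingHom (ZMod p))).eval (n : ZMod p) = 0
      rw [h2, ZMod.intCast_zmod_eq_zero_iff_dvd]
      exact hn.2
    · intro n hn m hm h
      rw [mem_coe, mem_filter, mem_range] at hn hm
      have h2 : (n : ZMod p) = (m : ZMod p) := h
      rw [ZMod.natCast_eq_natCast_iff] at h2
      unfold Nat.ModEq at h2
      rwa [Nat.mod_eq_of_lt hn.1, Nat.mod_eq_of_lt hm.1] at h2
  refine h1.trans ((Multiset.toFinset_card_le _).trans ((card_roots' _).trans ?_))
  exact natDegree_map_le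

end Pool.Agent.H662.RC
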