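import Pool.Agent.H662.RC.Gen

/-! The regularity conditions for quadratic polynomials. -/

set_option autoImplicit false

namespace Pool.Agent.H662.RC

open Filter Finset Topology Polynomial
open Pool.Agent.W23.DC
open Pool.Agent.Y882
open Pool.Agent.Y882.PX
open Pool.Agent.Y882.SI
open Pool.Agent.Y882.JR
open Pool.Agent.Y781.JR

/-- the polynomial `a X ^ 2 + b X + c` -/
noncomputable def QG (a b c : ℤ) : ℤ[X] := C a * X ^ 2 + C b * X + C c

theorem QG_eval (a b c n : ℤ) : (QG a b c).eval n = a * n ^ 2 + b * n + c := by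
  unfold QG
  simp

theorem ro_QG (a b c : ℤ) (p : ℕ) (hp : p.Prime) (h : ¬ (p : ℤ) ∣ 2 * a) :
    ro (QG a b c) 0 p = ro (QF (-(b ^ 2 - 4 * a * c))) 0 p := by
  have : Fact p.Prime := ⟨hp⟩
  have h2a : ((2 * a : ℤ) : ZMod p) ≠ 0 := by
    rw [Ne, ZMod.intCast_zmod_eq_zero_iff_dvd]
    exact h
  have h2 : (2 : ZMod p) ≠ 0 := by
    intro h0
    apply h2a
    push_cast
    rw [h0, zero_mul]
  have hiff1 : ∀ n : ℕ, (p : ℤ) ∣ (QG a b c).eval (n : ℤ) + 0 ↔
      (a : ZMod p) * (n : ZMod p) ^ 2 + b * n + c = 0 := by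
    intro n
    rw [← ZMod.intCast_zmod_eq_zero_iff_dvd, QG_eval]
    push_cast
    rw [add_zero]
  have hiff2 : ∀ n : ℕ, (p : ℤ) ∣ (QF (-(b ^ 2 - 4 * a * c))).eval (n : ℤ) + 0 ↔
      (n : ZMod p) ^ 2 - ((b : ZMod p) ^ 2 - 4 * a * c) = 0 := by
    intro n
    rw [← ZMod.intCast_zmod_eq_zero_iff_dvd, QF_eval]
    push_cast
    constructor
    · intro h; linear_combination h
    · intro h; linear_combination h
  rw [ro_eq, ro_eq]
  have key : ∀ x : ZMod p, ((2 * a : ℤ) : ZMod p) * 2 * ((a : ZMod p) * x ^ 2 + b * x + c) =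
      (((2 * a : ℤ) : ZMod p) * x + b) ^ 2 - ((b : ZMod p) ^ 2 - 4 * a * c) := by
    intro x
    push_cast
    ring
  apply card_bij' (i := fun (n : ℕ) _ => ((((2 * a : ℤ) : ZMod p) * (n : ZMod p) + b)).val)
    (j := fun (m : ℕ) _ => (((m : ZMod p) - b) * (((2 * a : ℤ) : ZMod p))⁻¹).val)
  · intro n hn
    rw [mem_filter, mem_range, hiff1] at hn
    rw [mem_filter, mem_range, hiff2]
    refine ⟨ZMod.val_lt _, ?_⟩
    rw [ZMod.natCast_zmod_val, ← key, hn.2, mul_zero]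
  · intro m hm
    rw [mem_filter, mem_range, hiff2] at hm
    rw [mem_filter, mem_range, hiff1]
    refine ⟨ZMod.val_lt _, ?_⟩
    rw [ZMod.natCast_zmod_val]
    have h3 := key (((m : ZMod p) - b) * (((2 * a : ℤ) : ZMod p))⁻¹)
    have h4 : ((2 * a : ℤ) : ZMod p) * (((m : ZMod p) - b) * (((2 * a : ℤ) : ZMod p))⁻¹) + b = m := by
      field_simp
      ring
    rw [h4, hm.2] at h3
    rcases mul_eq_zero.1 h3 with h5 | h5
    · exact absurd h5 (mul_ne_zero h2a h2)
    · exact h5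
  · intro n hn
    rw [mem_filter, mem_range] at hn
    show ((((((2 * a : ℤ) : ZMod p) * (n : ZMod p) + b).val : ZMod p) - b) *
      (((2 * a : ℤ) : ZMod p))⁻¹).val = n
    rw [ZMod.natCast_zmod_val]
    have h4 : (((2 * a : ℤ) : ZMod p) * (n : ZMod p) + b - b) * (((2 * a : ℤ) : ZMod p))⁻¹ = n := by
      field_simp
      ring
    rw [h4, ZMod.val_cast_of_lt hn.1]
  · intro m hm
    rw [mem_filter, mem_range] at hm
    show (((2 * a : ℤ) : ZMod p) *
      ((((m : ZMod p) - b) * (((2 * a : ℤ) : ZMod p))⁻¹).val : ZMod p) + b).val = m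
    rw [ZMod.natCast_zmod_val]
    have h4 : ((2 * a : ℤ) : ZMod p) * (((m : ZMod p) - b) * (((2 * a : ℤ) : ZMod p))⁻¹) + b = m := by
      field_simp
      ring
    rw [h4, ZMod.val_cast_of_lt hm.1]

theorem ro_QG_lt (a b c : ℤ) (hg : ∀ p : ℕ, p.Prime → (p : ℤ) ∣ a → (p : ℤ) ∣ b → ¬ (p : ℤ) ∣ c)
    (h2 : ¬ ((2 : ℤ) ∣ a + b ∧ (2 : ℤ) ∣ c)) (p : ℕ) (hp : p.Prime) : ro (QG a b c) 0 p < p := by
  by_contra hcon
  have h1 : ro (QG a b c) 0 p = p := le_antisymm (ro_le_self _ _ _) (not_lt.1 hcon)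
  rw [ro_eq] at h1
  have h3 : (range p).filter (fun n : ℕ => (p : ℤ) ∣ (QG a b c).eval (n : ℤ) + 0) = range p := by
    apply eq_of_subset_of_card_le (filter_subset _ _)
    rw [h1, card_range]
  have h4 : ∀ n : ℕ, n < p → (p : ℤ) ∣ a * (n : ℤ) ^ 2 + b * n + c := by
    intro n hn
    have h5 : n ∈ (range p).filter (fun n : ℕ => (p : ℤ) ∣ (QG a b c).eval (n : ℤ) + 0) := by
      rw [h3, mem_range]
      exact hn
    have h6 := (mem_filter.1 h5).2
    rw [QG_eval, add_zero] at h6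
    exact h6
  have e0 := h4 0 hp.pos
  have e1 := h4 1 hp.one_lt
  simp only [Nat.cast_zero, Nat.cast_one] at e0 e1
  have hc : (p : ℤ) ∣ c := by
    have : a * (0 : ℤ) ^ 2 + b * 0 + c = c := by ring
    rwa [this] at e0
  have hab : (p : ℤ) ∣ a + b := by
    have h5 := dvd_sub e1 hc
    have : a * (1 : ℤ) ^ 2 + b * 1 + c - c = a + b := by ring
    rwa [this] at h5
  rcases hp.eq_two_or_odd' with h5 | h5
  · rw [h5] at hc hab
    exact h2 ⟨by exact_mod_cast hab, by exact_mod_cast hc⟩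
  · have h6 : 2 < p := by
      have := hp.two_le
      rcases lt_or_eq_of_le this with h | h
      · exact h
      · rw [← h] at h5
        exact absurd h5 (by decide)
    have e2 := h4 2 h6
    have h7 : (p : ℤ) ∣ 2 * a := by
      have h8 := dvd_sub (dvd_sub e2 hc) (Dvd.dvd.mul_left hab 2)
      have : a * ((2 : ℕ) : ℤ) ^ 2 + b * ((2 : ℕ) : ℤ) + c - c - 2 * (a + b) = 2 * a := by
        push_cast
        ring
      rwa [this] at h8
    have h9 : (p : ℤ) ∣ a := by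
      have h10 : IsCoprime (p : ℤ) 2 := by
        have : Nat.Coprime p 2 := Nat.Coprime.symm (Nat.coprime_two_left.2 h5)
        exact_mod_cast Nat.isCoprime_iff_coprime.2 this
      exact h10.dvd_of_dvd_mul_left h7
    have h11 : (p : ℤ) ∣ b := by
      have := dvd_sub hab h9
      rwa [add_sub_cancel_left] at this
    exact hg p hp h9 h11 hc

/-- the factor at the primes which divide `2a` -/
noncomputable def EQ (a b c : ℤ) : ℝ :=
  ∏ p ∈ (2 * a).natAbs.primeFactors,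
    (1 - (ro (QG a b c) 0 p : ℝ) / p) / (1 - (ro (QF (-(b ^ 2 - 4 * a * c))) 0 p : ℝ) / p)

theorem QF_pos (d : ℤ) (p : ℕ) (hp : p.Prime) : 0 < 1 - (ro (QF d) 0 p : ℝ) / p := by
  have hp0 : (0 : ℝ) < p := by exact_mod_cast hp.pos
  rw [sub_pos, div_lt_one hp0]
  by_cases h2 : p = 2
  · rw [h2, ro_quad_two]
    norm_num
  · have h4 : ro (QF d) 0 p ≤ 2 := ro_quad_le d p hp
    have h5 : 2 < p := by
      have := hp.two_le
      omega
    exact_mod_cast h4.trans_lt h5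

theorem QG_pos (a b c : ℤ) (hg : ∀ p : ℕ, p.Prime → (p : ℤ) ∣ a → (p : ℤ) ∣ b → ¬ (p : ℤ) ∣ c)
    (h2 : ¬ ((2 : ℤ) ∣ a + b ∧ (2 : ℤ) ∣ c)) (p : ℕ) (hp : p.Prime) :
    0 < 1 - (ro (QG a b c) 0 p : ℝ) / p := by
  have hp0 : (0 : ℝ) < p := by exact_mod_cast hp.pos
  rw [sub_pos, div_lt_one hp0]
  exact_mod_cast ro_QG_lt a b c hg h2 p hp

theorem EQ_pos (a b c : ℤ) (hg : ∀ p : ℕ, p.Prime → (p : ℤ) ∣ a → (p : ℤ) ∣ b → ¬ (p : ℤ) ∣ c)
    (h2 : ¬ ((2 : ℤ) ∣ a + b ∧ (2 : ℤ) ∣ c)) : 0 < EQ a b c := by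
  unfold EQ
  apply prod_pos
  intro p hp
  have hpp := Nat.prime_of_mem_primeFactors hp
  exact div_pos (QG_pos a b c hg h2 p hpp) (QF_pos _ p hpp)

/-- the product over a set of primes which contains those dividing `2a` -/
theorem prod_QG (a b c : ℤ) (S : Finset ℕ) (hS : ∀ p ∈ S, p.Prime)
    (hsub : (2 * a).natAbs.primeFactors ⊆ S) (ha : a ≠ 0) :
    ∏ p ∈ S, (1 - (ro (QG a b c) 0 p : ℝ) / p) =
      EQ a b c * ∏ p ∈ S, (1 - (ro (QF (-(b ^ 2 - 4 * a * c))) 0 p : ℝ) / p) := by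
  unfold EQ
  rw [← prod_sdiff hsub, ← prod_sdiff hsub (f := fun p : ℕ =>
    (1 - (ro (QF (-(b ^ 2 - 4 * a * c))) 0 p : ℝ) / p))]
  have h1 : ∏ p ∈ S \ (2 * a).natAbs.primeFactors, (1 - (ro (QG a b c) 0 p : ℝ) / p) =
      ∏ p ∈ S \ (2 * a).natAbs.primeFactors,
        (1 - (ro (QF (-(b ^ 2 - 4 * a * c))) 0 p : ℝ) / p) := by
    apply prod_congr rfl
    intro p hp
    rw [Finset.mem_sdiff] at hp
    rw [ro_QG a b c p (hS p hp.1)]
    intro hd
    apply hp.2
    rw [Nat.mem_primeFactors]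
    refine ⟨hS p hp.1, Int.natCast_dvd.1 hd, ?_⟩
    rw [Int.natAbs_ne_zero]
    exact mul_ne_zero two_ne_zero ha
  rw [h1]
  have h2 : ∏ p ∈ (2 * a).natAbs.primeFactors, (1 - (ro (QG a b c) 0 p : ℝ) / p) =
      (∏ p ∈ (2 * a).natAbs.primeFactors,
    (1 - (ro (QG a b c) 0 p : ℝ) / p) / (1 - (ro (QF (-(b ^ 2 - 4 * a * c))) 0 p : ℝ) / p)) *
      ∏ p ∈ (2 * a).natAbs.primeFactors,
        (1 - (ro (QF (-(b ^ 2 - 4 * a * c))) 0 p : ℝ) / p) := by
    rw [← prod_mul_distrib]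
    apply prod_congr rfl
    intro p hp
    rw [div_mul_cancel₀ _ (QF_pos _ p (Nat.prime_of_mem_primeFactors hp)).ne']
  rw [h2]
  ring

theorem den_QF (d : ℤ) (z : ℝ) : den (QF d) z = Pool.Agent.Y882.JR.dens d z := by
  unfold den Pool.Agent.Y882.JR.dens
  apply prod_congr rfl
  intro p _
  rw [rho_eq]

theorem pf_sub (a : ℤ) (ha : a ≠ 0) (N : ℕ) (hN : 2 * a.natAbs < N) :
    (2 * a).natAbs.primeFactors ⊆ (range N).filter Nat.Prime := by
  intro p hp
  have h1 := Nat.prime_of_mem_primeFactors hp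
  rw [mem_filter, mem_range]
  refine ⟨?_, h1⟩
  have h2 := Nat.le_of_dvd (Nat.pos_of_ne_zero (by
    rw [Int.natAbs_ne_zero]
    exact mul_ne_zero two_ne_zero ha)) (Nat.dvd_of_mem_primeFactors hp)
  have h3 : (2 * a).natAbs = 2 * a.natAbs := by
    rw [Int.natAbs_mul]
    rfl
  omega

theorem growQG (a b c : ℤ) (ha : 0 < a) : ∃ n₀ : ℕ, ∀ n : ℕ, n₀ ≤ n →
    n ≤ ((QG a b c).eval (n : ℤ)).natAbs := by
  refine ⟨b.natAbs + c.natAbs + 1, fun n hn => ?_⟩
  rw [QG_eval]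
  have h1 : (n : ℤ) ≤ a * (n : ℤ) ^ 2 + b * n + c := by
    have hb : -(b.natAbs : ℤ) ≤ b := by
      rw [Int.natCast_natAbs]
      exact neg_abs_le b
    have hc : -(c.natAbs : ℤ) ≤ c := by
      rw [Int.natCast_natAbs]
      exact neg_abs_le c
    have hn' : (b.natAbs : ℤ) + c.natAbs + 1 ≤ n := by exact_mod_cast hn
    have hb0 : (0 : ℤ) ≤ b.natAbs := Nat.cast_nonneg _
    have hc0 : (0 : ℤ) ≤ c.natAbs := Nat.cast_nonneg _
    have hn1 : (1 : ℤ) ≤ n := by linarith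
    have e1 : (n : ℤ) ^ 2 ≤ a * (n : ℤ) ^ 2 := by nlinarith
    have e2 : -(b.natAbs : ℤ) * n ≤ b * n := by nlinarith
    have e3 : (c.natAbs : ℤ) ≤ c.natAbs * n := by nlinarith
    nlinarith
  have h2 : (0 : ℤ) ≤ a * (n : ℤ) ^ 2 + b * n + c := le_trans (Nat.cast_nonneg n) h1
  zify
  rw [abs_of_nonneg h2]
  exact h1

theorem Reg_quad (a b c : ℤ) (ha : 0 < a)
    (hg : ∀ p : ℕ, p.Prime → (p : ℤ) ∣ a → (p : ℤ) ∣ b → ¬ (p : ℤ) ∣ c)
    (h2 : ¬ ((2 : ℤ) ∣ a + b ∧ (2 : ℤ) ∣ c)) (hD : ¬ IsSquare (b ^ 2 - 4 * a * c)) :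
    ∃ C : ℝ, 0 < C ∧ Tendsto (fun x : ℕ => ∏ p ∈ (range (x + 1)).filter Nat.Prime,
      (1 - (ro (QG a b c) 0 p : ℝ) / p) / (1 - 1 / (p : ℝ))) atTop (𝓝 C) ∧
      Reg (QG a b c) C := by
  set D : ℤ := b ^ 2 - 4 * a * c with hDd
  have ha0 : a ≠ 0 := ha.ne'
  have hns : ¬ IsSquare (-(-D)) := by rwa [neg_neg]
  obtain ⟨C, hC, hR⟩ := RR_conv (-D) hns
  obtain ⟨C', hC', hN', hz⟩ := Pool.Agent.Y781.JR.t (-D) hns
  have hE := EQ_pos a b c hg h2
  refine ⟨EQ a b c * C', by positivity, ?_, ?_⟩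
  · have h1 := (hN'.comp (tendsto_add_atTop_nat 1)).const_mul (EQ a b c)
    refine h1.congr' ?_
    filter_upwards [eventually_ge_atTop (2 * a.natAbs)] with x hx
    simp only [Function.comp]
    rw [prod_div_distrib, prod_QG a b c _ (fun p hp => (mem_filter.1 hp).2)
      (pf_sub a ha0 (x + 1) (by omega)) ha0, ← den_QF, ← hDd]
    unfold den
    rw [Nat.ceil_natCast]
    ring
  · constructor
    · exact ro_QG_lt a b c hg h2
    · refine ⟨2 * a.natAbs + 2, fun p hp => ?_⟩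
      by_cases h : (p : ℤ) ∣ 2 * a
      · have h3 := Nat.le_of_dvd (Nat.pos_of_ne_zero (by
          rw [Int.natAbs_ne_zero]
          exact mul_ne_zero two_ne_zero ha0)) (Int.natCast_dvd.1 h)
        have h4 : (2 * a).natAbs = 2 * a.natAbs := by
          rw [Int.natAbs_mul]
          rfl
        have h5 := ro_le_self (QG a b c) 0 p
        omega
      · rw [ro_QG a b c p hp h]
        have := ro_quad_le (-(b ^ 2 - 4 * a * c)) p hp
        omega
    · intro ε₁ υ η hε₁ hυ hη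
      obtain ⟨Y0, hY0⟩ := mer_quad (-D) hns ε₁ υ η hε₁ hυ hη
      have ev : ∀ᶠ Y : ℕ in atTop, (2 * a.natAbs : ℝ) < (Y : ℝ) ^ ε₁ :=
        ((tendsto_rpow_atTop hε₁).comp tendsto_natCast_atTop_atTop).eventually_gt_atTop _
      obtain ⟨Y1, hY1⟩ := eventually_atTop.1 (ev.and (eventually_ge_atTop 3))
      refine ⟨max Y0 Y1, fun Y hY => ?_⟩
      have h3 := hY0 Y ((le_max_left _ _).trans hY)
      obtain ⟨e1, e2⟩ := hY1 Y ((le_max_right _ _).trans hY)
      have hYr : (3 : ℝ) ≤ Y := by exact_mod_cast e2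
      have hYp : (0 : ℝ) < Y := by linarith
      have hlY : 0 < Real.log Y := Real.log_pos (by linarith)
      intro u v hu huv hv
      have h4 := h3 u v hu huv hv
      have h5 : ∑ p ∈ (pr Y ε₁ υ).filter (fun p => u ≤ tt Y p ∧ tt Y p < v),
          (ro (QG a b c) 0 p : ℝ) / p =
          ∑ p ∈ (pr Y ε₁ υ).filter (fun p => u ≤ tt Y p ∧ tt Y p < v),
          (ro (QF (-D)) 0 p : ℝ) / p := by
        apply sum_congr rfl
        intro p hp
        have h6 := (mem_filter.1 hp).1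
        unfold pr at h6
        rw [mem_filter] at h6
        have hpp := h6.2.1
        have hp0 : (0 : ℝ) < p := by exact_mod_cast hpp.pos
        have h7 := h6.2.2.1
        unfold tt at h7
        rw [le_div_iff₀ hlY, ← Real.log_rpow hYp] at h7
        have h8 := (Real.log_le_log_iff (by positivity) hp0).1 h7
        rw [ro_QG a b c p hpp]
        intro hd
        have h9 := Nat.le_of_dvd (Nat.pos_of_ne_zero (by
          rw [Int.natAbs_ne_zero]
          exact mul_ne_zero two_ne_zero ha0)) (Int.natCast_dvd.1 hd)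
        have h10 : (2 * a).natAbs = 2 * a.natAbs := by
          rw [Int.natAbs_mul]
          rfl
        rw [h10] at h9
        have h11 : (p : ℝ) ≤ 2 * a.natAbs := by exact_mod_cast h9
        linarith
      rw [h5]
      exact h4
    · obtain ⟨c₀, hc₀, HL⟩ := lo_quad (-D) hns
      set T : Finset ℕ := (2 * a).natAbs.primeFactors with hT
      have hTp : ∀ p ∈ T, p.Prime := fun p hp => Nat.prime_of_mem_primeFactors hp
      set P : ℝ := ∏ p ∈ T, (1 - (ro (QG a b c) 0 p : ℝ) / p) with hP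
      have hPpos : 0 < P := prod_pos fun p hp => QG_pos a b c hg h2 p (hTp p hp)
      refine ⟨P * c₀, by positivity, fun Z hZ => ?_⟩
      have h3 := HL Z hZ
      have hZr : (3 : ℝ) ≤ Z := by exact_mod_cast hZ
      have hlZ : 0 < Real.log Z := Real.log_pos (by linarith)
      have h4 : P * lo (QF (-D)) Z ≤ lo (QG a b c) Z := by
        unfold lo
        set U : Finset ℕ := (Icc 1 Z).filter Nat.Prime with hU
        have hUp : ∀ p ∈ U, p.Prime := fun p hp => (mem_filter.1 hp).2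
        have hsplit : ∀ g : ℕ → ℝ, ∏ p ∈ U, g p =
            (∏ p ∈ U.filter (fun p => p ∈ T), g p) * ∏ p ∈ U.filter (fun p => ¬ p ∈ T), g p :=
          fun g => (prod_filter_mul_prod_filter_not U (fun p => p ∈ T) g).symm
        rw [hsplit, hsplit (fun p => (1 - (ro (QG a b c) 0 p : ℝ) / p))]
        have h5 : ∏ p ∈ U.filter (fun p => ¬ p ∈ T), (1 - (ro (QG a b c) 0 p : ℝ) / p) =
            ∏ p ∈ U.filter (fun p => ¬ p ∈ T), (1 - (ro (QF (-D)) 0 p : ℝ) / p) := by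
          apply prod_congr rfl
          intro p hp
          rw [mem_filter] at hp
          rw [ro_QG a b c p (hUp p hp.1)]
          intro hd
          apply hp.2
          rw [hT, Nat.mem_primeFactors]
          refine ⟨hUp p hp.1, Int.natCast_dvd.1 hd, ?_⟩
          rw [Int.natAbs_ne_zero]
          exact mul_ne_zero two_ne_zero ha0
        have h6 : ∏ p ∈ U.filter (fun p => p ∈ T), (1 - (ro (QF (-D)) 0 p : ℝ) / p) ≤ 1 := by
          apply prod_le_one
          · intro p hp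
            exact (fac01 _ p (hUp p (mem_filter.1 hp).1)).1
          · intro p hp
            exact (fac01 _ p (hUp p (mem_filter.1 hp).1)).2
        have h7 : P ≤ ∏ p ∈ U.filter (fun p => p ∈ T), (1 - (ro (QG a b c) 0 p : ℝ) / p) := by
          rw [hP]
          apply prod_sub
          · intro p hp
            exact (mem_filter.1 hp).2
          · exact hTp
        have h8 : 0 ≤ ∏ p ∈ U.filter (fun p => ¬ p ∈ T), (1 - (ro (QF (-D)) 0 p : ℝ) / p) :=
          prod_nonneg fun p hp => (fac01 _ p (hUp p (mem_filter.1 hp).1)).1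
        rw [h5, ← mul_assoc]
        apply mul_le_mul_of_nonneg_right _ h8
        calc P * ∏ p ∈ U.filter (fun p => p ∈ T), (1 - (ro (QF (-D)) 0 p : ℝ) / p) ≤ P * 1 :=
              mul_le_mul_of_nonneg_left h6 hPpos.le
          _ = P := mul_one _
          _ ≤ _ := h7
      calc P * c₀ / Real.log Z = P * (c₀ / Real.log Z) := by ring
        _ ≤ P * lo (QF (-D)) Z := mul_le_mul_of_nonneg_left h3 hPpos.le
        _ ≤ _ := h4
    · have h1 := hz.const_mul (EQ a b c)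
      rw [← mul_assoc] at h1
      refine h1.congr' ?_
      filter_upwards [eventually_gt_atTop ((2 * a.natAbs : ℕ) : ℝ)] with z hz
      have h3 : 2 * a.natAbs < ⌈z⌉₊ := Nat.lt_ceil.2 hz
      have h4 : den (QG a b c) z = EQ a b c * Pool.Agent.Y882.JR.dens (-D) z := by
        rw [← den_QF]
        unfold den
        exact prod_QG a b c _ (fun p hp => (mem_filter.1 hp).2) (pf_sub a ha0 ⌈z⌉₊ h3) ha0
      rw [h4]
      ring
    · exact growQG a b c ha

end Pool.Agent.H662.RC
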