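import Mathlib

/-! Selberg's weights on finite sets. -/

set_option autoImplicit false

namespace Pool.Agent.H662.Sel

open Finset

section
variable (P : Finset ℕ) (D : Finset (Finset ℕ)) (g : ℕ → ℝ)

/-- the other function -/
noncomputable def hh (p : ℕ) : ℝ := g p / (1 - g p)

/-- the sum -/
noncomputable def GG : ℝ := ∑ U ∈ D, ∏ p ∈ U, hh g p

/-- Selberg's weights -/
noncomputable def lam (T : Finset ℕ) : ℝ :=
  (-1) ^ T.card * (∑ U ∈ D.filter (fun U => T ⊆ U), ∏ p ∈ U, hh g p) / ((∏ p ∈ T, g p) * GG D g)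

variable {P D g}

theorem hh_pos (hg : ∀ p ∈ P, 0 < g p ∧ g p < 1) (p : ℕ) (hp : p ∈ P) : 0 < hh g p :=
  div_pos (hg p hp).1 (sub_pos.2 (hg p hp).2)

theorem prod_hh_pos (hg : ∀ p ∈ P, 0 < g p ∧ g p < 1) (U : Finset ℕ) (hU : U ⊆ P) :
    0 < ∏ p ∈ U, hh g p := prod_pos fun p hp => hh_pos hg p (hU hp)

theorem GG_pos' (hD : ∀ U ∈ D, U ⊆ P) (h0 : ∅ ∈ D) (hg : ∀ p ∈ P, 0 < g p ∧ g p < 1) :
    0 < GG D g := by
  unfold GG
  apply sum_pos
  · intro U hU
    exact prod_hh_pos hg U (hD U hU)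
  · exact ⟨∅, h0⟩

theorem alt_sum (U W : Finset ℕ) (hUW : U ⊆ W) :
    ∑ T ∈ W.powerset.filter (fun T => U ⊆ T), (-1 : ℝ) ^ T.card =
      if W = U then (-1 : ℝ) ^ U.card else 0 := by
  have h1 : ∑ T ∈ W.powerset.filter (fun T => U ⊆ T), (-1 : ℝ) ^ T.card =
      ∑ V ∈ (W \ U).powerset, (-1 : ℝ) ^ (U.card + V.card) := by
    symm
    apply sum_bij' (i := fun V _ => U ∪ V) (j := fun T _ => T \ U)
    · intro V hV
      rw [mem_powerset] at hV
      rw [mem_filter, mem_powerset]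
      exact ⟨union_subset hUW (hV.trans sdiff_subset), subset_union_left⟩
    · intro T hT
      rw [mem_filter, mem_powerset] at hT
      rw [mem_powerset]
      exact sdiff_subset_sdiff hT.1 (subset_refl _)
    · intro V hV
      rw [mem_powerset] at hV
      have hd : Disjoint U V := (disjoint_sdiff_self_right).mono_right hV
      rw [union_sdiff_left]
      exact sdiff_eq_self_of_disjoint hd.symm
    · intro T hT
      rw [mem_filter, mem_powerset] at hT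
      exact union_sdiff_of_subset hT.2
    · intro V hV
      rw [mem_powerset] at hV
      have hd : Disjoint U V := (disjoint_sdiff_self_right).mono_right hV
      rw [card_union_of_disjoint hd]
  rw [h1]
  simp_rw [pow_add]
  rw [← mul_sum]
  have h2 := sum_powerset_neg_one_pow_card (x := W \ U)
  have h3 : ∑ V ∈ (W \ U).powerset, (-1 : ℝ) ^ V.card = if W \ U = ∅ then 1 else 0 := by
    exact_mod_cast congrArg (Int.cast : ℤ → ℝ) h2
  rw [h3]
  by_cases h : W = U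
  · subst h
    simp
  · have h4 : W \ U ≠ ∅ := by
      intro h5
      apply h
      exact Subset.antisymm (sdiff_eq_empty_iff_subset.1 h5) hUW
    rw [if_neg h, if_neg h4, mul_zero]

/-- the variables which diagonalize the form -/
theorem y_eq (hD : ∀ U ∈ D, U ⊆ P) (hdc : ∀ U ∈ D, ∀ T ⊆ U, T ∈ D) (h0 : ∅ ∈ D)
    (hg : ∀ p ∈ P, 0 < g p ∧ g p < 1) (U : Finset ℕ) (hU : U ∈ D) :
    ∑ T ∈ D.filter (fun T => U ⊆ T), lam D g T * ∏ p ∈ T, g p =
      (-1) ^ U.card * (∏ p ∈ U, hh g p) / GG D g := by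
  have hG := GG_pos' hD h0 hg
  have hgT : ∀ T ∈ D, ∏ p ∈ T, g p ≠ 0 := fun T hT =>
    prod_ne_zero_iff.2 fun p hp => (hg p (hD T hT hp)).1.ne'
  have h1 : ∀ T ∈ D.filter (fun T => U ⊆ T), lam D g T * ∏ p ∈ T, g p =
      (∑ W ∈ D, if T ⊆ W then (-1 : ℝ) ^ T.card * ∏ p ∈ W, hh g p else 0) / GG D g := by
    intro T hT
    have hT' := hgT T (mem_filter.1 hT).1
    unfold lam
    rw [← sum_filter, ← mul_sum]
    field_simp
  rw [sum_congr rfl h1, ← sum_div, sum_comm]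
  congr 1
  have h2 : ∀ W ∈ D, ∑ T ∈ D.filter (fun T => U ⊆ T),
      (if T ⊆ W then (-1 : ℝ) ^ T.card * ∏ p ∈ W, hh g p else 0) =
      if W = U then (-1 : ℝ) ^ U.card * ∏ p ∈ U, hh g p else 0 := by
    intro W hW
    by_cases hUW : U ⊆ W
    · have h3 : ∑ T ∈ D.filter (fun T => U ⊆ T),
          (if T ⊆ W then (-1 : ℝ) ^ T.card * ∏ p ∈ W, hh g p else 0) =
          (∑ T ∈ W.powerset.filter (fun T => U ⊆ T), (-1 : ℝ) ^ T.card) * ∏ p ∈ W, hh g p := by
        rw [← sum_filter, sum_mul]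
        apply sum_congr _ (fun _ _ => rfl)
        ext T
        rw [mem_filter, mem_filter, mem_filter, mem_powerset]
        constructor
        · rintro ⟨⟨_, h4⟩, h5⟩
          exact ⟨h5, h4⟩
        · rintro ⟨h5, h4⟩
          exact ⟨⟨hdc W hW T h5, h4⟩, h5⟩
      rw [h3, alt_sum U W hUW]
      by_cases h : W = U
      · rw [if_pos h, if_pos h, h]
      · rw [if_neg h, if_neg h, zero_mul]
    · have h : W ≠ U := fun h => hUW (h ▸ subset_refl _)
      rw [if_neg h]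
      apply sum_eq_zero
      intro T hT
      rw [if_neg]
      intro h4
      exact hUW ((mem_filter.1 hT).2.trans h4)
  rw [sum_congr rfl h2, sum_ite_eq' D U, if_pos hU]

theorem inv_g (S : Finset ℕ) (hS : ∀ p ∈ S, 0 < g p ∧ g p < 1) :
    ∑ U ∈ S.powerset, (∏ p ∈ U, hh g p)⁻¹ = (∏ p ∈ S, g p)⁻¹ := by
  have h1 : ∀ U ∈ S.powerset, (∏ p ∈ U, hh g p)⁻¹ = ∏ p ∈ U, (hh g p)⁻¹ := by
    intro U _
    rw [prod_inv_distrib]
  rw [sum_congr rfl h1, ← prod_one_add, ← prod_inv_distrib]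
  apply prod_congr rfl
  intro p hp
  obtain ⟨h2, h3⟩ := hS p hp
  have h4 : 1 - g p ≠ 0 := (sub_pos.2 h3).ne'
  unfold hh
  field_simp
  ring

/-- **the quadratic form** -/
theorem form_eq (hD : ∀ U ∈ D, U ⊆ P) (hdc : ∀ U ∈ D, ∀ T ⊆ U, T ∈ D) (h0 : ∅ ∈ D)
    (hg : ∀ p ∈ P, 0 < g p ∧ g p < 1) :
    ∑ T1 ∈ D, ∑ T2 ∈ D, lam D g T1 * lam D g T2 * ∏ p ∈ T1 ∪ T2, g p = 1 / GG D g := by
  have hG := GG_pos' hD h0 hg
  have h1 : ∀ T1 ∈ D, ∀ T2 ∈ D, lam D g T1 * lam D g T2 * ∏ p ∈ T1 ∪ T2, g p =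
      ∑ U ∈ D, if U ⊆ T1 ∧ U ⊆ T2 then (∏ p ∈ U, hh g p)⁻¹ *
        ((lam D g T1 * ∏ p ∈ T1, g p) * (lam D g T2 * ∏ p ∈ T2, g p)) else 0 := by
    intro T1 hT1 T2 hT2
    have h2 : ∑ U ∈ D, (if U ⊆ T1 ∧ U ⊆ T2 then (∏ p ∈ U, hh g p)⁻¹ *
        ((lam D g T1 * ∏ p ∈ T1, g p) * (lam D g T2 * ∏ p ∈ T2, g p)) else 0) =
        (∑ U ∈ (T1 ∩ T2).powerset, (∏ p ∈ U, hh g p)⁻¹) *
        ((lam D g T1 * ∏ p ∈ T1, g p) * (lam D g T2 * ∏ p ∈ T2, g p)) := by
      rw [← sum_filter, sum_mul]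
      apply sum_congr _ (fun _ _ => rfl)
      ext U
      rw [mem_filter, mem_powerset, subset_inter_iff]
      constructor
      · exact fun h => h.2
      · exact fun h => ⟨hdc T1 hT1 U h.1, h⟩
    have hI : ∀ p ∈ T1 ∩ T2, 0 < g p ∧ g p < 1 := fun p hp => hg p (hD T1 hT1 (mem_inter.1 hp).1)
    rw [h2, inv_g (T1 ∩ T2) hI]
    have h3 : (∏ p ∈ T1 ∪ T2, g p) * ∏ p ∈ T1 ∩ T2, g p = (∏ p ∈ T1, g p) * ∏ p ∈ T2, g p :=
      prod_union_inter
    have h4 : ∏ p ∈ T1 ∩ T2, g p ≠ 0 := prod_ne_zero_iff.2 fun p hp => (hI p hp).1.ne'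
    have h5 : ∏ p ∈ T1 ∪ T2, g p = (∏ p ∈ T1 ∩ T2, g p)⁻¹ * ((∏ p ∈ T1, g p) * ∏ p ∈ T2, g p) := by
      rw [← h3]
      field_simp
    rw [h5]
    ring
  have h2 : ∑ T1 ∈ D, ∑ T2 ∈ D, lam D g T1 * lam D g T2 * ∏ p ∈ T1 ∪ T2, g p =
      ∑ U ∈ D, (∏ p ∈ U, hh g p)⁻¹ *
        (∑ T ∈ D.filter (fun T => U ⊆ T), lam D g T * ∏ p ∈ T, g p) ^ 2 := by
    rw [sum_congr rfl fun T1 hT1 => sum_congr rfl fun T2 hT2 => h1 T1 hT1 T2 hT2]
    rw [sum_congr rfl fun T1 _ => sum_comm, sum_comm]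
    apply sum_congr rfl
    intro U _
    rw [pow_two, sum_filter, sum_mul_sum, mul_sum]
    apply sum_congr rfl
    intro T1 _
    rw [mul_sum]
    apply sum_congr rfl
    intro T2 _
    by_cases a1 : U ⊆ T1 <;> by_cases a2 : U ⊆ T2 <;> simp [a1, a2]
  rw [h2, sum_congr rfl fun U hU => by rw [y_eq hD hdc h0 hg U hU]]
  have h3 : ∀ U ∈ D, (∏ p ∈ U, hh g p)⁻¹ * ((-1) ^ U.card * (∏ p ∈ U, hh g p) / GG D g) ^ 2 =
      (∏ p ∈ U, hh g p) / GG D g ^ 2 := by
    intro U hU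
    have h4 := (prod_hh_pos hg U (hD U hU)).ne'
    rw [div_pow, mul_pow, ← pow_mul, mul_comm U.card 2, pow_mul, neg_one_sq, one_pow, one_mul]
    field_simp
  rw [sum_congr rfl h3, ← sum_div]
  change GG D g / GG D g ^ 2 = 1 / GG D g
  field_simp

theorem lam_empty (hD : ∀ U ∈ D, U ⊆ P) (h0 : ∅ ∈ D) (hg : ∀ p ∈ P, 0 < g p ∧ g p < 1) :
    lam D g ∅ = 1 := by
  have hG := GG_pos' hD h0 hg
  unfold lam
  have : D.filter (fun U => ∅ ⊆ U) = D := filter_true_of_mem fun U _ => empty_subset U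
  rw [this]
  simp only [card_empty, pow_zero, one_mul, prod_empty]
  exact div_self hG.ne'

/-- the weights are bounded by `1` -/
theorem lam_le (hD : ∀ U ∈ D, U ⊆ P) (hdc : ∀ U ∈ D, ∀ T ⊆ U, T ∈ D) (h0 : ∅ ∈ D)
    (hg : ∀ p ∈ P, 0 < g p ∧ g p < 1) (T : Finset ℕ) (hT : T ∈ D) : |lam D g T| ≤ 1 := by
  have hG := GG_pos' hD h0 hg
  have hgT : 0 < ∏ p ∈ T, g p := prod_pos fun p hp => (hg p (hD T hT hp)).1
  have hs0 : 0 ≤ ∑ U ∈ D.filter (fun U => T ⊆ U), ∏ p ∈ U, hh g p :=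
    sum_nonneg fun U hU => (prod_hh_pos hg U (hD U (mem_filter.1 hU).1)).le
  unfold lam
  rw [abs_div, abs_mul, abs_pow, abs_neg, abs_one, one_pow, one_mul, abs_of_nonneg hs0,
    abs_of_pos (mul_pos hgT hG), div_le_one (mul_pos hgT hG)]
  -- the sum over the sets disjoint to `T`
  set E := (D.filter (fun U => T ⊆ U)).image (fun U => U \ T) with hE
  have hEm : ∀ V ∈ E, Disjoint V T ∧ V ∪ T ∈ D := by
    intro V hV
    rw [hE, mem_image] at hV
    obtain ⟨U, hU, rfl⟩ := hV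
    rw [mem_filter] at hU
    refine ⟨sdiff_disjoint, ?_⟩
    rw [sdiff_union_of_subset hU.2]
    exact hU.1
  have h1 : ∑ U ∈ D.filter (fun U => T ⊆ U), ∏ p ∈ U, hh g p =
      (∏ p ∈ T, hh g p) * ∑ V ∈ E, ∏ p ∈ V, hh g p := by
    rw [hE, sum_image]
    · rw [mul_sum]
      apply sum_congr rfl
      intro U hU
      rw [mem_filter] at hU
      rw [mul_comm, prod_sdiff hU.2]
    · intro U hU U' hU' h
      rw [mem_coe, mem_filter] at hU hU'
      have h2 : U \ T ∪ T = U' \ T ∪ T := by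
        show (fun U => U \ T) U ∪ T = (fun U => U \ T) U' ∪ T
        rw [h]
      rwa [sdiff_union_of_subset hU.2, sdiff_union_of_subset hU'.2] at h2
  have h2 : (∑ S ∈ T.powerset, ∏ p ∈ S, hh g p) * ∑ V ∈ E, ∏ p ∈ V, hh g p ≤ GG D g := by
    rw [sum_mul_sum, ← sum_product']
    unfold GG
    have hinj : Set.InjOn (fun x : Finset ℕ × Finset ℕ => x.1 ∪ x.2)
        (((T.powerset ×ˢ E : Finset (Finset ℕ × Finset ℕ)) : Set (Finset ℕ × Finset ℕ))) := by
      rintro ⟨S, V⟩ h3 ⟨S', V'⟩ h4 h5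
      rw [mem_coe, mem_product, mem_powerset] at h3 h4
      simp only at h3 h4 h5
      have d1 := (hEm V h3.2).1
      have d2 := (hEm V' h4.2).1
      have e1 : S = S' := by
        ext x
        constructor
        · intro hx
          have hx' : x ∈ S' ∪ V' := h5 ▸ mem_union_left V hx
          rcases mem_union.1 hx' with h | h
          · exact h
          · exact absurd (h3.1 hx) (disjoint_left.1 d2 h)
        · intro hx
          have hx' : x ∈ S ∪ V := h5 ▸ mem_union_left V' hx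
          rcases mem_union.1 hx' with h | h
          · exact h
          · exact absurd (h4.1 hx) (disjoint_left.1 d1 h)
      have e2 : V = V' := by
        ext x
        constructor
        · intro hx
          have hx' : x ∈ S' ∪ V' := h5 ▸ mem_union_right S hx
          rcases mem_union.1 hx' with h | h
          · exact absurd (h4.1 h) (disjoint_left.1 d1 hx)
          · exact h
        · intro hx
          have hx' : x ∈ S ∪ V := h5 ▸ mem_union_right S' hx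
          rcases mem_union.1 hx' with h | h
          · exact absurd (h3.1 h) (disjoint_left.1 d2 hx)
          · exact h
      rw [e1, e2]
    calc ∑ x ∈ T.powerset ×ˢ E, (∏ p ∈ x.1, hh g p) * ∏ p ∈ x.2, hh g p =
        ∑ x ∈ T.powerset ×ˢ E, ∏ p ∈ x.1 ∪ x.2, hh g p := by
          apply sum_congr rfl
          rintro ⟨S, V⟩ h3
          rw [mem_product, mem_powerset] at h3
          simp only at h3 ⊢
          rw [prod_union]
          exact ((hEm V h3.2).1.mono_right h3.1).symm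
      _ = ∑ U ∈ (T.powerset ×ˢ E).image (fun x => x.1 ∪ x.2), ∏ p ∈ U, hh g p :=
          (sum_image (f := fun U : Finset ℕ => ∏ p ∈ U, hh g p) hinj).symm
      _ ≤ ∑ U ∈ D, ∏ p ∈ U, hh g p := by
          apply sum_le_sum_of_subset_of_nonneg
          · intro U hU
            rw [mem_image] at hU
            obtain ⟨⟨S, V⟩, h3, rfl⟩ := hU
            rw [mem_product, mem_powerset] at h3
            simp only at h3 ⊢
            apply hdc _ (hEm V h3.2).2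
            exact union_subset (h3.1.trans subset_union_right) subset_union_left
          · intro U hU _
            exact (prod_hh_pos hg U (hD U hU)).le
  have h3 : ∑ S ∈ T.powerset, ∏ p ∈ S, hh g p = ∏ p ∈ T, (1 + hh g p) := by
    rw [prod_one_add]
  have h4 : (∏ p ∈ T, g p) * ∏ p ∈ T, (1 + hh g p) = ∏ p ∈ T, hh g p := by
    rw [← prod_mul_distrib]
    apply prod_congr rfl
    intro p hp
    have h5 : 1 - g p ≠ 0 := (sub_pos.2 (hg p (hD T hT hp)).2).ne'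
    unfold hh
    field_simp
    ring
  rw [h1, ← h4, mul_assoc]
  rw [h3] at h2
  exact mul_le_mul_of_nonneg_left h2 hgT.le

/-- the coefficients of the square -/
noncomputable def cf (D : Finset (Finset ℕ)) (g : ℕ → ℝ) (T : Finset ℕ) : ℝ :=
  ∑ x ∈ (D ×ˢ D).filter (fun x => x.1 ∪ x.2 = T), lam D g x.1 * lam D g x.2

theorem cf_sum (hD : ∀ U ∈ D, U ⊆ P) (f : ℕ → ℝ) :
    ∑ T ∈ P.powerset, cf D g T * ∏ p ∈ T, f p =
      ∑ T1 ∈ D, ∑ T2 ∈ D, lam D g T1 * lam D g T2 * ∏ p ∈ T1 ∪ T2, f p := by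
  have h1 : ∀ x ∈ D ×ˢ D, x.1 ∪ x.2 ∈ P.powerset := by
    intro x hx
    rw [mem_product] at hx
    rw [mem_powerset]
    exact union_subset (hD _ hx.1) (hD _ hx.2)
  rw [← sum_product', ← sum_fiberwise_of_maps_to h1]
  apply sum_congr rfl
  intro T _
  unfold cf
  rw [sum_mul]
  apply sum_congr rfl
  intro x hx
  rw [(mem_filter.1 hx).2]

theorem cf_form (hD : ∀ U ∈ D, U ⊆ P) (hdc : ∀ U ∈ D, ∀ T ⊆ U, T ∈ D) (h0 : ∅ ∈ D)
    (hg : ∀ p ∈ P, 0 < g p ∧ g p < 1) :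
    ∑ T ∈ P.powerset, cf D g T * ∏ p ∈ T, g p = 1 / GG D g := by
  rw [cf_sum hD, form_eq hD hdc h0 hg]

/-- at an integer -/
theorem cf_ind (hD : ∀ U ∈ D, U ⊆ P) (h0 : ∅ ∈ D) (hg : ∀ p ∈ P, 0 < g p ∧ g p < 1) (V : ℕ) :
    (0 ≤ ∑ T ∈ P.powerset, cf D g T * ∏ p ∈ T, (if p ∣ V then (1 : ℝ) else 0)) ∧
    ((∀ p ∈ P, ¬ p ∣ V) →
      ∑ T ∈ P.powerset, cf D g T * ∏ p ∈ T, (if p ∣ V then (1 : ℝ) else 0) = 1) := by
  have h1 : ∀ T : Finset ℕ, ∏ p ∈ T, (if p ∣ V then (1 : ℝ) else 0) =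
      if ∀ p ∈ T, p ∣ V then 1 else 0 := fun T => prod_ite_zero.trans (by simp)
  have h2 : ∑ T ∈ P.powerset, cf D g T * ∏ p ∈ T, (if p ∣ V then (1 : ℝ) else 0) =
      (∑ T ∈ D, lam D g T * ∏ p ∈ T, (if p ∣ V then (1 : ℝ) else 0)) ^ 2 := by
    rw [cf_sum hD, pow_two, sum_mul_sum]
    apply sum_congr rfl
    intro T1 _
    apply sum_congr rfl
    intro T2 _
    rw [h1, h1, h1]
    by_cases a1 : ∀ p ∈ T1, p ∣ V
    · by_cases a2 : ∀ p ∈ T2, p ∣ V
      · have a3 : ∀ p ∈ T1 ∪ T2, p ∣ V := by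
          intro p hp
          rcases mem_union.1 hp with h | h
          · exact a1 p h
          · exact a2 p h
        rw [if_pos a1, if_pos a2, if_pos a3]
        ring
      · have a3 : ¬ ∀ p ∈ T1 ∪ T2, p ∣ V := fun h => a2 fun p hp => h p (mem_union_right _ hp)
        rw [if_neg a2, if_neg a3]
        ring
    · have a3 : ¬ ∀ p ∈ T1 ∪ T2, p ∣ V := fun h => a1 fun p hp => h p (mem_union_left _ hp)
      rw [if_neg a1, if_neg a3]
      ring
  rw [h2]
  refine ⟨sq_nonneg _, fun hV => ?_⟩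
  have h3 : ∑ T ∈ D, lam D g T * ∏ p ∈ T, (if p ∣ V then (1 : ℝ) else 0) = 1 := by
    rw [← lam_empty hD h0 hg]
    rw [sum_eq_single ∅]
    · simp
    · intro T hT hne
      obtain ⟨p, hp⟩ := nonempty_iff_ne_empty.2 hne
      rw [prod_eq_zero hp (if_neg (hV p (hD T hT hp))), mul_zero]
    · intro h
      exact absurd h0 h
  rw [h3, one_pow]

/-- the size of the coefficients -/
theorem cf_le (hD : ∀ U ∈ D, U ⊆ P) (hdc : ∀ U ∈ D, ∀ T ⊆ U, T ∈ D) (h0 : ∅ ∈ D)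
    (hg : ∀ p ∈ P, 0 < g p ∧ g p < 1) (T : Finset ℕ) : |cf D g T| ≤ 4 ^ T.card := by
  unfold cf
  refine (abs_sum_le_sum_abs _ _).trans ?_
  calc ∑ x ∈ (D ×ˢ D).filter (fun x => x.1 ∪ x.2 = T), |lam D g x.1 * lam D g x.2| ≤
      ∑ _x ∈ (D ×ˢ D).filter (fun x => x.1 ∪ x.2 = T), (1 : ℝ) := by
        apply sum_le_sum
        intro x hx
        rw [mem_filter, mem_product] at hx
        rw [abs_mul]
        exact mul_le_one₀ (lam_le hD hdc h0 hg _ hx.1.1) (abs_nonneg _)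
          (lam_le hD hdc h0 hg _ hx.1.2)
    _ = (((D ×ˢ D).filter (fun x => x.1 ∪ x.2 = T)).card : ℝ) := by
        rw [sum_const, nsmul_eq_mul, mul_one]
    _ ≤ ((T.powerset ×ˢ T.powerset).card : ℝ) := by
        apply Nat.cast_le.2
        apply card_le_card
        intro x hx
        rw [mem_filter] at hx
        rw [mem_product, mem_powerset, mem_powerset, ← hx.2]
        exact ⟨subset_union_left, subset_union_right⟩
    _ = 4 ^ T.card := by
        rw [card_product, card_powerset]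
        push_cast
        rw [← mul_pow]
        norm_num

theorem cf_supp (T : Finset ℕ) (h : cf D g T ≠ 0) : ∃ T1 ∈ D, ∃ T2 ∈ D, T1 ∪ T2 = T := by
  unfold cf at h
  obtain ⟨x, hx, _⟩ := exists_ne_zero_of_sum_ne_zero h
  rw [mem_filter, mem_product] at hx
  exact ⟨x.1, hx.1.1, x.2, hx.1.2, hx.2⟩

end

end Pool.Agent.H662.Sel
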