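import Pool.Agent.Helper112.LS
import Pool.Agent.H343R2.PV

/-! Sums of Dirichlet kernels over well spaced points and over the fractions `b / f + c / q`. -/

set_option autoImplicit false

namespace Pool.Agent.H662.RC

open Finset
open Pool.Agent.Helper112

/-- two values of the fractional parts of separated points are separated -/
theorem fract_sep (K : ℕ) (hK : 1 ≤ K) (x y θ : ℝ) (h : lsSep K (y - x)) :
    1 / (K : ℝ) ≤ |Int.fract (y + θ) - Int.fract (x + θ)| := by
  have hK0 : (0 : ℝ) < K := by exact_mod_cast hK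
  set t := Int.fract (x + θ) with ht
  set t' := Int.fract (y + θ) with ht'
  have e0 : 0 ≤ t := Int.fract_nonneg _
  have e0' : 0 ≤ t' := Int.fract_nonneg _
  have e1 : t < 1 := Int.fract_lt_one _
  have e1' : t' < 1 := Int.fract_lt_one _
  have e9 : y - x = (t' - t) + ((⌊y + θ⌋ - ⌊x + θ⌋ : ℤ) : ℝ) := by
    have a1 := Int.fract_add_floor (x + θ)
    have a2 := Int.fract_add_floor (y + θ)
    rw [← ht] at a1
    rw [← ht'] at a2
    push_cast
    linarith
  have e10 : Int.fract (y - x) = Int.fract (t' - t) := by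
    rw [e9, Int.fract_add_intCast]
  unfold lsSep at h
  rw [e10] at h
  rcases le_or_gt 0 (t' - t) with h0 | h0
  · have h1 : Int.fract (t' - t) = t' - t := by
      rw [Int.fract_eq_self]
      exact ⟨h0, by linarith⟩
    rw [h1] at h
    rw [abs_of_nonneg h0]
    exact h.1
  · have h1 : Int.fract (t' - t) = t' - t + 1 := by
      rw [Int.fract_eq_iff]
      exact ⟨by linarith, by linarith, ⟨-1, by push_cast; ring⟩⟩
    rw [h1] at h
    rw [abs_of_neg h0]
    linarith [h.2]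

/-- a sum of reciprocals over an injective family -/
theorem harm_inj {ι : Type*} (R : Finset ι) (k : ι → ℕ) (K : ℕ)
    (hk : ∀ r ∈ R, 1 ≤ k r ∧ k r ≤ K) (hinj : Set.InjOn k R) :
    ∑ r ∈ R, 1 / (k r : ℝ) ≤ 1 + Real.log K := by
  classical
  rw [← sum_image (s := R) (g := k) (f := fun m : ℕ => 1 / (m : ℝ)) hinj]
  calc ∑ m ∈ R.image k, 1 / (m : ℝ) ≤ ∑ m ∈ Icc 1 K, 1 / (m : ℝ) := by
        apply sum_le_sum_of_subset_of_nonneg
        · intro m hm
          rw [mem_image] at hm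
          obtain ⟨r, hr, rfl⟩ := hm
          rw [mem_Icc]
          exact hk r hr
        · intro m _ _
          positivity
    _ ≤ 1 + Real.log K := by
        have h := harmonic_le_one_add_log K
        rw [harmonic_eq_sum_Icc] at h
        push_cast at h
        simpa [one_div] using h

theorem floor_ne (K : ℕ) (hK : 1 ≤ K) (u v : ℝ) (hu : 0 ≤ u) (hv : 0 ≤ v)
    (h : 1 / (K : ℝ) ≤ |u - v|) : ⌊(K : ℝ) * u⌋₊ ≠ ⌊(K : ℝ) * v⌋₊ := by
  have hK0 : (0 : ℝ) < K := by exact_mod_cast hK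
  intro heq
  have e1 : ((⌊(K : ℝ) * u⌋₊ : ℕ) : ℝ) ≤ K * u := Nat.floor_le (by positivity)
  have e2 : (K : ℝ) * u < (⌊(K : ℝ) * u⌋₊ : ℕ) + 1 := Nat.lt_floor_add_one _
  have e3 : ((⌊(K : ℝ) * v⌋₊ : ℕ) : ℝ) ≤ K * v := Nat.floor_le (by positivity)
  have e4 : (K : ℝ) * v < (⌊(K : ℝ) * v⌋₊ : ℕ) + 1 := Nat.lt_floor_add_one _
  rw [heq] at e1 e2
  rw [div_le_iff₀ hK0] at h
  rcases abs_cases (u - v) with ⟨h1, _⟩ | ⟨h1, _⟩
  · rw [h1] at h
    nlinarith
  · rw [h1] at h
    nlinarith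

theorem norm_lsD_le (M : ℕ) (t : ℝ) : ‖lsD M t‖ ≤ M := by
  unfold lsD
  refine (norm_sum_le _ _).trans ?_
  simp [ls_norm_ee]

/-- the sum of the Dirichlet kernels over well spaced points -/
theorem spaced_sum {ι : Type*} [DecidableEq ι] (R : Finset ι) (ξ : ι → ℝ) (K M : ℕ) (hK : 1 ≤ K)
    (hsep : ∀ r ∈ R, ∀ s ∈ R, r ≠ s → lsSep K (ξ s - ξ r)) (θ : ℝ) :
    ∑ r ∈ R, ‖lsD M (ξ r + θ)‖ ≤ 2 * M + K * (1 + Real.log K) := by
  have hK0 : (0 : ℝ) < K := by exact_mod_cast hK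
  set t : ι → ℝ := fun r => Int.fract (ξ r + θ) with ht
  have ht0 : ∀ r, 0 ≤ t r := fun r => Int.fract_nonneg _
  have ht1 : ∀ r, t r < 1 := fun r => Int.fract_lt_one _
  set k : ι → ℕ := fun r => ⌊(K : ℝ) * t r⌋₊ with hk
  set k' : ι → ℕ := fun r => ⌊(K : ℝ) * (1 - t r)⌋₊ with hk'
  have hsp : ∀ r ∈ R, ∀ s ∈ R, r ≠ s → 1 / (K : ℝ) ≤ |t s - t r| := fun r hr s hs hne =>
    fract_sep K hK _ _ θ (hsep r hr s hs hne)
  have hinj : Set.InjOn k R := by
    intro r hr s hs heq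
    by_contra hne
    exact floor_ne K hK (t s) (t r) (ht0 s) (ht0 r) (hsp r hr s hs hne) heq.symm
  have hinj' : Set.InjOn k' R := by
    intro r hr s hs heq
    by_contra hne
    refine floor_ne K hK (1 - t r) (1 - t s) (by linarith [ht1 r]) (by linarith [ht1 s]) ?_ heq
    have h1 := hsp r hr s hs hne
    have e : 1 - t r - (1 - t s) = t s - t r := by ring
    rwa [e]
  have hkK : ∀ r, k r ≤ K := by
    intro r
    have : (K : ℝ) * t r ≤ K := by nlinarith [ht1 r]
    exact_mod_cast Nat.floor_le_of_le this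
  have hkK' : ∀ r, k' r ≤ K := by
    intro r
    have : (K : ℝ) * (1 - t r) ≤ K := by nlinarith [ht0 r]
    exact_mod_cast Nat.floor_le_of_le this
  set R0 := R.filter (fun r => k r = 0 ∨ k' r = 0) with hR0
  set R1 := R.filter (fun r => ¬ (k r = 0 ∨ k' r = 0)) with hR1
  rw [← sum_filter_add_sum_filter_not R (fun r => k r = 0 ∨ k' r = 0)]
  have b0 : ∑ r ∈ R0, ‖lsD M (ξ r + θ)‖ ≤ 2 * M := by
    have hc : R0.card ≤ 2 := by
      have h1 : R0 ⊆ R.filter (fun r => k r = 0) ∪ R.filter (fun r => k' r = 0) := by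
        intro r hr
        rw [hR0, mem_filter] at hr
        rw [mem_union, mem_filter, mem_filter]
        rcases hr.2 with h | h
        · exact Or.inl ⟨hr.1, h⟩
        · exact Or.inr ⟨hr.1, h⟩
      have h2 : (R.filter (fun r => k r = 0)).card ≤ 1 := by
        rw [card_le_one]
        intro a ha b hb
        rw [mem_filter] at ha hb
        exact hinj ha.1 hb.1 (by rw [ha.2, hb.2])
      have h3 : (R.filter (fun r => k' r = 0)).card ≤ 1 := by
        rw [card_le_one]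
        intro a ha b hb
        rw [mem_filter] at ha hb
        exact hinj' ha.1 hb.1 (by rw [ha.2, hb.2])
      have h4 := card_le_card h1
      have h5 := card_union_le (R.filter (fun r => k r = 0)) (R.filter (fun r => k' r = 0))
      omega
    calc ∑ r ∈ R0, ‖lsD M (ξ r + θ)‖ ≤ ∑ r ∈ R0, (M : ℝ) := sum_le_sum fun r _ => norm_lsD_le _ _
      _ = R0.card * M := by rw [sum_const, nsmul_eq_mul]
      _ ≤ 2 * M := by
          apply mul_le_mul_of_nonneg_right _ (Nat.cast_nonneg _)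
          exact_mod_cast hc
  have b1 : ∑ r ∈ R1, ‖lsD M (ξ r + θ)‖ ≤ K * (1 + Real.log K) := by
    have hm : ∀ r ∈ R1, r ∈ R ∧ 1 ≤ k r ∧ 1 ≤ k' r := by
      intro r hr
      rw [hR1, mem_filter] at hr
      push Not at hr
      exact ⟨hr.1, Nat.one_le_iff_ne_zero.2 hr.2.1, Nat.one_le_iff_ne_zero.2 hr.2.2⟩
    have h1 : ∀ r ∈ R1, ‖lsD M (ξ r + θ)‖ ≤ K / 2 * (1 / (k r : ℝ)) + K / 2 * (1 / (k' r : ℝ)) := by
      intro r hr
      obtain ⟨_, h2, h3⟩ := hm r hr
      have h2r : (1 : ℝ) ≤ k r := by exact_mod_cast h2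
      have h3r : (1 : ℝ) ≤ k' r := by exact_mod_cast h3
      have e1 : (k r : ℝ) ≤ K * t r := Nat.floor_le (mul_nonneg hK0.le (ht0 r))
      have e2 : (k' r : ℝ) ≤ K * (1 - t r) := Nat.floor_le (mul_nonneg hK0.le (by linarith [ht1 r]))
      have htp : 0 < t r := by
        by_contra h
        have : t r = 0 := le_antisymm (not_lt.1 h) (ht0 r)
        rw [this] at e1
        linarith
      have h4 := H343.PVaux.lsD_le M (t r) htp (ht1 r)
      rw [ht] at h4
      simp only at h4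
      rw [lsD_fract] at h4
      refine h4.trans ?_
      have h5 : 1 / (2 * t r) ≤ K / 2 * (1 / (k r : ℝ)) := by
        rw [div_mul_div_comm, mul_one, div_le_div_iff₀ (by positivity) (by positivity)]
        nlinarith
      have h6 : 1 / (2 * (1 - t r)) ≤ K / 2 * (1 / (k' r : ℝ)) := by
        have : 0 < 1 - t r := by linarith [ht1 r]
        rw [div_mul_div_comm, mul_one, div_le_div_iff₀ (by positivity) (by positivity)]
        nlinarith
      exact add_le_add h5 h6
    have h2 := harm_inj R1 k K (fun r hr => ⟨(hm r hr).2.1, hkK r⟩)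
      (hinj.mono fun r hr => (hm r hr).1)
    have h3 := harm_inj R1 k' K (fun r hr => ⟨(hm r hr).2.2, hkK' r⟩)
      (hinj'.mono fun r hr => (hm r hr).1)
    calc ∑ r ∈ R1, ‖lsD M (ξ r + θ)‖ ≤
        ∑ r ∈ R1, (K / 2 * (1 / (k r : ℝ)) + K / 2 * (1 / (k' r : ℝ))) := sum_le_sum h1
      _ = K / 2 * ∑ r ∈ R1, 1 / (k r : ℝ) + K / 2 * ∑ r ∈ R1, 1 / (k' r : ℝ) := by
          rw [sum_add_distrib, mul_sum, mul_sum]
      _ ≤ K / 2 * (1 + Real.log K) + K / 2 * (1 + Real.log K) := by gcongr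
      _ = _ := by ring
  exact add_le_add b0 b1

/-- the sum over the reduced fractions with denominators at most `D`, shifted -/
theorem farey_sum (D M : ℕ) (hD : 1 ≤ D) (θ : ℝ) :
    ∑ f ∈ Icc 1 D, ∑ b ∈ (range f).filter (fun b => b.Coprime f),
      ‖lsD M ((b : ℝ) / f + θ)‖ ≤ 2 * M + (D : ℝ) ^ 2 * (1 + 2 * Real.log D) := by
  set R : Finset (Σ _ : ℕ, ℕ) :=
    (Icc 1 D).sigma (fun f => (range f).filter (fun a => a.Coprime f)) with hR
  set ξ : (Σ _ : ℕ, ℕ) → ℝ := fun r => (r.2 : ℝ) / r.1 with hξ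
  have hsep : ∀ r ∈ R, ∀ s ∈ R, r ≠ s → lsSep (D ^ 2) (ξ s - ξ r) := by
    rintro ⟨f, a⟩ hr ⟨f', a'⟩ hs hne
    simp only [hR, mem_sigma, mem_Icc, mem_filter, mem_range] at hr hs
    refine ls_sep_of_int D f f' hr.1.1 hs.1.1 hr.1.2 hs.1.2 a a' hr.2.1 hs.2.1 hr.2.2 hs.2.2 ?_
    rintro ⟨h1, h2⟩
    subst h1
    subst h2
    exact hne rfl
  have h := spaced_sum R ξ (D ^ 2) M (Nat.one_le_pow _ _ hD) hsep θ
  rw [hR, Finset.sum_sigma] at h
  push_cast at h
  rw [Real.log_pow] at h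
  push_cast at h
  exact h

theorem half_sum (q f : ℕ) (hq : 0 < q) (hf : 0 < f) (ρ : ℝ) (hρ : 0 < ρ) :
    ∑ s ∈ range q, ((q : ℝ) * f) / (2 * (ρ + f * (s : ℝ))) ≤
      q * (f / 2 * (1 / ρ)) + q / 2 * (1 + Real.log q) := by
  have hq0 : (0 : ℝ) < q := by exact_mod_cast hq
  have hf0 : (0 : ℝ) < f := by exact_mod_cast hf
  rw [sum_range_eq_add_Ico _ hq]
  apply add_le_add
  · push_cast
    rw [mul_zero, add_zero]
    apply le_of_eq
    field_simp
  · calc ∑ s ∈ Ico 1 q, ((q : ℝ) * f) / (2 * (ρ + f * (s : ℝ))) ≤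
        ∑ s ∈ Ico 1 q, (q : ℝ) / 2 * (1 / (s : ℝ)) := by
          apply sum_le_sum
          intro s hs
          rw [mem_Ico] at hs
          have hs0 : (0 : ℝ) < s := by exact_mod_cast hs.1
          rw [div_mul_div_comm, mul_one, div_le_div_iff₀ (by positivity) (by positivity)]
          have h1 : 0 ≤ (q : ℝ) * ρ := by positivity
          nlinarith
      _ = (q : ℝ) / 2 * ∑ s ∈ Ico 1 q, 1 / (s : ℝ) := by rw [mul_sum]
      _ ≤ _ := mul_le_mul_of_nonneg_left (H343.PVaux.harmonic_le q hq) (by positivity)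

theorem sum_rot (q t : ℕ) (hq : 0 < q) (g : ℕ → ℝ) :
    ∑ c ∈ range q, g ((t + c) % q) = ∑ s ∈ range q, g s := by
  have hinj : Set.InjOn (fun c => (t + c) % q) (range q) := by
    intro c hc c' hc' h
    rw [mem_coe, mem_range] at hc hc'
    have h1 : t + c ≡ t + c' [MOD q] := h
    have h2 : c ≡ c' [MOD q] := Nat.ModEq.add_left_cancel' t h1
    exact Nat.ModEq.eq_of_lt_of_lt h2 hc hc'
  have himg : (range q).image (fun c => (t + c) % q) = range q := by
    apply eq_of_subset_of_card_le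
    · intro x hx
      rw [mem_image] at hx
      obtain ⟨c, _, rfl⟩ := hx
      exact mem_range.2 (Nat.mod_lt _ hq)
    · rw [card_image_of_injOn hinj]
  conv_rhs => rw [← himg]
  rw [sum_image hinj]

/-- the sum over the shifts by the fractions with denominator `q` -/
theorem shift_sum (q f b M : ℕ) (hq : 0 < q) (hf : 0 < f) (hb : 0 < b * q % f) :
    ∑ c ∈ range q, ‖lsD M ((b : ℝ) / f + (c : ℝ) / q)‖ ≤
      q * (f / 2 * (1 / ((b * q % f : ℕ) : ℝ) + 1 / ((f - b * q % f : ℕ) : ℝ)) +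
        (1 + Real.log q)) := by
  have hq0 : (0 : ℝ) < q := by exact_mod_cast hq
  have hf0 : (0 : ℝ) < f := by exact_mod_cast hf
  set r := b * q % f with hr
  set t := b * q / f with ht
  have hrf : r < f := Nat.mod_lt _ hf
  have hr0 : (0 : ℝ) < r := by exact_mod_cast hb
  have hfr : ((f - r : ℕ) : ℝ) = f - r := by rw [Nat.cast_sub hrf.le]
  have hfr0 : (0 : ℝ) < ((f - r : ℕ) : ℝ) := by
    have : 0 < f - r := by omega
    exact_mod_cast this
  have hbq : (b : ℝ) * q = f * t + r := by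
    have := Nat.div_add_mod (b * q) f
    rw [← ht, ← hr] at this
    exact_mod_cast this.symm
  have h1 : ∀ c ∈ range q, ‖lsD M ((b : ℝ) / f + (c : ℝ) / q)‖ =
      ‖lsD M (((r : ℝ) + f * (((t + c) % q : ℕ) : ℝ)) / (q * f))‖ := by
    intro c _
    have h2 := Nat.div_add_mod (t + c) q
    have h3 : (t : ℝ) + c = q * (((t + c) / q : ℕ) : ℝ) + (((t + c) % q : ℕ) : ℝ) := by
      exact_mod_cast h2.symm
    have h4 : (b : ℝ) / f + (c : ℝ) / q =
        ((r : ℝ) + f * (((t + c) % q : ℕ) : ℝ)) / (q * f) + ((((t + c) / q : ℕ) : ℤ) : ℝ) := by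
      have h5 : (((t + c) % q : ℕ) : ℝ) = t + c - q * (((t + c) / q : ℕ) : ℝ) := by linarith
      have h6 : (b : ℝ) = (f * t + r) / q := by
        rw [eq_div_iff hq0.ne']
        exact hbq
      rw [h5, h6, Int.cast_natCast]
      generalize (((t + c) / q : ℕ) : ℝ) = w
      field_simp
      ring
    rw [h4, lsD_add_int]
  rw [sum_congr rfl h1, sum_rot q t hq
    (fun s => ‖lsD M (((r : ℝ) + f * (s : ℝ)) / (q * f))‖)]
  have h2 : ∀ s ∈ range q, ‖lsD M (((r : ℝ) + f * (s : ℝ)) / (q * f))‖ ≤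
      ((q : ℝ) * f) / (2 * ((r : ℝ) + f * (s : ℝ))) +
        ((q : ℝ) * f) / (2 * (((f - r : ℕ) : ℝ) + f * ((q - 1 - s : ℕ) : ℝ))) := by
    intro s hs
    rw [mem_range] at hs
    have hs1 : (s : ℝ) + 1 ≤ q := by exact_mod_cast hs
    have hs0 : (0 : ℝ) ≤ s := Nat.cast_nonneg _
    have hqs : ((q - 1 - s : ℕ) : ℝ) = q - 1 - s := by
      rw [Nat.sub_sub, Nat.cast_sub (by omega)]
      push_cast
      ring
    have hrf' : (r : ℝ) < f := by exact_mod_cast hrf
    have hx0 : 0 < ((r : ℝ) + f * (s : ℝ)) / (q * f) := by positivity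
    have hx1 : ((r : ℝ) + f * (s : ℝ)) / (q * f) < 1 := by
      rw [div_lt_one (by positivity)]
      nlinarith
    refine (H343.PVaux.lsD_le M _ hx0 hx1).trans (le_of_eq ?_)
    rw [hfr, hqs]
    have e1 : (r : ℝ) + f * s ≠ 0 := by positivity
    have e2 : (f : ℝ) - r + f * (q - 1 - s) ≠ 0 := by
      have : 0 < (f : ℝ) - r + f * (q - 1 - s) := by nlinarith
      exact this.ne'
    have e3 : 1 - ((r : ℝ) + f * (s : ℝ)) / (q * f) =
        ((f : ℝ) - r + f * (q - 1 - s)) / (q * f) := by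
      field_simp
      ring
    rw [e3]
    congr 1
    · field_simp
    · field_simp
  refine (sum_le_sum h2).trans ?_
  rw [sum_add_distrib]
  have h3 := half_sum q f hq hf r hr0
  have h4 := half_sum q f hq hf ((f - r : ℕ) : ℝ) hfr0
  have h5 : ∑ s ∈ range q, ((q : ℝ) * f) / (2 * (((f - r : ℕ) : ℝ) + f * ((q - 1 - s : ℕ) : ℝ))) =
      ∑ s ∈ range q, ((q : ℝ) * f) / (2 * (((f - r : ℕ) : ℝ) + f * (s : ℝ))) :=
    sum_range_reflect (fun s : ℕ => ((q : ℝ) * f) / (2 * (((f - r : ℕ) : ℝ) + f * (s : ℝ)))) q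
  rw [h5]
  refine (add_le_add h3 h4).trans (le_of_eq ?_)
  ring

/-- the sum over the shifts and over the reduced fractions with denominator `f` -/
theorem shift_sum2 (q f M : ℕ) (hq : 0 < q) (hf : 2 ≤ f) (hqf : q.Coprime f) :
    ∑ b ∈ (range f).filter (fun b => b.Coprime f), ∑ c ∈ range q,
      ‖lsD M ((b : ℝ) / f + (c : ℝ) / q)‖ ≤ q * (f * (2 + Real.log f + Real.log q)) := by
  have hf0 : 0 < f := by omega
  have hq0 : (0 : ℝ) < q := by exact_mod_cast hq
  have hf0r : (0 : ℝ) < f := by exact_mod_cast hf0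
  have hlq : 0 ≤ Real.log q := Real.log_natCast_nonneg q
  have hnd : ∀ b : ℕ, b.Coprime f → 0 < b * q % f := by
    intro b hb
    rcases Nat.eq_zero_or_pos (b * q % f) with h | h
    · exfalso
      have h1 : f ∣ b * q := Nat.dvd_of_mod_eq_zero h
      have h2 : (b * q).Coprime f := Nat.Coprime.mul_left hb hqf
      have h3 := Nat.Coprime.eq_one_of_dvd h2.symm h1
      omega
    · exact h
  have hinj : Set.InjOn (fun b => b * q % f) ((range f).filter (fun b => b.Coprime f)) := by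
    intro b hb b' hb' h
    rw [mem_coe, mem_filter, mem_range] at hb hb'
    have h1 : b * q ≡ b' * q [MOD f] := h
    have h2 : b ≡ b' [MOD f] := Nat.ModEq.cancel_right_of_coprime hqf.symm h1
    exact Nat.ModEq.eq_of_lt_of_lt h2 hb.1 hb'.1
  have hsub : ((range f).filter (fun b => b.Coprime f)).image (fun b => b * q % f) ⊆ Ico 1 f := by
    intro x hx
    rw [mem_image] at hx
    obtain ⟨b, hb, rfl⟩ := hx
    rw [mem_filter] at hb
    rw [mem_Ico]
    exact ⟨hnd b hb.2, Nat.mod_lt _ hf0⟩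
  have hcard : ((range f).filter (fun b => b.Coprime f)).card ≤ f := by
    refine (card_filter_le _ _).trans ?_
    rw [card_range]
  have h1 : ∑ b ∈ (range f).filter (fun b => b.Coprime f),
      (1 / ((b * q % f : ℕ) : ℝ) + 1 / ((f - b * q % f : ℕ) : ℝ)) ≤ 2 * (1 + Real.log f) := by
    rw [← sum_image (s := (range f).filter (fun b => b.Coprime f)) (g := fun b => b * q % f)
      (f := fun r : ℕ => 1 / (r : ℝ) + 1 / ((f - r : ℕ) : ℝ)) hinj]
    calc ∑ r ∈ ((range f).filter (fun b => b.Coprime f)).image (fun b => b * q % f),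
        (1 / (r : ℝ) + 1 / ((f - r : ℕ) : ℝ)) ≤ ∑ r ∈ Ico 1 f, (1 / (r : ℝ) + 1 / ((f - r : ℕ) : ℝ)) :=
          sum_le_sum_of_subset_of_nonneg hsub (fun _ _ _ => by positivity)
      _ = ∑ r ∈ Ico 1 f, 1 / (r : ℝ) + ∑ r ∈ Ico 1 f, 1 / (r : ℝ) := by
          rw [sum_add_distrib, H343.PVaux.sum_reflect f hf0]
      _ ≤ _ := by
          have := H343.PVaux.harmonic_le f hf0
          linarith
  calc ∑ b ∈ (range f).filter (fun b => b.Coprime f), ∑ c ∈ range q,
      ‖lsD M ((b : ℝ) / f + (c : ℝ) / q)‖ ≤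
      ∑ b ∈ (range f).filter (fun b => b.Coprime f),
        (q * (f / 2 * (1 / ((b * q % f : ℕ) : ℝ) + 1 / ((f - b * q % f : ℕ) : ℝ)) +
        (1 + Real.log q))) := by
        apply sum_le_sum
        intro b hb
        rw [mem_filter] at hb
        exact shift_sum q f b M hq hf0 (hnd b hb.2)
    _ = q * (f / 2 * ∑ b ∈ (range f).filter (fun b => b.Coprime f),
        (1 / ((b * q % f : ℕ) : ℝ) + 1 / ((f - b * q % f : ℕ) : ℝ)) +
        ((range f).filter (fun b => b.Coprime f)).card * (1 + Real.log q)) := by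
        rw [← mul_sum, sum_add_distrib, ← mul_sum, sum_const, nsmul_eq_mul]
    _ ≤ q * (f / 2 * (2 * (1 + Real.log f)) + f * (1 + Real.log q)) := by
        apply mul_le_mul_of_nonneg_left _ hq0.le
        apply add_le_add
        · exact mul_le_mul_of_nonneg_left h1 (by positivity)
        · apply mul_le_mul_of_nonneg_right _ (by linarith)
          exact_mod_cast hcard
    _ = _ := by ring

end Pool.Agent.H662.RC
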