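import Mathlib

/-! A theorem of Tauber for Dirichlet series. -/

set_option autoImplicit false

namespace Pool.Agent.H662.RC

open Filter Finset Topology

theorem abel_bd (b g : ℕ → ℝ) (ε K : ℝ) (N : ℕ)
    (hB : ∀ n, N ≤ n → |∑ i ∈ range (n + 1), b i| ≤ ε * n + K)
    (hg : ∀ n, N < n → g (n + 1) ≤ g n) (hg0 : ∀ n, N < n → 0 ≤ g n) (M : ℕ) (hM : N ≤ M) :
    |∑ n ∈ Ioc N M, b n * g n| ≤ 2 * (ε * N + K) * g (N + 1) + ε * ∑ n ∈ Ioc N M, g n := by
  have key : |∑ n ∈ Ioc N M, b n * g n - (∑ i ∈ range (M + 1), b i) * g (M + 1)| ≤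
      2 * (ε * N + K) * g (N + 1) + ε * ∑ n ∈ Ioc N M, g n - (ε * M + K) * g (M + 1) := by
    induction M, hM using Nat.le_induction with
    | base =>
      rw [Ioc_self, sum_empty, sum_empty, zero_sub, abs_neg, abs_mul, mul_zero, add_zero,
        abs_of_nonneg (hg0 (N + 1) (by omega))]
      have h1 := mul_le_mul_of_nonneg_right (hB N le_rfl) (hg0 (N + 1) (by omega))
      linarith
    | succ M hM ih =>
      have e1 : Ioc N (M + 1) = insert (M + 1) (Ioc N M) := by
        ext n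
        rw [mem_insert, mem_Ioc, mem_Ioc]
        omega
      have e2 : M + 1 ∉ Ioc N M := by
        rw [mem_Ioc]
        omega
      rw [e1, sum_insert e2, sum_insert e2, sum_range_succ _ (M + 1)]
      have h3 : 0 ≤ g (M + 1) - g (M + 1 + 1) := sub_nonneg.2 (hg (M + 1) (by omega))
      have h4 := hB (M + 1) (by omega)
      rw [sum_range_succ] at h4
      have h5 : |(∑ i ∈ range (M + 1), b i + b (M + 1)) * (g (M + 1) - g (M + 1 + 1))| ≤
          (ε * ((M + 1 : ℕ) : ℝ) + K) * (g (M + 1) - g (M + 1 + 1)) := by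
        rw [abs_mul, abs_of_nonneg h3]
        exact mul_le_mul_of_nonneg_right h4 h3
      have h6 : b (M + 1) * g (M + 1) + ∑ n ∈ Ioc N M, b n * g n -
          (∑ i ∈ range (M + 1), b i + b (M + 1)) * g (M + 1 + 1) =
          (∑ n ∈ Ioc N M, b n * g n - (∑ i ∈ range (M + 1), b i) * g (M + 1)) +
          (∑ i ∈ range (M + 1), b i + b (M + 1)) * (g (M + 1) - g (M + 1 + 1)) := by ring
      rw [h6]
      refine (abs_add_le _ _).trans ((add_le_add ih h5).trans (le_of_eq ?_))
      push_cast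
      ring
  have h1 : |(∑ i ∈ range (M + 1), b i) * g (M + 1)| ≤ (ε * M + K) * g (M + 1) := by
    rw [abs_mul, abs_of_nonneg (hg0 (M + 1) (by omega))]
    exact mul_le_mul_of_nonneg_right (hB M hM) (hg0 (M + 1) (by omega))
  have h2 := abs_add_le (∑ n ∈ Ioc N M, b n * g n - (∑ i ∈ range (M + 1), b i) * g (M + 1))
    ((∑ i ∈ range (M + 1), b i) * g (M + 1))
  rw [sub_add_cancel] at h2
  linarith

/-- `(1 - e^(-v)) / v` decreases -/
theorem psi_anti (v w : ℝ) (hv : 0 < v) (hvw : v ≤ w) :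
    (1 - Real.exp (-w)) / w ≤ (1 - Real.exp (-v)) / v := by
  have hw : 0 < w := by linarith
  have ht : 0 ≤ v / w := by positivity
  have ht1 : v / w ≤ 1 := (div_le_one hw).2 hvw
  have h := convexOn_exp.2 (Set.mem_univ (-w)) (Set.mem_univ 0) ht (sub_nonneg.2 ht1)
    (by ring)
  simp only [smul_eq_mul, mul_zero, add_zero, Real.exp_zero, mul_one] at h
  have e1 : v / w * -w = -v := by field_simp
  rw [e1] at h
  rw [div_le_div_iff₀ hw hv]
  have h2 : (1 - Real.exp (-w)) * (v / w) ≤ 1 - Real.exp (-v) := by linarith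
  have h3 : (1 - Real.exp (-w)) * (v / w) * w = (1 - Real.exp (-w)) * v := by field_simp
  calc (1 - Real.exp (-w)) * v = (1 - Real.exp (-w)) * (v / w) * w := h3.symm
    _ ≤ (1 - Real.exp (-v)) * w := mul_le_mul_of_nonneg_right h2 hw.le

theorem psi_le (v : ℝ) (hv : 0 < v) : (1 - Real.exp (-v)) / v ≤ 1 := by
  rw [div_le_one hv]
  have := Real.add_one_le_exp (-v)
  linarith

/-- the first weight -/
noncomputable def phi (σ : ℝ) (n : ℕ) : ℝ := (1 - (n : ℝ) ^ (-σ)) / (n * Real.log n)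

theorem phi_eq (σ : ℝ) (hσ : 0 < σ) (n : ℕ) (hn : 2 ≤ n) :
    phi σ n = σ / n * ((1 - Real.exp (-(σ * Real.log n))) / (σ * Real.log n)) := by
  have hnr : (2 : ℝ) ≤ n := by exact_mod_cast hn
  have hl : 0 < Real.log n := Real.log_pos (by linarith)
  unfold phi
  rw [Real.rpow_def_of_pos (by linarith)]
  have : Real.log n * -σ = -(σ * Real.log n) := by ring
  rw [this]
  field_simp

theorem phi_nonneg (σ : ℝ) (hσ : 0 < σ) (n : ℕ) (hn : 2 ≤ n) : 0 ≤ phi σ n := by
  have hnr : (2 : ℝ) ≤ n := by exact_mod_cast hn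
  have hl : 0 < Real.log n := Real.log_pos (by linarith)
  rw [phi_eq σ hσ n hn]
  have h1 : Real.exp (-(σ * Real.log n)) ≤ 1 := by
    rw [Real.exp_le_one_iff]
    have : 0 ≤ σ * Real.log n := by positivity
    linarith
  apply mul_nonneg (by positivity)
  apply div_nonneg (by linarith) (by positivity)

theorem phi_le (σ : ℝ) (hσ : 0 < σ) (n : ℕ) (hn : 2 ≤ n) : phi σ n ≤ σ / n := by
  have hnr : (2 : ℝ) ≤ n := by exact_mod_cast hn
  have hl : 0 < Real.log n := Real.log_pos (by linarith)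
  rw [phi_eq σ hσ n hn]
  have h1 := psi_le (σ * Real.log n) (by positivity)
  calc _ ≤ σ / n * 1 := mul_le_mul_of_nonneg_left h1 (by positivity)
    _ = _ := mul_one _

theorem phi_anti (σ : ℝ) (hσ : 0 < σ) (n : ℕ) (hn : 2 ≤ n) : phi σ (n + 1) ≤ phi σ n := by
  have hnr : (2 : ℝ) ≤ n := by exact_mod_cast hn
  have hl : 0 < Real.log n := Real.log_pos (by linarith)
  have hl2 : Real.log n ≤ Real.log ((n + 1 : ℕ) : ℝ) := by
    apply Real.log_le_log (by linarith)
    push_cast
    linarith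
  rw [phi_eq σ hσ n hn, phi_eq σ hσ (n + 1) (by omega)]
  have h1 := psi_anti (σ * Real.log n) (σ * Real.log ((n + 1 : ℕ) : ℝ)) (by positivity)
    (mul_le_mul_of_nonneg_left hl2 hσ.le)
  apply mul_le_mul _ h1 _ (by positivity)
  · apply div_le_div_of_nonneg_left hσ.le (by linarith)
    push_cast
    linarith
  · apply div_nonneg _ (by positivity)
    have : Real.exp (-(σ * Real.log ((n + 1 : ℕ) : ℝ))) ≤ 1 := by
      rw [Real.exp_le_one_iff]
      have : 0 ≤ σ * Real.log ((n + 1 : ℕ) : ℝ) := by positivity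
      linarith
    linarith

/-- the second weight -/
noncomputable def psi2 (σ : ℝ) (n : ℕ) : ℝ := (n : ℝ) ^ (-σ) / (n * Real.log n)

theorem psi2_nonneg (σ : ℝ) (n : ℕ) : 0 ≤ psi2 σ n := by
  unfold psi2
  have := Real.log_natCast_nonneg n
  positivity

theorem psi2_anti (σ : ℝ) (hσ : 0 < σ) (n : ℕ) (hn : 2 ≤ n) : psi2 σ (n + 1) ≤ psi2 σ n := by
  have hnr : (2 : ℝ) ≤ n := by exact_mod_cast hn
  have hl : 0 < Real.log n := Real.log_pos (by linarith)
  have hl2 : Real.log n ≤ Real.log ((n + 1 : ℕ) : ℝ) := by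
    apply Real.log_le_log (by linarith)
    push_cast
    linarith
  unfold psi2
  apply div_le_div₀ (by positivity) _ (by positivity) _
  · apply Real.rpow_le_rpow_of_nonpos (by linarith) _ (by linarith)
    push_cast
    linarith
  · apply mul_le_mul _ hl2 hl.le (by positivity)
    push_cast
    linarith

theorem rpow_tail (σ : ℝ) (hσ : 0 < σ) (N : ℕ) (hN : 1 ≤ N) (M : ℕ) (hM : N ≤ M) :
    ∑ n ∈ Ioc N M, (n : ℝ) ^ (-(1 + σ)) ≤ ((N : ℝ) ^ (-σ) - (M : ℝ) ^ (-σ)) / σ := by
  induction M, hM using Nat.le_induction with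
  | base => rw [Ioc_self, sum_empty, sub_self, zero_div]
  | succ M hM ih =>
    have e1 : Ioc N (M + 1) = insert (M + 1) (Ioc N M) := by
      ext n
      rw [mem_insert, mem_Ioc, mem_Ioc]
      omega
    have e2 : M + 1 ∉ Ioc N M := by
      rw [mem_Ioc]
      omega
    rw [e1, sum_insert e2]
    have hM1 : (1 : ℝ) ≤ M := by exact_mod_cast hN.trans hM
    set y : ℝ := ((M + 1 : ℕ) : ℝ) with hy
    have hy' : y = M + 1 := by rw [hy]; push_cast; ring
    have hy0 : 0 < y := by linarith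
    have h1 : y ^ (-(1 + σ)) = y ^ (-σ) * (1 / y) := by
      rw [show -(1 + σ) = -σ + (-1) by ring, Real.rpow_add hy0, Real.rpow_neg_one, one_div]
    have h2 : y ^ (-σ) * (1 + σ / y) ≤ (M : ℝ) ^ (-σ) := by
      have h3 : (M : ℝ) = y * (1 - 1 / y) := by
        rw [hy']
        field_simp
        ring
      have h4 : 0 < 1 - 1 / y := by
        rw [sub_pos, div_lt_one hy0]
        linarith
      rw [h3, Real.mul_rpow hy0.le h4.le]
      apply mul_le_mul_of_nonneg_left _ (by positivity)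
      rw [Real.rpow_def_of_pos h4]
      have h5 := Real.log_le_sub_one_of_pos h4
      have h6 : σ / y ≤ Real.log (1 - 1 / y) * -σ := by
        have : Real.log (1 - 1 / y) ≤ -(1 / y) := by linarith
        calc σ / y = -(1 / y) * -σ := by ring
          _ ≤ Real.log (1 - 1 / y) * -σ := mul_le_mul_of_nonpos_right this (by linarith)
      calc 1 + σ / y ≤ Real.exp (σ / y) := by linarith [Real.add_one_le_exp (σ / y)]
        _ ≤ _ := Real.exp_le_exp.2 h6
    rw [h1]
    have h7 : y ^ (-σ) * (1 / y) ≤ ((M : ℝ) ^ (-σ) - y ^ (-σ)) / σ := by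
      rw [le_div_iff₀ hσ]
      have : y ^ (-σ) * (1 + σ / y) = y ^ (-σ) + y ^ (-σ) * (1 / y) * σ := by ring
      linarith
    have h8 : ((N : ℝ) ^ (-σ) - y ^ (-σ)) / σ = ((M : ℝ) ^ (-σ) - y ^ (-σ)) / σ +
        ((N : ℝ) ^ (-σ) - (M : ℝ) ^ (-σ)) / σ := by ring
    rw [h8]
    exact add_le_add h7 ih

theorem harm (N : ℕ) (hN : 1 ≤ N) : ∑ n ∈ Ioc 1 N, 1 / (n : ℝ) ≤ Real.log N := by
  induction N, hN using Nat.le_induction with
  | base => simp
  | succ M hM ih =>
    have e1 : Ioc 1 (M + 1) = insert (M + 1) (Ioc 1 M) := by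
      ext n
      rw [mem_insert, mem_Ioc, mem_Ioc]
      omega
    have e2 : M + 1 ∉ Ioc 1 M := by
      rw [mem_Ioc]
      omega
    rw [e1, sum_insert e2]
    have hM1 : (1 : ℝ) ≤ M := by exact_mod_cast hM
    have h1 : 1 / ((M + 1 : ℕ) : ℝ) ≤ Real.log ((M + 1 : ℕ) : ℝ) - Real.log M := by
      rw [← Real.log_div (by positivity) (by positivity)]
      have h2 := Real.one_sub_inv_le_log_of_pos
        (show 0 < ((M + 1 : ℕ) : ℝ) / M by positivity)
      refine le_trans (le_of_eq ?_) h2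
      rw [inv_div]
      push_cast
      field_simp
      ring
    linarith

/-- **Tauber's theorem.** -/
theorem tauber (b : ℕ → ℝ) (hb : ∀ n < 2, b n = 0)
    (hB : Tendsto (fun N : ℕ => (∑ i ∈ range (N + 1), b i) / N) atTop (𝓝 0))
    (f : ℝ → ℝ) (c : ℝ) (hsum : ∀ σ, 0 < σ → HasSum (fun n : ℕ => b n * psi2 σ n) (f σ))
    (hf : Tendsto f (𝓝[>] 0) (𝓝 c)) :
    Tendsto (fun N : ℕ => ∑ n ∈ range (N + 1), b n / (n * Real.log n)) atTop (𝓝 c) := by
  have hlog : Tendsto (fun N : ℕ => Real.log N) atTop atTop :=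
    Real.tendsto_log_atTop.comp tendsto_natCast_atTop_atTop
  have hσt : Tendsto (fun N : ℕ => 1 / Real.log N) atTop (𝓝[>] 0) := by
    rw [tendsto_nhdsWithin_iff]
    refine ⟨by simpa [Function.comp_def] using tendsto_inv_atTop_zero.comp hlog, ?_⟩
    filter_upwards [eventually_ge_atTop 3] with N hN
    have : (3 : ℝ) ≤ N := by exact_mod_cast hN
    exact one_div_pos.2 (Real.log_pos (by linarith))
  have hfN := hf.comp hσt
  suffices h : Tendsto (fun N : ℕ => ∑ n ∈ range (N + 1), b n / (n * Real.log n) -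
      f (1 / Real.log N)) atTop (𝓝 0) by
    have := h.add hfN
    rw [zero_add] at this
    refine this.congr fun N => ?_
    simp only [Function.comp]
    ring
  rw [Metric.tendsto_atTop]
  intro η hη
  set ε : ℝ := η / 16 with hε
  have hε0 : 0 < ε := by positivity
  obtain ⟨N1, hN1⟩ := Metric.tendsto_atTop.1 hB ε hε0
  -- a bound for all `n`
  obtain ⟨K, hK0, hK⟩ : ∃ K : ℝ, 0 ≤ K ∧ ∀ n : ℕ, |∑ i ∈ range (n + 1), b i| ≤ ε * n + K := by
    refine ⟨∑ m ∈ range (N1 + 1), |∑ i ∈ range (m + 1), b i|,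
      sum_nonneg fun _ _ => abs_nonneg _, fun n => ?_⟩
    have h0 : 0 ≤ ∑ m ∈ range (N1 + 1), |∑ i ∈ range (m + 1), b i| :=
      sum_nonneg fun _ _ => abs_nonneg _
    have hn0 : (0 : ℝ) ≤ n := Nat.cast_nonneg _
    rcases le_or_gt n N1 with h | h
    · have h1 := single_le_sum (f := fun m : ℕ => |∑ i ∈ range (m + 1), b i|)
        (fun _ _ => abs_nonneg _) (mem_range.2 (Nat.lt_succ_of_le h))
      have : 0 ≤ ε * n := by positivity
      linarith
    · have h1 := hN1 n h.le
      rw [Real.dist_eq, sub_zero, abs_div, Nat.abs_cast] at h1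
      have hn1 : (0 : ℝ) < n := by
        have : 0 < n := by omega
        exact_mod_cast this
      rw [div_lt_iff₀ hn1] at h1
      linarith
  have ev1 : ∀ᶠ N : ℕ in atTop, 16 * (ε + K) / η + 3 ≤ Real.log N := hlog.eventually_ge_atTop _
  obtain ⟨N2, hN2⟩ := eventually_atTop.1 (ev1.and (eventually_ge_atTop 3))
  refine ⟨N2, fun N hN => ?_⟩
  obtain ⟨e1, e2⟩ := hN2 N hN
  have hNr : (3 : ℝ) ≤ N := by exact_mod_cast e2
  have hN0 : (0 : ℝ) < N := by linarith
  have hK2 : 0 ≤ 16 * (ε + K) / η := by positivity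
  have hl3 : 3 ≤ Real.log N := by linarith
  have hl : 0 < Real.log N := by linarith
  set σ : ℝ := 1 / Real.log N with hσd
  have hσ : 0 < σ := by positivity
  have hσK : (ε + K) * σ ≤ η / 16 := by
    rw [hσd, mul_one_div, div_le_iff₀ hl]
    have h1 : 16 * (ε + K) / η ≤ Real.log N := by linarith
    rw [div_le_iff₀ hη] at h1
    linarith
  -- the first part
  have hNσ : (N : ℝ) ^ (-σ) ≤ 1 := Real.rpow_le_one_of_one_le_of_nonpos (by linarith) (by linarith)
  have p1 : |∑ n ∈ Ioc 1 N, b n * phi σ n| ≤ 2 * (ε + K) * σ + ε := by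
    have h1 := abel_bd b (phi σ) ε K 1 (fun n _ => hK n)
      (fun n hn => phi_anti σ hσ n (by omega)) (fun n hn => phi_nonneg σ hσ n (by omega)) N (by omega)
    have h2 : phi σ (1 + 1) ≤ σ := by
      refine (phi_le σ hσ 2 le_rfl).trans ?_
      push_cast
      linarith
    have h3 : ∑ n ∈ Ioc 1 N, phi σ n ≤ 1 := by
      calc ∑ n ∈ Ioc 1 N, phi σ n ≤ ∑ n ∈ Ioc 1 N, σ * (1 / (n : ℝ)) := by
            apply sum_le_sum
            intro n hn
            rw [mem_Ioc] at hn
            refine (phi_le σ hσ n (by omega)).trans (le_of_eq ?_)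
            ring
        _ = σ * ∑ n ∈ Ioc 1 N, 1 / (n : ℝ) := by rw [mul_sum]
        _ ≤ σ * Real.log N := mul_le_mul_of_nonneg_left (harm N (by omega)) hσ.le
        _ = 1 := by rw [hσd]; field_simp
    refine h1.trans ?_
    have h4 : 2 * (ε * ((1 : ℕ) : ℝ) + K) * phi σ (1 + 1) ≤ 2 * (ε + K) * σ := by
      rw [Nat.cast_one, mul_one]
      exact mul_le_mul_of_nonneg_left h2 (by positivity)
    have h5 : ε * ∑ n ∈ Ioc 1 N, phi σ n ≤ ε * 1 := mul_le_mul_of_nonneg_left h3 hε0.le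
    linarith
  -- the tails
  have p2 : ∀ M : ℕ, N ≤ M → |∑ n ∈ Ioc N M, b n * psi2 σ n| ≤ 3 * ε + 2 * K * σ := by
    intro M hM
    have h1 := abel_bd b (psi2 σ) ε K N (fun n _ => hK n)
      (fun n hn => psi2_anti σ hσ n (by omega)) (fun n hn => psi2_nonneg σ n) M hM
    have hN1l : Real.log N ≤ Real.log ((N + 1 : ℕ) : ℝ) := by
      apply Real.log_le_log hN0
      push_cast
      linarith
    have h2 : psi2 σ (N + 1) ≤ 1 / N * σ := by
      unfold psi2
      have h3 : ((N + 1 : ℕ) : ℝ) ^ (-σ) ≤ 1 :=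
        Real.rpow_le_one_of_one_le_of_nonpos (by push_cast; linarith) (by linarith)
      rw [hσd]
      rw [div_mul_div_comm, one_mul]
      apply div_le_div₀ (by norm_num) h3 (by positivity)
      apply mul_le_mul _ hN1l hl.le (by positivity)
      push_cast
      linarith
    have h4 : ∑ n ∈ Ioc N M, psi2 σ n ≤ 1 := by
      calc ∑ n ∈ Ioc N M, psi2 σ n ≤ ∑ n ∈ Ioc N M, σ * (n : ℝ) ^ (-(1 + σ)) := by
            apply sum_le_sum
            intro n hn
            rw [mem_Ioc] at hn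
            have hnr : (N : ℝ) ≤ n := by exact_mod_cast hn.1.le
            have hn0 : (0 : ℝ) < n := by linarith
            have hnl : Real.log N ≤ Real.log n := Real.log_le_log hN0 hnr
            unfold psi2
            have h5 : (n : ℝ) ^ (-(1 + σ)) = (n : ℝ) ^ (-σ) * (1 / n) := by
              rw [show -(1 + σ) = -σ + (-1) by ring, Real.rpow_add hn0, Real.rpow_neg_one, one_div]
            rw [h5, hσd]
            calc (n : ℝ) ^ (-(1 / Real.log N)) / (n * Real.log n) ≤
                (n : ℝ) ^ (-(1 / Real.log N)) / (n * Real.log N) := by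
                  apply div_le_div_of_nonneg_left (by positivity) (by positivity)
                  exact mul_le_mul_of_nonneg_left hnl hn0.le
              _ = _ := by field_simp
        _ = σ * ∑ n ∈ Ioc N M, (n : ℝ) ^ (-(1 + σ)) := by rw [mul_sum]
        _ ≤ σ * (((N : ℝ) ^ (-σ) - (M : ℝ) ^ (-σ)) / σ) :=
            mul_le_mul_of_nonneg_left (rpow_tail σ hσ N (by omega) M hM) hσ.le
        _ = (N : ℝ) ^ (-σ) - (M : ℝ) ^ (-σ) := by field_simp
        _ ≤ 1 := by
            have : 0 ≤ (M : ℝ) ^ (-σ) := by positivity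
            linarith
    refine h1.trans ?_
    have h6 : 2 * (ε * N + K) * psi2 σ (N + 1) ≤ 2 * (ε * N + K) * (1 / N * σ) :=
      mul_le_mul_of_nonneg_left h2 (by positivity)
    have h7 : 2 * (ε * N + K) * (1 / N * σ) = 2 * ε * σ + 2 * K * σ * (1 / N) := by
      field_simp
    have h8 : (1 : ℝ) / N ≤ 1 := by
      rw [div_le_one hN0]
      linarith
    have h9 : σ ≤ 1 := by
      rw [hσd, div_le_one hl]
      linarith
    have h10 : 2 * K * σ * (1 / N) ≤ 2 * K * σ * 1 := mul_le_mul_of_nonneg_left h8 (by positivity)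
    have h11 : 2 * ε * σ ≤ 2 * ε * 1 := mul_le_mul_of_nonneg_left h9 (by positivity)
    have h12 : ε * ∑ n ∈ Ioc N M, psi2 σ n ≤ ε * 1 := mul_le_mul_of_nonneg_left h4 hε0.le
    linarith
  -- the whole series
  have hzero : ∀ g : ℕ → ℝ, ∀ M : ℕ, 1 ≤ M → ∑ n ∈ range (M + 1), b n * g n =
      ∑ n ∈ Ioc 1 M, b n * g n := by
    intro g M hM
    symm
    apply sum_subset
    · intro n hn
      rw [mem_Ioc] at hn
      rw [mem_range]
      omega
    · intro n hn hn'
      rw [mem_range] at hn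
      rw [mem_Ioc] at hn'
      rw [hb n (by omega), zero_mul]
  have p3 : |f σ - ∑ n ∈ range (N + 1), b n * psi2 σ n| ≤ 3 * ε + 2 * K * σ := by
    have h1 := ((hsum σ hσ).tendsto_sum_nat.comp (tendsto_add_atTop_nat 1)).sub_const
      (∑ n ∈ range (N + 1), b n * psi2 σ n)
    refine le_of_tendsto h1.abs ?_
    filter_upwards [eventually_ge_atTop N] with M hM
    simp only [Function.comp]
    have h2 : ∑ n ∈ range (M + 1), b n * psi2 σ n - ∑ n ∈ range (N + 1), b n * psi2 σ n =
        ∑ n ∈ Ioc N M, b n * psi2 σ n := by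
      rw [sub_eq_iff_eq_add, ← sum_union]
      · congr 1
        ext n
        rw [mem_union, mem_Ioc, mem_range, mem_range]
        omega
      · rw [disjoint_left]
        intro n hn
        rw [mem_Ioc] at hn
        rw [mem_range]
        omega
    rw [h2]
    exact p2 M hM
  have h4 : ∑ n ∈ range (N + 1), b n / (n * Real.log n) =
      ∑ n ∈ range (N + 1), b n * phi σ n + ∑ n ∈ range (N + 1), b n * psi2 σ n := by
    rw [← sum_add_distrib]
    apply sum_congr rfl
    intro n _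
    unfold phi psi2
    ring
  rw [Real.dist_eq, sub_zero, h4, hzero (phi σ) N (by omega)]
  have h5 : |∑ n ∈ Ioc 1 N, b n * phi σ n + ∑ n ∈ range (N + 1), b n * psi2 σ n - f σ| ≤
      |∑ n ∈ Ioc 1 N, b n * phi σ n| + |f σ - ∑ n ∈ range (N + 1), b n * psi2 σ n| := by
    have : ∑ n ∈ Ioc 1 N, b n * phi σ n + ∑ n ∈ range (N + 1), b n * psi2 σ n - f σ =
      ∑ n ∈ Ioc 1 N, b n * phi σ n - (f σ - ∑ n ∈ range (N + 1), b n * psi2 σ n) := by ring
    rw [this]
    exact abs_sub _ _
  have hKσ : K * σ ≤ (ε + K) * σ := mul_le_mul_of_nonneg_right (by linarith) hσ.le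
  linarith

end Pool.Agent.H662.RC
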