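import Pool.Agent.H662.RC.Gen
import Pool.Agent.H662.RC.Sel
import Pool.Agent.H662.RC.GLow

/-! Selberg's sieve of dimension `k`: the main term. -/

set_option autoImplicit false

namespace Pool.Agent.H662.RC

open Filter Finset Topology Polynomial
open Pool.Agent.W23.DC
open Pool.Agent.Y882
open Pool.Agent.Y882.PX
open Pool.Agent.Y882.SI
open Pool.Agent.H662

theorem choose_low (k : ℕ) (ε : ℝ) (hε : 0 < ε) : ∃ N : ℕ, 1 ≤ N ∧
    (1 - ε) * (N : ℝ) ^ k ≤ (k.factorial : ℝ) * (N.choose k : ℝ) := by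
  obtain ⟨N, hN⟩ := exists_nat_ge ((k : ℝ) ^ 2 / ε + k + 1)
  have hk0 : (0 : ℝ) ≤ k := Nat.cast_nonneg k
  have h0 : 0 ≤ (k : ℝ) ^ 2 / ε := by positivity
  have hN1 : (1 : ℝ) ≤ N := by linarith
  have hNk : (k : ℝ) ≤ N := by linarith
  have hN0 : (0 : ℝ) < N := by linarith
  refine ⟨N, by exact_mod_cast hN1, ?_⟩
  have h1 : ((N + 1 - k : ℕ) : ℝ) ^ k ≤ (N.descFactorial k : ℝ) := by
    exact_mod_cast Nat.pow_sub_le_descFactorial N k
  rw [Nat.descFactorial_eq_factorial_mul_choose] at h1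
  push_cast at h1
  refine le_trans ?_ h1
  have hkN : k ≤ N + 1 := by
    have : k ≤ N := by exact_mod_cast hNk
    omega
  have h2 : (N : ℝ) - k ≤ ((N + 1 - k : ℕ) : ℝ) := by
    rw [Nat.cast_sub hkN]
    push_cast
    linarith
  calc (1 - ε) * (N : ℝ) ^ k ≤ (1 + (k : ℝ) * (-(k / N))) * (N : ℝ) ^ k := by
        apply mul_le_mul_of_nonneg_right _ (by positivity)
        have h3 : (k : ℝ) * (k / N) ≤ ε := by
          rw [mul_div_assoc', div_le_iff₀ hN0]
          have h4 : (k : ℝ) ^ 2 / ε ≤ N := by linarith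
          rw [div_le_iff₀ hε] at h4
          linarith
        linarith
    _ ≤ (1 + -(k / N)) ^ k * (N : ℝ) ^ k := by
        apply mul_le_mul_of_nonneg_right _ (by positivity)
        apply one_add_mul_le_pow
        have : (k : ℝ) / N ≤ 1 := (div_le_one hN0).2 hNk
        linarith
    _ = ((N : ℝ) - k) ^ k := by
        rw [← mul_pow]
        congr 1
        field_simp
        ring
    _ ≤ _ := pow_le_pow_left₀ (by linarith) h2 k

theorem Hf_asym (S : Finset ℕ) (hS : ∀ p ∈ S, p.Prime) (k : ℕ) (ε : ℝ) (hε : 0 < ε)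
    (hε1 : ε ≤ 1) : ∃ R0 : ℕ, ∀ R : ℕ, R0 ≤ R →
      (1 - ε) * (Sel.Vs S * Real.log R) ^ k ≤ (k.factorial : ℝ) * Sel.Hf k S R := by
  obtain ⟨N, hN1, hN⟩ := choose_low k (ε / 2) (by linarith)
  obtain ⟨C, hC, hCx⟩ := Sel.S1_asym S hS
  obtain ⟨hV0, hV1⟩ := Sel.Vs_bd S hS
  set V := Sel.Vs S with hV
  have hNr : (1 : ℝ) ≤ N := by exact_mod_cast hN1
  have hN0 : (0 : ℝ) < N := by linarith
  have hk0 : (0 : ℝ) ≤ k := Nat.cast_nonneg k
  set η : ℝ := ε / (2 * (k + 1)) with hη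
  have hη0 : 0 < η := by positivity
  have hkη : (k : ℝ) * η ≤ ε / 2 := by
    rw [hη, mul_div_assoc', div_le_div_iff₀ (by positivity) (by norm_num)]
    nlinarith
  have hη1 : η ≤ 1 / 2 := by
    rw [hη, div_le_div_iff₀ (by positivity) (by norm_num)]
    nlinarith
  have hlog : Tendsto (fun N : ℕ => Real.log N) atTop atTop :=
    Real.tendsto_log_atTop.comp tendsto_natCast_atTop_atTop
  have ev : ∀ᶠ R : ℕ in atTop, N * (V + 2 * C) / (η * V) + N + 1 ≤ Real.log R :=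
    hlog.eventually_ge_atTop _
  obtain ⟨R1, hR1⟩ := eventually_atTop.1 (ev.and (eventually_ge_atTop 3))
  refine ⟨R1, fun R hR => ?_⟩
  obtain ⟨e1, e2⟩ := hR1 R hR
  have hRr : (3 : ℝ) ≤ R := by exact_mod_cast e2
  have hR0 : (0 : ℝ) < R := by linarith
  have hq0 : 0 ≤ N * (V + 2 * C) / (η * V) := by positivity
  have hlR : 0 < Real.log R := by linarith
  set Q : ℕ := ⌊(R : ℝ) ^ (1 / (N : ℝ))⌋₊ with hQ
  have hy0 : (0 : ℝ) ≤ (R : ℝ) ^ (1 / (N : ℝ)) := by positivity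
  have hylog : Real.log ((R : ℝ) ^ (1 / (N : ℝ))) = Real.log R / N := by
    rw [Real.log_rpow hR0]
    ring
  have hy2 : 2 ≤ (R : ℝ) ^ (1 / (N : ℝ)) := by
    rw [← Real.log_le_log_iff (by norm_num) (by positivity), hylog, le_div_iff₀ hN0]
    have h2 : Real.log 2 ≤ 1 := by linarith [Real.log_two_lt_d9]
    nlinarith
  have hQle : (Q : ℝ) ≤ (R : ℝ) ^ (1 / (N : ℝ)) := Nat.floor_le hy0
  have hQge : (R : ℝ) ^ (1 / (N : ℝ)) / 2 ≤ Q := by
    have := Nat.lt_floor_add_one ((R : ℝ) ^ (1 / (N : ℝ)))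
    rw [← hQ] at this
    linarith
  have hQ1 : (1 : ℝ) ≤ Q := by linarith
  have hQ1' : 1 ≤ Q := by exact_mod_cast hQ1
  have hQN : Q ^ N ≤ R := by
    have h1 : ((Q : ℝ)) ^ N ≤ R := by
      calc ((Q : ℝ)) ^ N ≤ ((R : ℝ) ^ (1 / (N : ℝ))) ^ N := pow_le_pow_left₀ (by linarith) hQle N
        _ = R := by
            rw [← Real.rpow_natCast, ← Real.rpow_mul hR0.le]
            field_simp
            exact Real.rpow_one _
    exact_mod_cast h1
  have hlQ : Real.log R / N - 1 ≤ Real.log Q := by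
    have h1 := Real.log_le_log (by positivity) hQge
    rw [Real.log_div (by positivity) (by norm_num), hylog] at h1
    have h2 : Real.log 2 ≤ 1 := by linarith [Real.log_two_lt_d9]
    linarith
  set δ : ℝ := V * (Real.log R / N - 1) - 2 * C with hδ
  have hNδ : (1 - η) * (V * Real.log R) ≤ N * δ := by
    have h1 : N * (V + 2 * C) / (η * V) ≤ Real.log R := by linarith
    rw [div_le_iff₀ (by positivity)] at h1
    have h2 : N * δ = V * Real.log R - N * (V + 2 * C) := by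
      rw [hδ]
      field_simp
      ring
    rw [h2]
    nlinarith
  have hδ0 : 0 ≤ δ := by
    have h1 : 0 ≤ (1 - η) * (V * Real.log R) := mul_nonneg (by linarith) (by positivity)
    exact nonneg_of_mul_nonneg_right (h1.trans hNδ) hN0
  have hstep : ∀ j : ℕ, δ ≤ Sel.S1 S (Q ^ (j + 1)) - Sel.S1 S (Q ^ j) := by
    intro j
    have h1 := (abs_le.1 (hCx (Q ^ (j + 1)) (Nat.one_le_pow _ _ hQ1'))).1
    have h2 := (abs_le.1 (hCx (Q ^ j) (Nat.one_le_pow _ _ hQ1'))).2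
    push_cast at h1 h2
    rw [Real.log_pow] at h1 h2
    push_cast at h1
    have h3 : V * (Real.log R / N - 1) ≤ V * Real.log Q := mul_le_mul_of_nonneg_left hlQ hV0.le
    rw [hδ]
    nlinarith
  have h1 := Sel.Hf_low S hS Q hQ1' δ hδ0 hstep k N
  have h2 := Sel.Hf_mono k S (Q ^ N) R hQN
  have h3 : (1 - ε) ≤ (1 - ε / 2) * (1 - η) ^ k := by
    have h4 : 1 + (k : ℝ) * (-η) ≤ (1 + -η) ^ k := one_add_mul_le_pow (by linarith) k
    have h5 : 1 - ε / 2 ≤ (1 - η) ^ k := by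
      have : (1 + -η) = 1 - η := by ring
      rw [this] at h4
      linarith
    calc (1 - ε) ≤ (1 - ε / 2) * (1 - ε / 2) := by nlinarith
      _ ≤ _ := mul_le_mul_of_nonneg_left h5 (by linarith)
  calc (1 - ε) * (V * Real.log R) ^ k ≤ ((1 - ε / 2) * (1 - η) ^ k) * (V * Real.log R) ^ k :=
        mul_le_mul_of_nonneg_right h3 (by positivity)
    _ = (1 - ε / 2) * ((1 - η) * (V * Real.log R)) ^ k := by
        rw [mul_pow (1 - η)]
        ring
    _ ≤ (1 - ε / 2) * (N * δ) ^ k := by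
        apply mul_le_mul_of_nonneg_left _ (by linarith)
        exact pow_le_pow_left₀ (mul_nonneg (by linarith) (by positivity)) hNδ k
    _ = (1 - ε / 2) * (N : ℝ) ^ k * δ ^ k := by
        rw [mul_pow]
        ring
    _ ≤ ((k.factorial : ℝ) * (N.choose k : ℝ)) * δ ^ k :=
        mul_le_mul_of_nonneg_right hN (by positivity)
    _ = (k.factorial : ℝ) * ((N.choose k : ℝ) * δ ^ k) := by ring
    _ ≤ _ := mul_le_mul_of_nonneg_left (h1.trans h2) (by positivity)

/-- the small primes -/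
def Sm (w : ℕ) : Finset ℕ := (range (w + 1)).filter Nat.Prime

/-- the large primes -/
def Lg (w R : ℕ) : Finset ℕ := (Ioc w R).filter Nat.Prime

/-- the densities -/
noncomputable def gG (G : ℤ[X]) (p : ℕ) : ℝ := (ro G 0 p : ℝ) / p

/-- the small primes in use -/
noncomputable def Pq (G : ℤ[X]) (w q : ℕ) : Finset ℕ := (Sm w).filter (fun p => ¬ p ∣ q ∧ ro G 0 p ≠ 0)

/-- the large primes in use -/
def Lq (w R q : ℕ) : Finset ℕ := (Lg w R).filter (fun p => ¬ p ∣ q)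

/-- the divisors in use -/
def DB (w R q : ℕ) : Finset (Finset ℕ) := (Lq w R q).powerset.filter (fun B => ∏ p ∈ B, p ≤ R)

/-- the divisors in use -/
noncomputable def DD (G : ℤ[X]) (w R q : ℕ) : Finset (Finset ℕ) :=
  ((Pq G w q).powerset ×ˢ DB w R q).image (fun z => z.1 ∪ z.2)

theorem mem_DD (G : ℤ[X]) (w R q : ℕ) (T : Finset ℕ) : T ∈ DD G w R q ↔
    ∃ A ⊆ Pq G w q, ∃ B ⊆ Lq w R q, ∏ p ∈ B, p ≤ R ∧ A ∪ B = T := by
  unfold DD DB
  rw [mem_image]
  constructor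
  · rintro ⟨⟨A, B⟩, h1, h2⟩
    rw [mem_product, mem_powerset, mem_filter, mem_powerset] at h1
    exact ⟨A, h1.1, B, h1.2.1, h1.2.2, h2⟩
  · rintro ⟨A, hA, B, hB, h1, h2⟩
    refine ⟨(A, B), ?_, h2⟩
    rw [mem_product, mem_powerset, mem_filter, mem_powerset]
    exact ⟨hA, hB, h1⟩

theorem Pq_prime (G : ℤ[X]) (w q p : ℕ) (hp : p ∈ Pq G w q) : p.Prime ∧ p ≤ w ∧ ¬ p ∣ q := by
  unfold Pq Sm at hp
  rw [mem_filter, mem_filter, mem_range] at hp
  exact ⟨hp.1.2, by omega, hp.2.1⟩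

theorem Lq_prime (w R q p : ℕ) (hp : p ∈ Lq w R q) : p.Prime ∧ w < p ∧ p ≤ R ∧ ¬ p ∣ q := by
  unfold Lq Lg at hp
  rw [mem_filter, mem_filter, mem_Ioc] at hp
  exact ⟨hp.1.2, hp.1.1.1, hp.1.1.2, hp.2⟩

theorem DD_sub (G : ℤ[X]) (w R q : ℕ) (U : Finset ℕ) (hU : U ∈ DD G w R q) :
    U ⊆ Pq G w q ∪ Lq w R q := by
  obtain ⟨A, hA, B, hB, -, rfl⟩ := (mem_DD G w R q U).1 hU
  exact union_subset_union hA hB

theorem DD_empty (G : ℤ[X]) (w R q : ℕ) (hR : 1 ≤ R) : ∅ ∈ DD G w R q := by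
  rw [mem_DD]
  exact ⟨∅, empty_subset _, ∅, empty_subset _, by rw [prod_empty]; exact hR, by simp⟩

theorem DD_down (G : ℤ[X]) (w R q : ℕ) (U : Finset ℕ) (hU : U ∈ DD G w R q) (T : Finset ℕ)
    (hT : T ⊆ U) : T ∈ DD G w R q := by
  obtain ⟨A, hA, B, hB, h1, rfl⟩ := (mem_DD G w R q U).1 hU
  rw [mem_DD]
  refine ⟨T ∩ A, inter_subset_right.trans hA, T ∩ B, inter_subset_right.trans hB, ?_, ?_⟩
  · refine le_trans ?_ h1
    apply Nat.le_of_dvd
    · exact Nat.pos_of_ne_zero (prod_ne_zero_iff.2 fun p hp => (Lq_prime w R q p (hB hp)).1.ne_zero)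
    · exact prod_dvd_prod_of_subset _ _ _ inter_subset_right
  · rw [← inter_union_distrib_left]
    exact inter_eq_left.2 hT

theorem PL_disj (G : ℤ[X]) (w R q : ℕ) : Disjoint (Pq G w q) (Lq w R q) := by
  rw [disjoint_left]
  intro p h1 h2
  have a := (Pq_prime G w q p h1).2.1
  have b := (Lq_prime w R q p h2).2.1
  omega

theorem one_add_hh (g : ℕ → ℝ) (p : ℕ) (h : g p < 1) : (1 - g p) * (1 + Sel.hh g p) = 1 := by
  have : 1 - g p ≠ 0 := (sub_pos.2 h).ne'
  unfold Sel.hh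
  field_simp
  ring

theorem GG_DD (G : ℤ[X]) (w R q : ℕ) : Sel.GG (DD G w R q) (gG G) =
    (∏ p ∈ Pq G w q, (1 + Sel.hh (gG G) p)) * Sel.GW (Sel.hh (gG G)) (Lq w R q) R := by
  classical
  unfold Sel.GG DD
  rw [sum_image]
  · have h1 : ∏ p ∈ Pq G w q, (1 + Sel.hh (gG G) p) =
        ∑ A ∈ (Pq G w q).powerset, ∏ p ∈ A, Sel.hh (gG G) p := by
      rw [prod_one_add]
    have h2 : Sel.GW (Sel.hh (gG G)) (Lq w R q) R = ∑ B ∈ DB w R q, ∏ p ∈ B, Sel.hh (gG G) p := by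
      unfold Sel.GW DB
      apply sum_congr _ (fun _ _ => rfl)
      ext B
      simp only [mem_filter]
    rw [h1, h2, sum_mul_sum, ← sum_product']
    apply sum_congr rfl
    rintro ⟨A, B⟩ hz
    rw [mem_product, mem_powerset] at hz
    unfold DB at hz
    rw [mem_filter, mem_powerset] at hz
    simp only
    exact prod_union ((PL_disj G w R q).mono hz.1 hz.2.1)
  · rintro ⟨A, B⟩ h1 ⟨A', B'⟩ h2 h3
    rw [mem_coe, mem_product, mem_powerset] at h1 h2
    unfold DB at h1 h2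
    rw [mem_filter, mem_powerset] at h1 h2
    simp only at h1 h2 h3
    have dd := PL_disj G w R q
    have e1 : A = A' := by
      ext x
      constructor
      · intro hx
        have hx' : x ∈ A' ∪ B' := h3 ▸ mem_union_left B hx
        rcases mem_union.1 hx' with h | h
        · exact h
        · exact absurd (h2.2.1 h) (disjoint_left.1 dd (h1.1 hx))
      · intro hx
        have hx' : x ∈ A ∪ B := h3 ▸ mem_union_left B' hx
        rcases mem_union.1 hx' with h | h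
        · exact h
        · exact absurd (h1.2.1 h) (disjoint_left.1 dd (h2.1 hx))
    have e2 : B = B' := by
      ext x
      constructor
      · intro hx
        have hx' : x ∈ A' ∪ B' := h3 ▸ mem_union_right A hx
        rcases mem_union.1 hx' with h | h
        · exact absurd (h1.2.1 hx) (disjoint_left.1 dd (h2.1 h))
        · exact h
      · intro hx
        have hx' : x ∈ A ∪ B := h3 ▸ mem_union_right A' hx
        rcases mem_union.1 hx' with h | h
        · exact absurd (h2.2.1 hx) (disjoint_left.1 dd (h1.1 h))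
        · exact h
    rw [e1, e2]

/-- **the main term** -/
theorem main_term (G : ℤ[X]) (k w R q : ℕ) (hlt : ∀ p : ℕ, p.Prime → ro G 0 p < p)
    (hw : ∀ p : ℕ, p.Prime → w < p → ro G 0 p = k) (hq : 0 < q) :
    (clsG G q : ℝ) * Sel.Hf k (Sm w) R ≤
      q * (∏ p ∈ Sm w, (1 - gG G p)) * Sel.GG (DD G w R q) (gG G) := by
  classical
  have hg1 : ∀ p : ℕ, p.Prime → 0 ≤ gG G p ∧ gG G p < 1 := by
    intro p hp
    have hp0 : (0 : ℝ) < p := by exact_mod_cast hp.pos
    unfold gG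
    refine ⟨by positivity, ?_⟩
    rw [div_lt_one hp0]
    exact_mod_cast hlt p hp
  have hh0 : ∀ p : ℕ, p.Prime → 0 ≤ Sel.hh (gG G) p := by
    intro p hp
    obtain ⟨h1, h2⟩ := hg1 p hp
    unfold Sel.hh
    exact div_nonneg h1 (by linarith)
  have hLg : ∀ p ∈ Lg w R, p.Prime ∧ w < p ∧ p ≤ R := by
    intro p hp
    unfold Lg at hp
    rw [mem_filter, mem_Ioc] at hp
    exact ⟨hp.2, hp.1.1, hp.1.2⟩
  -- comparison with the sum over all large primes
  have h1 : Sel.Hf k (Sm w) R ≤ Sel.GW (Sel.hh (gG G)) (Lg w R) R := by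
    refine (Sel.Hf_le_HL k (Sm w) (Lg w R) R ?_).trans (Sel.HL_le k _ (Lg w R)
      (fun p hp => (hLg p hp).1) (fun p hp => ⟨hh0 p (hLg p hp).1, ?_⟩) R)
    · intro p hp hpR hpS
      unfold Lg
      rw [mem_filter, mem_Ioc]
      refine ⟨⟨?_, hpR⟩, hp⟩
      by_contra h
      apply hpS
      unfold Sm
      rw [mem_filter, mem_range]
      exact ⟨by omega, hp⟩
    · have e1 : (k : ℝ) / p = gG G p := by
        unfold gG
        rw [hw p (hLg p hp).1 (hLg p hp).2.1]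
      have e2 : 1 - gG G p ≠ 0 := (sub_pos.2 (hg1 p (hLg p hp).1).2).ne'
      rw [e1]
      unfold Sel.hh
      field_simp
      ring
  set Qs := (Lg w R).filter (fun p => p ∣ q) with hQs
  have h2 : Sel.GW (Sel.hh (gG G)) (Lg w R) R ≤
      (∏ p ∈ Qs, (1 + Sel.hh (gG G) p)) * Sel.GW (Sel.hh (gG G)) (Lq w R q) R := by
    have h3 : Lg w R = Lq w R q ∪ Qs := by
      unfold Lq
      rw [hQs, union_comm]
      exact (filter_union_filter_not_eq (fun p => p ∣ q) (Lg w R)).symm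
    have h4 : Disjoint (Lq w R q) Qs := by
      unfold Lq
      rw [hQs]
      exact (disjoint_filter_filter_not (Lg w R) (Lg w R) (fun p => p ∣ q)).symm
    have h5 := Sel.GW_union (Sel.hh (gG G)) (Lq w R q) Qs (fun p hp => by
      rw [hQs, mem_filter] at hp
      exact (hLg p hp.1).1.pos) h4 (fun p hp => by
        rw [← h3] at hp
        exact hh0 p (hLg p hp).1) R
    rwa [← h3] at h5
  -- the classes
  set Ds := (Sm w).filter (fun p => p ∣ q) with hDs
  have hSm : ∀ p ∈ Sm w, p.Prime ∧ p ≤ w := by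
    intro p hp
    unfold Sm at hp
    rw [mem_filter, mem_range] at hp
    exact ⟨hp.2, by omega⟩
  have hDQ : Disjoint Ds Qs := by
    rw [disjoint_left]
    intro p h3 h4
    rw [hDs, mem_filter] at h3
    rw [hQs, mem_filter] at h4
    have a := (hSm p h3.1).2
    have b := (hLg p h4.1).2.1
    omega
  have h3 : (clsG G q : ℝ) ≤ q * ((∏ p ∈ Ds, (1 - gG G p)) * ∏ p ∈ Qs, (1 - gG G p)) := by
    rw [← prod_union hDQ]
    have h4 := class_prod G q hq (Ds ∪ Qs) (fun p hp => by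
      rcases mem_union.1 hp with h | h
      · rw [hDs, mem_filter] at h
        exact ⟨(hSm p h.1).1, h.2⟩
      · rw [hQs, mem_filter] at h
        exact ⟨(hLg p h.1).1, h.2⟩)
    have h5 : clsG G q ≤ ((range q).filter (fun a : ℕ => ∀ p ∈ Ds ∪ Qs,
        ¬ p ∣ (G.eval (a : ℤ)).natAbs)).card := by
      unfold clsG
      apply card_le_card
      intro a ha
      rw [mem_filter] at ha ⊢
      refine ⟨ha.1, fun p hp hd => ?_⟩
      have hpq : p.Prime ∧ p ∣ q := by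
        rcases mem_union.1 hp with h | h
        · rw [hDs, mem_filter] at h
          exact ⟨(hSm p h.1).1, h.2⟩
        · rw [hQs, mem_filter] at h
          exact ⟨(hLg p h.1).1, h.2⟩
      have := Nat.eq_one_of_dvd_coprimes ha.2 hd hpq.2
      exact hpq.1.one_lt.ne' this
    have h6 : (clsG G q : ℝ) ≤ (((range q).filter (fun a : ℕ => ∀ p ∈ Ds ∪ Qs,
        ¬ p ∣ (G.eval (a : ℤ)).natAbs)).card : ℝ) := by exact_mod_cast h5
    rw [h4] at h6
    exact h6
  have hprodQ : (∏ p ∈ Qs, (1 - gG G p)) * ∏ p ∈ Qs, (1 + Sel.hh (gG G) p) = 1 := by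
    rw [← prod_mul_distrib]
    apply prod_eq_one
    intro p hp
    rw [hQs, mem_filter] at hp
    exact one_add_hh _ p (hg1 p (hLg p hp.1).1).2
  have hprodP : (∏ p ∈ Pq G w q, (1 - gG G p)) * ∏ p ∈ Pq G w q, (1 + Sel.hh (gG G) p) = 1 := by
    rw [← prod_mul_distrib]
    apply prod_eq_one
    intro p hp
    exact one_add_hh _ p (hg1 p (Pq_prime G w q p hp).1).2
  have hsplit : ∏ p ∈ Sm w, (1 - gG G p) = (∏ p ∈ Ds, (1 - gG G p)) *
      ∏ p ∈ Pq G w q, (1 - gG G p) := by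
    rw [hDs, ← prod_filter_mul_prod_filter_not (Sm w) (fun p => p ∣ q)]
    congr 1
    symm
    apply prod_subset
    · intro p hp
      unfold Pq at hp
      rw [mem_filter] at hp ⊢
      exact ⟨hp.1, hp.2.1⟩
    · intro p hp hp'
      unfold Pq at hp'
      rw [mem_filter] at hp hp'
      have h4 : ro G 0 p = 0 := by
        by_contra h
        exact hp' ⟨hp.1, hp.2, h⟩
      unfold gG
      rw [h4, Nat.cast_zero, zero_div, sub_zero]
  have hD0 : 0 ≤ ∏ p ∈ Ds, (1 - gG G p) := by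
    apply prod_nonneg
    intro p hp
    rw [hDs, mem_filter] at hp
    exact (sub_pos.2 (hg1 p (hSm p hp.1).1).2).le
  have hQ0 : 0 ≤ ∏ p ∈ Qs, (1 - gG G p) := by
    apply prod_nonneg
    intro p hp
    rw [hQs, mem_filter] at hp
    exact (sub_pos.2 (hg1 p (hLg p hp.1).1).2).le
  have hGL0 : 0 ≤ Sel.GW (Sel.hh (gG G)) (Lq w R q) R :=
    Sel.GW_nonneg _ _ (fun p hp => hh0 p (Lq_prime w R q p hp).1) R
  have hQ1 : 0 ≤ ∏ p ∈ Qs, (1 + Sel.hh (gG G) p) := by
    apply prod_nonneg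
    intro p hp
    rw [hQs, mem_filter] at hp
    have := hh0 p (hLg p hp.1).1
    linarith
  calc (clsG G q : ℝ) * Sel.Hf k (Sm w) R ≤
      (q * ((∏ p ∈ Ds, (1 - gG G p)) * ∏ p ∈ Qs, (1 - gG G p))) *
        ((∏ p ∈ Qs, (1 + Sel.hh (gG G) p)) * Sel.GW (Sel.hh (gG G)) (Lq w R q) R) :=
        mul_le_mul h3 (h1.trans h2) (Sel.Hf_nonneg _ _ _) (by positivity)
    _ = q * (∏ p ∈ Ds, (1 - gG G p)) * (((∏ p ∈ Qs, (1 - gG G p)) *
          ∏ p ∈ Qs, (1 + Sel.hh (gG G) p)) * Sel.GW (Sel.hh (gG G)) (Lq w R q) R) := by ring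
    _ = q * (∏ p ∈ Ds, (1 - gG G p)) * (((∏ p ∈ Pq G w q, (1 - gG G p)) *
          ∏ p ∈ Pq G w q, (1 + Sel.hh (gG G) p)) * Sel.GW (Sel.hh (gG G)) (Lq w R q) R) := by
        rw [hprodQ, hprodP]
    _ = _ := by
        rw [GG_DD, hsplit]
        ring

end Pool.Agent.H662.RC
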