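import Pool.Agent.H662.RC.FewU
import Pool.Agent.H662.RC.TupA

/-! Selberg's sieve of dimension `k` in residue classes. -/

set_option autoImplicit false

namespace Pool.Agent.H662.RC

open Filter Finset Topology Polynomial
open Pool.Agent.Y882
open Pool.Agent.Y882.PX
open Pool.Agent.Y882.SI
open Pool.Agent.H662

/-- the number of the classes is large -/
theorem clsG_big (k : ℕ) (η : ℝ) (hη : 0 < η) : ∃ C : ℝ, 1 ≤ C ∧ ∀ (G : ℤ[X]) (q : ℕ),
    (∀ p : ℕ, p.Prime → ro G 0 p ≤ k) → (∀ p : ℕ, p.Prime → ro G 0 p < p) → 0 < q →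
    (q : ℝ) ≤ C * (q : ℝ) ^ η * clsG G q := by
  classical
  obtain ⟨C, hC1, hC⟩ := pow_card_le (k + 1) η hη
  refine ⟨C, hC1, fun G q hk hlt hq => ?_⟩
  have hq0 : (0 : ℝ) < q := by exact_mod_cast hq
  have hk0 : (0 : ℝ) ≤ k := Nat.cast_nonneg k
  have h1 := class_prod G q hq q.primeFactors (fun p hp =>
    ⟨Nat.prime_of_mem_primeFactors hp, Nat.dvd_of_mem_primeFactors hp⟩)
  have h2 : ((range q).filter (fun a : ℕ => ∀ p ∈ q.primeFactors,
      ¬ p ∣ (G.eval (a : ℤ)).natAbs)).card ≤ clsG G q := by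
    unfold clsG
    apply card_le_card
    intro a ha
    rw [mem_filter] at ha ⊢
    refine ⟨ha.1, ?_⟩
    rw [Nat.coprime_iff_gcd_eq_one]
    by_contra hne
    obtain ⟨p, hp, hpd⟩ := Nat.exists_prime_and_dvd hne
    have h3 := hpd.trans (Nat.gcd_dvd_left _ _)
    have h4 := hpd.trans (Nat.gcd_dvd_right _ _)
    exact ha.2 p (Nat.mem_primeFactors.2 ⟨hp, h4, hq.ne'⟩) h3
  have h3 : (q : ℝ) * ∏ p ∈ q.primeFactors, (1 - (ro G 0 p : ℝ) / p) ≤ clsG G q := by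
    rw [← h1]
    exact_mod_cast h2
  have h4 : ∀ p ∈ q.primeFactors, 1 / ((k : ℝ) + 1) ≤ 1 - (ro G 0 p : ℝ) / p := by
    intro p hp
    have hpp := Nat.prime_of_mem_primeFactors hp
    have hp0 : (0 : ℝ) < p := by exact_mod_cast hpp.pos
    have e1 : (ro G 0 p : ℝ) + 1 ≤ p := by exact_mod_cast hlt p hpp
    have e2 : (ro G 0 p : ℝ) ≤ k := by exact_mod_cast hk p hpp
    have e0 : (0 : ℝ) ≤ ro G 0 p := Nat.cast_nonneg _
    rw [div_le_iff₀ (by linarith)]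
    have e3 : (1 - (ro G 0 p : ℝ) / p) * (k + 1) = ((p - ro G 0 p) * (k + 1)) / p := by
      field_simp
    rw [e3, le_div_iff₀ hp0]
    nlinarith
  have h5 : (1 / ((k : ℝ) + 1)) ^ q.primeFactors.card ≤
      ∏ p ∈ q.primeFactors, (1 - (ro G 0 p : ℝ) / p) := by
    rw [← prod_const]
    exact prod_le_prod (fun _ _ => by positivity) h4
  have h6 := hC q.primeFactors (fun p hp => Nat.prime_of_mem_primeFactors hp)
  have h7 : ((∏ p ∈ q.primeFactors, p : ℕ) : ℝ) ≤ q := by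
    exact_mod_cast Nat.le_of_dvd hq (Nat.prod_primeFactors_dvd q)
  have h8 : ((k : ℝ) + 1) ^ q.primeFactors.card ≤ C * (q : ℝ) ^ η := by
    have e1 : (((k + 1 : ℕ) : ℝ)) = (k : ℝ) + 1 := by push_cast; ring
    rw [e1] at h6
    refine h6.trans ?_
    apply mul_le_mul_of_nonneg_left _ (by linarith)
    exact Real.rpow_le_rpow (Nat.cast_nonneg _) h7 hη.le
  have h9 : ((k : ℝ) + 1) ^ q.primeFactors.card * (1 / ((k : ℝ) + 1)) ^ q.primeFactors.card = 1 := by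
    rw [← mul_pow, mul_one_div, div_self (by positivity), one_pow]
  calc (q : ℝ) = (((k : ℝ) + 1) ^ q.primeFactors.card * (1 / ((k : ℝ) + 1)) ^ q.primeFactors.card) * q := by
        rw [h9, one_mul]
    _ = ((k : ℝ) + 1) ^ q.primeFactors.card * (q * (1 / ((k : ℝ) + 1)) ^ q.primeFactors.card) := by
        ring
    _ ≤ (C * (q : ℝ) ^ η) * clsG G q :=
        mul_le_mul h8 ((mul_le_mul_of_nonneg_left h5 hq0.le).trans h3) (by positivity)
          (by positivity)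

open Classical in
/-- rough values in a class -/
noncomputable def RG (G : ℤ[X]) (X q t : ℕ) : ℕ :=
  (((range X).filter (fun N => (N + 1) % q = t)).filter (fun N => ∀ p : ℕ, p.Prime → p ^ 2 ≤ X →
    ¬ p ∣ (G.eval ((N + 1 : ℕ) : ℤ)).natAbs)).card

theorem PL_data (G : ℤ[X]) (k w R q : ℕ) (hk : 1 ≤ k) (hlt : ∀ p : ℕ, p.Prime → ro G 0 p < p)
    (hw : ∀ p : ℕ, p.Prime → w < p → ro G 0 p = k) (p : ℕ) (hp : p ∈ Pq G w q ∪ Lq w R q) :
    p.Prime ∧ ¬ p ∣ q ∧ (0 < gG G p ∧ gG G p < 1) ∧ (p ≤ w ∨ p ≤ R) := by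
  have key : p.Prime ∧ ¬ p ∣ q ∧ ro G 0 p ≠ 0 ∧ (p ≤ w ∨ p ≤ R) := by
    rcases mem_union.1 hp with h | h
    · obtain ⟨h1, h2, h3⟩ := Pq_prime G w q p h
      refine ⟨h1, h3, ?_, Or.inl h2⟩
      unfold Pq at h
      rw [mem_filter] at h
      exact h.2.2
    · obtain ⟨h1, h2, h3, h4⟩ := Lq_prime w R q p h
      refine ⟨h1, h4, ?_, Or.inr h3⟩
      rw [hw p h1 h2]
      omega
  refine ⟨key.1, key.2.1, ?_, key.2.2.2⟩
  have hp0 : (0 : ℝ) < p := by exact_mod_cast key.1.pos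
  unfold gG
  constructor
  · apply div_pos _ hp0
    exact_mod_cast Nat.pos_of_ne_zero key.2.2.1
  · rw [div_lt_one hp0]
    exact_mod_cast hlt p key.1

theorem RG_le (G : ℤ[X]) (k w R q X t : ℕ) (hk : 1 ≤ k) (hlt : ∀ p : ℕ, p.Prime → ro G 0 p < p)
    (hw : ∀ p : ℕ, p.Prime → w < p → ro G 0 p = k) (hR : 1 ≤ R) (hwX : w ^ 2 ≤ X)
    (hRX : R ^ 2 ≤ X) :
    (RG G X q t : ℝ) ≤ NC q X t * (1 / Sel.GG (DD G w R q) (gG G)) +
      TC (UU G (Pq G w q ∪ Lq w R q) (Sel.cf (DD G w R q) (gG G))) q X t := by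
  classical
  have hd := PL_data G k w R q hk hlt hw
  set P := Pq G w q ∪ Lq w R q with hP
  have hPp : ∀ p ∈ P, p.Prime := fun p hp => (hd p hp).1
  have hg : ∀ p ∈ P, 0 < gG G p ∧ gG G p < 1 := fun p hp => (hd p hp).2.2.1
  have hD : ∀ U ∈ DD G w R q, U ⊆ P := fun U hU => DD_sub G w R q U hU
  have h0 := DD_empty G w R q hR
  have hdc := DD_down G w R q
  have h1 := wsumC G P hPp (Sel.cf (DD G w R q) (gG G)) q X t
  have h2 : VV P (Sel.cf (DD G w R q) (gG G)) (fun p => (ro G 0 p : ℝ) / p) =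
      1 / Sel.GG (DD G w R q) (gG G) := Sel.cf_form hD hdc h0 hg
  rw [h2] at h1
  rw [← h1]
  unfold RG
  rw [card_filter]
  push_cast
  apply sum_le_sum
  intro N _
  obtain ⟨a1, a2⟩ := Sel.cf_ind hD h0 hg ((G.eval ((N + 1 : ℕ) : ℤ)).natAbs)
  unfold VV
  split_ifs with h
  · have h3 := a2 (fun p hp => h p (hPp p hp) (by
      rcases (hd p hp).2.2.2 with h4 | h4
      · exact (Nat.pow_le_pow_left h4 2).trans hwX
      · exact (Nat.pow_le_pow_left h4 2).trans hRX))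
    exact h3.ge
  · exact a1

theorem prod_union_le (S T : Finset ℕ) (h : ∀ p ∈ S ∪ T, 1 ≤ p) :
    ∏ p ∈ S ∪ T, p ≤ (∏ p ∈ S, p) * ∏ p ∈ T, p := by
  rw [← prod_union_inter]
  apply Nat.le_mul_of_pos_right
  exact prod_pos (fun p hp => h p (mem_union_left _ (mem_inter.1 hp).1))

theorem cf_prod (G : ℤ[X]) (w R q : ℕ) (T : Finset ℕ)
    (h : Sel.cf (DD G w R q) (gG G) T ≠ 0) :
    T ⊆ Pq G w q ∪ Lq w R q ∧ ∏ p ∈ T, p ≤ (∏ p ∈ Sm w, p) * R ^ 2 := by
  obtain ⟨T1, h1, T2, h2, rfl⟩ := Sel.cf_supp T h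
  refine ⟨union_subset (DD_sub G w R q _ h1) (DD_sub G w R q _ h2), ?_⟩
  obtain ⟨A1, hA1, B1, hB1, hR1, rfl⟩ := (mem_DD G w R q T1).1 h1
  obtain ⟨A2, hA2, B2, hB2, hR2, rfl⟩ := (mem_DD G w R q T2).1 h2
  have hpos1 : ∀ p ∈ Pq G w q, 1 ≤ p := fun p hp => (Pq_prime G w q p hp).1.one_le
  have hpos2 : ∀ p ∈ Lq w R q, 1 ≤ p := fun p hp => (Lq_prime w R q p hp).1.one_le
  have e1 : A1 ∪ B1 ∪ (A2 ∪ B2) = (A1 ∪ A2) ∪ (B1 ∪ B2) := by
    ext x
    simp only [mem_union]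
    tauto
  rw [e1]
  refine (prod_union_le _ _ ?_).trans ?_
  · intro p hp
    rcases mem_union.1 hp with h | h
    · rcases mem_union.1 h with h | h
      · exact hpos1 p (hA1 h)
      · exact hpos1 p (hA2 h)
    · rcases mem_union.1 h with h | h
      · exact hpos2 p (hB1 h)
      · exact hpos2 p (hB2 h)
  apply Nat.mul_le_mul
  · apply Nat.le_of_dvd
    · apply prod_pos
      intro p hp
      unfold Sm at hp
      exact (mem_filter.1 hp).2.pos
    · apply prod_dvd_prod_of_subset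
      have hs : Pq G w q ⊆ Sm w := filter_subset _ _
      exact union_subset (hA1.trans hs) (hA2.trans hs)
  · refine (prod_union_le _ _ ?_).trans ?_
    · intro p hp
      rcases mem_union.1 hp with h | h
      · exact hpos2 p (hB1 h)
      · exact hpos2 p (hB2 h)
    · rw [pow_two]
      exact Nat.mul_le_mul hR1 hR2

end Pool.Agent.H662.RC
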