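import Pool.Agent.H662.RC.TupB

/-! Selberg's sieve of dimension `k` in almost all residue classes. -/

set_option autoImplicit false

namespace Pool.Agent.H662.RC

open Filter Finset Topology Polynomial
open Pool.Agent.Y882
open Pool.Agent.Y882.PX
open Pool.Agent.Y882.SI
open Pool.Agent.H662

theorem eps_choice (k : ℕ) (c : ℝ) (hc : 0 < c) : ∃ ε : ℝ, 0 < ε ∧ ε < 1 / 2 ∧
    (1 + ε) ^ 2 / (1 - ε) ^ (k + 1) + ε ≤ 1 + c := by
  have h1 : Tendsto (fun ε : ℝ => (1 + ε) ^ 2 / (1 - ε) ^ (k + 1) + ε) (𝓝 0)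
      (𝓝 ((1 + 0) ^ 2 / (1 - 0) ^ (k + 1) + 0)) := by
    apply Tendsto.add _ tendsto_id
    apply Tendsto.div
    · exact (tendsto_const_nhds.add tendsto_id).pow 2
    · exact (tendsto_const_nhds.sub tendsto_id).pow (k + 1)
    · simp
  have h2 : ((1 + 0 : ℝ) ^ 2 / (1 - 0) ^ (k + 1) + 0) < 1 + c := by
    simp only [add_zero, sub_zero, one_pow, div_one]
    linarith
  have h3 := h1.eventually_lt_const h2
  have h4 : ∀ᶠ ε : ℝ in 𝓝[>] 0, (1 + ε) ^ 2 / (1 - ε) ^ (k + 1) + ε < 1 + c :=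
    h3.filter_mono nhdsWithin_le_nhds
  have h5 : ∀ᶠ ε : ℝ in 𝓝[>] 0, ε ∈ Set.Ioo (0 : ℝ) (1 / 2) :=
    Ioo_mem_nhdsGT (by norm_num)
  obtain ⟨ε, hε1, hε2⟩ := (h4.and h5).exists
  exact ⟨ε, hε2.1, hε2.2, hε1.le⟩

/-- the algebra of the pointwise bound -/
theorem pt_alg (K0 S ε δ cl q X Lk GGv E P : ℝ) (hK0 : 0 < K0) (hS : 0 < S) (hε : 0 < ε)
    (hε1 : ε < 1 / 2) (k : ℕ)
    (hch : (1 + ε) ^ 2 / (1 - ε) ^ (k + 1) + ε ≤ 1 + δ / K0) (hcl : 0 < cl) (hclq : cl ≤ q)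
    (hX : 0 < X) (hq : 0 < q) (hLk : 0 < Lk) (hGG : 0 < GGv) (hqX : q ≤ ε * X)
    (h1 : cl * (1 - ε) ^ (k + 1) * Lk ≤ K0 * q * P * GGv) (hP : P ≤ (1 + ε) * S)
    (hE : E * Lk ≤ ε * (S * K0)) :
    (X / q + 1) * (1 / GGv) + X / q * E ≤ (K0 + δ) * S * (X / (cl * Lk)) := by
  have h1e : 0 < 1 - ε := by linarith
  have hpe : 0 < (1 - ε) ^ (k + 1) := by positivity
  have a1 : 1 / GGv ≤ K0 * q * ((1 + ε) * S) / (cl * (1 - ε) ^ (k + 1) * Lk) := by
    rw [div_le_div_iff₀ hGG (by positivity), one_mul]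
    refine h1.trans ?_
    apply mul_le_mul_of_nonneg_right _ hGG.le
    exact mul_le_mul_of_nonneg_left hP (by positivity)
  have a2 : X / q + 1 ≤ (1 + ε) * (X / q) := by
    have : 1 ≤ ε * (X / q) := by
      rw [← mul_div_assoc, le_div_iff₀ hq, one_mul]
      exact hqX
    linarith
  have a3 : (X / q + 1) * (1 / GGv) ≤
      K0 * S * (X / (cl * Lk)) * ((1 + ε) ^ 2 / (1 - ε) ^ (k + 1)) := by
    calc (X / q + 1) * (1 / GGv) ≤ ((1 + ε) * (X / q)) *
          (K0 * q * ((1 + ε) * S) / (cl * (1 - ε) ^ (k + 1) * Lk)) :=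
          mul_le_mul a2 a1 (by positivity) (by positivity)
      _ = _ := by
          field_simp
  have a4 : X / q * E ≤ K0 * S * (X / (cl * Lk)) * ε := by
    have b1 : E ≤ ε * (S * K0) / Lk := by
      rw [le_div_iff₀ hLk]
      exact hE
    have b2 : X / q ≤ X / cl := div_le_div_of_nonneg_left hX.le hcl hclq
    calc X / q * E ≤ X / q * (ε * (S * K0) / Lk) := mul_le_mul_of_nonneg_left b1 (by positivity)
      _ ≤ X / cl * (ε * (S * K0) / Lk) := mul_le_mul_of_nonneg_right b2 (by positivity)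
      _ = _ := by
          field_simp
  calc (X / q + 1) * (1 / GGv) + X / q * E ≤
      K0 * S * (X / (cl * Lk)) * ((1 + ε) ^ 2 / (1 - ε) ^ (k + 1)) +
        K0 * S * (X / (cl * Lk)) * ε := add_le_add a3 a4
    _ = K0 * S * (X / (cl * Lk)) * ((1 + ε) ^ 2 / (1 - ε) ^ (k + 1) + ε) := by ring
    _ ≤ K0 * S * (X / (cl * Lk)) * (1 + δ / K0) :=
        mul_le_mul_of_nonneg_left hch (by positivity)
    _ = _ := by
        field_simp

/-- the sieve level -/
theorem level_R (ε η τ L x W : ℝ) (R : ℕ) (hε : 0 < ε) (hε1 : ε < 1 / 2) (hη : 0 < η)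
    (hηε : η ≤ ε / 4) (hx : 1 < x) (hW : 1 ≤ W) (hτ : τ * Real.log x = L / 2 - η * Real.log x)
    (hL : Real.log x ≤ L) (hbig : 8 * (Real.log W / 2 + 1) / ε ≤ Real.log x)
    (hR : R = ⌊√(x ^ τ / W)⌋₊) :
    1 ≤ R ∧ (R : ℝ) ^ 2 * W ≤ x ^ τ ∧ (1 - ε) / 4 * L ≤ Real.log R := by
  have hx0 : 0 < x := by linarith
  have hlx : 0 < Real.log x := Real.log_pos hx
  have hlW : 0 ≤ Real.log W := Real.log_nonneg hW
  have hW0 : 0 < W := by linarith
  have hy0 : 0 < x ^ τ / W := by positivity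
  have hsy : 0 < √(x ^ τ / W) := Real.sqrt_pos.2 hy0
  have hlog : Real.log √(x ^ τ / W) = (τ * Real.log x - Real.log W) / 2 := by
    rw [Real.log_sqrt hy0.le, Real.log_div (by positivity) hW0.ne', Real.log_rpow hx0]
  have hb : 8 * (Real.log W / 2 + 1) ≤ Real.log x * ε := by
    rwa [div_le_iff₀ hε] at hbig
  have key : (1 - ε) / 4 * L + 1 ≤ Real.log √(x ^ τ / W) := by
    rw [hlog, hτ]
    have e1 : η * Real.log x ≤ ε / 4 * L :=
      mul_le_mul hηε hL hlx.le (by positivity)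
    nlinarith
  have hpos : 0 < (1 - ε) / 4 * L := by
    have : 0 < L := by linarith
    have h1 : 0 < 1 - ε := by linarith
    positivity
  have hy2 : 2 ≤ √(x ^ τ / W) := by
    rw [← Real.log_le_log_iff (by norm_num) hsy]
    have := Real.log_two_lt_d9
    linarith
  have hfl := Nat.lt_floor_add_one (√(x ^ τ / W))
  rw [← hR] at hfl
  have hRge : √(x ^ τ / W) / 2 ≤ R := by linarith
  have hR1 : (1 : ℝ) ≤ R := by linarith
  have hRle : (R : ℝ) ≤ √(x ^ τ / W) := by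
    rw [hR]
    exact Nat.floor_le hsy.le
  refine ⟨by exact_mod_cast hR1, ?_, ?_⟩
  · have h1 : (R : ℝ) ^ 2 ≤ x ^ τ / W := by
      calc (R : ℝ) ^ 2 ≤ √(x ^ τ / W) ^ 2 := pow_le_pow_left₀ (by linarith) hRle 2
        _ = _ := Real.sq_sqrt hy0.le
    rwa [le_div_iff₀ hW0] at h1
  · have h1 := Real.log_le_log (by positivity) hRge
    rw [Real.log_div hsy.ne' (by norm_num)] at h1
    have := Real.log_two_lt_d9
    linarith

open Classical in
/-- **few classes with many rough values** -/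
theorem tup_cls (G : ℤ[X]) (k w0 : ℕ) (hk : 1 ≤ k) (hle : ∀ p : ℕ, p.Prime → ro G 0 p ≤ k)
    (hlt : ∀ p : ℕ, p.Prime → ro G 0 p < p) (hw0 : ∀ p : ℕ, p.Prime → w0 < p → ro G 0 p = k)
    (S : ℝ) (hS : 0 < S)
    (hprod : Tendsto (fun N : ℕ => ∏ p ∈ Sm N, (1 - gG G p) / (1 - 1 / (p : ℝ)) ^ k) atTop (𝓝 S))
    (θ δ : ℝ) (hθ1 : θ < 1) (hδ : 0 < δ) :
    ∃ κ : ℝ, 0 < κ ∧ ∀ᶠ X : ℕ in atTop, ∀ q : ℕ, 0 < q → (q : ℝ) ≤ (X : ℝ) ^ θ →
      (((range q).filter (fun t : ℕ => ((k.factorial : ℝ) * 4 ^ k + δ) * S *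
        ((X : ℝ) / (clsG G q * (Real.log ((X : ℝ) ^ 2 / q)) ^ k)) < RG G X q t)).card : ℝ) ≤
      clsG G q * (X : ℝ) ^ (-κ) := by
  set K0 : ℝ := (k.factorial : ℝ) * 4 ^ k with hK0d
  have hK0 : 0 < K0 := by positivity
  obtain ⟨ε, hε, hε1, hch⟩ := eps_choice k (δ / K0) (by positivity)
  have evw : ∀ᶠ N : ℕ in atTop, ∏ p ∈ Sm N, (1 - gG G p) / (1 - 1 / (p : ℝ)) ^ k < (1 + ε) * S :=
    hprod.eventually_lt_const (by nlinarith)
  obtain ⟨w, hwP, hww0⟩ := (evw.and (eventually_ge_atTop w0)).exists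
  have hw : ∀ p : ℕ, p.Prime → w < p → ro G 0 p = k := fun p hp h => hw0 p hp (by omega)
  have hSmp : ∀ p ∈ Sm w, p.Prime := fun p hp => by
    unfold Sm at hp
    exact (mem_filter.1 hp).2
  obtain ⟨R0, hR0⟩ := Hf_asym (Sm w) hSmp k ε hε (by linarith)
  set W : ℕ := ∏ p ∈ Sm w, p with hW
  have hW1 : 1 ≤ W := prod_pos (fun p hp => (hSmp p hp).pos)
  have hW1r : (1 : ℝ) ≤ W := by exact_mod_cast hW1
  set η : ℝ := min (ε / 4) ((1 - θ) / 2) with hη
  have hη0 : 0 < η := lt_min (by linarith) (by linarith)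
  have hηε : η ≤ ε / 4 := min_le_left _ _
  have hηθ : η ≤ (1 - θ) / 2 := min_le_right _ _
  obtain ⟨Y1, HF⟩ := few_errU k η hη0
  obtain ⟨C1, hC1, HC1⟩ := clsG_big k (η / 2) (by linarith)
  obtain ⟨C4, hC4, HC4⟩ := pow_card_le 4 (η / 128) (by linarith)
  refine ⟨η / 2, by linarith, ?_⟩
  have hlog : Tendsto (fun N : ℕ => Real.log N) atTop atTop :=
    Real.tendsto_log_atTop.comp tendsto_natCast_atTop_atTop
  have hpw : ∀ s : ℝ, 0 < s → Tendsto (fun N : ℕ => (N : ℝ) ^ s) atTop atTop := fun s hs =>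
    (tendsto_rpow_atTop hs).comp tendsto_natCast_atTop_atTop
  have ev1 : ∀ᶠ X : ℕ in atTop, 8 * (Real.log W / 2 + 1) / ε ≤ Real.log X :=
    hlog.eventually_ge_atTop _
  have ev2 : ∀ᶠ X : ℕ in atTop, 8 * Real.log ((R0 : ℝ) + 1) ≤ Real.log X :=
    hlog.eventually_ge_atTop _
  have ev3 : ∀ᶠ X : ℕ in atTop, 2 * C1 ≤ (X : ℝ) ^ (η / 2) :=
    (hpw _ (by linarith)).eventually_ge_atTop _
  have ev4 : ∀ᶠ X : ℕ in atTop, C4 ≤ (X : ℝ) ^ (η / 128) :=
    (hpw _ (by linarith)).eventually_ge_atTop _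
  have ev5 : ∀ᶠ X : ℕ in atTop, 1 / ε ≤ (X : ℝ) ^ (1 - θ) :=
    (hpw _ (by linarith)).eventually_ge_atTop _
  have ev6 : ∀ᶠ X : ℕ in atTop, (2 * Real.log X) ^ k ≤ ε * (S * K0) * (X : ℝ) ^ (η / 16) := by
    have h1 : Tendsto (fun x : ℝ => Real.log x ^ (k : ℝ) / x ^ (η / 16)) atTop (nhds 0) := by
      have := isLittleO_log_rpow_rpow_atTop (k : ℝ) (show 0 < η / 16 by linarith)
      exact this.tendsto_div_nhds_zero
    have h2 := h1.eventually_le_const (show (0 : ℝ) < ε * (S * K0) / 2 ^ k by positivity)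
    have h3 := tendsto_natCast_atTop_atTop.eventually (h2.and (eventually_gt_atTop (0 : ℝ)))
    filter_upwards [h3] with X hX
    obtain ⟨h4, h5⟩ := hX
    have h6 : (0 : ℝ) < (X : ℝ) ^ (η / 16) := by positivity
    rw [div_le_div_iff₀ h6 (by positivity), Real.rpow_natCast] at h4
    rw [mul_pow]
    linarith
  filter_upwards [ev1, ev2, ev3, ev4, ev5, ev6, eventually_ge_atTop Y1, eventually_ge_atTop 3,
    eventually_ge_atTop (w ^ 2)] with X e1 e2 e3 e4 e5 e6 e7 e8 e9 q hq hqX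
  set x : ℝ := (X : ℝ) with hx
  have hx3 : (3 : ℝ) ≤ x := by rw [hx]; exact_mod_cast e8
  have hx0 : 0 < x := by linarith
  have hx1 : 1 < x := by linarith
  have hlx1 : 1 ≤ Real.log x := by
    rw [Real.le_log_iff_exp_le hx0]
    linarith [Real.exp_one_lt_d9]
  have hq0 : (0 : ℝ) < q := by exact_mod_cast hq
  have hq1 : (1 : ℝ) ≤ q := by exact_mod_cast hq
  -- the exponent of `q`
  set u : ℝ := Real.logb x q with hu
  have hxu : x ^ u = q := Real.rpow_logb hx0 hx1.ne' hq0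
  have hu0 : 0 ≤ u := Real.logb_nonneg hx1 hq1
  have huθ : u ≤ θ := by
    rw [← hxu] at hqX
    exact (Real.rpow_le_rpow_left_iff hx1).1 hqX
  have hlq : Real.log q = u * Real.log x := by rw [← hxu, Real.log_rpow hx0]
  set L : ℝ := Real.log (x ^ 2 / q) with hL
  have hLe : L = 2 * Real.log x - u * Real.log x := by
    rw [hL, Real.log_div (by positivity) hq0.ne', Real.log_pow, hlq]
    push_cast
    ring
  have hLx : Real.log x ≤ L := by
    rw [hLe]
    nlinarith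
  have hL0 : 0 < L := by linarith
  have hL2 : L ≤ 2 * Real.log x := by
    rw [hLe]
    nlinarith
  set τ : ℝ := 1 - u / 2 - η with hτ
  have hτ0 : 0 < τ := by
    rw [hτ]
    linarith
  have hτ1 : τ ≤ 1 := by
    rw [hτ]
    linarith
  have hτL : τ * Real.log x = L / 2 - η * Real.log x := by
    rw [hLe, hτ]
    ring
  obtain ⟨R, hRd⟩ : ∃ R : ℕ, R = ⌊√(x ^ τ / W)⌋₊ := ⟨_, rfl⟩
  obtain ⟨hR1, hRW, hRL⟩ := level_R ε η τ L x W R hε hε1 hη0 hηε hx1 hW1r hτL hLx e1 hRd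
  have hxτ : x ^ τ ≤ x := by
    calc x ^ τ ≤ x ^ (1 : ℝ) := Real.rpow_le_rpow_of_exponent_le hx1.le hτ1
      _ = x := Real.rpow_one _
  have hRX : R ^ 2 ≤ X := by
    have : (R : ℝ) ^ 2 ≤ x := by
      have h0 : (0 : ℝ) ≤ (R : ℝ) ^ 2 := by positivity
      nlinarith
    rw [hx] at this
    exact_mod_cast this
  have hR0R : R0 ≤ R := by
    have h1 : Real.log ((R0 : ℝ) + 1) ≤ Real.log R := by
      have h2 : 1 / 8 * L ≤ (1 - ε) / 4 * L := mul_le_mul_of_nonneg_right (by linarith) hL0.le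
      linarith
    have hR1r : (0 : ℝ) < R := by exact_mod_cast hR1
    have h3 := (Real.log_le_log_iff (by positivity) hR1r).1 h1
    have h4 : (R0 : ℝ) ≤ R := by linarith
    exact_mod_cast h4
  -- the weights
  have hd := PL_data G k w R q hk hlt hw
  have hg : ∀ p ∈ Pq G w q ∪ Lq w R q, 0 < gG G p ∧ gG G p < 1 := fun p hp => (hd p hp).2.2.1
  have hDs : ∀ U ∈ DD G w R q, U ⊆ Pq G w q ∪ Lq w R q := fun U hU => DD_sub G w R q U hU
  have hemp := DD_empty G w R q hR1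
  have hdc := DD_down G w R q
  have hGG : 0 < Sel.GG (DD G w R q) (gG G) := Sel.GG_pos' hDs hemp hg
  have hsupp : ∀ T : Finset ℕ, Sel.cf (DD G w R q) (gG G) T ≠ 0 →
      ((∏ p ∈ T, p : ℕ) : ℝ) ≤ x ^ τ := by
    intro T hT
    have h1 := (cf_prod G w R q T hT).2
    have h2 : ((∏ p ∈ T, p : ℕ) : ℝ) ≤ (W : ℝ) * (R : ℝ) ^ 2 := by exact_mod_cast h1
    linarith
  have hcf : ∀ T : Finset ℕ, |Sel.cf (DD G w R q) (gG G) T| ≤ (X : ℝ) ^ (η / 64) := by
    intro T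
    by_cases hT : Sel.cf (DD G w R q) (gG G) T = 0
    · rw [hT, abs_zero]
      positivity
    · have h1 := hsupp T hT
      have h2 := Sel.cf_le hDs hdc hemp hg T
      have h3 := HC4 T (fun p hp => (hd p ((cf_prod G w R q T hT).1 hp)).1)
      have h4 : ((∏ p ∈ T, p : ℕ) : ℝ) ^ (η / 128) ≤ x ^ (η / 128) :=
        Real.rpow_le_rpow (Nat.cast_nonneg _) (h1.trans hxτ) (by linarith)
      calc |Sel.cf (DD G w R q) (gG G) T| ≤ 4 ^ T.card := h2
        _ ≤ C4 * ((∏ p ∈ T, p : ℕ) : ℝ) ^ (η / 128) := by exact_mod_cast h3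
        _ ≤ x ^ (η / 128) * x ^ (η / 128) := mul_le_mul e4 h4 (by positivity) (by positivity)
        _ = x ^ (η / 64) := by
            rw [← Real.rpow_add hx0]
            congr 1
            ring
  have hqXn : q ≤ X := by
    have h1 : (q : ℝ) ≤ x := by
      calc (q : ℝ) ≤ x ^ θ := hqX
        _ ≤ x ^ (1 : ℝ) := Real.rpow_le_rpow_of_exponent_le hx1.le hθ1.le
        _ = x := Real.rpow_one _
    rw [hx] at h1
    exact_mod_cast h1
  have hfew := HF X e7 τ hτ0 hτ1 G (Pq G w q ∪ Lq w R q) (Sel.cf (DD G w R q) (gG G)) X q (x / q)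
    (fun p hp => (hd p hp).1) (fun p hp => hle p (hd p hp).1) (fun p hp => (hd p hp).2.1) hcf
    (fun T _ hT => hsupp T hT) hq hqXn (by positivity)
  -- the classes
  have hbig := HC1 G q hle hlt hq
  have hcl0 : (0 : ℝ) < clsG G q := by
    by_contra h
    have h1 : (clsG G q : ℝ) = 0 := le_antisymm (not_lt.1 h) (Nat.cast_nonneg _)
    rw [h1, mul_zero] at hbig
    linarith
  have hclq : (clsG G q : ℝ) ≤ q := by exact_mod_cast clsG_le G q
  -- the pointwise bound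
  have hVs := Sel.Vs_bd (Sm w) hSmp
  have hmain := main_term G k w R q hlt hw hq
  have hHf := hR0 R hR0R
  have hsub : (range q).filter (fun t : ℕ => (K0 + δ) * S *
        (x / (clsG G q * L ^ k)) < RG G X q t) ⊆
      (range q).filter (fun a => x / q * (X : ℝ) ^ (-(η / 16)) <
        |TC (UU G (Pq G w q ∪ Lq w R q) (Sel.cf (DD G w R q) (gG G))) q X a|) := by
    intro t ht
    rw [mem_filter] at ht ⊢
    refine ⟨ht.1, ?_⟩
    by_contra hcon
    rw [not_lt] at hcon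
    have h1 := RG_le G k w R q X t hk hlt hw hR1 e9 hRX
    have h2 : (NC q X t : ℝ) * (1 / Sel.GG (DD G w R q) (gG G)) ≤
        (x / q + 1) * (1 / Sel.GG (DD G w R q) (gG G)) :=
      mul_le_mul_of_nonneg_right (NC_le q X t hq) (by positivity)
    have h3 := (le_abs_self (TC (UU G (Pq G w q ∪ Lq w R q)
      (Sel.cf (DD G w R q) (gG G))) q X t)).trans hcon
    have h4 : (RG G X q t : ℝ) ≤ (x / q + 1) * (1 / Sel.GG (DD G w R q) (gG G)) +
        x / q * x ^ (-(η / 16)) := by linarith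
    have h5 : (clsG G q : ℝ) * (1 - ε) ^ (k + 1) * L ^ k ≤
        K0 * q * (∏ p ∈ Sm w, (1 - gG G p) / (1 - 1 / (p : ℝ)) ^ k) *
          Sel.GG (DD G w R q) (gG G) := by
      have hVk : 0 < Sel.Vs (Sm w) ^ k := pow_pos hVs.1 k
      have hPw : (∏ p ∈ Sm w, (1 - gG G p) / (1 - 1 / (p : ℝ)) ^ k) * Sel.Vs (Sm w) ^ k =
          ∏ p ∈ Sm w, (1 - gG G p) := by
        rw [prod_div_distrib, prod_pow]
        unfold Sel.Vs
        apply div_mul_cancel₀
        unfold Sel.Vs at hVk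
        exact hVk.ne'
      have hRLk : ((1 - ε) / 4 * L) ^ k ≤ Real.log R ^ k := by
        apply pow_le_pow_left₀ _ hRL
        have : 0 < 1 - ε := by linarith
        positivity
      have g1 : (clsG G q : ℝ) * ((1 - ε) * (Sel.Vs (Sm w) * Real.log R) ^ k) ≤
          (k.factorial : ℝ) * (q * (∏ p ∈ Sm w, (1 - gG G p)) * Sel.GG (DD G w R q) (gG G)) := by
        calc (clsG G q : ℝ) * ((1 - ε) * (Sel.Vs (Sm w) * Real.log R) ^ k) ≤
            clsG G q * ((k.factorial : ℝ) * Sel.Hf k (Sm w) R) :=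
              mul_le_mul_of_nonneg_left hHf hcl0.le
          _ = (k.factorial : ℝ) * (clsG G q * Sel.Hf k (Sm w) R) := by ring
          _ ≤ _ := mul_le_mul_of_nonneg_left hmain (by positivity)
      rw [← hPw] at g1
      have g2 : ((clsG G q : ℝ) * ((1 - ε) * Real.log R ^ k)) * Sel.Vs (Sm w) ^ k ≤
          ((k.factorial : ℝ) * (q * (∏ p ∈ Sm w, (1 - gG G p) / (1 - 1 / (p : ℝ)) ^ k) *
            Sel.GG (DD G w R q) (gG G))) * Sel.Vs (Sm w) ^ k := by
        calc ((clsG G q : ℝ) * ((1 - ε) * Real.log R ^ k)) * Sel.Vs (Sm w) ^ k =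
            (clsG G q : ℝ) * ((1 - ε) * (Sel.Vs (Sm w) * Real.log R) ^ k) := by
              rw [mul_pow]
              ring
          _ ≤ _ := g1
          _ = _ := by ring
      have g3 := le_of_mul_le_mul_right g2 hVk
      have g4 : (clsG G q : ℝ) * ((1 - ε) * ((1 - ε) / 4 * L) ^ k) ≤
          (clsG G q : ℝ) * ((1 - ε) * Real.log R ^ k) := by
        apply mul_le_mul_of_nonneg_left _ hcl0.le
        exact mul_le_mul_of_nonneg_left hRLk (by linarith)
      have g5 := mul_le_mul_of_nonneg_right (g4.trans g3) (show (0 : ℝ) ≤ 4 ^ k by positivity)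
      calc (clsG G q : ℝ) * (1 - ε) ^ (k + 1) * L ^ k =
          (clsG G q : ℝ) * ((1 - ε) * ((1 - ε) / 4 * L) ^ k) * 4 ^ k := by
            rw [mul_pow, div_pow]
            field_simp
            ring
        _ ≤ _ := g5
        _ = _ := by
            rw [hK0d]
            ring
    have h6 : x ^ (-(η / 16)) * L ^ k ≤ ε * (S * K0) := by
      have g1 : L ^ k ≤ (2 * Real.log x) ^ k := pow_le_pow_left₀ hL0.le hL2 k
      have g2 : x ^ (-(η / 16)) * x ^ (η / 16) = 1 := by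
        rw [← Real.rpow_add hx0, neg_add_cancel, Real.rpow_zero]
      calc x ^ (-(η / 16)) * L ^ k ≤ x ^ (-(η / 16)) * (ε * (S * K0) * x ^ (η / 16)) :=
            mul_le_mul_of_nonneg_left (g1.trans e6) (by positivity)
        _ = ε * (S * K0) * (x ^ (-(η / 16)) * x ^ (η / 16)) := by ring
        _ = _ := by rw [g2, mul_one]
    have h7 : (q : ℝ) ≤ ε * x := by
      have g1 : x ^ θ * x ^ (1 - θ) = x := by
        rw [← Real.rpow_add hx0, add_sub_cancel, Real.rpow_one]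
      have g2 : x ^ θ * (1 / ε) ≤ x := by
        calc x ^ θ * (1 / ε) ≤ x ^ θ * x ^ (1 - θ) := mul_le_mul_of_nonneg_left e5 (by positivity)
          _ = x := g1
      rw [mul_one_div, div_le_iff₀ hε] at g2
      linarith
    have h8 := pt_alg K0 S ε δ (clsG G q) q x (L ^ k) (Sel.GG (DD G w R q) (gG G))
      (x ^ (-(η / 16))) (∏ p ∈ Sm w, (1 - gG G p) / (1 - 1 / (p : ℝ)) ^ k) hK0 hS hε hε1 k hch
      hcl0 hclq hx0 hq0 (by positivity) hGG h7 h5 hwP.le h6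
    exact absurd ht.2 (not_lt.2 (h4.trans h8))
  have hcard : (((range q).filter (fun t : ℕ => (K0 + δ) * S *
        (x / (clsG G q * L ^ k)) < RG G X q t)).card : ℝ) ≤
      (x + x ^ (2 * τ)) / (x / q) ^ 2 * x ^ (η / 2) :=
    le_trans (by exact_mod_cast card_le_card hsub) hfew
  refine hcard.trans ?_
  -- the final estimate
  have hx2τ : x ^ (2 * τ) = x ^ 2 * x ^ (-(2 * η)) / q := by
    rw [← hxu, ← Real.rpow_natCast x 2, ← Real.rpow_add hx0, ← Real.rpow_sub hx0]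
    congr 1
    rw [hτ]
    push_cast
    ring
  have hqx : (q : ℝ) ≤ x * x ^ (-(2 * η)) := by
    calc (q : ℝ) ≤ x ^ θ := hqX
      _ ≤ x ^ (1 + -(2 * η)) := Real.rpow_le_rpow_of_exponent_le hx1.le (by linarith)
      _ = _ := by rw [Real.rpow_add hx0, Real.rpow_one]
  have hqη : (q : ℝ) ^ (η / 2) ≤ x ^ (η / 2) := by
    apply Real.rpow_le_rpow hq0.le _ (by linarith)
    rw [hx]
    exact_mod_cast hqXn
  have k1 : (x + x ^ (2 * τ)) / (x / q) ^ 2 ≤ 2 * q * x ^ (-(2 * η)) := by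
    rw [hx2τ, div_le_iff₀ (by positivity)]
    have k2 : 2 * q * x ^ (-(2 * η)) * (x / q) ^ 2 = (x * x ^ (-(2 * η))) * x / q +
        x ^ 2 * x ^ (-(2 * η)) / q := by
      field_simp
      ring
    rw [k2]
    have k3 : x ≤ (x * x ^ (-(2 * η))) * x / q := by
      rw [le_div_iff₀ hq0]
      nlinarith
    linarith
  calc (x + x ^ (2 * τ)) / (x / q) ^ 2 * x ^ (η / 2) ≤ 2 * q * x ^ (-(2 * η)) * x ^ (η / 2) :=
        mul_le_mul_of_nonneg_right k1 (by positivity)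
    _ ≤ 2 * (C1 * (q : ℝ) ^ (η / 2) * clsG G q) * x ^ (-(2 * η)) * x ^ (η / 2) := by
        gcongr
    _ ≤ 2 * (C1 * x ^ (η / 2) * clsG G q) * x ^ (-(2 * η)) * x ^ (η / 2) := by
        gcongr
    _ = (2 * C1) * (clsG G q * (x ^ (η / 2) * x ^ (-(2 * η)) * x ^ (η / 2))) := by ring
    _ ≤ x ^ (η / 2) * (clsG G q * (x ^ (η / 2) * x ^ (-(2 * η)) * x ^ (η / 2))) :=
        mul_le_mul_of_nonneg_right e3 (by positivity)
    _ = clsG G q * x ^ (-(η / 2)) := by
        have k4 : x ^ (η / 2) * (x ^ (η / 2) * x ^ (-(2 * η)) * x ^ (η / 2)) = x ^ (-(η / 2)) := by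
          rw [← Real.rpow_add hx0, ← Real.rpow_add hx0, ← Real.rpow_add hx0]
          congr 1
          ring
        rw [← k4]
        ring

end Pool.Agent.H662.RC
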