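import Pool.Agent.H662.RC.TupC

/-! Prime tuples in almost all residue classes. -/

set_option autoImplicit false

namespace Pool.Agent.H662.RC

open Filter Finset Topology Polynomial
open Pool.Agent.Y882
open Pool.Agent.Y882.PX
open Pool.Agent.Y882.SI
open Pool.Agent.H662

theorem log_two_term (x : ℝ) (hx : |x| ≤ 1 / 2) : |x + Real.log (1 - x)| ≤ 2 * x ^ 2 := by
  have h1 := Real.abs_log_sub_add_sum_range_le (show |x| < 1 by linarith) 1
  simp only [sum_range_one] at h1
  norm_num at h1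
  have h2 : x ^ 2 / (1 - |x|) ≤ 2 * x ^ 2 := by
    rw [div_le_iff₀ (by linarith)]
    nlinarith [sq_nonneg x, abs_nonneg x]
  exact h1.trans h2

theorem prodK_conv (G : ℤ[X]) (k w0 : ℕ) (hlt : ∀ p : ℕ, p.Prime → ro G 0 p < p)
    (hw0 : ∀ p : ℕ, p.Prime → w0 < p → ro G 0 p = k) : ∃ S : ℝ, 0 < S ∧
    Tendsto (fun N : ℕ => ∏ p ∈ Sm N, (1 - gG G p) / (1 - 1 / (p : ℝ)) ^ k) atTop (𝓝 S) := by
  classical
  set f : ℕ → ℝ := fun p => (1 - gG G p) / (1 - 1 / (p : ℝ)) ^ k with hf
  have hf0 : ∀ p : ℕ, p.Prime → 0 < f p := by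
    intro p hp
    have h2 : (2 : ℝ) ≤ p := by exact_mod_cast hp.two_le
    have h3 : (ro G 0 p : ℝ) < p := by exact_mod_cast hlt p hp
    have h4 : 0 < 1 - gG G p := by
      unfold gG
      rw [sub_pos, div_lt_one (by linarith)]
      exact h3
    have h5 : 0 < 1 - 1 / (p : ℝ) := by
      rw [sub_pos, div_lt_one (by linarith)]
      linarith
    rw [hf]
    positivity
  set e : ℕ → ℝ := fun n => if n.Prime then Real.log (f n) else 0 with he
  have hes : Summable e := by
    have h0 : Summable (fun n : ℕ => (2 * (k : ℝ) ^ 2 + 2 * k) / (n : ℝ) ^ 2) := by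
      have := (Real.summable_one_div_nat_pow (p := 2)).2 (by norm_num)
      exact (this.mul_left (2 * (k : ℝ) ^ 2 + 2 * k)).congr (fun n => by ring)
    refine Summable.of_norm_bounded_eventually_nat h0 ?_
    filter_upwards [eventually_ge_atTop (2 * k + w0 + 4)] with n hn
    rw [he]
    simp only
    split_ifs with hp
    · have hnr : (2 : ℝ) * k + w0 + 4 ≤ n := by exact_mod_cast hn
      have hK0 : (0 : ℝ) ≤ k := Nat.cast_nonneg _
      have hw00 : (0 : ℝ) ≤ w0 := Nat.cast_nonneg _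
      have hn0 : (0 : ℝ) < n := by linarith
      have hro : ro G 0 n = k := hw0 n hp (by omega)
      have e1 : |(k : ℝ) / n| ≤ 1 / 2 := by
        rw [abs_of_nonneg (by positivity), div_le_div_iff₀ hn0 (by norm_num)]
        linarith
      have e2 : |(1 : ℝ) / n| ≤ 1 / 2 := by
        rw [abs_of_nonneg (by positivity), div_le_div_iff₀ hn0 (by norm_num)]
        linarith
      have a1 := log_two_term _ e1
      have a2 := log_two_term _ e2
      have p1 : 0 < 1 - (k : ℝ) / n := by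
        have := (abs_le.1 e1).2
        linarith
      have p2 : 0 < 1 - (1 : ℝ) / n := by
        have := (abs_le.1 e2).2
        linarith
      have h6 : Real.log (f n) = ((k : ℝ) / n + Real.log (1 - (k : ℝ) / n)) -
          k * (1 / n + Real.log (1 - 1 / n)) := by
        rw [hf]
        simp only
        unfold gG
        rw [hro, Real.log_div p1.ne' (by positivity), Real.log_pow]
        ring
      rw [Real.norm_eq_abs, h6]
      refine (abs_sub _ _).trans ?_
      rw [abs_mul, abs_of_nonneg hK0]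
      have h7 : (2 * (k : ℝ) ^ 2 + 2 * k) / (n : ℝ) ^ 2 = 2 * ((k : ℝ) / n) ^ 2 +
          k * (2 * (1 / (n : ℝ)) ^ 2) := by
        field_simp
      rw [h7]
      exact add_le_add a1 (mul_le_mul_of_nonneg_left a2 hK0)
    · rw [norm_zero]
      positivity
  have he2 := hes.hasSum.tendsto_sum_nat
  refine ⟨Real.exp (∑' n, e n), Real.exp_pos _, ?_⟩
  have h5 := ((Real.continuous_exp.tendsto _).comp he2).comp (tendsto_add_atTop_nat 1)
  refine h5.congr (fun N => ?_)
  simp only [Function.comp]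
  rw [he, ← sum_filter, Real.exp_sum]
  unfold Sm
  apply prod_congr rfl
  intro p hp
  exact Real.exp_log (hf0 p (mem_filter.1 hp).2)

/-- the polynomial of the tuple -/
noncomputable def GT {k : ℕ} (a : Fin k → ℤ) : ℤ[X] := ∏ i, (X + C (a i))

theorem GT_eval {k : ℕ} (a : Fin k → ℤ) (n : ℤ) : (GT a).eval n = ∏ i, (n + a i) := by
  unfold GT
  rw [eval_prod]
  simp

theorem ro_GT {k : ℕ} (a : Fin k → ℤ) (p : ℕ) (hp : p.Prime) :
    ro (GT a) 0 p = (univ.image fun i => a i % (p : ℤ)).card := by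
  classical
  have hp0 : (0 : ℤ) < p := by exact_mod_cast hp.pos
  have hpi : Prime (p : ℤ) := Nat.prime_iff_prime_int.1 hp
  have hdv : ∀ n : ℤ, (p : ℤ) ∣ (GT a).eval n + 0 ↔ ∃ i, (p : ℤ) ∣ n + a i := by
    intro n
    rw [add_zero, GT_eval, hpi.dvd_finsetProd_iff]
    simp
  rw [ro_eq]
  apply card_nbij' (fun n : ℕ => (-(n : ℤ)) % (p : ℤ)) (fun z : ℤ => ((-z) % (p : ℤ)).toNat)
  · intro n hn
    rw [mem_coe, mem_filter, hdv] at hn
    obtain ⟨i, hi⟩ := hn.2
    rw [mem_coe, mem_image]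
    refine ⟨i, mem_univ i, ?_⟩
    apply Int.ModEq.eq
    rw [Int.modEq_iff_dvd]
    have : -(n : ℤ) - a i = -((n : ℤ) + a i) := by ring
    rw [this, dvd_neg]
    exact hi
  · intro z hz
    rw [mem_coe, mem_image] at hz
    obtain ⟨i, -, rfl⟩ := hz
    rw [mem_coe, mem_filter, hdv]
    have h1 : 0 ≤ (-(a i % (p : ℤ))) % (p : ℤ) := Int.emod_nonneg _ hp0.ne'
    have h2 : (-(a i % (p : ℤ))) % (p : ℤ) < p := Int.emod_lt_of_pos _ hp0
    refine ⟨?_, i, ?_⟩
    · rw [mem_range]
      show ((-(a i % (p : ℤ))) % (p : ℤ)).toNat < p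
      omega
    · show (p : ℤ) ∣ (((-(a i % (p : ℤ))) % (p : ℤ)).toNat : ℤ) + a i
      rw [Int.toNat_of_nonneg h1]
      have h3 : (-(a i % (p : ℤ))) % (p : ℤ) ≡ -(a i) [ZMOD p] :=
        (Int.mod_modEq _ _).trans (Int.mod_modEq _ _).neg
      have h4 := (h3.add_right (a i))
      rw [neg_add_cancel] at h4
      exact (Int.modEq_zero_iff_dvd).1 h4
  · intro n hn
    rw [mem_coe, mem_filter, mem_range] at hn
    have h3 : (-((-(n : ℤ)) % (p : ℤ))) ≡ n [ZMOD p] := by
      have := (Int.mod_modEq (-(n : ℤ)) p).neg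
      rwa [neg_neg] at this
    have h4 : (-((-(n : ℤ)) % (p : ℤ))) % (p : ℤ) = n := by
      rw [h3.eq]
      exact Int.emod_eq_of_lt (by positivity) (by exact_mod_cast hn.1)
    simp only
    rw [h4, Int.toNat_natCast]
  · intro z hz
    rw [mem_coe, mem_image] at hz
    obtain ⟨i, -, rfl⟩ := hz
    have h1 : 0 ≤ (-(a i % (p : ℤ))) % (p : ℤ) := Int.emod_nonneg _ hp0.ne'
    simp only
    rw [Int.toNat_of_nonneg h1]
    have h3 : (-((-(a i % (p : ℤ))) % (p : ℤ))) ≡ a i [ZMOD p] := by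
      have h5 : (-(a i % (p : ℤ))) % (p : ℤ) ≡ -(a i) [ZMOD p] :=
        (Int.mod_modEq _ _).trans (Int.mod_modEq _ _).neg
      have := h5.neg
      rwa [neg_neg] at this
    exact h3.eq

theorem ro_GT_le {k : ℕ} (a : Fin k → ℤ) (p : ℕ) (hp : p.Prime) : ro (GT a) 0 p ≤ k := by
  rw [ro_GT a p hp]
  refine card_image_le.trans ?_
  simp

theorem ro_GT_eq {k : ℕ} (a : Fin k → ℤ) (ha : Function.Injective a) (p : ℕ) (hp : p.Prime)
    (hw : ∑ i, ∑ j, (a i - a j).natAbs < p) : ro (GT a) 0 p = k := by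
  rw [ro_GT a p hp, card_image_of_injective]
  · simp
  · intro i j hij
    simp only at hij
    apply ha
    have h1 : (p : ℤ) ∣ a i - a j := (Int.ModEq.symm hij).dvd
    have h2 : (a i - a j).natAbs ≤ ∑ i, ∑ j, (a i - a j).natAbs := by
      calc (a i - a j).natAbs ≤ ∑ j, (a i - a j).natAbs :=
            single_le_sum (f := fun j => (a i - a j).natAbs) (fun _ _ => Nat.zero_le _) (mem_univ j)
        _ ≤ _ := single_le_sum (f := fun i => ∑ j, (a i - a j).natAbs) (fun _ _ => Nat.zero_le _)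
            (mem_univ i)
    have h3 : (a i - a j).natAbs = 0 := by
      apply Nat.eq_zero_of_dvd_of_lt _ (lt_of_le_of_lt h2 hw)
      exact Int.natCast_dvd.1 h1
    have h4 := Int.natAbs_eq_zero.1 h3
    linarith

end Pool.Agent.H662.RC
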