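import Pool.Agent.H662.RC.TupD

/-! Prime tuples in almost all residue classes: the theorem. -/

set_option autoImplicit false

namespace Pool.Agent.H662.RC

open Filter Finset Topology Polynomial
open Pool.Agent.Y882
open Pool.Agent.Y882.PX
open Pool.Agent.Y882.SI
open Pool.Agent.H662

/-- the number of the `n ≤ X`, `n ≡ t mod q`, with all `n + a i` prime -/
def tupC {k : ℕ} (a : Fin k → ℤ) (X q t : ℕ) : ℕ :=
  ((Icc 1 X).filter (fun n : ℕ => n ≡ t [MOD q] ∧ ∀ i, ((n : ℤ) + a i).toNat.Prime)).card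

theorem tupC_eq {k : ℕ} (a : Fin k → ℤ) (X q t : ℕ) (ht : t < q) : tupC a X q t =
    ((range X).filter (fun N : ℕ =>
      (N + 1) % q = t ∧ ∀ i, (((N + 1 : ℕ) : ℤ) + a i).toNat.Prime)).card := by
  unfold tupC
  symm
  apply card_bij' (i := fun (N : ℕ) _ => N + 1) (j := fun (n : ℕ) _ => n - 1)
  · intro N hN
    rw [mem_filter, mem_range] at hN
    rw [mem_filter, mem_Icc]
    refine ⟨⟨by omega, by omega⟩, ?_, hN.2.2⟩
    unfold Nat.ModEq
    rw [hN.2.1, Nat.mod_eq_of_lt ht]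
  · intro n hn
    rw [mem_filter, mem_Icc] at hn
    rw [mem_filter, mem_range]
    have h1 : n - 1 + 1 = n := by omega
    rw [h1]
    refine ⟨by omega, ?_, hn.2.2⟩
    have h2 := hn.2.1
    unfold Nat.ModEq at h2
    rw [h2, Nat.mod_eq_of_lt ht]
  · intro N _
    show N + 1 - 1 = N
    omega
  · intro n hn
    rw [mem_filter, mem_Icc] at hn
    show n - 1 + 1 = n
    omega

theorem tupC_le {k : ℕ} (a : Fin k → ℤ) (X q t : ℕ) (ht : t < q) :
    tupC a X q t ≤ RG (GT a) X q t + NC q (Nat.sqrt X + ∑ i, (a i).natAbs) t := by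
  classical
  rw [tupC_eq a X q t ht]
  unfold RG NC
  refine le_trans (card_le_card ?_) (card_union_le _ _)
  intro N hN
  rw [mem_filter] at hN
  rw [mem_union, mem_filter, mem_filter, mem_filter, mem_range]
  by_cases h : N < Nat.sqrt X + ∑ i, (a i).natAbs
  · exact Or.inr ⟨mem_range.2 h, hN.2.1⟩
  · left
    refine ⟨⟨mem_range.1 hN.1, hN.2.1⟩, fun p hp hpX hd => ?_⟩
    have hps : p ≤ Nat.sqrt X := Nat.le_sqrt'.2 hpX
    have hpi : Prime (p : ℤ) := Nat.prime_iff_prime_int.1 hp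
    have h1 : (p : ℤ) ∣ (GT a).eval ((N + 1 : ℕ) : ℤ) := Int.natCast_dvd.2 hd
    rw [GT_eval, hpi.dvd_finsetProd_iff] at h1
    obtain ⟨i, -, hi⟩ := h1
    have h2 := hN.2.2 i
    have h3 : (a i).natAbs ≤ ∑ i, (a i).natAbs :=
      single_le_sum (f := fun i => (a i).natAbs) (fun _ _ => Nat.zero_le _) (mem_univ i)
    have h4 : ((Nat.sqrt X : ℕ) : ℤ) < ((N + 1 : ℕ) : ℤ) + a i := by
      omega
    have h5 : p ∣ (((N + 1 : ℕ) : ℤ) + a i).toNat := by
      have h6 : ((((N + 1 : ℕ) : ℤ) + a i).toNat : ℤ) = ((N + 1 : ℕ) : ℤ) + a i :=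
        Int.toNat_of_nonneg (by omega)
      rw [← h6] at hi
      exact_mod_cast hi
    have h6 := (Nat.prime_dvd_prime_iff_eq hp h2).1 h5
    omega

open Classical in
/-- **prime tuples in almost all residue classes** -/
theorem tup_main {k : ℕ} (hk : 1 ≤ k) (a : Fin k → ℤ) (ha : Function.Injective a)
    (hadm : ∀ p : ℕ, p.Prime → (univ.image fun i => a i % (p : ℤ)).card < p) :
    ∃ S : ℝ, 0 < S ∧ Tendsto (fun x : ℕ => ∏ p ∈ (range (x + 1)).filter Nat.Prime,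
        (1 - ((univ.image fun i => a i % (p : ℤ)).card : ℝ) / p) / (1 - 1 / (p : ℝ)) ^ k)
        atTop (𝓝 S) ∧
      ∀ θ δ : ℝ, θ < 1 → 0 < δ → ∃ κ : ℝ, 0 < κ ∧ ∀ᶠ X : ℕ in atTop, ∀ q : ℕ, 0 < q →
        (q : ℝ) ≤ (X : ℝ) ^ θ →
        (((range q).filter (fun t : ℕ => ((k.factorial : ℝ) * 4 ^ k + δ) * S *
          ((X : ℝ) / (clsG (GT a) q * (Real.log ((X : ℝ) ^ 2 / q)) ^ k)) <
            tupC a X q t)).card : ℝ) ≤ clsG (GT a) q * (X : ℝ) ^ (-κ) := by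
  have hlt : ∀ p : ℕ, p.Prime → ro (GT a) 0 p < p := fun p hp => by
    rw [ro_GT a p hp]
    exact hadm p hp
  have hle : ∀ p : ℕ, p.Prime → ro (GT a) 0 p ≤ k := fun p hp => ro_GT_le a p hp
  have hw0 : ∀ p : ℕ, p.Prime → ∑ i, ∑ j, (a i - a j).natAbs < p → ro (GT a) 0 p = k :=
    fun p hp h => ro_GT_eq a ha p hp h
  obtain ⟨S, hS, hSt⟩ := prodK_conv (GT a) k _ hlt hw0
  refine ⟨S, hS, ?_, ?_⟩
  · refine hSt.congr (fun N => ?_)
    unfold Sm
    apply prod_congr rfl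
    intro p hp
    unfold gG
    rw [ro_GT a p (mem_filter.1 hp).2]
  intro θ δ hθ hδ
  obtain ⟨κ, hκ, H⟩ := tup_cls (GT a) k _ hk hle hlt hw0 S hS hSt θ (δ / 2) hθ (by linarith)
  refine ⟨κ, hκ, ?_⟩
  set A : ℕ := ∑ i, (a i).natAbs with hA
  set θ' : ℝ := max θ (1 / 2) with hθ'
  have hθ'1 : θ' < 1 := max_lt hθ (by norm_num)
  have ev1 : ∀ᶠ X : ℕ in atTop, ((A : ℝ) + 2) * (2 * Real.log X) ^ k ≤
      δ / 2 * S * (X : ℝ) ^ (1 - θ') := by
    have h1 : Tendsto (fun x : ℝ => Real.log x ^ (k : ℝ) / x ^ (1 - θ')) atTop (nhds 0) := by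
      have := isLittleO_log_rpow_rpow_atTop (k : ℝ) (show 0 < 1 - θ' by linarith)
      exact this.tendsto_div_nhds_zero
    have h2 := h1.eventually_le_const
      (show (0 : ℝ) < δ / 2 * S / (((A : ℝ) + 2) * 2 ^ k) by positivity)
    have h3 := tendsto_natCast_atTop_atTop.eventually (h2.and (eventually_gt_atTop (0 : ℝ)))
    filter_upwards [h3] with X hX
    obtain ⟨h4, h5⟩ := hX
    have h6 : (0 : ℝ) < (X : ℝ) ^ (1 - θ') := by positivity
    rw [div_le_div_iff₀ h6 (by positivity), Real.rpow_natCast] at h4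
    rw [mul_pow]
    linarith
  filter_upwards [H, ev1, eventually_ge_atTop 3] with X hX e1 e2 q hq hqX
  refine le_trans ?_ (hX q hq hqX)
  apply Nat.cast_le.2
  apply card_le_card
  intro t ht
  rw [mem_filter] at ht ⊢
  refine ⟨ht.1, ?_⟩
  have htq : t < q := mem_range.1 ht.1
  set x : ℝ := (X : ℝ) with hx
  have hx3 : (3 : ℝ) ≤ x := by rw [hx]; exact_mod_cast e2
  have hx0 : 0 < x := by linarith
  have hx1 : 1 < x := by linarith
  have hlx0 : 0 < Real.log x := Real.log_pos hx1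
  have hq0 : (0 : ℝ) < q := by exact_mod_cast hq
  have hq1 : (1 : ℝ) ≤ q := by exact_mod_cast hq
  have hqx : (q : ℝ) ≤ x := by
    calc (q : ℝ) ≤ x ^ θ := hqX
      _ ≤ x ^ (1 : ℝ) := Real.rpow_le_rpow_of_exponent_le hx1.le hθ.le
      _ = x := Real.rpow_one _
  set L : ℝ := Real.log (x ^ 2 / q) with hL
  have hL0 : 0 < L := by
    apply Real.log_pos
    rw [lt_div_iff₀ hq0]
    nlinarith
  have hL2 : L ≤ 2 * Real.log x := by
    have h1 : x ^ 2 / q ≤ x ^ 2 := div_le_self (by positivity) hq1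
    have h2 := Real.log_le_log (by positivity) h1
    rw [Real.log_pow] at h2
    exact_mod_cast h2
  obtain ⟨C1, hC1, HC1⟩ := clsG_big k 1 one_pos
  have hbig := HC1 (GT a) q hle hlt hq
  have hcl0 : (0 : ℝ) < clsG (GT a) q := by
    by_contra h
    have h1 : (clsG (GT a) q : ℝ) = 0 := le_antisymm (not_lt.1 h) (Nat.cast_nonneg _)
    rw [h1, mul_zero] at hbig
    linarith
  have hclq : (clsG (GT a) q : ℝ) ≤ q := by exact_mod_cast clsG_le (GT a) q
  have h1 : (tupC a X q t : ℝ) ≤ RG (GT a) X q t + NC q (Nat.sqrt X + A) t := by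
    exact_mod_cast tupC_le a X q t htq
  have h2 := NC_le q (Nat.sqrt X + A) t hq
  have h3 : ((Nat.sqrt X + A : ℕ) : ℝ) / q + 1 ≤ δ / 2 * S * (x / (clsG (GT a) q * L ^ k)) := by
    have g1 : ((Nat.sqrt X : ℕ) : ℝ) ≤ x ^ θ' := by
      calc ((Nat.sqrt X : ℕ) : ℝ) ≤ √x := by
            rw [hx]
            exact Real.nat_sqrt_le_real_sqrt
        _ = x ^ (1 / 2 : ℝ) := Real.sqrt_eq_rpow x
        _ ≤ x ^ θ' := Real.rpow_le_rpow_of_exponent_le hx1.le (le_max_right _ _)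
    have g2 : (q : ℝ) ≤ x ^ θ' :=
      hqX.trans (Real.rpow_le_rpow_of_exponent_le hx1.le (le_max_left _ _))
    have g3 : (1 : ℝ) ≤ x ^ θ' := hq1.trans g2
    have gA : (0 : ℝ) ≤ A := Nat.cast_nonneg _
    have g4 : ((Nat.sqrt X + A : ℕ) : ℝ) + q ≤ ((A : ℝ) + 2) * x ^ θ' := by
      push_cast
      nlinarith
    have g5 : L ^ k ≤ (2 * Real.log x) ^ k := pow_le_pow_left₀ hL0.le hL2 k
    have g6 : (((Nat.sqrt X + A : ℕ) : ℝ) + q) * L ^ k ≤ δ / 2 * S * x := by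
      calc (((Nat.sqrt X + A : ℕ) : ℝ) + q) * L ^ k ≤
          (((A : ℝ) + 2) * x ^ θ') * (2 * Real.log x) ^ k :=
            mul_le_mul g4 g5 (by positivity) (by positivity)
        _ = (((A : ℝ) + 2) * (2 * Real.log x) ^ k) * x ^ θ' := by ring
        _ ≤ (δ / 2 * S * x ^ (1 - θ')) * x ^ θ' := mul_le_mul_of_nonneg_right e1 (by positivity)
        _ = δ / 2 * S * x := by
            rw [mul_assoc, ← Real.rpow_add hx0, sub_add_cancel, Real.rpow_one]
    have g7 : ((Nat.sqrt X + A : ℕ) : ℝ) / q + 1 = (((Nat.sqrt X + A : ℕ) : ℝ) + q) / q := by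
      field_simp
    rw [g7, ← mul_div_assoc, div_le_div_iff₀ hq0 (by positivity)]
    calc (((Nat.sqrt X + A : ℕ) : ℝ) + q) * (clsG (GT a) q * L ^ k) =
        ((((Nat.sqrt X + A : ℕ) : ℝ) + q) * L ^ k) * clsG (GT a) q := by ring
      _ ≤ (δ / 2 * S * x) * q := mul_le_mul g6 hclq hcl0.le (by positivity)
  have h4 := ht.2
  have h5 : ((k.factorial : ℝ) * 4 ^ k + δ) * S * (x / (clsG (GT a) q * L ^ k)) =
      ((k.factorial : ℝ) * 4 ^ k + δ / 2) * S * (x / (clsG (GT a) q * L ^ k)) +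
        δ / 2 * S * (x / (clsG (GT a) q * L ^ k)) := by ring
  rw [h5] at h4
  linarith

end Pool.Agent.H662.RC
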