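import Pool.Agent.H662.RC.BHW
import Pool.Agent.H662.RC.EngW
import Pool.Agent.H662.RC.TupD

/-! Almost prime tuples in almost all residue classes: the engine. -/

set_option autoImplicit false

namespace Pool.Agent.H662.RC

open Filter Finset Topology Polynomial
open Pool.Agent.W23.DC
open Pool.Agent.Y882
open Pool.Agent.Y882.PX
open Pool.Agent.Y882.SI
open Pool.Agent.Y882.JR
open Pool.Agent.Y781.JR
open Pool.Agent.H662

theorem VV_mob (P : Finset ℕ) (h : ℕ → ℝ) :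
    VV P (fun T => (-1) ^ T.card) h = ∏ p ∈ P, (1 - h p) := by
  unfold VV
  have h1 : ∏ p ∈ P, (1 - h p) = ∏ p ∈ P, (1 + -h p) := prod_congr rfl fun p _ => by ring
  rw [h1, prod_one_add]
  apply sum_congr rfl
  intro T _
  rw [prod_neg]

/-- the lower bound weights with the small primes -/
theorem low_weights (k : ℕ) : ∃ C0 : ℕ, 1 ≤ C0 ∧ ∀ (J : ℕ) (P : Finset ℕ),
    (∀ p ∈ P, p.Prime ∧ p ≤ 2 ^ 2 ^ J) → ∃ c : Finset ℕ → ℝ, (∀ T, |c T| ≤ J + 1) ∧
      (∀ T ⊆ P, c T ≠ 0 → ∏ p ∈ T, p ≤ (∏ p ∈ Sm C0, p) * (2 ^ 2 ^ J) ^ (C0 ^ 2)) ∧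
      (∀ V : ℕ, VV P c (fun p => if p ∣ V then 1 else 0) ≤ if ∀ p ∈ P, ¬ p ∣ V then 1 else 0) ∧
      (∀ g : ℕ → ℝ, (∀ p ∈ P, 0 ≤ g p ∧ g p ≤ 1 ∧ g p ≤ k / ((p : ℝ) - 1)) →
        1 / 2 * ∏ p ∈ P, (1 - g p) ≤ VV P c g) := by
  classical
  obtain ⟨C0, hC0, H⟩ := BHW.bh_weights k
  refine ⟨C0, hC0, fun J P hP => ?_⟩
  set P0 := P.filter (fun p => p ≤ C0) with hP0
  set P1 := P.filter (fun p => ¬ p ≤ C0) with hP1
  have hPP : P0 ∪ P1 = P := filter_union_filter_not_eq _ P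
  have hdis : Disjoint P0 P1 := disjoint_filter_filter_not P P _
  obtain ⟨c, h1, h2, h3, h4⟩ := H C0 J P1 le_rfl (fun p hp => by
    rw [hP1, mem_filter] at hp
    exact ⟨(hP p hp.1).1, by omega, (hP p hp.1).2⟩)
  have hVV : ∀ h : ℕ → ℝ, VV P (fun T => (-1) ^ (T ∩ P0).card * c (T ∩ P1)) h =
      (∏ p ∈ P0, (1 - h p)) * VV P1 c h := by
    intro h
    have h5 := VV_union P0 P1 hdis (fun T => (-1) ^ T.card) c h
    rw [hPP, VV_mob] at h5
    exact h5
  refine ⟨fun T => (-1) ^ (T ∩ P0).card * c (T ∩ P1), ?_, ?_, ?_, ?_⟩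
  · intro T
    rw [abs_mul, abs_neg_one_pow, one_mul]
    exact h1 _
  · intro T hT hcT
    have h5 : c (T ∩ P1) ≠ 0 := right_ne_zero_of_mul hcT
    have h6 := h2 (T ∩ P1) inter_subset_right h5
    have h7 : T = (T ∩ P0) ∪ (T ∩ P1) := by
      rw [← inter_union_distrib_left, hPP]
      exact (inter_eq_left.2 hT).symm
    have h8 : ∏ p ∈ T, p ≤ (∏ p ∈ T ∩ P0, p) * ∏ p ∈ T ∩ P1, p := by
      conv_lhs => rw [h7]
      apply prod_union_le
      intro p hp
      rw [← h7] at hp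
      exact (hP p (hT hp)).1.one_le
    refine h8.trans ?_
    rw [pow_two]
    apply Nat.mul_le_mul _ h6
    apply Nat.le_of_dvd
    · apply prod_pos
      intro p hp
      unfold Sm at hp
      exact (mem_filter.1 hp).2.pos
    · apply prod_dvd_prod_of_subset
      intro p hp
      have h9 := (mem_inter.1 hp).2
      rw [hP0, mem_filter] at h9
      unfold Sm
      rw [mem_filter, mem_range]
      exact ⟨by omega, (hP p h9.1).1⟩
  · intro V
    rw [hVV]
    have h5 := h3 V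
    by_cases h6 : ∀ p ∈ P0, ¬ p ∣ V
    · have h7 : ∏ p ∈ P0, (1 - (if p ∣ V then (1 : ℝ) else 0)) = 1 := by
        apply prod_eq_one
        intro p hp
        rw [if_neg (h6 p hp), sub_zero]
      rw [h7, one_mul]
      refine h5.trans ?_
      by_cases h8 : ∀ p ∈ P1, ¬ p ∣ V
      · rw [if_pos h8, if_pos]
        intro p hp
        rw [← hPP] at hp
        rcases mem_union.1 hp with h | h
        · exact h6 p h
        · exact h8 p h
      · rw [if_neg h8]
        split_ifs <;> norm_num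
    · push Not at h6
      obtain ⟨p, hp, hpV⟩ := h6
      have h7 : ∏ p ∈ P0, (1 - (if p ∣ V then (1 : ℝ) else 0)) = 0 := by
        apply prod_eq_zero hp
        rw [if_pos hpV, sub_self]
      rw [h7, zero_mul]
      split_ifs <;> norm_num
  · intro g hg
    rw [hVV]
    have h5 := h4 g (fun p hp => by
      have := hg p (mem_filter.1 hp).1
      exact ⟨this.1, this.2.2⟩)
    have h6 : 0 ≤ ∏ p ∈ P0, (1 - g p) := by
      apply prod_nonneg
      intro p hp
      have := hg p (mem_filter.1 hp).1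
      linarith
    have h7 : 0 ≤ ∏ p ∈ P1, (1 - g p) := by
      apply prod_nonneg
      intro p hp
      have := hg p (mem_filter.1 hp).1
      linarith
    have h8 : (1 / 2 : ℝ) ^ C0 ≤ 1 / 2 := by
      have : (1 / 2 : ℝ) ^ C0 ≤ (1 / 2) ^ 1 :=
        pow_le_pow_of_le_one (by norm_num) (by norm_num) hC0
      linarith
    have h9 : ∏ p ∈ P, (1 - g p) = (∏ p ∈ P0, (1 - g p)) * ∏ p ∈ P1, (1 - g p) := by
      rw [← hPP, prod_union hdis]
    rw [h9]
    calc 1 / 2 * ((∏ p ∈ P0, (1 - g p)) * ∏ p ∈ P1, (1 - g p)) =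
        (∏ p ∈ P0, (1 - g p)) * (1 / 2 * ∏ p ∈ P1, (1 - g p)) := by ring
      _ ≤ (∏ p ∈ P0, (1 - g p)) * ((1 - (1 / 2) ^ C0) * ∏ p ∈ P1, (1 - g p)) := by
          apply mul_le_mul_of_nonneg_left _ h6
          exact mul_le_mul_of_nonneg_right (by linarith) h7
      _ ≤ _ := mul_le_mul_of_nonneg_left h5 h6

/-- lower bound for the product of the densities -/
theorem lo_tuple (G : ℤ[X]) (k w0 : ℕ) (hlt : ∀ p : ℕ, p.Prime → ro G 0 p < p)
    (hw0 : ∀ p : ℕ, p.Prime → w0 < p → ro G 0 p = k) : ∃ c : ℝ, 0 < c ∧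
    ∀ᶠ N : ℕ in atTop, c / Real.log N ^ k ≤ lo G N := by
  obtain ⟨S, hS, hSt⟩ := prodK_conv G k w0 hlt hw0
  have h1 := hSt.mul (GG_mertens.pow k)
  set E : ℝ := S * Real.exp (-Real.eulerMascheroniConstant) ^ k with hE
  have hE0 : 0 < E := by positivity
  have h2 := h1.eventually_const_lt (show E / 2 < E by linarith)
  refine ⟨E / 2, by linarith, ?_⟩
  filter_upwards [h2, eventually_ge_atTop 3] with N hN hN3
  have hNr : (3 : ℝ) ≤ N := by exact_mod_cast hN3
  have hlN : 0 < Real.log N := Real.log_pos (by linarith)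
  rw [div_le_iff₀ (by positivity)]
  refine hN.le.trans (le_of_eq ?_)
  have h3 : ∀ p ∈ Sm N, (1 - 1 / (p : ℝ)) ≠ 0 := by
    intro p hp
    unfold Sm at hp
    have h4 : (2 : ℝ) ≤ p := by exact_mod_cast (mem_filter.1 hp).2.two_le
    have h5 : 1 / (p : ℝ) ≤ 1 / 2 := one_div_le_one_div_of_le (by norm_num) h4
    intro h
    linarith
  have h4 : lo G N = ∏ p ∈ Sm N, (1 - gG G p) := by
    unfold lo Sm gG
    apply prod_congr _ (fun _ _ => rfl)
    ext p
    rw [mem_filter, mem_filter, mem_Icc, mem_range]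
    constructor
    · rintro ⟨⟨_, h2⟩, h3⟩
      exact ⟨by omega, h3⟩
    · rintro ⟨h2, h3⟩
      exact ⟨⟨h3.one_le, by omega⟩, h3⟩
  have h5 : GG (N + 1) = ∏ p ∈ Sm N, (1 - 1 / (p : ℝ)) := rfl
  rw [h4, h5, mul_pow, ← mul_assoc, ← prod_pow, ← prod_mul_distrib]
  congr 1
  apply prod_congr rfl
  intro p hp
  exact div_mul_cancel₀ _ (pow_ne_zero k (h3 p hp))

open Classical in
/-- **almost prime tuples: the engine** -/
theorem low_cls (k : ℕ) : ∃ ζ : ℝ, 0 < ζ ∧ ζ ≤ 1 ∧ ∀ (G : ℤ[X]) (w0 : ℕ),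
    (∀ p : ℕ, p.Prime → ro G 0 p ≤ k) → (∀ p : ℕ, p.Prime → ro G 0 p < p) →
    (∀ p : ℕ, p.Prime → w0 < p → ro G 0 p = k) →
    ∃ δ : ℝ, 0 < δ ∧ ∀ θ : ℝ, θ < 1 → ∃ κ : ℝ, 0 < κ ∧
      ∀ᶠ X : ℕ in atTop, ∀ q : ℕ, 0 < q → (q : ℝ) ≤ (X : ℝ) ^ θ →
      (((range q).filter (fun t : ℕ => rgC G X ζ q X t <
        δ * ((X : ℝ) / (clsG G q * Real.log X ^ k)))).card : ℝ) ≤
      clsG G q * (X : ℝ) ^ (-κ) := by
  obtain ⟨C0, hC0, HW⟩ := low_weights k
  have hC0r : (1 : ℝ) ≤ C0 := by exact_mod_cast hC0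
  set ζ : ℝ := 1 / (8 * (C0 : ℝ) ^ 2) with hζ
  have hζ0 : 0 < ζ := by positivity
  have hζ1 : ζ ≤ 1 / 8 := by
    rw [hζ]
    apply one_div_le_one_div_of_le (by norm_num)
    nlinarith
  refine ⟨ζ, hζ0, by linarith, fun G w0 hle hlt hw0 => ?_⟩
  obtain ⟨c1, hc1, hlo⟩ := lo_tuple G k w0 hlt hw0
  refine ⟨c1 / 16, by positivity, fun θ hθ1 => ?_⟩
  set W : ℕ := ∏ p ∈ Sm C0, p with hW
  set η : ℝ := (1 - θ) / 4 with hη
  have hη0 : 0 < η := by
    rw [hη]
    linarith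
  obtain ⟨Y1, HF⟩ := few_errU k η hη0
  obtain ⟨C1, hC1, HC1⟩ := clsG_big k (η / 2) (by linarith)
  obtain ⟨Y2, HJ⟩ := exJ ζ hζ0
  obtain ⟨Y3, HL⟩ := clsG_low k ζ hζ0
  refine ⟨η, hη0, ?_⟩
  have hlog : Tendsto (fun N : ℕ => Real.log N) atTop atTop :=
    Real.tendsto_log_atTop.comp tendsto_natCast_atTop_atTop
  have hpw : ∀ s : ℝ, 0 < s → Tendsto (fun N : ℕ => (N : ℝ) ^ s) atTop atTop := fun s hs =>
    (tendsto_rpow_atTop hs).comp tendsto_natCast_atTop_atTop
  have ev1 : ∀ᶠ X : ℕ in atTop, (W : ℝ) ≤ (X : ℝ) ^ (1 / 4 : ℝ) :=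
    (hpw _ (by norm_num)).eventually_ge_atTop _
  have ev2 : ∀ᶠ X : ℕ in atTop, 2 ≤ (X : ℝ) ^ (1 - θ) :=
    (hpw _ (by linarith)).eventually_ge_atTop _
  have ev3 : ∀ᶠ X : ℕ in atTop, 2 * C1 ≤ (X : ℝ) ^ η := (hpw _ hη0).eventually_ge_atTop _
  have ev4 : ∀ᶠ X : ℕ in atTop, 3 * Real.log X ≤ (X : ℝ) ^ (η / 64) := by
    have h1 := (isLittleO_log_rpow_atTop (show 0 < η / 64 by linarith)).bound
      (show (0 : ℝ) < 1 / 3 by norm_num)
    filter_upwards [tendsto_natCast_atTop_atTop.eventually h1, eventually_ge_atTop 1] with Y hY hY1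
    have hY1r : (1 : ℝ) ≤ Y := by exact_mod_cast hY1
    rw [Real.norm_of_nonneg (Real.log_nonneg hY1r), Real.norm_of_nonneg (by positivity)] at hY
    linarith
  have ev5 : ∀ᶠ X : ℕ in atTop, Real.log X ^ k ≤ c1 / 16 * (X : ℝ) ^ (η / 16) := by
    have h1 : Tendsto (fun x : ℝ => Real.log x ^ (k : ℝ) / x ^ (η / 16)) atTop (nhds 0) := by
      have := isLittleO_log_rpow_rpow_atTop (k : ℝ) (show 0 < η / 16 by linarith)
      exact this.tendsto_div_nhds_zero
    have h2 := h1.eventually_le_const (show (0 : ℝ) < c1 / 16 by positivity)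
    have h3 := tendsto_natCast_atTop_atTop.eventually (h2.and (eventually_gt_atTop (0 : ℝ)))
    filter_upwards [h3] with X hX
    obtain ⟨h4, h5⟩ := hX
    have h6 : (0 : ℝ) < (X : ℝ) ^ (η / 16) := by positivity
    rw [div_le_iff₀ h6, Real.rpow_natCast] at h4
    exact h4
  filter_upwards [ev1, ev2, ev3, ev4, ev5, hlo, eventually_ge_atTop Y1, eventually_ge_atTop Y2,
    eventually_ge_atTop Y3, eventually_ge_atTop 3] with X e1 e2 e3 e4 e5 e6 e7 e8 e9 e10 q hq hqX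
  set x : ℝ := (X : ℝ) with hx
  have hx3 : (3 : ℝ) ≤ x := by rw [hx]; exact_mod_cast e10
  have hx0 : 0 < x := by linarith
  have hx1 : 1 < x := by linarith
  have hlx1 : 1 ≤ Real.log x := by
    rw [Real.le_log_iff_exp_le hx0]
    linarith [Real.exp_one_lt_d9]
  have hq0 : (0 : ℝ) < q := by exact_mod_cast hq
  have hq1 : (1 : ℝ) ≤ q := by exact_mod_cast hq
  have hqx : (q : ℝ) ≤ x := by
    calc (q : ℝ) ≤ x ^ θ := hqX
      _ ≤ x ^ (1 : ℝ) := Real.rpow_le_rpow_of_exponent_le hx1.le hθ1.le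
      _ = x := Real.rpow_one _
  have hqXn : q ≤ X := by
    rw [hx] at hqx
    exact_mod_cast hqx
  have hqη : (q : ℝ) ^ (η / 2) ≤ x ^ (η / 2) := Real.rpow_le_rpow hq0.le hqx (by linarith)
  -- the weights
  obtain ⟨J, hJ1, hJ2⟩ := HJ X e8
  have hPQp : ∀ p ∈ PQ X ζ q, p.Prime ∧ ¬ p ∣ q ∧ (p : ℝ) < x ^ ζ := by
    intro p hp
    unfold PQ at hp
    rw [mem_filter] at hp
    have hpp := PZ_prime X ζ p hp.1
    refine ⟨hpp, hp.2, ?_⟩
    have h1 := hp.1
    unfold PZ at h1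
    rw [mem_filter] at h1
    exact (tt_lt X p ζ (by omega) hpp.pos).1 h1.2.2
  obtain ⟨c, c1', c2, c3, c4⟩ := HW J (PQ X ζ q) (fun p hp => by
    obtain ⟨h1, h2, h3⟩ := hPQp p hp
    refine ⟨h1, ?_⟩
    have h4 : (p : ℝ) ≤ ((2 ^ 2 ^ J : ℕ) : ℝ) := by
      push_cast
      linarith
    exact_mod_cast h4)
  have hJs : (J : ℝ) + 1 ≤ 3 * Real.log x := by
    have h1 : (2 : ℝ) ^ 2 ^ J ≤ x := by
      calc (2 : ℝ) ^ 2 ^ J ≤ x ^ (2 * ζ) := hJ2
        _ ≤ x ^ (1 : ℝ) := Real.rpow_le_rpow_of_exponent_le hx1.le (by linarith)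
        _ = x := Real.rpow_one _
    have h2 := Real.log_le_log (by positivity) h1
    rw [Real.log_pow] at h2
    have h3 : (J : ℝ) + 1 ≤ ((2 ^ J : ℕ) : ℝ) := by
      exact_mod_cast (Nat.lt_two_pow_self : J < 2 ^ J)
    have h4 := Real.log_two_gt_d9
    have h5 : ((2 ^ J : ℕ) : ℝ) * (1 / 2) ≤ ((2 ^ J : ℕ) : ℝ) * Real.log 2 :=
      mul_le_mul_of_nonneg_left (by linarith) (Nat.cast_nonneg _)
    linarith
  have hcb : ∀ T, |c T| ≤ (X : ℝ) ^ (η / 64) := fun T => (c1' T).trans (hJs.trans e4)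
  have hsupp : ∀ T ⊆ PQ X ζ q, c T ≠ 0 → ((∏ p ∈ T, p : ℕ) : ℝ) ≤ (X : ℝ) ^ (1 / 2 : ℝ) := by
    intro T hT hcT
    have h1 := c2 T hT hcT
    have h2 : ((∏ p ∈ T, p : ℕ) : ℝ) ≤ (W : ℝ) * ((2 : ℝ) ^ 2 ^ J) ^ (C0 ^ 2) := by
      exact_mod_cast h1
    refine h2.trans ?_
    calc (W : ℝ) * ((2 : ℝ) ^ 2 ^ J) ^ (C0 ^ 2) ≤ x ^ (1 / 4 : ℝ) * (x ^ (2 * ζ)) ^ (C0 ^ 2) := by
          apply mul_le_mul e1 _ (by positivity) (by positivity)
          exact pow_le_pow_left₀ (by positivity) hJ2 _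
      _ = x ^ (1 / 2 : ℝ) := by
          rw [← Real.rpow_natCast (x ^ (2 * ζ)), ← Real.rpow_mul hx0.le, ← Real.rpow_add hx0]
          congr 1
          rw [hζ]
          push_cast
          field_simp
          norm_num
  have hfew := HF X e7 (1 / 2) (by norm_num) (by norm_num) G (PQ X ζ q) c X q (x / q)
    (fun p hp => (hPQp p hp).1) (fun p hp => hle p (hPQp p hp).1) (fun p hp => (hPQp p hp).2.1) hcb
    hsupp hq hqXn (by positivity)
  -- the classes
  have hbig := HC1 G q hle hlt hq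
  have hcl0 : (0 : ℝ) < clsG G q := by
    by_contra h
    have h1 : (clsG G q : ℝ) = 0 := le_antisymm (not_lt.1 h) (Nat.cast_nonneg _)
    rw [h1, mul_zero] at hbig
    linarith
  have hclq : (clsG G q : ℝ) ≤ q := by exact_mod_cast clsG_le G q
  have hlow := HL X e9 G q hle hq hqXn
  have hlv := lo_vvG G X ζ
  have hsub : (range q).filter (fun t : ℕ => rgC G X ζ q X t <
        c1 / 16 * (x / (clsG G q * Real.log x ^ k))) ⊆
      (range q).filter (fun a => x / q * (X : ℝ) ^ (-(η / 16)) <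
        |TC (UU G (PQ X ζ q) c) q X a|) := by
    intro t ht
    rw [mem_filter] at ht ⊢
    refine ⟨ht.1, ?_⟩
    by_contra hcon
    rw [not_lt] at hcon
    have htq : t < q := mem_range.1 ht.1
    have h1 := wsumC G (PQ X ζ q) (fun p hp => (hPQp p hp).1) c q X t
    have h2 : ∑ N ∈ (range X).filter (fun N => (N + 1) % q = t),
        VV (PQ X ζ q) c (fun p => if p ∣ (G.eval ((N + 1 : ℕ) : ℤ)).natAbs then 1 else 0) ≤
        rgC G X ζ q X t := by
      unfold rgC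
      rw [card_filter]
      push_cast
      apply sum_le_sum
      intro N _
      refine (c3 _).trans (le_of_eq ?_)
      push_cast
      by_cases hh : ∀ p ∈ PQ X ζ q, ¬ p ∣ (G.eval ((N : ℤ) + 1)).natAbs
      · rw [if_pos hh]
      · rw [if_neg hh]
    have h3 := c4 (fun p => (ro G 0 p : ℝ) / p) (fun p hp => by
      have hpp := (hPQp p hp).1
      have hp2 : (2 : ℝ) ≤ p := by exact_mod_cast hpp.two_le
      have g1 : (ro G 0 p : ℝ) ≤ k := by exact_mod_cast hle p hpp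
      have g2 : (ro G 0 p : ℝ) ≤ p := by exact_mod_cast (hlt p hpp).le
      refine ⟨by positivity, (div_le_one (by linarith)).2 g2, ?_⟩
      exact div_le_div₀ (Nat.cast_nonneg _) g1 (by linarith) (by linarith))
    have h4 : vC G X ζ q ≤ 2 * VV (PQ X ζ q) c (fun p => (ro G 0 p : ℝ) / p) := by
      unfold vC
      linarith
    have h5 := neg_abs_le (TC (UU G (PQ X ζ q) c) q X t)
    have h6 : x / (2 * q) ≤ NC q X t := by
      have g1 := le_NC q X t hq htq
      have g2 : x / q - 1 ≤ ((X / q : ℕ) : ℝ) := by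
        have g3 := Nat.lt_div_mul_add (a := X) hq
        have g4 : (X : ℝ) < ((X / q : ℕ) : ℝ) * q + q := by exact_mod_cast g3
        rw [sub_le_iff_le_add, div_le_iff₀ hq0]
        rw [hx]
        nlinarith
      have g5 : ((X / q : ℕ) : ℝ) ≤ NC q X t := by exact_mod_cast g1
      have g6 : 2 ≤ x / q := by
        rw [le_div_iff₀ hq0]
        have g7 : x ^ (1 - θ) * x ^ θ = x := by
          rw [← Real.rpow_add hx0, sub_add_cancel, Real.rpow_one]
        calc 2 * (q : ℝ) ≤ x ^ (1 - θ) * x ^ θ := mul_le_mul e2 hqX hq0.le (by positivity)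
          _ = x := g7
      have g8 : x / (2 * q) = x / q / 2 := by
        rw [div_div, mul_comm (q : ℝ) 2]
      linarith
    have hlk : 0 < Real.log x ^ k := by positivity
    have h7 : c1 / Real.log x ^ k * (q / 2) ≤ clsG G q * vC G X ζ q := by
      calc c1 / Real.log x ^ k * (q / 2) ≤ vv G X ζ * (q / 2) :=
            mul_le_mul_of_nonneg_right (e6.trans hlv) (by positivity)
        _ = (q : ℝ) / 2 * vv G X ζ := by ring
        _ ≤ _ := hlow
    have h8 : c1 * (q / 2) / (clsG G q * Real.log x ^ k) ≤ vC G X ζ q := by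
      rw [div_le_iff₀ (by positivity)]
      have g1 := mul_le_mul_of_nonneg_right h7 hlk.le
      have g2 : c1 / Real.log x ^ k * (q / 2) * Real.log x ^ k = c1 * (q / 2) := by
        field_simp
      rw [g2] at g1
      calc c1 * (q / 2 : ℝ) ≤ clsG G q * vC G X ζ q * Real.log x ^ k := g1
        _ = _ := by ring
    have h9 : c1 / 8 * (x / (clsG G q * Real.log x ^ k)) ≤
        NC q X t * VV (PQ X ζ q) c (fun p => (ro G 0 p : ℝ) / p) := by
      calc c1 / 8 * (x / (clsG G q * Real.log x ^ k)) =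
          x / (2 * q) * ((c1 * (q / 2) / (clsG G q * Real.log x ^ k)) / 2) := by
            field_simp
            norm_num
        _ ≤ NC q X t * VV (PQ X ζ q) c (fun p => (ro G 0 p : ℝ) / p) := by
            apply mul_le_mul h6 _ (by positivity) (Nat.cast_nonneg _)
            linarith
    have h10 : x / q * x ^ (-(η / 16)) ≤ c1 / 16 * (x / (clsG G q * Real.log x ^ k)) := by
      have g1 : x ^ (-(η / 16)) * x ^ (η / 16) = 1 := by
        rw [← Real.rpow_add hx0, neg_add_cancel, Real.rpow_zero]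
      have g2 : x ^ (-(η / 16)) * Real.log x ^ k ≤ c1 / 16 := by
        calc x ^ (-(η / 16)) * Real.log x ^ k ≤ x ^ (-(η / 16)) * (c1 / 16 * x ^ (η / 16)) :=
              mul_le_mul_of_nonneg_left e5 (by positivity)
          _ = c1 / 16 * (x ^ (-(η / 16)) * x ^ (η / 16)) := by ring
          _ = c1 / 16 := by rw [g1, mul_one]
      have g3 : x ^ (-(η / 16)) ≤ c1 / 16 / Real.log x ^ k := by
        rw [le_div_iff₀ hlk]
        exact g2
      calc x / q * x ^ (-(η / 16)) ≤ x / clsG G q * (c1 / 16 / Real.log x ^ k) := by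
            apply mul_le_mul _ g3 (by positivity) (by positivity)
            exact div_le_div_of_nonneg_left hx0.le hcl0 hclq
        _ = _ := by
            field_simp
    have h11 := ht.2
    have h12 : c1 / 8 * (x / (clsG G q * Real.log x ^ k)) =
        c1 / 16 * (x / (clsG G q * Real.log x ^ k)) + c1 / 16 * (x / (clsG G q * Real.log x ^ k)) := by
      ring
    rw [h1] at h2
    linarith
  have hcard : (((range q).filter (fun t : ℕ => rgC G X ζ q X t <
        c1 / 16 * (x / (clsG G q * Real.log x ^ k)))).card : ℝ) ≤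
      (x + x ^ (2 * (1 / 2 : ℝ))) / (x / q) ^ 2 * x ^ (η / 2) :=
    le_trans (by exact_mod_cast card_le_card hsub) hfew
  refine hcard.trans ?_
  have k0 : x ^ (2 * (1 / 2 : ℝ)) = x := by norm_num
  rw [k0]
  have k1 : (x + x) / (x / q) ^ 2 = 2 * q * (q / x) := by
    field_simp
    ring
  have k2 : (q : ℝ) / x ≤ x ^ (θ - 1) := by
    rw [div_le_iff₀ hx0]
    have : x ^ (θ - 1) * x = x ^ θ := by
      nth_rewrite 2 [← Real.rpow_one x]
      rw [← Real.rpow_add hx0, sub_add_cancel]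
    rw [this]
    exact hqX
  rw [k1]
  calc 2 * (q : ℝ) * (q / x) * x ^ (η / 2) ≤ 2 * q * x ^ (θ - 1) * x ^ (η / 2) := by
        gcongr
    _ ≤ 2 * (C1 * (q : ℝ) ^ (η / 2) * clsG G q) * x ^ (θ - 1) * x ^ (η / 2) := by
        gcongr
    _ ≤ 2 * (C1 * x ^ (η / 2) * clsG G q) * x ^ (θ - 1) * x ^ (η / 2) := by
        gcongr
    _ = (2 * C1) * (clsG G q * (x ^ (η / 2) * x ^ (θ - 1) * x ^ (η / 2))) := by ring
    _ ≤ x ^ η * (clsG G q * (x ^ (η / 2) * x ^ (θ - 1) * x ^ (η / 2))) :=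
        mul_le_mul_of_nonneg_right e3 (by positivity)
    _ = clsG G q * x ^ (2 * η + θ - 1) := by
        have k4 : x ^ η * (x ^ (η / 2) * x ^ (θ - 1) * x ^ (η / 2)) = x ^ (2 * η + θ - 1) := by
          rw [← Real.rpow_add hx0, ← Real.rpow_add hx0, ← Real.rpow_add hx0]
          congr 1
          ring
        rw [← k4]
        ring
    _ ≤ clsG G q * x ^ (-η) := by
        apply mul_le_mul_of_nonneg_left _ hcl0.le
        apply Real.rpow_le_rpow_of_exponent_le hx1.le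
        rw [hη]
        linarith

end Pool.Agent.H662.RC
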