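import Pool.Agent.H662.RC.TupL

/-! Almost prime tuples in almost all residue classes: the theorem. -/

set_option autoImplicit false

namespace Pool.Agent.H662.RC

open Filter Finset Topology Polynomial
open Pool.Agent.W23.DC
open Pool.Agent.Y882
open Pool.Agent.Y882.PX
open Pool.Agent.Y882.SI
open Pool.Agent.Y882.JR
open Pool.Agent.H662

theorem omega_le (X : ℕ) (ζ : ℝ) (hX : 3 ≤ X) (hζ : 0 < ζ) (n : ℕ) (hn : n ≠ 0) (hnX : n ≤ X ^ 2)
    (h : ∀ p : ℕ, p.Prime → p ∣ n → (X : ℝ) ^ ζ ≤ p) :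
    (n.primeFactorsList.length : ℝ) ≤ 2 / ζ := by
  have hXr : (3 : ℝ) ≤ X := by exact_mod_cast hX
  have hX0 : (0 : ℝ) < X := by linarith
  set m : ℕ := ⌈(X : ℝ) ^ ζ⌉₊ with hm
  have h1 : m ^ n.primeFactorsList.length ≤ n.primeFactorsList.prod := by
    apply List.pow_card_le_prod
    intro p hp
    rw [hm]
    exact Nat.ceil_le.2 (h p (Nat.prime_of_mem_primeFactorsList hp)
      (Nat.dvd_of_mem_primeFactorsList hp))
  rw [Nat.prod_primeFactorsList hn] at h1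
  have h2 : ((X : ℝ) ^ ζ) ^ n.primeFactorsList.length ≤ (X : ℝ) ^ 2 := by
    calc ((X : ℝ) ^ ζ) ^ n.primeFactorsList.length ≤ (m : ℝ) ^ n.primeFactorsList.length :=
          pow_le_pow_left₀ (by positivity) (Nat.le_ceil _) _
      _ ≤ n := by exact_mod_cast h1
      _ ≤ (X : ℝ) ^ 2 := by exact_mod_cast hnX
  rw [← Real.rpow_natCast, ← Real.rpow_mul hX0.le, ← Real.rpow_natCast (X : ℝ) 2] at h2
  have h3 := (Real.rpow_le_rpow_left_iff (by linarith : (1 : ℝ) < X)).1 h2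
  rw [le_div_iff₀ hζ]
  push_cast at h3
  linarith

open Classical in
/-- the number of the `n ≤ X`, `n ≡ t mod q`, at which the `n + a i` are almost primes -/
noncomputable def tupL {k : ℕ} (a : Fin k → ℤ) (B X q t : ℕ) : ℕ :=
  ((Icc 1 X).filter (fun n : ℕ => n ≡ t [MOD q] ∧ ∀ i, 0 < (n : ℤ) + a i ∧
    ((n : ℤ) + a i).toNat.primeFactorsList.length ≤ B ∧
      ∀ p : ℕ, p.Prime → (p : ℤ) ∣ (n : ℤ) + a i → (X : ℝ) ^ (1 / (B : ℝ)) ≤ p)).card

open Classical in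
theorem tupL_eq {k : ℕ} (a : Fin k → ℤ) (B X q t : ℕ) (ht : t < q) : tupL a B X q t =
    ((range X).filter (fun N : ℕ => (N + 1) % q = t ∧ ∀ i, 0 < ((N + 1 : ℕ) : ℤ) + a i ∧
    (((N + 1 : ℕ) : ℤ) + a i).toNat.primeFactorsList.length ≤ B ∧
      ∀ p : ℕ, p.Prime → (p : ℤ) ∣ ((N + 1 : ℕ) : ℤ) + a i → (X : ℝ) ^ (1 / (B : ℝ)) ≤ p)).card := by
  unfold tupL
  symm
  apply card_bij' (i := fun (N : ℕ) _ => N + 1) (j := fun (n : ℕ) _ => n - 1)
  · intro N hN
    rw [mem_filter, mem_range] at hN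
    rw [mem_filter, mem_Icc]
    refine ⟨⟨by omega, by omega⟩, ?_, hN.2.2⟩
    unfold Nat.ModEq
    rw [hN.2.1, Nat.mod_eq_of_lt ht]
  · intro n hn
    rw [mem_filter, mem_Icc] at hn
    rw [mem_filter, mem_range]
    have h1 : n - 1 + 1 = n := by omega
    rw [h1]
    refine ⟨by omega, ?_, hn.2.2⟩
    have h2 := hn.2.1
    unfold Nat.ModEq at h2
    rw [h2, Nat.mod_eq_of_lt ht]
  · intro N _
    show N + 1 - 1 = N
    omega
  · intro n hn
    rw [mem_filter, mem_Icc] at hn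
    show n - 1 + 1 = n
    omega

theorem le_tupL {k : ℕ} (a : Fin k → ℤ) (B X q t : ℕ) (ζ : ℝ) (hζ : 0 < ζ) (hζ1 : ζ ≤ 1)
    (hX : 3 ≤ X) (hB1 : 2 / ζ ≤ B) (hA : ∑ i, (a i).natAbs ≤ X) (ht : t < q) (hqX : q ≤ X)
    (hadm : ∀ i, IsCoprime ((t : ℤ) + a i) (q : ℤ)) :
    rgC (GT a) X ζ q X t ≤ tupL a B X q t + NC q (∑ i, (a i).natAbs) t := by
  classical
  rw [tupL_eq a B X q t ht]
  unfold rgC NC
  have hXr : (3 : ℝ) ≤ X := by exact_mod_cast hX
  have hBpos : (0 : ℝ) < B := lt_of_lt_of_le (by positivity) hB1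
  have hBζ : 1 / (B : ℝ) ≤ ζ := by
    rw [div_le_iff₀ hζ] at hB1
    rw [div_le_iff₀ hBpos]
    linarith
  rw [← Nat.cast_add]
  apply Nat.cast_le.2
  refine le_trans (card_le_card ?_) (card_union_le _ _)
  intro N hN
  rw [mem_filter, mem_filter] at hN
  rw [mem_union, mem_filter, mem_filter]
  by_cases h : N < ∑ i, (a i).natAbs
  · exact Or.inr ⟨mem_range.2 h, hN.1.2⟩
  · left
    refine ⟨hN.1.1, hN.1.2, fun i => ?_⟩
    have h3 : (a i).natAbs ≤ ∑ i, (a i).natAbs :=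
      single_le_sum (f := fun i => (a i).natAbs) (fun _ _ => Nat.zero_le _) (mem_univ i)
    have hNX : N < X := mem_range.1 hN.1.1
    have hpos : 0 < ((N + 1 : ℕ) : ℤ) + a i := by omega
    have hbig : ∀ p : ℕ, p.Prime → (p : ℤ) ∣ ((N + 1 : ℕ) : ℤ) + a i → (X : ℝ) ^ ζ ≤ p := by
      intro p hp hd
      by_contra hlt
      rw [not_le] at hlt
      by_cases hpq : p ∣ q
      · have h5 : ((N + 1 : ℕ) : ℤ) = (q : ℤ) * ((N + 1) / q : ℕ) + t := by
          have := Nat.div_add_mod (N + 1) q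
          rw [hN.1.2] at this
          exact_mod_cast this.symm
        have hpq' : (p : ℤ) ∣ q := by exact_mod_cast hpq
        have h6 : (p : ℤ) ∣ (t : ℤ) + a i := by
          rw [h5] at hd
          have h7 : (q : ℤ) * ((N + 1) / q : ℕ) + t + a i = (t + a i) + (q : ℤ) * ((N + 1) / q : ℕ) := by
            ring
          rw [h7] at hd
          exact (Int.dvd_add_left (Dvd.dvd.mul_right hpq' _)).1 hd
        have h8 := (hadm i).isUnit_of_dvd' h6 hpq'
        have h9 := Int.isUnit_iff.1 h8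
        have := hp.two_le
        omega
      · have hpX : p ≤ X := by
          have h5 : (X : ℝ) ^ ζ ≤ X := by
            calc (X : ℝ) ^ ζ ≤ (X : ℝ) ^ (1 : ℝ) :=
                  Real.rpow_le_rpow_of_exponent_le (by linarith) hζ1
              _ = X := Real.rpow_one _
          have h6 : (p : ℝ) ≤ X := by linarith
          exact_mod_cast h6
        have h5 : p ∈ PQ X ζ q := by
          unfold PQ PZ
          rw [mem_filter, mem_filter, mem_Icc]
          exact ⟨⟨⟨hp.one_le, hpX⟩, hp, (tt_lt X p ζ (by omega) hp.pos).2 hlt⟩, hpq⟩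
        apply hN.2 p h5
        apply Int.natCast_dvd.1
        rw [GT_eval]
        exact hd.trans (dvd_prod_of_mem (fun i => ((N + 1 : ℕ) : ℤ) + a i) (mem_univ i))
    refine ⟨hpos, ?_, ?_⟩
    · have h5 := omega_le X ζ hX hζ (((N + 1 : ℕ) : ℤ) + a i).toNat (by omega) (by
        have h6 : (((N + 1 : ℕ) : ℤ) + a i).toNat ≤ 2 * X := by omega
        nlinarith) (by
        intro p hp hd
        apply hbig p hp
        have h6 : ((((N + 1 : ℕ) : ℤ) + a i).toNat : ℤ) = ((N + 1 : ℕ) : ℤ) + a i :=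
          Int.toNat_of_nonneg hpos.le
        rw [← h6]
        exact_mod_cast hd)
      exact_mod_cast h5.trans hB1
    · intro p hp hd
      refine le_trans ?_ (hbig p hp hd)
      exact Real.rpow_le_rpow_of_exponent_le (by linarith) hBζ

open Classical in
/-- **almost prime tuples in almost all residue classes** -/
theorem tupL_main (k : ℕ) : ∃ B : ℕ, 1 ≤ B ∧ ∀ a : Fin k → ℤ, Function.Injective a →
    (∀ p : ℕ, p.Prime → (univ.image fun i => a i % (p : ℤ)).card < p) →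
    ∃ δ : ℝ, 0 < δ ∧ ∀ θ : ℝ, θ < 1 → ∃ κ : ℝ, 0 < κ ∧
      ∀ᶠ X : ℕ in atTop, ∀ q : ℕ, 0 < q → (q : ℝ) ≤ (X : ℝ) ^ θ →
      (((range q).filter (fun t : ℕ => (∀ i, IsCoprime ((t : ℤ) + a i) (q : ℤ)) ∧
        (tupL a B X q t : ℝ) < δ * ((X : ℝ) / (clsG (GT a) q * Real.log X ^ k)))).card : ℝ) ≤
      clsG (GT a) q * (X : ℝ) ^ (-κ) := by
  obtain ⟨ζ, hζ0, hζ1, H⟩ := low_cls k
  refine ⟨⌈2 / ζ⌉₊, Nat.one_le_ceil_iff.2 (by positivity), fun a ha hadm => ?_⟩
  have hB : 2 / ζ ≤ (⌈2 / ζ⌉₊ : ℝ) := Nat.le_ceil _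
  have hlt : ∀ p : ℕ, p.Prime → ro (GT a) 0 p < p := fun p hp => by
    rw [ro_GT a p hp]
    exact hadm p hp
  have hle : ∀ p : ℕ, p.Prime → ro (GT a) 0 p ≤ k := fun p hp => ro_GT_le a p hp
  have hw0 : ∀ p : ℕ, p.Prime → ∑ i, ∑ j, (a i - a j).natAbs < p → ro (GT a) 0 p = k :=
    fun p hp h => ro_GT_eq a ha p hp h
  obtain ⟨δ, hδ, H2⟩ := H (GT a) _ hle hlt hw0
  refine ⟨δ / 2, by linarith, fun θ hθ => ?_⟩
  obtain ⟨κ, hκ, H3⟩ := H2 θ hθ
  refine ⟨κ, hκ, ?_⟩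
  set A : ℕ := ∑ i, (a i).natAbs with hA
  have ev1 : ∀ᶠ X : ℕ in atTop, ((A : ℝ) + 1) * Real.log X ^ k ≤
      δ / 2 * (X : ℝ) ^ (1 - θ) := by
    have h1 : Tendsto (fun x : ℝ => Real.log x ^ (k : ℝ) / x ^ (1 - θ)) atTop (nhds 0) := by
      have := isLittleO_log_rpow_rpow_atTop (k : ℝ) (show 0 < 1 - θ by linarith)
      exact this.tendsto_div_nhds_zero
    have h2 := h1.eventually_le_const (show (0 : ℝ) < δ / 2 / ((A : ℝ) + 1) by positivity)
    have h3 := tendsto_natCast_atTop_atTop.eventually (h2.and (eventually_gt_atTop (0 : ℝ)))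
    filter_upwards [h3] with X hX
    obtain ⟨h4, h5⟩ := hX
    have h6 : (0 : ℝ) < (X : ℝ) ^ (1 - θ) := by positivity
    rw [div_le_div_iff₀ h6 (by positivity), Real.rpow_natCast] at h4
    linarith
  filter_upwards [H3, ev1, eventually_ge_atTop 3, eventually_ge_atTop A] with X hX e1 e2 e3 q hq hqX
  refine le_trans ?_ (hX q hq hqX)
  apply Nat.cast_le.2
  apply card_le_card
  intro t ht
  rw [mem_filter] at ht ⊢
  refine ⟨ht.1, ?_⟩
  have htq : t < q := mem_range.1 ht.1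
  set x : ℝ := (X : ℝ) with hx
  have hx3 : (3 : ℝ) ≤ x := by rw [hx]; exact_mod_cast e2
  have hx0 : 0 < x := by linarith
  have hx1 : 1 < x := by linarith
  have hlx0 : 0 < Real.log x := Real.log_pos hx1
  have hq0 : (0 : ℝ) < q := by exact_mod_cast hq
  have hqx : (q : ℝ) ≤ x := by
    calc (q : ℝ) ≤ x ^ θ := hqX
      _ ≤ x ^ (1 : ℝ) := Real.rpow_le_rpow_of_exponent_le hx1.le hθ.le
      _ = x := Real.rpow_one _
  have hqXn : q ≤ X := by
    rw [hx] at hqx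
    exact_mod_cast hqx
  obtain ⟨C1, hC1, HC1⟩ := clsG_big k 1 one_pos
  have hbig := HC1 (GT a) q hle hlt hq
  have hcl0 : (0 : ℝ) < clsG (GT a) q := by
    by_contra h
    have h1 : (clsG (GT a) q : ℝ) = 0 := le_antisymm (not_lt.1 h) (Nat.cast_nonneg _)
    rw [h1, mul_zero] at hbig
    linarith
  have hclq : (clsG (GT a) q : ℝ) ≤ q := by exact_mod_cast clsG_le (GT a) q
  have h1 := le_tupL a ⌈2 / ζ⌉₊ X q t ζ hζ0 hζ1 e2 hB e3 htq hqXn ht.2.1
  have h2 := NC_le q A t hq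
  have h3 : (A : ℝ) / q + 1 ≤ δ / 2 * (x / (clsG (GT a) q * Real.log x ^ k)) := by
    have g1 : (A : ℝ) / q + 1 ≤ (A : ℝ) + 1 := by
      have : (A : ℝ) / q ≤ A := div_le_self (Nat.cast_nonneg _) (by exact_mod_cast hq)
      linarith
    refine g1.trans ?_
    rw [← mul_div_assoc, le_div_iff₀ (by positivity)]
    have g2 : x ^ (1 - θ) * x ^ θ = x := by
      rw [← Real.rpow_add hx0, sub_add_cancel, Real.rpow_one]
    calc ((A : ℝ) + 1) * (clsG (GT a) q * Real.log x ^ k) =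
        (((A : ℝ) + 1) * Real.log x ^ k) * clsG (GT a) q := by ring
      _ ≤ (δ / 2 * x ^ (1 - θ)) * x ^ θ :=
          mul_le_mul e1 (hclq.trans hqX) hcl0.le (by positivity)
      _ = δ / 2 * x := by rw [mul_assoc, g2]
  have h4 := ht.2.2
  have h5 : δ * (x / (clsG (GT a) q * Real.log x ^ k)) =
      δ / 2 * (x / (clsG (GT a) q * Real.log x ^ k)) +
        δ / 2 * (x / (clsG (GT a) q * Real.log x ^ k)) := by ring
  linarith

end Pool.Agent.H662.RC
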