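import Pool.Agent.H662.RC.TupL

/-! Sieves of dimension `k` in almost all residue classes, uniformly in the polynomial. -/

set_option autoImplicit false

namespace Pool.Agent.H662.RC

open Filter Finset Topology Polynomial
open Pool.Agent.W23.DC
open Pool.Agent.Y882
open Pool.Agent.Y882.PX
open Pool.Agent.Y882.SI
open Pool.Agent.Y882.JR
open Pool.Agent.Y781.JR
open Pool.Agent.H662

/-- uniform lower bound for the product of the densities -/
theorem lo_unif (k : ℕ) (η : ℝ) (hη : 0 < η) : ∀ᶠ N : ℕ in atTop, ∀ G : ℤ[X],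
    (∀ p : ℕ, p.Prime → ro G 0 p ≤ k) → (∀ p : ℕ, p.Prime → ro G 0 p < p) →
      16 * (N : ℝ) ^ (-η) ≤ lo G N := by
  have hk0 : (0 : ℝ) ≤ k := Nat.cast_nonneg k
  set E : ℝ := Real.exp (-Real.eulerMascheroniConstant) with hE
  have hE0 : 0 < E := Real.exp_pos _
  have ev1 : ∀ᶠ N : ℕ in atTop, E / 2 < GG (N + 1) * Real.log N :=
    GG_mertens.eventually_const_lt (by linarith)
  set c0 : ℝ := (1 / ((k : ℝ) + 1)) ^ (2 * k) * (E / 2) ^ (2 * k) with hc0
  have hc00 : 0 < c0 := by positivity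
  have ev2 : ∀ᶠ N : ℕ in atTop, 16 * Real.log N ^ (2 * k) ≤ c0 * (N : ℝ) ^ η := by
    have h1 : Tendsto (fun x : ℝ => Real.log x ^ ((2 * k : ℕ) : ℝ) / x ^ η) atTop (nhds 0) := by
      have := isLittleO_log_rpow_rpow_atTop (((2 * k : ℕ) : ℝ)) hη
      exact this.tendsto_div_nhds_zero
    have h2 := h1.eventually_le_const (show (0 : ℝ) < c0 / 16 by positivity)
    have h3 := tendsto_natCast_atTop_atTop.eventually (h2.and (eventually_gt_atTop (0 : ℝ)))
    filter_upwards [h3] with X hX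
    obtain ⟨h4, h5⟩ := hX
    have h6 : (0 : ℝ) < (X : ℝ) ^ η := by positivity
    rw [div_le_iff₀ h6, Real.rpow_natCast] at h4
    linarith
  filter_upwards [ev1, ev2, eventually_ge_atTop 3] with N e1 e2 e3 G hle hlt
  have hNr : (3 : ℝ) ≤ N := by exact_mod_cast e3
  have hN0 : (0 : ℝ) < N := by linarith
  have hlN : 0 < Real.log N := Real.log_pos (by linarith)
  have hS : (Icc 1 N).filter Nat.Prime = (range (N + 1)).filter Nat.Prime := by
    ext p
    rw [mem_filter, mem_filter, mem_Icc, mem_range]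
    constructor
    · rintro ⟨⟨_, h2⟩, h3⟩
      exact ⟨by omega, h3⟩
    · rintro ⟨h2, h3⟩
      exact ⟨⟨h3.one_le, by omega⟩, h3⟩
  have hfac : ∀ p ∈ (range (N + 1)).filter Nat.Prime,
      (if p < 2 * k then 1 / ((k : ℝ) + 1) else 1) * (1 - 1 / (p : ℝ)) ^ (2 * k) ≤
        1 - (ro G 0 p : ℝ) / p := by
    intro p hp
    have hpp := (mem_filter.1 hp).2
    have hp2 : (2 : ℝ) ≤ p := by exact_mod_cast hpp.two_le
    have hp0 : (0 : ℝ) < p := by linarith
    have e1 : (ro G 0 p : ℝ) + 1 ≤ p := by exact_mod_cast hlt p hpp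
    have e2 : (ro G 0 p : ℝ) ≤ k := by exact_mod_cast hle p hpp
    have e0 : (0 : ℝ) ≤ ro G 0 p := Nat.cast_nonneg _
    have g1 : 0 ≤ 1 - 1 / (p : ℝ) := by
      rw [sub_nonneg, div_le_one hp0]
      linarith
    have g2 : (1 - 1 / (p : ℝ)) ^ (2 * k) ≤ 1 := pow_le_one₀ g1 (by
      have : 0 ≤ 1 / (p : ℝ) := by positivity
      linarith)
    split_ifs with h
    · have g3 : 1 / ((k : ℝ) + 1) ≤ 1 - (ro G 0 p : ℝ) / p := by
        rw [div_le_iff₀ (by linarith)]
        have e3 : (1 - (ro G 0 p : ℝ) / p) * (k + 1) = ((p - ro G 0 p) * (k + 1)) / p := by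
          field_simp
        rw [e3, le_div_iff₀ hp0]
        nlinarith
      calc 1 / ((k : ℝ) + 1) * (1 - 1 / (p : ℝ)) ^ (2 * k) ≤ 1 / ((k : ℝ) + 1) * 1 :=
            mul_le_mul_of_nonneg_left g2 (by positivity)
        _ ≤ _ := by rw [mul_one]; exact g3
    · rw [one_mul]
      have hpk : (2 : ℝ) * k ≤ p := by exact_mod_cast not_lt.1 h
      have g3 : (k : ℝ) / p ≤ 1 / 2 := by
        rw [div_le_div_iff₀ hp0 (by norm_num)]
        linarith
      have g4 := Pool.Agent.Helper112.LP.Kbh.bh_inv_ge (x := (k : ℝ) / p) (by positivity) g3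
      have g5 : (1 - 1 / (p : ℝ)) ^ (2 * k) ≤ Real.exp (-(2 * ((k : ℝ) / p))) := by
        have g6 : 1 - 1 / (p : ℝ) ≤ Real.exp (-(1 / (p : ℝ))) := by
          have := Real.add_one_le_exp (-(1 / (p : ℝ)))
          linarith
        calc (1 - 1 / (p : ℝ)) ^ (2 * k) ≤ Real.exp (-(1 / (p : ℝ))) ^ (2 * k) :=
              pow_le_pow_left₀ g1 g6 _
          _ = Real.exp (-(2 * ((k : ℝ) / p))) := by
              rw [← Real.exp_nat_mul]
              congr 1
              push_cast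
              ring
      have g7 : (ro G 0 p : ℝ) / p ≤ k / p := div_le_div_of_nonneg_right e2 hp0.le
      linarith
  have hprod : (1 / ((k : ℝ) + 1)) ^ (2 * k) * GG (N + 1) ^ (2 * k) ≤ lo G N := by
    unfold lo
    rw [hS]
    refine le_trans ?_ (prod_le_prod (fun p hp => ?_) hfac)
    · rw [prod_mul_distrib, prod_pow]
      have h5 : GG (N + 1) = ∏ p ∈ (range (N + 1)).filter Nat.Prime, (1 - 1 / (p : ℝ)) := rfl
      rw [← h5]
      apply mul_le_mul_of_nonneg_right _ (pow_nonneg (GG_pos _).le _)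
      rw [prod_ite, prod_const, prod_const_one, mul_one]
      apply pow_le_pow_of_le_one (by positivity)
      · rw [div_le_one (by linarith)]
        linarith
      · have h8 : (((range (N + 1)).filter Nat.Prime).filter (fun p => p < 2 * k)) ⊆
            range (2 * k) := by
          intro p hp
          rw [mem_filter] at hp
          exact mem_range.2 hp.2
        have h9 := card_le_card h8
        rwa [card_range] at h9
    · have hpp := (mem_filter.1 hp).2
      have hp2 : (2 : ℝ) ≤ p := by exact_mod_cast hpp.two_le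
      have g1 : 0 ≤ 1 - 1 / (p : ℝ) := by
        rw [sub_nonneg, div_le_one (by linarith)]
        linarith
      split_ifs <;> positivity
  refine le_trans ?_ hprod
  have h6 : (E / 2) ^ (2 * k) ≤ GG (N + 1) ^ (2 * k) * Real.log N ^ (2 * k) := by
    rw [← mul_pow]
    exact pow_le_pow_left₀ (by positivity) e1.le _
  have h7 : (N : ℝ) ^ (-η) * (N : ℝ) ^ η = 1 := by
    rw [← Real.rpow_add hN0, neg_add_cancel, Real.rpow_zero]
  have hl2 : 0 < Real.log N ^ (2 * k) := by positivity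
  refine le_of_mul_le_mul_right ?_ hl2
  calc 16 * (N : ℝ) ^ (-η) * Real.log N ^ (2 * k) = (N : ℝ) ^ (-η) * (16 * Real.log N ^ (2 * k)) := by
        ring
    _ ≤ (N : ℝ) ^ (-η) * (c0 * (N : ℝ) ^ η) := mul_le_mul_of_nonneg_left e2 (by positivity)
    _ = c0 * ((N : ℝ) ^ (-η) * (N : ℝ) ^ η) := by ring
    _ = (1 / ((k : ℝ) + 1)) ^ (2 * k) * (E / 2) ^ (2 * k) := by rw [h7, mul_one]
    _ ≤ (1 / ((k : ℝ) + 1)) ^ (2 * k) * (GG (N + 1) ^ (2 * k) * Real.log N ^ (2 * k)) :=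
        mul_le_mul_of_nonneg_left h6 (by positivity)
    _ = _ := by ring

open Classical in
/-- **the engine, uniform in the polynomial** -/
theorem low_unif (k : ℕ) : ∃ ζ : ℝ, 0 < ζ ∧ ζ ≤ 1 ∧ ∀ θ : ℝ, θ < 1 → ∃ κ : ℝ, 0 < κ ∧
      ∀ᶠ X : ℕ in atTop, ∀ G : ℤ[X], (∀ p : ℕ, p.Prime → ro G 0 p ≤ k) →
      (∀ p : ℕ, p.Prime → ro G 0 p < p) → ∀ q : ℕ, 0 < q → (q : ℝ) ≤ (X : ℝ) ^ θ →
      (((range q).filter (fun t : ℕ => rgC G X ζ q X t <
        1 / 16 * ((X : ℝ) * lo G X / clsG G q))).card : ℝ) ≤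
      clsG G q * (X : ℝ) ^ (-κ) := by
  obtain ⟨C0, hC0, HW⟩ := low_weights k
  have hC0r : (1 : ℝ) ≤ C0 := by exact_mod_cast hC0
  set ζ : ℝ := 1 / (8 * (C0 : ℝ) ^ 2) with hζ
  have hζ0 : 0 < ζ := by positivity
  have hζ1 : ζ ≤ 1 / 8 := by
    rw [hζ]
    apply one_div_le_one_div_of_le (by norm_num)
    nlinarith
  refine ⟨ζ, hζ0, by linarith, fun θ hθ1 => ?_⟩
  set W : ℕ := ∏ p ∈ Sm C0, p with hW
  set η : ℝ := (1 - θ) / 4 with hη
  have hη0 : 0 < η := by
    rw [hη]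
    linarith
  obtain ⟨Y1, HF⟩ := few_errU k η hη0
  obtain ⟨C1, hC1, HC1⟩ := clsG_big k (η / 2) (by linarith)
  obtain ⟨Y2, HJ⟩ := exJ ζ hζ0
  obtain ⟨Y3, HL⟩ := clsG_low k ζ hζ0
  refine ⟨η, hη0, ?_⟩
  have hlog : Tendsto (fun N : ℕ => Real.log N) atTop atTop :=
    Real.tendsto_log_atTop.comp tendsto_natCast_atTop_atTop
  have hpw : ∀ s : ℝ, 0 < s → Tendsto (fun N : ℕ => (N : ℝ) ^ s) atTop atTop := fun s hs =>
    (tendsto_rpow_atTop hs).comp tendsto_natCast_atTop_atTop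
  have ev1 : ∀ᶠ X : ℕ in atTop, (W : ℝ) ≤ (X : ℝ) ^ (1 / 4 : ℝ) :=
    (hpw _ (by norm_num)).eventually_ge_atTop _
  have ev2 : ∀ᶠ X : ℕ in atTop, 2 ≤ (X : ℝ) ^ (1 - θ) :=
    (hpw _ (by linarith)).eventually_ge_atTop _
  have ev3 : ∀ᶠ X : ℕ in atTop, 2 * C1 ≤ (X : ℝ) ^ η := (hpw _ hη0).eventually_ge_atTop _
  have ev4 : ∀ᶠ X : ℕ in atTop, 3 * Real.log X ≤ (X : ℝ) ^ (η / 64) := by
    have h1 := (isLittleO_log_rpow_atTop (show 0 < η / 64 by linarith)).bound
      (show (0 : ℝ) < 1 / 3 by norm_num)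
    filter_upwards [tendsto_natCast_atTop_atTop.eventually h1, eventually_ge_atTop 1] with Y hY hY1
    have hY1r : (1 : ℝ) ≤ Y := by exact_mod_cast hY1
    rw [Real.norm_of_nonneg (Real.log_nonneg hY1r), Real.norm_of_nonneg (by positivity)] at hY
    linarith
  have ev5 := lo_unif k (η / 16) (by linarith)
  filter_upwards [ev1, ev2, ev3, ev4, ev5, eventually_ge_atTop Y1, eventually_ge_atTop Y2,
    eventually_ge_atTop Y3, eventually_ge_atTop 3] with X e1 e2 e3 e4 e5' e7 e8 e9 e10 G hle hlt q hq hqX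
  have e5 := e5' G hle hlt
  set x : ℝ := (X : ℝ) with hx
  have hx3 : (3 : ℝ) ≤ x := by rw [hx]; exact_mod_cast e10
  have hx0 : 0 < x := by linarith
  have hx1 : 1 < x := by linarith
  have hlx1 : 1 ≤ Real.log x := by
    rw [Real.le_log_iff_exp_le hx0]
    linarith [Real.exp_one_lt_d9]
  have hq0 : (0 : ℝ) < q := by exact_mod_cast hq
  have hq1 : (1 : ℝ) ≤ q := by exact_mod_cast hq
  have hqx : (q : ℝ) ≤ x := by
    calc (q : ℝ) ≤ x ^ θ := hqX
      _ ≤ x ^ (1 : ℝ) := Real.rpow_le_rpow_of_exponent_le hx1.le hθ1.le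
      _ = x := Real.rpow_one _
  have hqXn : q ≤ X := by
    rw [hx] at hqx
    exact_mod_cast hqx
  have hqη : (q : ℝ) ^ (η / 2) ≤ x ^ (η / 2) := Real.rpow_le_rpow hq0.le hqx (by linarith)
  -- the weights
  obtain ⟨J, hJ1, hJ2⟩ := HJ X e8
  have hPQp : ∀ p ∈ PQ X ζ q, p.Prime ∧ ¬ p ∣ q ∧ (p : ℝ) < x ^ ζ := by
    intro p hp
    unfold PQ at hp
    rw [mem_filter] at hp
    have hpp := PZ_prime X ζ p hp.1
    refine ⟨hpp, hp.2, ?_⟩
    have h1 := hp.1
    unfold PZ at h1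
    rw [mem_filter] at h1
    exact (tt_lt X p ζ (by omega) hpp.pos).1 h1.2.2
  obtain ⟨c, c1', c2, c3, c4⟩ := HW J (PQ X ζ q) (fun p hp => by
    obtain ⟨h1, h2, h3⟩ := hPQp p hp
    refine ⟨h1, ?_⟩
    have h4 : (p : ℝ) ≤ ((2 ^ 2 ^ J : ℕ) : ℝ) := by
      push_cast
      linarith
    exact_mod_cast h4)
  have hJs : (J : ℝ) + 1 ≤ 3 * Real.log x := by
    have h1 : (2 : ℝ) ^ 2 ^ J ≤ x := by
      calc (2 : ℝ) ^ 2 ^ J ≤ x ^ (2 * ζ) := hJ2
        _ ≤ x ^ (1 : ℝ) := Real.rpow_le_rpow_of_exponent_le hx1.le (by linarith)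
        _ = x := Real.rpow_one _
    have h2 := Real.log_le_log (by positivity) h1
    rw [Real.log_pow] at h2
    have h3 : (J : ℝ) + 1 ≤ ((2 ^ J : ℕ) : ℝ) := by
      exact_mod_cast (Nat.lt_two_pow_self : J < 2 ^ J)
    have h4 := Real.log_two_gt_d9
    have h5 : ((2 ^ J : ℕ) : ℝ) * (1 / 2) ≤ ((2 ^ J : ℕ) : ℝ) * Real.log 2 :=
      mul_le_mul_of_nonneg_left (by linarith) (Nat.cast_nonneg _)
    linarith
  have hcb : ∀ T, |c T| ≤ (X : ℝ) ^ (η / 64) := fun T => (c1' T).trans (hJs.trans e4)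
  have hsupp : ∀ T ⊆ PQ X ζ q, c T ≠ 0 → ((∏ p ∈ T, p : ℕ) : ℝ) ≤ (X : ℝ) ^ (1 / 2 : ℝ) := by
    intro T hT hcT
    have h1 := c2 T hT hcT
    have h2 : ((∏ p ∈ T, p : ℕ) : ℝ) ≤ (W : ℝ) * ((2 : ℝ) ^ 2 ^ J) ^ (C0 ^ 2) := by
      exact_mod_cast h1
    refine h2.trans ?_
    calc (W : ℝ) * ((2 : ℝ) ^ 2 ^ J) ^ (C0 ^ 2) ≤ x ^ (1 / 4 : ℝ) * (x ^ (2 * ζ)) ^ (C0 ^ 2) := by
          apply mul_le_mul e1 _ (by positivity) (by positivity)
          exact pow_le_pow_left₀ (by positivity) hJ2 _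
      _ = x ^ (1 / 2 : ℝ) := by
          rw [← Real.rpow_natCast (x ^ (2 * ζ)), ← Real.rpow_mul hx0.le, ← Real.rpow_add hx0]
          congr 1
          rw [hζ]
          push_cast
          field_simp
          norm_num
  have hfew := HF X e7 (1 / 2) (by norm_num) (by norm_num) G (PQ X ζ q) c X q (x / q)
    (fun p hp => (hPQp p hp).1) (fun p hp => hle p (hPQp p hp).1) (fun p hp => (hPQp p hp).2.1) hcb
    hsupp hq hqXn (by positivity)
  -- the classes
  have hbig := HC1 G q hle hlt hq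
  have hcl0 : (0 : ℝ) < clsG G q := by
    by_contra h
    have h1 : (clsG G q : ℝ) = 0 := le_antisymm (not_lt.1 h) (Nat.cast_nonneg _)
    rw [h1, mul_zero] at hbig
    linarith
  have hclq : (clsG G q : ℝ) ≤ q := by exact_mod_cast clsG_le G q
  have hlow := HL X e9 G q hle hq hqXn
  have hlv := lo_vvG G X ζ
  have hsub : (range q).filter (fun t : ℕ => rgC G X ζ q X t <
        1 / 16 * (x * lo G X / clsG G q)) ⊆
      (range q).filter (fun a => x / q * (X : ℝ) ^ (-(η / 16)) <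
        |TC (UU G (PQ X ζ q) c) q X a|) := by
    intro t ht
    rw [mem_filter] at ht ⊢
    refine ⟨ht.1, ?_⟩
    by_contra hcon
    rw [not_lt] at hcon
    have htq : t < q := mem_range.1 ht.1
    have h1 := wsumC G (PQ X ζ q) (fun p hp => (hPQp p hp).1) c q X t
    have h2 : ∑ N ∈ (range X).filter (fun N => (N + 1) % q = t),
        VV (PQ X ζ q) c (fun p => if p ∣ (G.eval ((N + 1 : ℕ) : ℤ)).natAbs then 1 else 0) ≤
        rgC G X ζ q X t := by
      unfold rgC
      rw [card_filter]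
      push_cast
      apply sum_le_sum
      intro N _
      refine (c3 _).trans (le_of_eq ?_)
      push_cast
      by_cases hh : ∀ p ∈ PQ X ζ q, ¬ p ∣ (G.eval ((N : ℤ) + 1)).natAbs
      · rw [if_pos hh]
      · rw [if_neg hh]
    have h3 := c4 (fun p => (ro G 0 p : ℝ) / p) (fun p hp => by
      have hpp := (hPQp p hp).1
      have hp2 : (2 : ℝ) ≤ p := by exact_mod_cast hpp.two_le
      have g1 : (ro G 0 p : ℝ) ≤ k := by exact_mod_cast hle p hpp
      have g2 : (ro G 0 p : ℝ) ≤ p := by exact_mod_cast (hlt p hpp).le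
      refine ⟨by positivity, (div_le_one (by linarith)).2 g2, ?_⟩
      exact div_le_div₀ (Nat.cast_nonneg _) g1 (by linarith) (by linarith))
    have h4 : vC G X ζ q ≤ 2 * VV (PQ X ζ q) c (fun p => (ro G 0 p : ℝ) / p) := by
      unfold vC
      linarith
    have h5 := neg_abs_le (TC (UU G (PQ X ζ q) c) q X t)
    have h6 : x / (2 * q) ≤ NC q X t := by
      have g1 := le_NC q X t hq htq
      have g2 : x / q - 1 ≤ ((X / q : ℕ) : ℝ) := by
        have g3 := Nat.lt_div_mul_add (a := X) hq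
        have g4 : (X : ℝ) < ((X / q : ℕ) : ℝ) * q + q := by exact_mod_cast g3
        rw [sub_le_iff_le_add, div_le_iff₀ hq0]
        rw [hx]
        nlinarith
      have g5 : ((X / q : ℕ) : ℝ) ≤ NC q X t := by exact_mod_cast g1
      have g6 : 2 ≤ x / q := by
        rw [le_div_iff₀ hq0]
        have g7 : x ^ (1 - θ) * x ^ θ = x := by
          rw [← Real.rpow_add hx0, sub_add_cancel, Real.rpow_one]
        calc 2 * (q : ℝ) ≤ x ^ (1 - θ) * x ^ θ := mul_le_mul e2 hqX hq0.le (by positivity)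
          _ = x := g7
      have g8 : x / (2 * q) = x / q / 2 := by
        rw [div_div, mul_comm (q : ℝ) 2]
      linarith
    have hlo0 : 0 < lo G X := lt_of_lt_of_le (by positivity) e5
    have h7 : lo G X * (q / 2) ≤ clsG G q * vC G X ζ q := by
      calc lo G X * ((q : ℝ) / 2) ≤ vv G X ζ * (q / 2) :=
            mul_le_mul_of_nonneg_right hlv (by positivity)
        _ = (q : ℝ) / 2 * vv G X ζ := by ring
        _ ≤ _ := hlow
    have h8 : lo G X * (q / 2) / clsG G q ≤ vC G X ζ q := by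
      rw [div_le_iff₀ hcl0]
      linarith
    have h9 : 1 / 8 * (x * lo G X / clsG G q) ≤
        NC q X t * VV (PQ X ζ q) c (fun p => (ro G 0 p : ℝ) / p) := by
      calc 1 / 8 * (x * lo G X / clsG G q) =
          x / (2 * q) * ((lo G X * (q / 2) / clsG G q) / 2) := by
            field_simp
            norm_num
        _ ≤ NC q X t * VV (PQ X ζ q) c (fun p => (ro G 0 p : ℝ) / p) := by
            apply mul_le_mul h6 _ (by positivity) (Nat.cast_nonneg _)
            linarith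
    have h10 : x / q * x ^ (-(η / 16)) ≤ 1 / 16 * (x * lo G X / clsG G q) := by
      calc x / q * x ^ (-(η / 16)) ≤ x / clsG G q * (1 / 16 * lo G X) := by
            apply mul_le_mul _ (by linarith) (by positivity) (by positivity)
            exact div_le_div_of_nonneg_left hx0.le hcl0 hclq
        _ = _ := by
            field_simp
    have h11 := ht.2
    have h12 : 1 / 8 * (x * lo G X / clsG G q) =
        1 / 16 * (x * lo G X / clsG G q) + 1 / 16 * (x * lo G X / clsG G q) := by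
      ring
    rw [h1] at h2
    linarith
  have hcard : (((range q).filter (fun t : ℕ => rgC G X ζ q X t <
        1 / 16 * (x * lo G X / clsG G q))).card : ℝ) ≤
      (x + x ^ (2 * (1 / 2 : ℝ))) / (x / q) ^ 2 * x ^ (η / 2) :=
    le_trans (by exact_mod_cast card_le_card hsub) hfew
  refine hcard.trans ?_
  have k0 : x ^ (2 * (1 / 2 : ℝ)) = x := by norm_num
  rw [k0]
  have k1 : (x + x) / (x / q) ^ 2 = 2 * q * (q / x) := by
    field_simp
    ring
  have k2 : (q : ℝ) / x ≤ x ^ (θ - 1) := by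
    rw [div_le_iff₀ hx0]
    have : x ^ (θ - 1) * x = x ^ θ := by
      nth_rewrite 2 [← Real.rpow_one x]
      rw [← Real.rpow_add hx0, sub_add_cancel]
    rw [this]
    exact hqX
  rw [k1]
  calc 2 * (q : ℝ) * (q / x) * x ^ (η / 2) ≤ 2 * q * x ^ (θ - 1) * x ^ (η / 2) := by
        gcongr
    _ ≤ 2 * (C1 * (q : ℝ) ^ (η / 2) * clsG G q) * x ^ (θ - 1) * x ^ (η / 2) := by
        gcongr
    _ ≤ 2 * (C1 * x ^ (η / 2) * clsG G q) * x ^ (θ - 1) * x ^ (η / 2) := by
        gcongr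
    _ = (2 * C1) * (clsG G q * (x ^ (η / 2) * x ^ (θ - 1) * x ^ (η / 2))) := by ring
    _ ≤ x ^ η * (clsG G q * (x ^ (η / 2) * x ^ (θ - 1) * x ^ (η / 2))) :=
        mul_le_mul_of_nonneg_right e3 (by positivity)
    _ = clsG G q * x ^ (2 * η + θ - 1) := by
        have k4 : x ^ η * (x ^ (η / 2) * x ^ (θ - 1) * x ^ (η / 2)) = x ^ (2 * η + θ - 1) := by
          rw [← Real.rpow_add hx0, ← Real.rpow_add hx0, ← Real.rpow_add hx0]
          congr 1
          ring
        rw [← k4]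
        ring
    _ ≤ clsG G q * x ^ (-η) := by
        apply mul_le_mul_of_nonneg_left _ hcl0.le
        apply Real.rpow_le_rpow_of_exponent_le hx1.le
        rw [hη]
        linarith

end Pool.Agent.H662.RC
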