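import Pool.Agent.H662.RC.TupU
import Pool.Agent.H662.RC.TupM

/-! Almost prime tuples in almost all residue classes, uniformly in the shifts. -/

set_option autoImplicit false

namespace Pool.Agent.H662.RC

open Filter Finset Topology Polynomial
open Pool.Agent.W23.DC
open Pool.Agent.Y882
open Pool.Agent.Y882.PX
open Pool.Agent.Y882.SI
open Pool.Agent.Y882.JR
open Pool.Agent.H662

open Classical in
/-- the number of the `n ≤ X`, `n ≡ t mod q`, at which the `|n + a i|` are almost primes -/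
noncomputable def tupU {k : ℕ} (a : Fin k → ℤ) (B X q t : ℕ) : ℕ :=
  ((Icc 1 X).filter (fun n : ℕ => n ≡ t [MOD q] ∧ ∀ i, (n : ℤ) + a i ≠ 0 ∧
    ((n : ℤ) + a i).natAbs.primeFactorsList.length ≤ B ∧
      ∀ p : ℕ, p.Prime → (p : ℤ) ∣ (n : ℤ) + a i → (X : ℝ) ^ (1 / (B : ℝ)) ≤ p)).card

open Classical in
theorem tupU_eq {k : ℕ} (a : Fin k → ℤ) (B X q t : ℕ) (ht : t < q) : tupU a B X q t =
    ((range X).filter (fun N : ℕ => (N + 1) % q = t ∧ ∀ i, ((N + 1 : ℕ) : ℤ) + a i ≠ 0 ∧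
    (((N + 1 : ℕ) : ℤ) + a i).natAbs.primeFactorsList.length ≤ B ∧
      ∀ p : ℕ, p.Prime → (p : ℤ) ∣ ((N + 1 : ℕ) : ℤ) + a i → (X : ℝ) ^ (1 / (B : ℝ)) ≤ p)).card := by
  unfold tupU
  symm
  apply card_bij' (i := fun (N : ℕ) _ => N + 1) (j := fun (n : ℕ) _ => n - 1)
  · intro N hN
    rw [mem_filter, mem_range] at hN
    rw [mem_filter, mem_Icc]
    refine ⟨⟨by omega, by omega⟩, ?_, hN.2.2⟩
    unfold Nat.ModEq
    rw [hN.2.1, Nat.mod_eq_of_lt ht]
  · intro n hn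
    rw [mem_filter, mem_Icc] at hn
    rw [mem_filter, mem_range]
    have h1 : n - 1 + 1 = n := by omega
    rw [h1]
    refine ⟨by omega, ?_, hn.2.2⟩
    have h2 := hn.2.1
    unfold Nat.ModEq at h2
    rw [h2, Nat.mod_eq_of_lt ht]
  · intro N _
    show N + 1 - 1 = N
    omega
  · intro n hn
    rw [mem_filter, mem_Icc] at hn
    show n - 1 + 1 = n
    omega

theorem le_tupU {k : ℕ} (a : Fin k → ℤ) (B X q t : ℕ) (ζ : ℝ) (hζ : 0 < ζ) (hζ1 : ζ ≤ 1)
    (hX : 3 ≤ X) (hB1 : 2 / ζ ≤ B) (haX : ∀ i, |a i| ≤ X) (ht : t < q)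
    (hadm : ∀ i, IsCoprime ((t : ℤ) + a i) (q : ℤ)) :
    rgC (GT a) X ζ q X t ≤ tupU a B X q t + k := by
  classical
  rw [tupU_eq a B X q t ht]
  unfold rgC
  have hXr : (3 : ℝ) ≤ X := by exact_mod_cast hX
  have hBpos : (0 : ℝ) < B := lt_of_lt_of_le (by positivity) hB1
  have hBζ : 1 / (B : ℝ) ≤ ζ := by
    rw [div_le_iff₀ hζ] at hB1
    rw [div_le_iff₀ hBpos]
    linarith
  rw [← Nat.cast_add]
  apply Nat.cast_le.2
  have hk : (univ.image (fun i => (-(a i) - 1).toNat)).card ≤ k := by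
    refine card_image_le.trans ?_
    simp
  refine le_trans (le_trans (card_le_card ?_) (card_union_le _ _))
    (Nat.add_le_add_left hk _)
  intro N hN
  rw [mem_filter, mem_filter] at hN
  rw [mem_union, mem_filter]
  by_cases h : ∃ i, ((N + 1 : ℕ) : ℤ) + a i = 0
  · right
    obtain ⟨i, hi⟩ := h
    rw [mem_image]
    refine ⟨i, mem_univ i, ?_⟩
    push_cast at hi
    omega
  · left
    push Not at h
    refine ⟨hN.1.1, hN.1.2, fun i => ?_⟩
    have hNX : N < X := mem_range.1 hN.1.1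
    have hne := h i
    have hai := abs_le.1 (haX i)
    have hbig : ∀ p : ℕ, p.Prime → (p : ℤ) ∣ ((N + 1 : ℕ) : ℤ) + a i → (X : ℝ) ^ ζ ≤ p := by
      intro p hp hd
      by_contra hlt
      rw [not_le] at hlt
      by_cases hpq : p ∣ q
      · have h5 : ((N + 1 : ℕ) : ℤ) = (q : ℤ) * ((N + 1) / q : ℕ) + t := by
          have := Nat.div_add_mod (N + 1) q
          rw [hN.1.2] at this
          exact_mod_cast this.symm
        have hpq' : (p : ℤ) ∣ q := by exact_mod_cast hpq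
        have h6 : (p : ℤ) ∣ (t : ℤ) + a i := by
          rw [h5] at hd
          have h7 : (q : ℤ) * ((N + 1) / q : ℕ) + t + a i = (t + a i) + (q : ℤ) * ((N + 1) / q : ℕ) := by
            ring
          rw [h7] at hd
          exact (Int.dvd_add_left (Dvd.dvd.mul_right hpq' _)).1 hd
        have h8 := (hadm i).isUnit_of_dvd' h6 hpq'
        have h9 := Int.isUnit_iff.1 h8
        have := hp.two_le
        omega
      · have hpX : p ≤ X := by
          have h5 : (X : ℝ) ^ ζ ≤ X := by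
            calc (X : ℝ) ^ ζ ≤ (X : ℝ) ^ (1 : ℝ) :=
                  Real.rpow_le_rpow_of_exponent_le (by linarith) hζ1
              _ = X := Real.rpow_one _
          have h6 : (p : ℝ) ≤ X := by linarith
          exact_mod_cast h6
        have h5 : p ∈ PQ X ζ q := by
          unfold PQ PZ
          rw [mem_filter, mem_filter, mem_Icc]
          exact ⟨⟨⟨hp.one_le, hpX⟩, hp, (tt_lt X p ζ (by omega) hp.pos).2 hlt⟩, hpq⟩
        apply hN.2 p h5
        apply Int.natCast_dvd.1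
        rw [GT_eval]
        exact hd.trans (dvd_prod_of_mem (fun i => ((N + 1 : ℕ) : ℤ) + a i) (mem_univ i))
    refine ⟨hne, ?_, ?_⟩
    · have h5 := omega_le X ζ hX hζ (((N + 1 : ℕ) : ℤ) + a i).natAbs (Int.natAbs_ne_zero.2 hne) (by
        have h6 : (((N + 1 : ℕ) : ℤ) + a i).natAbs ≤ 2 * X := by omega
        nlinarith) (by
        intro p hp hd
        exact hbig p hp (Int.natCast_dvd.2 hd))
      exact_mod_cast h5.trans hB1
    · intro p hp hd
      refine le_trans ?_ (hbig p hp hd)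
      exact Real.rpow_le_rpow_of_exponent_le (by linarith) hBζ

open Classical in
/-- **almost prime tuples in almost all residue classes, uniformly in the shifts** -/
theorem tupU_main (k : ℕ) : ∃ B : ℕ, 1 ≤ B ∧ ∀ θ : ℝ, θ < 1 → ∃ κ : ℝ, 0 < κ ∧
    ∀ᶠ X : ℕ in atTop, ∀ a : Fin k → ℤ, (∀ i, |a i| ≤ X) →
      (∀ p : ℕ, p.Prime → (univ.image fun i => a i % (p : ℤ)).card < p) →
      ∀ q : ℕ, 0 < q → (q : ℝ) ≤ (X : ℝ) ^ θ →
      (((range q).filter (fun t : ℕ => (∀ i, IsCoprime ((t : ℤ) + a i) (q : ℤ)) ∧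
        (tupU a B X q t : ℝ) < 1 / 20 * ((X : ℝ) * lo (GT a) X / clsG (GT a) q))).card : ℝ) ≤
      clsG (GT a) q * (X : ℝ) ^ (-κ) := by
  obtain ⟨ζ, hζ0, hζ1, H⟩ := low_unif k
  refine ⟨⌈2 / ζ⌉₊, Nat.one_le_ceil_iff.2 (by positivity), fun θ hθ => ?_⟩
  have hB : 2 / ζ ≤ (⌈2 / ζ⌉₊ : ℝ) := Nat.le_ceil _
  obtain ⟨κ, hκ, H3⟩ := H θ hθ
  refine ⟨κ, hκ, ?_⟩
  have hk0 : (0 : ℝ) ≤ k := Nat.cast_nonneg k
  have ev1 : ∀ᶠ X : ℕ in atTop, (5 : ℝ) * k ≤ (X : ℝ) ^ ((1 - θ) / 2) :=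
    ((tendsto_rpow_atTop (by linarith)).comp tendsto_natCast_atTop_atTop).eventually_ge_atTop _
  have ev2 := lo_unif k ((1 - θ) / 2) (by linarith)
  filter_upwards [H3, ev1, ev2, eventually_ge_atTop 3] with X hX e1 e4 e2 a haX hadm q hq hqX
  have hlt : ∀ p : ℕ, p.Prime → ro (GT a) 0 p < p := fun p hp => by
    rw [ro_GT a p hp]
    exact hadm p hp
  have hle : ∀ p : ℕ, p.Prime → ro (GT a) 0 p ≤ k := fun p hp => ro_GT_le a p hp
  refine le_trans ?_ (hX (GT a) hle hlt q hq hqX)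
  have e5 := e4 (GT a) hle hlt
  apply Nat.cast_le.2
  apply card_le_card
  intro t ht
  rw [mem_filter] at ht ⊢
  refine ⟨ht.1, ?_⟩
  have htq : t < q := mem_range.1 ht.1
  set x : ℝ := (X : ℝ) with hx
  have hx3 : (3 : ℝ) ≤ x := by rw [hx]; exact_mod_cast e2
  have hx0 : 0 < x := by linarith
  have hx1 : 1 < x := by linarith
  have hq0 : (0 : ℝ) < q := by exact_mod_cast hq
  obtain ⟨C1, hC1, HC1⟩ := clsG_big k 1 one_pos
  have hbig := HC1 (GT a) q hle hlt hq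
  have hcl0 : (0 : ℝ) < clsG (GT a) q := by
    by_contra h
    have h1 : (clsG (GT a) q : ℝ) = 0 := le_antisymm (not_lt.1 h) (Nat.cast_nonneg _)
    rw [h1, mul_zero] at hbig
    linarith
  have hclq : (clsG (GT a) q : ℝ) ≤ q := by exact_mod_cast clsG_le (GT a) q
  have h1 := le_tupU a ⌈2 / ζ⌉₊ X q t ζ hζ0 hζ1 e2 hB haX htq ht.2.1
  have h3 : (k : ℝ) ≤ 1 / 80 * (x * lo (GT a) X / clsG (GT a) q) := by
    rw [← mul_div_assoc, le_div_iff₀ hcl0]
    have g4 : x ^ ((1 - θ) / 2) * x ^ θ = x * x ^ (-((1 - θ) / 2)) := by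
      have g5 : x * x ^ (-((1 - θ) / 2)) = x ^ (1 : ℝ) * x ^ (-((1 - θ) / 2)) := by
        rw [Real.rpow_one]
      rw [g5, ← Real.rpow_add hx0, ← Real.rpow_add hx0]
      congr 1
      ring
    calc (k : ℝ) * clsG (GT a) q ≤ k * x ^ θ :=
          mul_le_mul_of_nonneg_left (hclq.trans hqX) hk0
      _ ≤ 1 / 5 * (x ^ ((1 - θ) / 2) * x ^ θ) := by
          have : (k : ℝ) * x ^ θ = 1 / 5 * (5 * k * x ^ θ) := by ring
          rw [this]
          apply mul_le_mul_of_nonneg_left _ (by norm_num)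
          exact mul_le_mul_of_nonneg_right e1 (by positivity)
      _ = 1 / 80 * (x * (16 * x ^ (-((1 - θ) / 2)))) := by
          rw [g4]
          ring
      _ ≤ 1 / 80 * (x * lo (GT a) X) := by
          apply mul_le_mul_of_nonneg_left _ (by norm_num)
          exact mul_le_mul_of_nonneg_left e5 hx0.le
  have h4 := ht.2.2
  have h5 : 1 / 16 * (x * lo (GT a) X / clsG (GT a) q) =
      1 / 20 * (x * lo (GT a) X / clsG (GT a) q) + 1 / 80 * (x * lo (GT a) X / clsG (GT a) q) := by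
    ring
  linarith

end Pool.Agent.H662.RC
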