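import Pool.Agent.H662.RC.TupC
import Pool.Agent.H662.RC.TupU

/-! Selberg's sieve of dimension `k`, uniformly in the polynomial: the main term. -/

set_option autoImplicit false

namespace Pool.Agent.H662.RC

open Filter Finset Topology Polynomial
open Pool.Agent.W23.DC
open Pool.Agent.Y882
open Pool.Agent.Y882.PX
open Pool.Agent.Y882.SI
open Pool.Agent.H662

/-- the large primes in use -/
noncomputable def Lq2 (G : ℤ[X]) (w R q : ℕ) : Finset ℕ := (Lg w R).filter (fun p => ¬ p ∣ q ∧ ro G 0 p ≠ 0)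

/-- the divisors in use -/
noncomputable def DB2 (G : ℤ[X]) (w R q : ℕ) : Finset (Finset ℕ) := (Lq2 G w R q).powerset.filter (fun B => ∏ p ∈ B, p ≤ R)

/-- the divisors in use -/
noncomputable def DD2 (G : ℤ[X]) (w R q : ℕ) : Finset (Finset ℕ) :=
  ((Pq G w q).powerset ×ˢ DB2 G w R q).image (fun z => z.1 ∪ z.2)

theorem mem_DDu (G : ℤ[X]) (w R q : ℕ) (T : Finset ℕ) : T ∈ DD2 G w R q ↔
    ∃ A ⊆ Pq G w q, ∃ B ⊆ Lq2 G w R q, ∏ p ∈ B, p ≤ R ∧ A ∪ B = T := by
  unfold DD2 DB2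
  rw [mem_image]
  constructor
  · rintro ⟨⟨A, B⟩, h1, h2⟩
    rw [mem_product, mem_powerset, mem_filter, mem_powerset] at h1
    exact ⟨A, h1.1, B, h1.2.1, h1.2.2, h2⟩
  · rintro ⟨A, hA, B, hB, h1, h2⟩
    refine ⟨(A, B), ?_, h2⟩
    rw [mem_product, mem_powerset, mem_filter, mem_powerset]
    exact ⟨hA, hB, h1⟩

theorem Lq2_prime (G : ℤ[X]) (w R q p : ℕ) (hp : p ∈ Lq2 G w R q) : p.Prime ∧ w < p ∧ p ≤ R ∧ ¬ p ∣ q := by
  unfold Lq2 Lg at hp
  rw [mem_filter, mem_filter, mem_Ioc] at hp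
  exact ⟨hp.1.2, hp.1.1.1, hp.1.1.2, hp.2.1⟩

theorem DD_subu (G : ℤ[X]) (w R q : ℕ) (U : Finset ℕ) (hU : U ∈ DD2 G w R q) :
    U ⊆ Pq G w q ∪ Lq2 G w R q := by
  obtain ⟨A, hA, B, hB, -, rfl⟩ := (mem_DDu G w R q U).1 hU
  exact union_subset_union hA hB

theorem DD_emptyu (G : ℤ[X]) (w R q : ℕ) (hR : 1 ≤ R) : ∅ ∈ DD2 G w R q := by
  rw [mem_DDu]
  exact ⟨∅, empty_subset _, ∅, empty_subset _, by rw [prod_empty]; exact hR, by simp⟩

theorem DD_downu (G : ℤ[X]) (w R q : ℕ) (U : Finset ℕ) (hU : U ∈ DD2 G w R q) (T : Finset ℕ)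
    (hT : T ⊆ U) : T ∈ DD2 G w R q := by
  obtain ⟨A, hA, B, hB, h1, rfl⟩ := (mem_DDu G w R q U).1 hU
  rw [mem_DDu]
  refine ⟨T ∩ A, inter_subset_right.trans hA, T ∩ B, inter_subset_right.trans hB, ?_, ?_⟩
  · refine le_trans ?_ h1
    apply Nat.le_of_dvd
    · exact Nat.pos_of_ne_zero (prod_ne_zero_iff.2 fun p hp => (Lq2_prime G w R q p (hB hp)).1.ne_zero)
    · exact prod_dvd_prod_of_subset _ _ _ inter_subset_right
  · rw [← inter_union_distrib_left]
    exact inter_eq_left.2 hT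

theorem PL_disju (G : ℤ[X]) (w R q : ℕ) : Disjoint (Pq G w q) (Lq2 G w R q) := by
  rw [disjoint_left]
  intro p h1 h2
  have a := (Pq_prime G w q p h1).2.1
  have b := (Lq2_prime G w R q p h2).2.1
  omega

theorem GG_DDu (G : ℤ[X]) (w R q : ℕ) : Sel.GG (DD2 G w R q) (gG G) =
    (∏ p ∈ Pq G w q, (1 + Sel.hh (gG G) p)) * Sel.GW (Sel.hh (gG G)) (Lq2 G w R q) R := by
  classical
  unfold Sel.GG DD2
  rw [sum_image]
  · have h1 : ∏ p ∈ Pq G w q, (1 + Sel.hh (gG G) p) =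
        ∑ A ∈ (Pq G w q).powerset, ∏ p ∈ A, Sel.hh (gG G) p := by
      rw [prod_one_add]
    have h2 : Sel.GW (Sel.hh (gG G)) (Lq2 G w R q) R = ∑ B ∈ DB2 G w R q, ∏ p ∈ B, Sel.hh (gG G) p := by
      unfold Sel.GW DB2
      apply sum_congr _ (fun _ _ => rfl)
      ext B
      simp only [mem_filter]
    rw [h1, h2, sum_mul_sum, ← sum_product']
    apply sum_congr rfl
    rintro ⟨A, B⟩ hz
    rw [mem_product, mem_powerset] at hz
    unfold DB2 at hz
    rw [mem_filter, mem_powerset] at hz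
    simp only
    exact prod_union ((PL_disju G w R q).mono hz.1 hz.2.1)
  · rintro ⟨A, B⟩ h1 ⟨A', B'⟩ h2 h3
    rw [mem_coe, mem_product, mem_powerset] at h1 h2
    unfold DB2 at h1 h2
    rw [mem_filter, mem_powerset] at h1 h2
    simp only at h1 h2 h3
    have dd := PL_disju G w R q
    have e1 : A = A' := by
      ext x
      constructor
      · intro hx
        have hx' : x ∈ A' ∪ B' := h3 ▸ mem_union_left B hx
        rcases mem_union.1 hx' with h | h
        · exact h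
        · exact absurd (h2.2.1 h) (disjoint_left.1 dd (h1.1 hx))
      · intro hx
        have hx' : x ∈ A ∪ B := h3 ▸ mem_union_left B' hx
        rcases mem_union.1 hx' with h | h
        · exact h
        · exact absurd (h1.2.1 h) (disjoint_left.1 dd (h2.1 hx))
    have e2 : B = B' := by
      ext x
      constructor
      · intro hx
        have hx' : x ∈ A' ∪ B' := h3 ▸ mem_union_right A hx
        rcases mem_union.1 hx' with h | h
        · exact absurd (h1.2.1 hx) (disjoint_left.1 dd (h2.1 h))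
        · exact h
      · intro hx
        have hx' : x ∈ A ∪ B := h3 ▸ mem_union_right A' hx
        rcases mem_union.1 hx' with h | h
        · exact absurd (h2.2.1 hx) (disjoint_left.1 dd (h1.1 h))
        · exact h
    rw [e1, e2]

theorem PL_datau (G : ℤ[X]) (w R q : ℕ) (hlt : ∀ p : ℕ, p.Prime → ro G 0 p < p) (p : ℕ) (hp : p ∈ Pq G w q ∪ Lq2 G w R q) :
    p.Prime ∧ ¬ p ∣ q ∧ (0 < gG G p ∧ gG G p < 1) ∧ (p ≤ w ∨ p ≤ R) := by
  have key : p.Prime ∧ ¬ p ∣ q ∧ ro G 0 p ≠ 0 ∧ (p ≤ w ∨ p ≤ R) := by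
    rcases mem_union.1 hp with h | h
    · obtain ⟨h1, h2, h3⟩ := Pq_prime G w q p h
      refine ⟨h1, h3, ?_, Or.inl h2⟩
      unfold Pq at h
      rw [mem_filter] at h
      exact h.2.2
    · obtain ⟨h1, h2, h3, h4⟩ := Lq2_prime G w R q p h
      refine ⟨h1, h4, ?_, Or.inr h3⟩
      unfold Lq2 at h
      rw [mem_filter] at h
      exact h.2.2
  refine ⟨key.1, key.2.1, ?_, key.2.2.2⟩
  have hp0 : (0 : ℝ) < p := by exact_mod_cast key.1.pos
  unfold gG
  constructor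
  · apply div_pos _ hp0
    exact_mod_cast Nat.pos_of_ne_zero key.2.2.1
  · rw [div_lt_one hp0]
    exact_mod_cast hlt p key.1

theorem RG_leu (G : ℤ[X]) (w R q X t : ℕ) (hlt : ∀ p : ℕ, p.Prime → ro G 0 p < p) (hR : 1 ≤ R) (hwX : w ^ 2 ≤ X)
    (hRX : R ^ 2 ≤ X) :
    (RG G X q t : ℝ) ≤ NC q X t * (1 / Sel.GG (DD2 G w R q) (gG G)) +
      TC (UU G (Pq G w q ∪ Lq2 G w R q) (Sel.cf (DD2 G w R q) (gG G))) q X t := by
  classical
  have hd := PL_datau G w R q hlt
  set P := Pq G w q ∪ Lq2 G w R q with hP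
  have hPp : ∀ p ∈ P, p.Prime := fun p hp => (hd p hp).1
  have hg : ∀ p ∈ P, 0 < gG G p ∧ gG G p < 1 := fun p hp => (hd p hp).2.2.1
  have hD : ∀ U ∈ DD2 G w R q, U ⊆ P := fun U hU => DD_subu G w R q U hU
  have h0 := DD_emptyu G w R q hR
  have hdc := DD_downu G w R q
  have h1 := wsumC G P hPp (Sel.cf (DD2 G w R q) (gG G)) q X t
  have h2 : VV P (Sel.cf (DD2 G w R q) (gG G)) (fun p => (ro G 0 p : ℝ) / p) =
      1 / Sel.GG (DD2 G w R q) (gG G) := Sel.cf_form hD hdc h0 hg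
  rw [h2] at h1
  rw [← h1]
  unfold RG
  rw [card_filter]
  push_cast
  apply sum_le_sum
  intro N _
  obtain ⟨a1, a2⟩ := Sel.cf_ind hD h0 hg ((G.eval ((N + 1 : ℕ) : ℤ)).natAbs)
  unfold VV
  split_ifs with h
  · have h3 := a2 (fun p hp => h p (hPp p hp) (by
      rcases (hd p hp).2.2.2 with h4 | h4
      · exact (Nat.pow_le_pow_left h4 2).trans hwX
      · exact (Nat.pow_le_pow_left h4 2).trans hRX))
    exact h3.ge
  · exact a1

theorem cf_produ (G : ℤ[X]) (w R q : ℕ) (T : Finset ℕ)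
    (h : Sel.cf (DD2 G w R q) (gG G) T ≠ 0) :
    T ⊆ Pq G w q ∪ Lq2 G w R q ∧ ∏ p ∈ T, p ≤ (∏ p ∈ Sm w, p) * R ^ 2 := by
  obtain ⟨T1, h1, T2, h2, rfl⟩ := Sel.cf_supp T h
  refine ⟨union_subset (DD_subu G w R q _ h1) (DD_subu G w R q _ h2), ?_⟩
  obtain ⟨A1, hA1, B1, hB1, hR1, rfl⟩ := (mem_DDu G w R q T1).1 h1
  obtain ⟨A2, hA2, B2, hB2, hR2, rfl⟩ := (mem_DDu G w R q T2).1 h2
  have hpos1 : ∀ p ∈ Pq G w q, 1 ≤ p := fun p hp => (Pq_prime G w q p hp).1.one_le
  have hpos2 : ∀ p ∈ Lq2 G w R q, 1 ≤ p := fun p hp => (Lq2_prime G w R q p hp).1.one_le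
  have e1 : A1 ∪ B1 ∪ (A2 ∪ B2) = (A1 ∪ A2) ∪ (B1 ∪ B2) := by
    ext x
    simp only [mem_union]
    tauto
  rw [e1]
  refine (prod_union_le _ _ ?_).trans ?_
  · intro p hp
    rcases mem_union.1 hp with h | h
    · rcases mem_union.1 h with h | h
      · exact hpos1 p (hA1 h)
      · exact hpos1 p (hA2 h)
    · rcases mem_union.1 h with h | h
      · exact hpos2 p (hB1 h)
      · exact hpos2 p (hB2 h)
  apply Nat.mul_le_mul
  · apply Nat.le_of_dvd
    · apply prod_pos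
      intro p hp
      unfold Sm at hp
      exact (mem_filter.1 hp).2.pos
    · apply prod_dvd_prod_of_subset
      have hs : Pq G w q ⊆ Sm w := filter_subset _ _
      exact union_subset (hA1.trans hs) (hA2.trans hs)
  · refine (prod_union_le _ _ ?_).trans ?_
    · intro p hp
      rcases mem_union.1 hp with h | h
      · exact hpos2 p (hB1 h)
      · exact hpos2 p (hB2 h)
    · rw [pow_two]
      exact Nat.mul_le_mul hR1 hR2

/-- comparison of the sums -/
theorem GW_cmp (h h' : ℕ → ℝ) (L : Finset ℕ) (hL : ∀ p ∈ L, 0 < p)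
    (hh : ∀ p ∈ L, 0 ≤ h' p ∧ h' p ≤ h p) :
    ∀ x : ℕ, Sel.GW h L x ≤ (∏ p ∈ L, ((1 + h p) / (1 + h' p))) * Sel.GW h' L x := by
  classical
  induction L using Finset.induction_on with
  | empty =>
    intro x
    rw [prod_empty, one_mul]
    unfold Sel.GW
    apply le_of_eq
    apply sum_congr rfl
    intro T hT
    rw [mem_filter, mem_powerset, subset_empty] at hT
    rw [hT.1, prod_empty, prod_empty]
  | insert p L hp ih =>
    intro x
    have ih' := ih (fun r hr => hL r (mem_insert_of_mem hr)) (fun r hr => hh r (mem_insert_of_mem hr))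
    have hp0 := hL p (mem_insert_self p L)
    obtain ⟨g1, g2⟩ := hh p (mem_insert_self p L)
    have hL' : ∀ r ∈ L, 0 ≤ h' r := fun r hr => (hh r (mem_insert_of_mem hr)).1
    rw [Sel.GW_insert h L p hp0 hp x, Sel.GW_insert h' L p hp0 hp x, prod_insert hp]
    set C := ∏ p ∈ L, ((1 + h p) / (1 + h' p)) with hC
    have hC0 : 0 ≤ C := by
      apply prod_nonneg
      intro r hr
      have := hh r (mem_insert_of_mem hr)
      apply div_nonneg <;> linarith
    have hAB := Sel.GW_mono h' L hL' (x / p) x (Nat.div_le_self x p)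
    have a1 := ih' x
    have a2 := ih' (x / p)
    have hB0 := Sel.GW_nonneg h' L hL' (x / p)
    set A' := Sel.GW h' L x with hA'
    set B' := Sel.GW h' L (x / p) with hB'
    have h1 : 0 < 1 + h' p := by linarith
    have key : A' + h p * B' ≤ (1 + h p) / (1 + h' p) * (A' + h' p * B') := by
      rw [div_mul_eq_mul_div, le_div_iff₀ h1]
      nlinarith [mul_nonneg (sub_nonneg.2 g2) (sub_nonneg.2 hAB)]
    calc Sel.GW h L x + h p * Sel.GW h L (x / p) ≤ C * A' + h p * (C * B') :=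
          add_le_add a1 (mul_le_mul_of_nonneg_left a2 (g1.trans g2))
      _ = C * (A' + h p * B') := by ring
      _ ≤ C * ((1 + h p) / (1 + h' p) * (A' + h' p * B')) := mul_le_mul_of_nonneg_left key hC0
      _ = _ := by ring

theorem GW_zero (h : ℕ → ℝ) (L L' : Finset ℕ) (hs : L' ⊆ L) (h0 : ∀ p ∈ L, p ∉ L' → h p = 0)
    (x : ℕ) : Sel.GW h L x = Sel.GW h L' x := by
  classical
  unfold Sel.GW
  symm
  apply sum_subset
  · intro T hT
    rw [mem_filter, mem_powerset] at hT ⊢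
    exact ⟨hT.1.trans hs, hT.2⟩
  · intro T hT hT'
    rw [mem_filter, mem_powerset] at hT hT'
    have h1 : ¬ T ⊆ L' := fun h => hT' ⟨h, hT.2⟩
    obtain ⟨p, hp, hp'⟩ := not_subset.1 h1
    exact prod_eq_zero hp (h0 p (hT.1 hp) hp')

theorem GW_congr (h h' : ℕ → ℝ) (L : Finset ℕ) (hh : ∀ p ∈ L, h p = h' p) (x : ℕ) :
    Sel.GW h L x = Sel.GW h' L x := by
  unfold Sel.GW
  apply sum_congr rfl
  intro T hT
  rw [mem_filter, mem_powerset] at hT
  exact prod_congr rfl fun p hp => hh p (hT.1 hp)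

/-- **the main term, uniformly** -/
theorem main_termu (G : ℤ[X]) (k w R q : ℕ) (hlt : ∀ p : ℕ, p.Prime → ro G 0 p < p)
    (hle : ∀ p : ℕ, p.Prime → ro G 0 p ≤ k) (hkw : 2 * k ≤ w) (hq : 0 < q) :
    (clsG G q : ℝ) * Sel.Hf k (Sm w) R ≤
      q * ((∏ p ∈ Sm w, (1 - gG G p)) * ∏ p ∈ Lg w R, ((1 - gG G p) / (1 - (k : ℝ) / p))) *
        Sel.GG (DD2 G w R q) (gG G) := by
  classical
  have hg1 : ∀ p : ℕ, p.Prime → 0 ≤ gG G p ∧ gG G p < 1 := by
    intro p hp
    have hp0 : (0 : ℝ) < p := by exact_mod_cast hp.pos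
    unfold gG
    refine ⟨by positivity, ?_⟩
    rw [div_lt_one hp0]
    exact_mod_cast hlt p hp
  have hh0 : ∀ p : ℕ, p.Prime → 0 ≤ Sel.hh (gG G) p := by
    intro p hp
    obtain ⟨h1, h2⟩ := hg1 p hp
    unfold Sel.hh
    exact div_nonneg h1 (by linarith)
  have hLg : ∀ p ∈ Lg w R, p.Prime ∧ w < p ∧ p ≤ R := by
    intro p hp
    unfold Lg at hp
    rw [mem_filter, mem_Ioc] at hp
    exact ⟨hp.2, hp.1.1, hp.1.2⟩
  -- the density `k / p`
  set gk : ℕ → ℝ := fun p => (k : ℝ) / p with hgk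
  have hgk1 : ∀ p ∈ Lg w R, 0 ≤ gk p ∧ gk p ≤ 1 / 2 := by
    intro p hp
    have hp1 := (hLg p hp).2.1
    have hp0 : (0 : ℝ) < p := by exact_mod_cast (hLg p hp).1.pos
    have h2 : (2 : ℝ) * k ≤ p := by exact_mod_cast (by omega : 2 * k ≤ p)
    rw [hgk]
    refine ⟨by positivity, ?_⟩
    show (k : ℝ) / p ≤ 1 / 2
    rw [div_le_div_iff₀ hp0 (by norm_num)]
    linarith
  have hgle : ∀ p ∈ Lg w R, gG G p ≤ gk p := by
    intro p hp
    unfold gG
    apply div_le_div_of_nonneg_right _ (Nat.cast_nonneg _)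
    exact_mod_cast hle p (hLg p hp).1
  have h1 : Sel.Hf k (Sm w) R ≤ Sel.GW (Sel.hh gk) (Lg w R) R := by
    refine (Sel.Hf_le_HL k (Sm w) (Lg w R) R ?_).trans (Sel.HL_le k _ (Lg w R)
      (fun p hp => (hLg p hp).1) (fun p hp => ⟨?_, ?_⟩) R)
    · intro p hp hpR hpS
      unfold Lg
      rw [mem_filter, mem_Ioc]
      refine ⟨⟨?_, hpR⟩, hp⟩
      by_contra h
      apply hpS
      unfold Sm
      rw [mem_filter, mem_range]
      exact ⟨by omega, hp⟩
    · obtain ⟨g1, g2⟩ := hgk1 p hp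
      unfold Sel.hh
      exact div_nonneg g1 (by linarith)
    · obtain ⟨g1, g2⟩ := hgk1 p hp
      have e2 : 1 - gk p ≠ 0 := by linarith
      have e1 : (k : ℝ) / p = gk p := rfl
      rw [e1]
      unfold Sel.hh
      field_simp
      ring
  -- the actual weights
  set h' : ℕ → ℝ := fun p => if p ∣ q then 0 else Sel.hh (gG G) p with hh'
  have hmono : ∀ p ∈ Lg w R, Sel.hh (gG G) p ≤ Sel.hh gk p := by
    intro p hp
    obtain ⟨g1, g2⟩ := hgk1 p hp
    have g3 := hgle p hp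
    have g4 := hg1 p (hLg p hp).1
    unfold Sel.hh
    apply div_le_div₀ g1 g3 (by linarith) (by linarith)
  have h2 := GW_cmp (Sel.hh gk) h' (Lg w R) (fun p hp => (hLg p hp).1.pos) (fun p hp => by
    rw [hh']
    simp only
    split_ifs
    · exact ⟨le_rfl, (hh0 p (hLg p hp).1).trans (hmono p hp)⟩
    · exact ⟨hh0 p (hLg p hp).1, hmono p hp⟩) R
  have hLs : Lq2 G w R q ⊆ Lg w R := filter_subset _ _
  have h3 : Sel.GW h' (Lg w R) R = Sel.GW (Sel.hh (gG G)) (Lq2 G w R q) R := by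
    rw [GW_zero h' (Lg w R) (Lq2 G w R q) hLs]
    · apply GW_congr
      intro p hp
      rw [hh']
      simp only
      rw [if_neg (Lq2_prime G w R q p hp).2.2.2]
    · intro p hp hp'
      rw [hh']
      simp only
      split_ifs with hpq
      · rfl
      · have h4 : ro G 0 p = 0 := by
          by_contra h
          apply hp'
          unfold Lq2
          rw [mem_filter]
          exact ⟨hp, hpq, h⟩
        unfold Sel.hh gG
        rw [h4, Nat.cast_zero, zero_div, zero_div]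
  rw [h3] at h2
  -- the products
  set Qs := (Lg w R).filter (fun p => p ∣ q) with hQs
  have hprodc : ∏ p ∈ Lg w R, ((1 + Sel.hh gk p) / (1 + h' p)) =
      (∏ p ∈ Lg w R, ((1 - gG G p) / (1 - gk p))) * ∏ p ∈ Qs, (1 + Sel.hh (gG G) p) := by
    rw [hQs, prod_filter, ← prod_mul_distrib]
    apply prod_congr rfl
    intro p hp
    obtain ⟨g1, g2⟩ := hgk1 p hp
    have g4 := hg1 p (hLg p hp).1
    have n1 : 1 - gk p ≠ 0 := by linarith
    have n2 : 1 - gG G p ≠ 0 := by linarith [g4.2]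
    have e1 : 1 + Sel.hh gk p = 1 / (1 - gk p) := by
      unfold Sel.hh
      field_simp
      ring
    have e2 : 1 + Sel.hh (gG G) p = 1 / (1 - gG G p) := by
      unfold Sel.hh
      field_simp
      ring
    rw [hh']
    simp only
    split_ifs with hpq
    · rw [e1, e2, add_zero, div_one]
      field_simp
    · rw [e1, e2, mul_one, div_div_eq_mul_div, div_one]
      field_simp
  rw [hprodc] at h2
  -- the classes
  set Ds := (Sm w).filter (fun p => p ∣ q) with hDs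
  have hSm : ∀ p ∈ Sm w, p.Prime ∧ p ≤ w := by
    intro p hp
    unfold Sm at hp
    rw [mem_filter, mem_range] at hp
    exact ⟨hp.2, by omega⟩
  have hDQ : Disjoint Ds Qs := by
    rw [disjoint_left]
    intro p h3 h4
    rw [hDs, mem_filter] at h3
    rw [hQs, mem_filter] at h4
    have a := (hSm p h3.1).2
    have b := (hLg p h4.1).2.1
    omega
  have h3' : (clsG G q : ℝ) ≤ q * ((∏ p ∈ Ds, (1 - gG G p)) * ∏ p ∈ Qs, (1 - gG G p)) := by
    rw [← prod_union hDQ]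
    have h4 := class_prod G q hq (Ds ∪ Qs) (fun p hp => by
      rcases mem_union.1 hp with h | h
      · rw [hDs, mem_filter] at h
        exact ⟨(hSm p h.1).1, h.2⟩
      · rw [hQs, mem_filter] at h
        exact ⟨(hLg p h.1).1, h.2⟩)
    have h5 : clsG G q ≤ ((range q).filter (fun a : ℕ => ∀ p ∈ Ds ∪ Qs,
        ¬ p ∣ (G.eval (a : ℤ)).natAbs)).card := by
      unfold clsG
      apply card_le_card
      intro a ha
      rw [mem_filter] at ha ⊢
      refine ⟨ha.1, fun p hp hd => ?_⟩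
      have hpq : p.Prime ∧ p ∣ q := by
        rcases mem_union.1 hp with h | h
        · rw [hDs, mem_filter] at h
          exact ⟨(hSm p h.1).1, h.2⟩
        · rw [hQs, mem_filter] at h
          exact ⟨(hLg p h.1).1, h.2⟩
      have := Nat.eq_one_of_dvd_coprimes ha.2 hd hpq.2
      exact hpq.1.one_lt.ne' this
    have h6 : (clsG G q : ℝ) ≤ (((range q).filter (fun a : ℕ => ∀ p ∈ Ds ∪ Qs,
        ¬ p ∣ (G.eval (a : ℤ)).natAbs)).card : ℝ) := by exact_mod_cast h5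
    rw [h4] at h6
    exact h6
  have hprodQ : (∏ p ∈ Qs, (1 - gG G p)) * ∏ p ∈ Qs, (1 + Sel.hh (gG G) p) = 1 := by
    rw [← prod_mul_distrib]
    apply prod_eq_one
    intro p hp
    rw [hQs, mem_filter] at hp
    exact one_add_hh _ p (hg1 p (hLg p hp.1).1).2
  have hprodP : (∏ p ∈ Pq G w q, (1 - gG G p)) * ∏ p ∈ Pq G w q, (1 + Sel.hh (gG G) p) = 1 := by
    rw [← prod_mul_distrib]
    apply prod_eq_one
    intro p hp
    exact one_add_hh _ p (hg1 p (Pq_prime G w q p hp).1).2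
  have hsplit : ∏ p ∈ Sm w, (1 - gG G p) = (∏ p ∈ Ds, (1 - gG G p)) *
      ∏ p ∈ Pq G w q, (1 - gG G p) := by
    rw [hDs, ← prod_filter_mul_prod_filter_not (Sm w) (fun p => p ∣ q)]
    congr 1
    symm
    apply prod_subset
    · intro p hp
      unfold Pq at hp
      rw [mem_filter] at hp ⊢
      exact ⟨hp.1, hp.2.1⟩
    · intro p hp hp'
      unfold Pq at hp'
      rw [mem_filter] at hp hp'
      have h4 : ro G 0 p = 0 := by
        by_contra h
        exact hp' ⟨hp.1, hp.2, h⟩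
      unfold gG
      rw [h4, Nat.cast_zero, zero_div, sub_zero]
  have hD0 : 0 ≤ ∏ p ∈ Ds, (1 - gG G p) := by
    apply prod_nonneg
    intro p hp
    rw [hDs, mem_filter] at hp
    exact (sub_pos.2 (hg1 p (hSm p hp.1).1).2).le
  have hQ0 : 0 ≤ ∏ p ∈ Qs, (1 - gG G p) := by
    apply prod_nonneg
    intro p hp
    rw [hQs, mem_filter] at hp
    exact (sub_pos.2 (hg1 p (hLg p hp.1).1).2).le
  have hGL0 : 0 ≤ Sel.GW (Sel.hh (gG G)) (Lq2 G w R q) R :=
    Sel.GW_nonneg _ _ (fun p hp => hh0 p (Lq2_prime G w R q p hp).1) R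
  set E := ∏ p ∈ Lg w R, ((1 - gG G p) / (1 - gk p)) with hE
  have hE0 : 0 ≤ E := by
    apply prod_nonneg
    intro p hp
    have := hgk1 p hp
    have := hg1 p (hLg p hp).1
    apply div_nonneg <;> linarith
  have hQ1 : 0 ≤ ∏ p ∈ Qs, (1 + Sel.hh (gG G) p) := by
    apply prod_nonneg
    intro p hp
    rw [hQs, mem_filter] at hp
    have := hh0 p (hLg p hp.1).1
    linarith
  calc (clsG G q : ℝ) * Sel.Hf k (Sm w) R ≤
      (q * ((∏ p ∈ Ds, (1 - gG G p)) * ∏ p ∈ Qs, (1 - gG G p))) *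
        ((E * ∏ p ∈ Qs, (1 + Sel.hh (gG G) p)) * Sel.GW (Sel.hh (gG G)) (Lq2 G w R q) R) :=
        mul_le_mul h3' (h1.trans h2) (Sel.Hf_nonneg _ _ _) (by positivity)
    _ = q * (∏ p ∈ Ds, (1 - gG G p)) * E * (((∏ p ∈ Qs, (1 - gG G p)) *
          ∏ p ∈ Qs, (1 + Sel.hh (gG G) p)) * Sel.GW (Sel.hh (gG G)) (Lq2 G w R q) R) := by ring
    _ = q * (∏ p ∈ Ds, (1 - gG G p)) * E * (((∏ p ∈ Pq G w q, (1 - gG G p)) *
          ∏ p ∈ Pq G w q, (1 + Sel.hh (gG G) p)) * Sel.GW (Sel.hh (gG G)) (Lq2 G w R q) R) := by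
        rw [hprodQ, hprodP]
    _ = _ := by
        rw [GG_DDu, hsplit]
        ring

end Pool.Agent.H662.RC
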