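import Pool.Agent.H662.RC.TupX
import Pool.Agent.H662.RC.TupD

/-! Selberg's sieve of dimension `k` in almost all residue classes, uniformly in the polynomial. -/

set_option autoImplicit false

namespace Pool.Agent.H662.RC

open Filter Finset Topology Polynomial
open Pool.Agent.W23.DC
open Pool.Agent.Y882
open Pool.Agent.Y882.PX
open Pool.Agent.Y882.SI
open Pool.Agent.H662

/-- the partial product of the singular series -/
noncomputable def PPX (G : ℤ[X]) (k X : ℕ) : ℝ :=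
  ∏ p ∈ Sm X, (1 - gG G p) / (1 - 1 / (p : ℝ)) ^ k

theorem Sm_prime (X p : ℕ) (hp : p ∈ Sm X) : p.Prime ∧ p ≤ X := by
  unfold Sm at hp
  rw [mem_filter, mem_range] at hp
  exact ⟨hp.2, by omega⟩

theorem gG_bd (G : ℤ[X]) (hlt : ∀ p : ℕ, p.Prime → ro G 0 p < p) (p : ℕ) (hp : p.Prime) :
    0 ≤ gG G p ∧ gG G p < 1 := by
  have hp0 : (0 : ℝ) < p := by exact_mod_cast hp.pos
  unfold gG
  refine ⟨by positivity, ?_⟩
  rw [div_lt_one hp0]
  exact_mod_cast hlt p hp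

theorem one_sub_inv (p : ℕ) (hp : p.Prime) : 0 < 1 - 1 / (p : ℝ) ∧ 1 - 1 / (p : ℝ) ≤ 1 := by
  have h4 : (2 : ℝ) ≤ p := by exact_mod_cast hp.two_le
  have h5 : 1 / (p : ℝ) ≤ 1 / 2 := one_div_le_one_div_of_le (by norm_num) h4
  have h6 : 0 ≤ 1 / (p : ℝ) := by positivity
  constructor <;> linarith

theorem lo_le_PPX (G : ℤ[X]) (k X : ℕ) (hlt : ∀ p : ℕ, p.Prime → ro G 0 p < p) :
    lo G X ≤ PPX G k X := by
  have h4 : lo G X = ∏ p ∈ Sm X, (1 - gG G p) := by
    unfold lo Sm gG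
    apply prod_congr _ (fun _ _ => rfl)
    ext p
    rw [mem_filter, mem_filter, mem_Icc, mem_range]
    constructor
    · rintro ⟨⟨_, h2⟩, h3⟩
      exact ⟨by omega, h3⟩
    · rintro ⟨h2, h3⟩
      exact ⟨⟨h3.one_le, by omega⟩, h3⟩
  rw [h4]
  unfold PPX
  apply Finset.prod_le_prod
  · intro p hp
    have := gG_bd G hlt p (Sm_prime X p hp).1
    linarith
  · intro p hp
    have h1 := gG_bd G hlt p (Sm_prime X p hp).1
    have h2 := one_sub_inv p (Sm_prime X p hp).1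
    rw [le_div_iff₀ (pow_pos h2.1 k)]
    have h3 : (1 - 1 / (p : ℝ)) ^ k ≤ 1 := pow_le_one₀ h2.1.le h2.2
    nlinarith [h1.2]

/-- the tails of the products -/
theorem tail_prod (k : ℕ) (ε : ℝ) (hε : 0 < ε) : ∃ w : ℕ, 2 * k ≤ w ∧ ∀ (G : ℤ[X]) (R X : ℕ),
    (∀ p : ℕ, p.Prime → ro G 0 p ≤ k) → (∀ p : ℕ, p.Prime → ro G 0 p < p) → R ≤ X → w ≤ X →
      (∏ p ∈ Sm w, (1 - gG G p) / (1 - 1 / (p : ℝ)) ^ k) *
        ∏ p ∈ Lg w R, ((1 - gG G p) / (1 - (k : ℝ) / p)) ≤ (1 + ε) * PPX G k X := by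
  classical
  -- a model tuple
  set a0 : Fin k → ℤ := fun i => (i : ℕ) * (k.factorial : ℤ) with ha0
  have hinj : Function.Injective a0 := by
    intro i j hij
    simp only [ha0] at hij
    have h1 : (k.factorial : ℤ) ≠ 0 := by exact_mod_cast k.factorial_ne_zero
    have h2 := mul_right_cancel₀ h1 hij
    exact Fin.ext (by exact_mod_cast h2)
  have hlt0 : ∀ p : ℕ, p.Prime → ro (GT a0) 0 p < p := by
    intro p hp
    by_cases h : p ≤ k
    · rw [ro_GT a0 p hp]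
      have h1 : (univ.image fun i => a0 i % (p : ℤ)) ⊆ {0} := by
        intro z hz
        rw [mem_image] at hz
        obtain ⟨i, -, rfl⟩ := hz
        rw [mem_singleton]
        apply Int.emod_eq_zero_of_dvd
        simp only [ha0]
        apply Dvd.dvd.mul_left
        exact_mod_cast (Nat.Prime.dvd_factorial hp).2 h
      refine lt_of_le_of_lt (card_le_card h1) ?_
      rw [card_singleton]
      exact hp.one_lt
    · exact lt_of_le_of_lt (ro_GT_le a0 p hp) (not_le.1 h)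
  obtain ⟨S0, hS0, hS0t⟩ := prodK_conv (GT a0) k (∑ i, ∑ j, (a0 i - a0 j).natAbs) hlt0
    (fun p hp h => ro_GT_eq a0 hinj p hp h)
  have hcmp : ∀ᶠ w : ℕ in atTop, PPX (GT a0) k w < (1 + ε / (2 + ε)) * S0 ∧
      (1 - ε / (2 + ε)) * S0 < PPX (GT a0) k w := by
    have h1 : 0 < ε / (2 + ε) := by positivity
    exact (hS0t.eventually_lt_const (by nlinarith)).and
      (hS0t.eventually_const_lt (by nlinarith))
  obtain ⟨w1, hw1⟩ := eventually_atTop.1 hcmp
  set w : ℕ := max w1 (2 * k + ∑ i, ∑ j, (a0 i - a0 j).natAbs) with hw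
  have hww1 : w1 ≤ w := le_max_left _ _
  have hwk : 2 * k + ∑ i, ∑ j, (a0 i - a0 j).natAbs ≤ w := le_max_right _ _
  refine ⟨w, by omega, fun G R X hle hlt hRX hwX => ?_⟩
  -- positivity
  have hLgp : ∀ Y : ℕ, ∀ p ∈ Lg w Y, p.Prime ∧ w < p ∧ p ≤ Y := by
    intro Y p hp
    unfold Lg at hp
    rw [mem_filter, mem_Ioc] at hp
    exact ⟨hp.2, hp.1.1, hp.1.2⟩
  have hk2 : ∀ Y : ℕ, ∀ p ∈ Lg w Y, 0 < 1 - (k : ℝ) / p := by
    intro Y p hp
    obtain ⟨h1, h2, h3⟩ := hLgp Y p hp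
    have hp0 : (0 : ℝ) < p := by exact_mod_cast h1.pos
    rw [sub_pos, div_lt_one hp0]
    have h5 : k < p := by
      have := h1.pos
      omega
    exact_mod_cast h5
  have hgle : ∀ Y : ℕ, ∀ p ∈ Lg w Y, 1 - (k : ℝ) / p ≤ 1 - gG G p := by
    intro Y p hp
    have h1 : gG G p ≤ k / p := by
      unfold gG
      apply div_le_div_of_nonneg_right _ (Nat.cast_nonneg _)
      exact_mod_cast hle p (hLgp Y p hp).1
    linarith
  have hPw : 0 ≤ ∏ p ∈ Sm w, (1 - gG G p) / (1 - 1 / (p : ℝ)) ^ k := by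
    apply prod_nonneg
    intro p hp
    have h1 := gG_bd G hlt p (Sm_prime w p hp).1
    have h2 := one_sub_inv p (Sm_prime w p hp).1
    apply div_nonneg (by linarith [h1.2]) (pow_nonneg h2.1.le k)
  -- enlarge the range of the second product
  have hE : ∏ p ∈ Lg w R, ((1 - gG G p) / (1 - (k : ℝ) / p)) ≤
      ∏ p ∈ Lg w X, ((1 - gG G p) / (1 - (k : ℝ) / p)) := by
    have hsub : Lg w R ⊆ Lg w X := by
      intro p hp
      obtain ⟨h1, h2, h3⟩ := hLgp R p hp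
      unfold Lg
      rw [mem_filter, mem_Ioc]
      exact ⟨⟨h2, h3.trans hRX⟩, h1⟩
    rw [← prod_sdiff hsub]
    apply le_mul_of_one_le_left
    · apply prod_nonneg
      intro p hp
      exact div_nonneg ((hk2 R p hp).le.trans (hgle R p hp)) (hk2 R p hp).le
    · have h1 : ∏ _p ∈ Lg w X \ Lg w R, (1 : ℝ) ≤
          ∏ p ∈ Lg w X \ Lg w R, ((1 - gG G p) / (1 - (k : ℝ) / p)) := by
        apply prod_le_prod (fun _ _ => zero_le_one)
        intro p hp
        have hp' := (mem_sdiff.1 hp).1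
        rw [one_le_div (hk2 X p hp')]
        exact hgle X p hp'
      rwa [prod_const_one] at h1
  -- split the products
  have hSm : Sm X = Sm w ∪ Lg w X := by
    ext p
    unfold Sm Lg
    rw [mem_union, mem_filter, mem_filter, mem_filter, mem_range, mem_range, mem_Ioc]
    constructor
    · rintro ⟨h1, h2⟩
      by_cases h : p ≤ w
      · exact Or.inl ⟨by omega, h2⟩
      · exact Or.inr ⟨⟨by omega, by omega⟩, h2⟩
    · rintro (⟨h1, h2⟩ | ⟨h1, h2⟩)
      · exact ⟨by omega, h2⟩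
      · exact ⟨by omega, h2⟩
  have hdis : Disjoint (Sm w) (Lg w X) := by
    rw [disjoint_left]
    intro p h1 h2
    have a := (Sm_prime w p h1).2
    have b := (hLgp X p h2).2.1
    omega
  have hsp : ∀ F : ℤ[X], PPX F k X = PPX F k w *
      ∏ p ∈ Lg w X, (1 - gG F p) / (1 - 1 / (p : ℝ)) ^ k := by
    intro F
    unfold PPX
    rw [hSm, prod_union hdis]
  have hT : ∏ p ∈ Lg w X, (1 - gG G p) / (1 - 1 / (p : ℝ)) ^ k =
      (∏ p ∈ Lg w X, ((1 - gG G p) / (1 - (k : ℝ) / p))) *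
        ∏ p ∈ Lg w X, (1 - gG (GT a0) p) / (1 - 1 / (p : ℝ)) ^ k := by
    rw [← prod_mul_distrib]
    apply prod_congr rfl
    intro p hp
    obtain ⟨h1, h2, h3⟩ := hLgp X p hp
    have e1 : gG (GT a0) p = (k : ℝ) / p := by
      unfold gG
      rw [ro_GT_eq a0 hinj p h1 (by omega)]
    rw [e1]
    have e2 := (hk2 X p hp).ne'
    field_simp
  obtain ⟨b1, b2⟩ := hw1 w hww1
  obtain ⟨b3, b4⟩ := hw1 X (hww1.trans hwX)
  set T0 : ℝ := ∏ p ∈ Lg w X, (1 - gG (GT a0) p) / (1 - 1 / (p : ℝ)) ^ k with hT0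
  have hPP0 : 0 < PPX (GT a0) k w := by
    have h1 : 0 < 1 - ε / (2 + ε) := by
      rw [sub_pos, div_lt_one (by linarith)]
      linarith
    have : 0 < (1 - ε / (2 + ε)) * S0 := by positivity
    linarith
  have hT0' : 1 ≤ (1 + ε) * T0 := by
    have h1 := hsp (GT a0)
    rw [← hT0] at h1
    have h2 : PPX (GT a0) k w ≤ (1 + ε) * PPX (GT a0) k X := by
      have h3 : (1 + ε / (2 + ε)) * S0 = (1 + ε) * ((1 - ε / (2 + ε)) * S0) := by
        field_simp
        ring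
      calc PPX (GT a0) k w ≤ (1 + ε / (2 + ε)) * S0 := b1.le
        _ = (1 + ε) * ((1 - ε / (2 + ε)) * S0) := h3
        _ ≤ _ := mul_le_mul_of_nonneg_left b4.le (by linarith)
    rw [h1] at h2
    have h4 : PPX (GT a0) k w * 1 ≤ PPX (GT a0) k w * ((1 + ε) * T0) := by
      calc PPX (GT a0) k w * 1 = PPX (GT a0) k w := mul_one _
        _ ≤ _ := h2
        _ = _ := by ring
    exact le_of_mul_le_mul_left h4 hPP0
  rw [hsp G, hT]
  have hE0 : 0 ≤ ∏ p ∈ Lg w X, ((1 - gG G p) / (1 - (k : ℝ) / p)) := by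
    apply prod_nonneg
    intro p hp
    exact div_nonneg ((hk2 X p hp).le.trans (hgle X p hp)) (hk2 X p hp).le
  have hPw' : PPX G k w = ∏ p ∈ Sm w, (1 - gG G p) / (1 - 1 / (p : ℝ)) ^ k := rfl
  rw [hPw']
  calc (∏ p ∈ Sm w, (1 - gG G p) / (1 - 1 / (p : ℝ)) ^ k) *
      ∏ p ∈ Lg w R, ((1 - gG G p) / (1 - (k : ℝ) / p)) ≤
      (∏ p ∈ Sm w, (1 - gG G p) / (1 - 1 / (p : ℝ)) ^ k) *
      ∏ p ∈ Lg w X, ((1 - gG G p) / (1 - (k : ℝ) / p)) := mul_le_mul_of_nonneg_left hE hPw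
    _ ≤ ((∏ p ∈ Sm w, (1 - gG G p) / (1 - 1 / (p : ℝ)) ^ k) *
      ∏ p ∈ Lg w X, ((1 - gG G p) / (1 - (k : ℝ) / p))) * ((1 + ε) * T0) :=
        le_mul_of_one_le_right (mul_nonneg hPw hE0) hT0'
    _ = _ := by ring

open Classical in
/-- **few classes with many rough values, uniformly in the polynomial** -/
theorem tup_unif (k : ℕ) (θ δ : ℝ) (hθ1 : θ < 1) (hδ : 0 < δ) :
    ∃ κ : ℝ, 0 < κ ∧ ∀ᶠ X : ℕ in atTop, ∀ G : ℤ[X], (∀ p : ℕ, p.Prime → ro G 0 p ≤ k) →
      (∀ p : ℕ, p.Prime → ro G 0 p < p) → ∀ q : ℕ, 0 < q → (q : ℝ) ≤ (X : ℝ) ^ θ →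
      (((range q).filter (fun t : ℕ => ((k.factorial : ℝ) * 4 ^ k + δ) * PPX G k X *
        ((X : ℝ) / (clsG G q * (Real.log ((X : ℝ) ^ 2 / q)) ^ k)) < RG G X q t)).card : ℝ) ≤
      clsG G q * (X : ℝ) ^ (-κ) := by
  set K0 : ℝ := (k.factorial : ℝ) * 4 ^ k with hK0d
  have hK0 : 0 < K0 := by positivity
  obtain ⟨ε, hε, hε1, hch⟩ := eps_choice k (δ / K0) (by positivity)
  obtain ⟨w, hwk, hwP⟩ := tail_prod k ε hε
  have hSmp : ∀ p ∈ Sm w, p.Prime := fun p hp => by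
    unfold Sm at hp
    exact (mem_filter.1 hp).2
  obtain ⟨R0, hR0⟩ := Hf_asym (Sm w) hSmp k ε hε (by linarith)
  set W : ℕ := ∏ p ∈ Sm w, p with hW
  have hW1 : 1 ≤ W := prod_pos (fun p hp => (hSmp p hp).pos)
  have hW1r : (1 : ℝ) ≤ W := by exact_mod_cast hW1
  set η : ℝ := min (ε / 4) ((1 - θ) / 2) with hη
  have hη0 : 0 < η := lt_min (by linarith) (by linarith)
  have hηε : η ≤ ε / 4 := min_le_left _ _
  have hηθ : η ≤ (1 - θ) / 2 := min_le_right _ _
  obtain ⟨Y1, HF⟩ := few_errU k η hη0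
  obtain ⟨C1, hC1, HC1⟩ := clsG_big k (η / 2) (by linarith)
  obtain ⟨C4, hC4, HC4⟩ := pow_card_le 4 (η / 128) (by linarith)
  refine ⟨η / 2, by linarith, ?_⟩
  have hlog : Tendsto (fun N : ℕ => Real.log N) atTop atTop :=
    Real.tendsto_log_atTop.comp tendsto_natCast_atTop_atTop
  have hpw : ∀ s : ℝ, 0 < s → Tendsto (fun N : ℕ => (N : ℝ) ^ s) atTop atTop := fun s hs =>
    (tendsto_rpow_atTop hs).comp tendsto_natCast_atTop_atTop
  have ev1 : ∀ᶠ X : ℕ in atTop, 8 * (Real.log W / 2 + 1) / ε ≤ Real.log X :=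
    hlog.eventually_ge_atTop _
  have ev2 : ∀ᶠ X : ℕ in atTop, 8 * Real.log ((R0 : ℝ) + 1) ≤ Real.log X :=
    hlog.eventually_ge_atTop _
  have ev3 : ∀ᶠ X : ℕ in atTop, 2 * C1 ≤ (X : ℝ) ^ (η / 2) :=
    (hpw _ (by linarith)).eventually_ge_atTop _
  have ev4 : ∀ᶠ X : ℕ in atTop, C4 ≤ (X : ℝ) ^ (η / 128) :=
    (hpw _ (by linarith)).eventually_ge_atTop _
  have ev5 : ∀ᶠ X : ℕ in atTop, 1 / ε ≤ (X : ℝ) ^ (1 - θ) :=
    (hpw _ (by linarith)).eventually_ge_atTop _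
  have ev6 : ∀ᶠ X : ℕ in atTop, (2 * Real.log X) ^ k ≤ ε * K0 * (X : ℝ) ^ (η / 32) := by
    have h1 : Tendsto (fun x : ℝ => Real.log x ^ (k : ℝ) / x ^ (η / 32)) atTop (nhds 0) := by
      have := isLittleO_log_rpow_rpow_atTop (k : ℝ) (show 0 < η / 32 by linarith)
      exact this.tendsto_div_nhds_zero
    have h2 := h1.eventually_le_const (show (0 : ℝ) < ε * K0 / 2 ^ k by positivity)
    have h3 := tendsto_natCast_atTop_atTop.eventually (h2.and (eventually_gt_atTop (0 : ℝ)))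
    filter_upwards [h3] with X hX
    obtain ⟨h4, h5⟩ := hX
    have h6 : (0 : ℝ) < (X : ℝ) ^ (η / 32) := by positivity
    rw [div_le_div_iff₀ h6 (by positivity), Real.rpow_natCast] at h4
    rw [mul_pow]
    linarith
  have ev7 := lo_unif k (η / 32) (by linarith)
  filter_upwards [ev1, ev2, ev3, ev4, ev5, ev6, ev7, eventually_ge_atTop Y1, eventually_ge_atTop 3,
    eventually_ge_atTop (w ^ 2)] with X e1 e2 e3 e4 e5 e6 e10' e7 e8 e9 G hle hlt q hq hqX
  have e10 := e10' G hle hlt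
  have hPlo := lo_le_PPX G k X hlt
  set S : ℝ := PPX G k X with hSd
  set x : ℝ := (X : ℝ) with hx
  have hx3 : (3 : ℝ) ≤ x := by rw [hx]; exact_mod_cast e8
  have hx0 : 0 < x := by linarith
  have hx1 : 1 < x := by linarith
  have hlx1 : 1 ≤ Real.log x := by
    rw [Real.le_log_iff_exp_le hx0]
    linarith [Real.exp_one_lt_d9]
  have hq0 : (0 : ℝ) < q := by exact_mod_cast hq
  have hq1 : (1 : ℝ) ≤ q := by exact_mod_cast hq
  -- the exponent of `q`
  set u : ℝ := Real.logb x q with hu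
  have hxu : x ^ u = q := Real.rpow_logb hx0 hx1.ne' hq0
  have hu0 : 0 ≤ u := Real.logb_nonneg hx1 hq1
  have huθ : u ≤ θ := by
    rw [← hxu] at hqX
    exact (Real.rpow_le_rpow_left_iff hx1).1 hqX
  have hlq : Real.log q = u * Real.log x := by rw [← hxu, Real.log_rpow hx0]
  set L : ℝ := Real.log (x ^ 2 / q) with hL
  have hLe : L = 2 * Real.log x - u * Real.log x := by
    rw [hL, Real.log_div (by positivity) hq0.ne', Real.log_pow, hlq]
    push_cast
    ring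
  have hLx : Real.log x ≤ L := by
    rw [hLe]
    nlinarith
  have hL0 : 0 < L := by linarith
  have hL2 : L ≤ 2 * Real.log x := by
    rw [hLe]
    nlinarith
  set τ : ℝ := 1 - u / 2 - η with hτ
  have hτ0 : 0 < τ := by
    rw [hτ]
    linarith
  have hτ1 : τ ≤ 1 := by
    rw [hτ]
    linarith
  have hτL : τ * Real.log x = L / 2 - η * Real.log x := by
    rw [hLe, hτ]
    ring
  obtain ⟨R, hRd⟩ : ∃ R : ℕ, R = ⌊√(x ^ τ / W)⌋₊ := ⟨_, rfl⟩
  obtain ⟨hR1, hRW, hRL⟩ := level_R ε η τ L x W R hε hε1 hη0 hηε hx1 hW1r hτL hLx e1 hRd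
  have hxτ : x ^ τ ≤ x := by
    calc x ^ τ ≤ x ^ (1 : ℝ) := Real.rpow_le_rpow_of_exponent_le hx1.le hτ1
      _ = x := Real.rpow_one _
  have hS : 0 < S := lt_of_lt_of_le (by positivity) (e10.trans hPlo)
  have hRX : R ^ 2 ≤ X := by
    have : (R : ℝ) ^ 2 ≤ x := by
      have h0 : (0 : ℝ) ≤ (R : ℝ) ^ 2 := by positivity
      nlinarith
    rw [hx] at this
    exact_mod_cast this
  have hRXn : R ≤ X := by
    nlinarith [hRX, hR1]
  have hR0R : R0 ≤ R := by
    have h1 : Real.log ((R0 : ℝ) + 1) ≤ Real.log R := by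
      have h2 : 1 / 8 * L ≤ (1 - ε) / 4 * L := mul_le_mul_of_nonneg_right (by linarith) hL0.le
      linarith
    have hR1r : (0 : ℝ) < R := by exact_mod_cast hR1
    have h3 := (Real.log_le_log_iff (by positivity) hR1r).1 h1
    have h4 : (R0 : ℝ) ≤ R := by linarith
    exact_mod_cast h4
  -- the weights
  have hd := PL_datau G w R q hlt
  have hg : ∀ p ∈ Pq G w q ∪ Lq2 G w R q, 0 < gG G p ∧ gG G p < 1 := fun p hp => (hd p hp).2.2.1
  have hDs : ∀ U ∈ DD2 G w R q, U ⊆ Pq G w q ∪ Lq2 G w R q := fun U hU => DD_subu G w R q U hU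
  have hemp := DD_emptyu G w R q hR1
  have hdc := DD_downu G w R q
  have hGG : 0 < Sel.GG (DD2 G w R q) (gG G) := Sel.GG_pos' hDs hemp hg
  have hsupp : ∀ T : Finset ℕ, Sel.cf (DD2 G w R q) (gG G) T ≠ 0 →
      ((∏ p ∈ T, p : ℕ) : ℝ) ≤ x ^ τ := by
    intro T hT
    have h1 := (cf_produ G w R q T hT).2
    have h2 : ((∏ p ∈ T, p : ℕ) : ℝ) ≤ (W : ℝ) * (R : ℝ) ^ 2 := by exact_mod_cast h1
    linarith
  have hcf : ∀ T : Finset ℕ, |Sel.cf (DD2 G w R q) (gG G) T| ≤ (X : ℝ) ^ (η / 64) := by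
    intro T
    by_cases hT : Sel.cf (DD2 G w R q) (gG G) T = 0
    · rw [hT, abs_zero]
      positivity
    · have h1 := hsupp T hT
      have h2 := Sel.cf_le hDs hdc hemp hg T
      have h3 := HC4 T (fun p hp => (hd p ((cf_produ G w R q T hT).1 hp)).1)
      have h4 : ((∏ p ∈ T, p : ℕ) : ℝ) ^ (η / 128) ≤ x ^ (η / 128) :=
        Real.rpow_le_rpow (Nat.cast_nonneg _) (h1.trans hxτ) (by linarith)
      calc |Sel.cf (DD2 G w R q) (gG G) T| ≤ 4 ^ T.card := h2
        _ ≤ C4 * ((∏ p ∈ T, p : ℕ) : ℝ) ^ (η / 128) := by exact_mod_cast h3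
        _ ≤ x ^ (η / 128) * x ^ (η / 128) := mul_le_mul e4 h4 (by positivity) (by positivity)
        _ = x ^ (η / 64) := by
            rw [← Real.rpow_add hx0]
            congr 1
            ring
  have hqXn : q ≤ X := by
    have h1 : (q : ℝ) ≤ x := by
      calc (q : ℝ) ≤ x ^ θ := hqX
        _ ≤ x ^ (1 : ℝ) := Real.rpow_le_rpow_of_exponent_le hx1.le hθ1.le
        _ = x := Real.rpow_one _
    rw [hx] at h1
    exact_mod_cast h1
  have hfew := HF X e7 τ hτ0 hτ1 G (Pq G w q ∪ Lq2 G w R q) (Sel.cf (DD2 G w R q) (gG G)) X q (x / q)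
    (fun p hp => (hd p hp).1) (fun p hp => hle p (hd p hp).1) (fun p hp => (hd p hp).2.1) hcf
    (fun T _ hT => hsupp T hT) hq hqXn (by positivity)
  -- the classes
  have hbig := HC1 G q hle hlt hq
  have hcl0 : (0 : ℝ) < clsG G q := by
    by_contra h
    have h1 : (clsG G q : ℝ) = 0 := le_antisymm (not_lt.1 h) (Nat.cast_nonneg _)
    rw [h1, mul_zero] at hbig
    linarith
  have hclq : (clsG G q : ℝ) ≤ q := by exact_mod_cast clsG_le G q
  -- the pointwise bound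
  have hVs := Sel.Vs_bd (Sm w) hSmp
  have hmain := main_termu G k w R q hlt hle hwk hq
  have hHf := hR0 R hR0R
  have hsub : (range q).filter (fun t : ℕ => (K0 + δ) * S *
        (x / (clsG G q * L ^ k)) < RG G X q t) ⊆
      (range q).filter (fun a => x / q * (X : ℝ) ^ (-(η / 16)) <
        |TC (UU G (Pq G w q ∪ Lq2 G w R q) (Sel.cf (DD2 G w R q) (gG G))) q X a|) := by
    intro t ht
    rw [mem_filter] at ht ⊢
    refine ⟨ht.1, ?_⟩
    by_contra hcon
    rw [not_lt] at hcon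
    have h1 := RG_leu G w R q X t hlt hR1 e9 hRX
    have h2 : (NC q X t : ℝ) * (1 / Sel.GG (DD2 G w R q) (gG G)) ≤
        (x / q + 1) * (1 / Sel.GG (DD2 G w R q) (gG G)) :=
      mul_le_mul_of_nonneg_right (NC_le q X t hq) (by positivity)
    have h3 := (le_abs_self (TC (UU G (Pq G w q ∪ Lq2 G w R q)
      (Sel.cf (DD2 G w R q) (gG G))) q X t)).trans hcon
    have h4 : (RG G X q t : ℝ) ≤ (x / q + 1) * (1 / Sel.GG (DD2 G w R q) (gG G)) +
        x / q * x ^ (-(η / 16)) := by linarith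
    set E : ℝ := ∏ p ∈ Lg w R, ((1 - gG G p) / (1 - (k : ℝ) / p)) with hE
    set Pw : ℝ := ∏ p ∈ Sm w, (1 - gG G p) / (1 - 1 / (p : ℝ)) ^ k with hPw0
    have hPE : Pw * E ≤ (1 + ε) * S := hwP G R X hle hlt hRXn
      ((Nat.le_self_pow two_ne_zero w).trans e9)
    have h5 : (clsG G q : ℝ) * (1 - ε) ^ (k + 1) * L ^ k ≤
        K0 * q * (Pw * E) * Sel.GG (DD2 G w R q) (gG G) := by
      have hVk : 0 < Sel.Vs (Sm w) ^ k := pow_pos hVs.1 k
      have hPw : Pw * Sel.Vs (Sm w) ^ k = ∏ p ∈ Sm w, (1 - gG G p) := by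
        rw [hPw0, prod_div_distrib, prod_pow]
        unfold Sel.Vs
        apply div_mul_cancel₀
        unfold Sel.Vs at hVk
        exact hVk.ne'
      have hRLk : ((1 - ε) / 4 * L) ^ k ≤ Real.log R ^ k := by
        apply pow_le_pow_left₀ _ hRL
        have : 0 < 1 - ε := by linarith
        positivity
      have g1 : (clsG G q : ℝ) * ((1 - ε) * (Sel.Vs (Sm w) * Real.log R) ^ k) ≤
          (k.factorial : ℝ) * (q * ((∏ p ∈ Sm w, (1 - gG G p)) * E) *
            Sel.GG (DD2 G w R q) (gG G)) := by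
        calc (clsG G q : ℝ) * ((1 - ε) * (Sel.Vs (Sm w) * Real.log R) ^ k) ≤
            clsG G q * ((k.factorial : ℝ) * Sel.Hf k (Sm w) R) :=
              mul_le_mul_of_nonneg_left hHf hcl0.le
          _ = (k.factorial : ℝ) * (clsG G q * Sel.Hf k (Sm w) R) := by ring
          _ ≤ _ := mul_le_mul_of_nonneg_left hmain (by positivity)
      rw [← hPw] at g1
      have g2 : ((clsG G q : ℝ) * ((1 - ε) * Real.log R ^ k)) * Sel.Vs (Sm w) ^ k ≤
          ((k.factorial : ℝ) * (q * (Pw * E) * Sel.GG (DD2 G w R q) (gG G))) *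
            Sel.Vs (Sm w) ^ k := by
        calc ((clsG G q : ℝ) * ((1 - ε) * Real.log R ^ k)) * Sel.Vs (Sm w) ^ k =
            (clsG G q : ℝ) * ((1 - ε) * (Sel.Vs (Sm w) * Real.log R) ^ k) := by
              rw [mul_pow]
              ring
          _ ≤ _ := g1
          _ = _ := by ring
      have g3 := le_of_mul_le_mul_right g2 hVk
      have g4 : (clsG G q : ℝ) * ((1 - ε) * ((1 - ε) / 4 * L) ^ k) ≤
          (clsG G q : ℝ) * ((1 - ε) * Real.log R ^ k) := by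
        apply mul_le_mul_of_nonneg_left _ hcl0.le
        exact mul_le_mul_of_nonneg_left hRLk (by linarith)
      have g5 := mul_le_mul_of_nonneg_right (g4.trans g3) (show (0 : ℝ) ≤ 4 ^ k by positivity)
      calc (clsG G q : ℝ) * (1 - ε) ^ (k + 1) * L ^ k =
          (clsG G q : ℝ) * ((1 - ε) * ((1 - ε) / 4 * L) ^ k) * 4 ^ k := by
            rw [mul_pow, div_pow]
            field_simp
            ring
        _ ≤ _ := g5
        _ = _ := by
            rw [hK0d]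
            ring
    have h6 : x ^ (-(η / 16)) * L ^ k ≤ ε * (S * K0) := by
      have g1 : L ^ k ≤ (2 * Real.log x) ^ k := pow_le_pow_left₀ hL0.le hL2 k
      have g2 : x ^ (-(η / 16)) * x ^ (η / 32) = x ^ (-(η / 32)) := by
        rw [← Real.rpow_add hx0]
        congr 1
        ring
      have g3 : x ^ (-(η / 32)) ≤ S := by
        have : 0 < x ^ (-(η / 32)) := by positivity
        linarith
      calc x ^ (-(η / 16)) * L ^ k ≤ x ^ (-(η / 16)) * (ε * K0 * x ^ (η / 32)) :=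
            mul_le_mul_of_nonneg_left (g1.trans e6) (by positivity)
        _ = ε * K0 * (x ^ (-(η / 16)) * x ^ (η / 32)) := by ring
        _ = ε * K0 * x ^ (-(η / 32)) := by rw [g2]
        _ ≤ ε * K0 * S := mul_le_mul_of_nonneg_left g3 (by positivity)
        _ = _ := by ring
    have h7 : (q : ℝ) ≤ ε * x := by
      have g1 : x ^ θ * x ^ (1 - θ) = x := by
        rw [← Real.rpow_add hx0, add_sub_cancel, Real.rpow_one]
      have g2 : x ^ θ * (1 / ε) ≤ x := by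
        calc x ^ θ * (1 / ε) ≤ x ^ θ * x ^ (1 - θ) := mul_le_mul_of_nonneg_left e5 (by positivity)
          _ = x := g1
      rw [mul_one_div, div_le_iff₀ hε] at g2
      linarith
    have h8 := pt_alg K0 S ε δ (clsG G q) q x (L ^ k) (Sel.GG (DD2 G w R q) (gG G))
      (x ^ (-(η / 16))) (Pw * E) hK0 hS hε hε1 k hch
      hcl0 hclq hx0 hq0 (by positivity) hGG h7 h5 hPE h6
    exact absurd ht.2 (not_lt.2 (h4.trans h8))
  have hcard : (((range q).filter (fun t : ℕ => (K0 + δ) * S *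
        (x / (clsG G q * L ^ k)) < RG G X q t)).card : ℝ) ≤
      (x + x ^ (2 * τ)) / (x / q) ^ 2 * x ^ (η / 2) :=
    le_trans (by exact_mod_cast card_le_card hsub) hfew
  refine hcard.trans ?_
  -- the final estimate
  have hx2τ : x ^ (2 * τ) = x ^ 2 * x ^ (-(2 * η)) / q := by
    rw [← hxu, ← Real.rpow_natCast x 2, ← Real.rpow_add hx0, ← Real.rpow_sub hx0]
    congr 1
    rw [hτ]
    push_cast
    ring
  have hqx : (q : ℝ) ≤ x * x ^ (-(2 * η)) := by
    calc (q : ℝ) ≤ x ^ θ := hqX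
      _ ≤ x ^ (1 + -(2 * η)) := Real.rpow_le_rpow_of_exponent_le hx1.le (by linarith)
      _ = _ := by rw [Real.rpow_add hx0, Real.rpow_one]
  have hqη : (q : ℝ) ^ (η / 2) ≤ x ^ (η / 2) := by
    apply Real.rpow_le_rpow hq0.le _ (by linarith)
    rw [hx]
    exact_mod_cast hqXn
  have k1 : (x + x ^ (2 * τ)) / (x / q) ^ 2 ≤ 2 * q * x ^ (-(2 * η)) := by
    rw [hx2τ, div_le_iff₀ (by positivity)]
    have k2 : 2 * q * x ^ (-(2 * η)) * (x / q) ^ 2 = (x * x ^ (-(2 * η))) * x / q +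
        x ^ 2 * x ^ (-(2 * η)) / q := by
      field_simp
      ring
    rw [k2]
    have k3 : x ≤ (x * x ^ (-(2 * η))) * x / q := by
      rw [le_div_iff₀ hq0]
      nlinarith
    linarith
  calc (x + x ^ (2 * τ)) / (x / q) ^ 2 * x ^ (η / 2) ≤ 2 * q * x ^ (-(2 * η)) * x ^ (η / 2) :=
        mul_le_mul_of_nonneg_right k1 (by positivity)
    _ ≤ 2 * (C1 * (q : ℝ) ^ (η / 2) * clsG G q) * x ^ (-(2 * η)) * x ^ (η / 2) := by
        gcongr
    _ ≤ 2 * (C1 * x ^ (η / 2) * clsG G q) * x ^ (-(2 * η)) * x ^ (η / 2) := by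
        gcongr
    _ = (2 * C1) * (clsG G q * (x ^ (η / 2) * x ^ (-(2 * η)) * x ^ (η / 2))) := by ring
    _ ≤ x ^ (η / 2) * (clsG G q * (x ^ (η / 2) * x ^ (-(2 * η)) * x ^ (η / 2))) :=
        mul_le_mul_of_nonneg_right e3 (by positivity)
    _ = clsG G q * x ^ (-(η / 2)) := by
        have k4 : x ^ (η / 2) * (x ^ (η / 2) * x ^ (-(2 * η)) * x ^ (η / 2)) = x ^ (-(η / 2)) := by
          rw [← Real.rpow_add hx0, ← Real.rpow_add hx0, ← Real.rpow_add hx0]
          congr 1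
          ring
        rw [← k4]
        ring

end Pool.Agent.H662.RC
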