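import Pool.Agent.H662.RC.TupY

/-! Prime tuples in almost all residue classes, uniformly in the shifts. -/

set_option autoImplicit false

namespace Pool.Agent.H662.RC

open Filter Finset Topology Polynomial
open Pool.Agent.Y882
open Pool.Agent.Y882.PX
open Pool.Agent.Y882.SI
open Pool.Agent.H662

/-- the number of the `n ≤ X`, `n ≡ t mod q`, with all `|n + a i|` prime -/
def tupP {k : ℕ} (a : Fin k → ℤ) (X q t : ℕ) : ℕ :=
  ((Icc 1 X).filter (fun n : ℕ => n ≡ t [MOD q] ∧ ∀ i, ((n : ℤ) + a i).natAbs.Prime)).card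

theorem tupP_eq {k : ℕ} (a : Fin k → ℤ) (X q t : ℕ) (ht : t < q) : tupP a X q t =
    ((range X).filter (fun N : ℕ =>
      (N + 1) % q = t ∧ ∀ i, (((N + 1 : ℕ) : ℤ) + a i).natAbs.Prime)).card := by
  unfold tupP
  symm
  apply card_bij' (i := fun (N : ℕ) _ => N + 1) (j := fun (n : ℕ) _ => n - 1)
  · intro N hN
    rw [mem_filter, mem_range] at hN
    rw [mem_filter, mem_Icc]
    refine ⟨⟨by omega, by omega⟩, ?_, hN.2.2⟩
    unfold Nat.ModEq
    rw [hN.2.1, Nat.mod_eq_of_lt ht]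
  · intro n hn
    rw [mem_filter, mem_Icc] at hn
    rw [mem_filter, mem_range]
    have h1 : n - 1 + 1 = n := by omega
    rw [h1]
    refine ⟨by omega, ?_, hn.2.2⟩
    have h2 := hn.2.1
    unfold Nat.ModEq at h2
    rw [h2, Nat.mod_eq_of_lt ht]
  · intro N _
    show N + 1 - 1 = N
    omega
  · intro n hn
    rw [mem_filter, mem_Icc] at hn
    show n - 1 + 1 = n
    omega

theorem int_cls (q t X s : ℕ) (b : ℤ) (hq : 0 < q) :
    ((range X).filter (fun N : ℕ => (N + 1) % q = t ∧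
      (((N + 1 : ℕ) : ℤ) + b).natAbs ≤ s)).card ≤ 2 * s / q + 2 := by
  set u : ℕ := (-b - s).toNat with hu
  have h1 : (Icc (u / q) (u / q + (2 * s / q + 1))).card = 2 * s / q + 2 := by
    rw [Nat.card_Icc]
    generalize u / q = m
    generalize 2 * s / q = v
    omega
  rw [← h1]
  apply card_le_card_of_injOn (fun N => (N + 1) / q)
  · intro N hN
    rw [mem_coe, mem_filter] at hN
    rw [mem_coe, mem_Icc]
    have h2 : u ≤ N + 1 := by omega
    have h3 : N + 1 ≤ u + 2 * s := by omega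
    have h4 := Nat.div_le_div_right (c := q) h2
    have h5 := Nat.div_le_div_right (c := q) h3
    have h6 : (u + 2 * s) / q ≤ u / q + 2 * s / q + 1 := by
      rw [Nat.add_div hq]
      generalize u / q = m
      generalize 2 * s / q = v
      split_ifs <;> omega
    exact ⟨h4, h5.trans (h6.trans (le_of_eq (Nat.add_assoc _ _ _)))⟩
  · intro N hN N' hN' h
    rw [mem_coe, mem_filter] at hN hN'
    simp only at h
    have e1 := Nat.div_add_mod (N + 1) q
    have e2 := Nat.div_add_mod (N' + 1) q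
    rw [hN.2.1, h] at e1
    rw [hN'.2.1] at e2
    omega

theorem tupP_le {k : ℕ} (a : Fin k → ℤ) (X q t : ℕ) (ht : t < q) :
    tupP a X q t ≤ RG (GT a) X q t + k * (2 * Nat.sqrt X / q + 2) := by
  classical
  rw [tupP_eq a X q t ht]
  unfold RG
  have hU : (univ.biUnion fun i : Fin k => (range X).filter (fun N : ℕ => (N + 1) % q = t ∧
      (((N + 1 : ℕ) : ℤ) + a i).natAbs ≤ Nat.sqrt X)).card ≤ k * (2 * Nat.sqrt X / q + 2) := by
    refine card_biUnion_le.trans ?_
    calc ∑ i : Fin k, ((range X).filter (fun N : ℕ => (N + 1) % q = t ∧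
        (((N + 1 : ℕ) : ℤ) + a i).natAbs ≤ Nat.sqrt X)).card ≤
        ∑ _i : Fin k, (2 * Nat.sqrt X / q + 2) :=
          sum_le_sum fun i _ => int_cls q t X (Nat.sqrt X) (a i) (by omega)
      _ = k * (2 * Nat.sqrt X / q + 2) := by simp
  refine le_trans (le_trans (card_le_card ?_) (card_union_le _ _)) (Nat.add_le_add_left hU _)
  intro N hN
  rw [mem_filter] at hN
  rw [mem_union]
  by_cases h : ∃ i, (((N + 1 : ℕ) : ℤ) + a i).natAbs ≤ Nat.sqrt X
  · right
    obtain ⟨i, hi⟩ := h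
    rw [mem_biUnion]
    exact ⟨i, mem_univ i, mem_filter.2 ⟨hN.1, hN.2.1, hi⟩⟩
  · left
    push Not at h
    rw [mem_filter, mem_filter]
    refine ⟨⟨hN.1, hN.2.1⟩, fun p hp hpX hd => ?_⟩
    have hps : p ≤ Nat.sqrt X := Nat.le_sqrt'.2 hpX
    have hpi : Prime (p : ℤ) := Nat.prime_iff_prime_int.1 hp
    have h1 : (p : ℤ) ∣ (GT a).eval ((N + 1 : ℕ) : ℤ) := Int.natCast_dvd.2 hd
    rw [GT_eval, hpi.dvd_finsetProd_iff] at h1
    obtain ⟨i, -, hi⟩ := h1
    have h2 := hN.2.2 i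
    have h5 : p ∣ (((N + 1 : ℕ) : ℤ) + a i).natAbs := Int.natCast_dvd.1 hi
    have h6 := (Nat.prime_dvd_prime_iff_eq hp h2).1 h5
    have h7 := h i
    omega

open Classical in
/-- **prime tuples in almost all residue classes, uniformly in the shifts** -/
theorem tupP_main (k : ℕ) (θ δ : ℝ) (hθ : θ < 1) (hδ : 0 < δ) :
    ∃ κ : ℝ, 0 < κ ∧ ∀ᶠ X : ℕ in atTop, ∀ a : Fin k → ℤ,
      (∀ p : ℕ, p.Prime → (univ.image fun i => a i % (p : ℤ)).card < p) →
      ∀ q : ℕ, 0 < q → (q : ℝ) ≤ (X : ℝ) ^ θ →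
        (((range q).filter (fun t : ℕ => ((k.factorial : ℝ) * 4 ^ k + δ) * PPX (GT a) k X *
          ((X : ℝ) / (clsG (GT a) q * (Real.log ((X : ℝ) ^ 2 / q)) ^ k)) <
            tupP a X q t)).card : ℝ) ≤ clsG (GT a) q * (X : ℝ) ^ (-κ) := by
  obtain ⟨κ, hκ, H⟩ := tup_unif k θ (δ / 2) hθ (by linarith)
  refine ⟨κ, hκ, ?_⟩
  have hk0 : (0 : ℝ) ≤ k := Nat.cast_nonneg k
  set θ' : ℝ := max θ (1 / 2) with hθ'
  have hθ'1 : θ' < 1 := max_lt hθ (by norm_num)
  have ev1 : ∀ᶠ X : ℕ in atTop, (4 * k : ℝ) * (2 * Real.log X) ^ k ≤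
      8 * δ * (X : ℝ) ^ ((1 - θ') / 2) := by
    have h1 : Tendsto (fun x : ℝ => Real.log x ^ (k : ℝ) / x ^ ((1 - θ') / 2)) atTop (nhds 0) := by
      have := isLittleO_log_rpow_rpow_atTop (k : ℝ) (show 0 < (1 - θ') / 2 by linarith)
      exact this.tendsto_div_nhds_zero
    have h2 := h1.eventually_le_const
      (show (0 : ℝ) < 8 * δ / ((4 * k + 1) * 2 ^ k) by positivity)
    have h3 := tendsto_natCast_atTop_atTop.eventually (h2.and (eventually_gt_atTop (1 : ℝ)))
    filter_upwards [h3] with X hX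
    obtain ⟨h4, h5⟩ := hX
    have h6 : (0 : ℝ) < (X : ℝ) ^ ((1 - θ') / 2) := by positivity
    rw [div_le_div_iff₀ h6 (by positivity), Real.rpow_natCast] at h4
    have h7 : 0 ≤ Real.log (X : ℝ) ^ k := pow_nonneg (Real.log_nonneg h5.le) k
    rw [mul_pow]
    have h8 : 0 ≤ Real.log (X : ℝ) ^ k * 2 ^ k := by positivity
    nlinarith
  have ev2 := lo_unif k ((1 - θ') / 2) (by linarith)
  filter_upwards [H, ev1, ev2, eventually_ge_atTop 3] with X hX e1 e4 e2 a hadm q hq hqX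
  have hlt : ∀ p : ℕ, p.Prime → ro (GT a) 0 p < p := fun p hp => by
    rw [ro_GT a p hp]
    exact hadm p hp
  have hle : ∀ p : ℕ, p.Prime → ro (GT a) 0 p ≤ k := fun p hp => ro_GT_le a p hp
  refine le_trans ?_ (hX (GT a) hle hlt q hq hqX)
  have e5 := e4 (GT a) hle hlt
  have e6 := lo_le_PPX (GT a) k X hlt
  apply Nat.cast_le.2
  apply card_le_card
  intro t ht
  rw [mem_filter] at ht ⊢
  refine ⟨ht.1, ?_⟩
  have htq : t < q := mem_range.1 ht.1
  set x : ℝ := (X : ℝ) with hx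
  set S : ℝ := PPX (GT a) k X with hS
  have hx3 : (3 : ℝ) ≤ x := by rw [hx]; exact_mod_cast e2
  have hx0 : 0 < x := by linarith
  have hx1 : 1 < x := by linarith
  have hlx0 : 0 < Real.log x := Real.log_pos hx1
  have hq0 : (0 : ℝ) < q := by exact_mod_cast hq
  have hq1 : (1 : ℝ) ≤ q := by exact_mod_cast hq
  have hqx : (q : ℝ) ≤ x := by
    calc (q : ℝ) ≤ x ^ θ := hqX
      _ ≤ x ^ (1 : ℝ) := Real.rpow_le_rpow_of_exponent_le hx1.le hθ.le
      _ = x := Real.rpow_one _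
  set L : ℝ := Real.log (x ^ 2 / q) with hL
  have hL0 : 0 < L := by
    apply Real.log_pos
    rw [lt_div_iff₀ hq0]
    nlinarith
  have hL2 : L ≤ 2 * Real.log x := by
    have h1 : x ^ 2 / q ≤ x ^ 2 := div_le_self (by positivity) hq1
    have h2 := Real.log_le_log (by positivity) h1
    rw [Real.log_pow] at h2
    exact_mod_cast h2
  obtain ⟨C1, hC1, HC1⟩ := clsG_big k 1 one_pos
  have hbig := HC1 (GT a) q hle hlt hq
  have hcl0 : (0 : ℝ) < clsG (GT a) q := by
    by_contra h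
    have h1 : (clsG (GT a) q : ℝ) = 0 := le_antisymm (not_lt.1 h) (Nat.cast_nonneg _)
    rw [h1, mul_zero] at hbig
    linarith
  have hclq : (clsG (GT a) q : ℝ) ≤ q := by exact_mod_cast clsG_le (GT a) q
  have h1 : (tupP a X q t : ℝ) ≤ RG (GT a) X q t + k * (2 * x ^ θ' / q + 2) := by
    have g0 := tupP_le a X q t htq
    have g1 : ((Nat.sqrt X : ℕ) : ℝ) ≤ x ^ θ' := by
      calc ((Nat.sqrt X : ℕ) : ℝ) ≤ √x := by
            rw [hx]
            exact Real.nat_sqrt_le_real_sqrt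
        _ = x ^ (1 / 2 : ℝ) := Real.sqrt_eq_rpow x
        _ ≤ x ^ θ' := Real.rpow_le_rpow_of_exponent_le hx1.le (le_max_right _ _)
    have g2 : ((2 * Nat.sqrt X / q : ℕ) : ℝ) ≤ 2 * x ^ θ' / q := by
      refine Nat.cast_div_le.trans ?_
      push_cast
      apply div_le_div_of_nonneg_right _ hq0.le
      linarith
    have g3 : (tupP a X q t : ℝ) ≤ ((RG (GT a) X q t + k * (2 * Nat.sqrt X / q + 2) : ℕ) : ℝ) := by
      exact_mod_cast g0
    push_cast at g3
    refine g3.trans ?_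
    have g4 : (k : ℝ) * (((2 * Nat.sqrt X / q : ℕ) : ℝ) + 2) ≤ k * (2 * x ^ θ' / q + 2) :=
      mul_le_mul_of_nonneg_left (by linarith) hk0
    linarith
  have h3 : (k : ℝ) * (2 * x ^ θ' / q + 2) ≤ δ / 2 * S * (x / (clsG (GT a) q * L ^ k)) := by
    have g2 : (q : ℝ) ≤ x ^ θ' :=
      hqX.trans (Real.rpow_le_rpow_of_exponent_le hx1.le (le_max_left _ _))
    have g5 : L ^ k ≤ (2 * Real.log x) ^ k := pow_le_pow_left₀ hL0.le hL2 k
    have g6 : (4 * k : ℝ) * x ^ θ' * L ^ k ≤ δ / 2 * S * x := by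
      calc (4 * k : ℝ) * x ^ θ' * L ^ k ≤ (4 * k : ℝ) * x ^ θ' * (2 * Real.log x) ^ k :=
            mul_le_mul_of_nonneg_left g5 (by positivity)
        _ = ((4 * k : ℝ) * (2 * Real.log x) ^ k) * x ^ θ' := by ring
        _ ≤ (8 * δ * x ^ ((1 - θ') / 2)) * x ^ θ' := mul_le_mul_of_nonneg_right e1 (by positivity)
        _ = δ / 2 * (16 * (x ^ ((1 - θ') / 2) * x ^ θ')) := by ring
        _ = δ / 2 * (16 * x ^ (-((1 - θ') / 2)) * x) := by
            have g7 : x ^ ((1 - θ') / 2) * x ^ θ' = x ^ (-((1 - θ') / 2)) * x := by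
              have g8 : x ^ (-((1 - θ') / 2)) * x = x ^ (-((1 - θ') / 2)) * x ^ (1 : ℝ) := by
                rw [Real.rpow_one]
              rw [g8, ← Real.rpow_add hx0, ← Real.rpow_add hx0]
              congr 1
              ring
            rw [g7]
            ring
        _ ≤ δ / 2 * (S * x) := by
            apply mul_le_mul_of_nonneg_left _ (by linarith)
            exact mul_le_mul_of_nonneg_right (e5.trans e6) hx0.le
        _ = _ := by ring
    have g7 : (k : ℝ) * (2 * x ^ θ' / q + 2) ≤ (4 * k : ℝ) * x ^ θ' / q := by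
      rw [le_div_iff₀ hq0]
      have g8 : (k : ℝ) * (2 * x ^ θ' / q + 2) * q = k * (2 * x ^ θ' + 2 * q) := by
        field_simp
      rw [g8]
      nlinarith
    refine g7.trans ?_
    rw [← mul_div_assoc, div_le_div_iff₀ hq0 (by positivity)]
    calc (4 * k : ℝ) * x ^ θ' * (clsG (GT a) q * L ^ k) =
        ((4 * k : ℝ) * x ^ θ' * L ^ k) * clsG (GT a) q := by ring
      _ ≤ (δ / 2 * S * x) * q := by
          apply mul_le_mul g6 hclq hcl0.le
          have hS0 : 0 ≤ S := by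
            have : 0 ≤ 16 * x ^ (-((1 - θ') / 2)) := by positivity
            linarith
          positivity
  have h4 := ht.2
  have h5 : ((k.factorial : ℝ) * 4 ^ k + δ) * S * (x / (clsG (GT a) q * L ^ k)) =
      ((k.factorial : ℝ) * 4 ^ k + δ / 2) * S * (x / (clsG (GT a) q * L ^ k)) +
        δ / 2 * S * (x / (clsG (GT a) q * L ^ k)) := by ring
  rw [h5] at h4
  linarith

end Pool.Agent.H662.RC
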