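import Pool.Agent.H662.RC.Spc
import Pool.Agent.Y882.SI.Var

/-! The mean square of the weighted error terms over the residue classes. -/

set_option autoImplicit false

namespace Pool.Agent.H662.RC

open Finset Polynomial
open H343 (ex)
open Pool.Agent.Helper112
open Pool.Agent.Y882.PX
open Pool.Agent.Y882.SI

/-- the weighted error term at the integer `N + 1` -/
noncomputable def UU (F : ℤ[X]) (P : Finset ℕ) (c : Finset ℕ → ℝ) (N : ℕ) : ℝ :=
  ∑ T ∈ P.powerset, c T * ri F (∏ p ∈ T, p) 1 N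

/-- the Fourier coefficients -/
noncomputable def GA (F : ℤ[X]) (P : Finset ℕ) (c : Finset ℕ → ℝ) (D f b : ℕ) : ℂ :=
  ∑ T ∈ P.powerset.filter (fun T => ∏ p ∈ T, p ≤ D ∧ f ∣ ∏ p ∈ T, p),
    ((c T / ((∏ p ∈ T, p : ℕ) : ℝ) : ℝ) : ℂ) * Q2 F (∏ p ∈ T, p) 1 f b

theorem UU_four (F : ℤ[X]) (P : Finset ℕ) (hP : ∀ p ∈ P, p.Prime) (c : Finset ℕ → ℝ) (D : ℕ)
    (hc : ∀ T ⊆ P, c T ≠ 0 → ∏ p ∈ T, p ≤ D) (N : ℕ) :
    ((UU F P c N : ℝ) : ℂ) = ∑ f ∈ Icc 1 D, ∑ b ∈ (range f).filter (fun b => b.Coprime f),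
        ex ((N : ℝ) * b / f) * GA F P c D f b := by
  classical
  have hpos : ∀ T ⊆ P, 0 < ∏ p ∈ T, p := fun T hT =>
    Nat.pos_of_ne_zero (prod_ne_zero_iff.2 fun p hp => (hP p (hT hp)).ne_zero)
  have h1 : ∀ f ∈ Icc 1 D, ∑ b ∈ (range f).filter (fun b => b.Coprime f),
      ex ((N : ℝ) * b / f) * GA F P c D f b = ∑ T ∈ P.powerset, if (∏ p ∈ T, p ≤ D ∧ f ∣ ∏ p ∈ T, p) then
        ((c T / ((∏ p ∈ T, p : ℕ) : ℝ) : ℝ) : ℂ) *
          ∑ b ∈ (range f).filter (fun b => b.Coprime f),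
            ex ((b : ℝ) * N / f) * Q2 F (∏ p ∈ T, p) 1 f b else 0 := by
    intro f _
    rw [← sum_filter]
    unfold GA
    simp_rw [mul_sum]
    rw [sum_comm]
    apply sum_congr rfl
    intro T _
    apply sum_congr rfl
    intro b _
    rw [mul_comm (b : ℝ) (N : ℝ)]
    ring
  rw [sum_congr rfl h1, sum_comm]
  unfold UU
  rw [Complex.ofReal_sum]
  apply sum_congr rfl
  intro T hT
  rw [mem_powerset] at hT
  by_cases hcT : c T = 0
  · simp [hcT]
  have hTD := hc T hT hcT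
  have h2 : ∀ f ∈ Icc 1 D, (if (∏ p ∈ T, p ≤ D ∧ f ∣ ∏ p ∈ T, p) then
        ((c T / ((∏ p ∈ T, p : ℕ) : ℝ) : ℝ) : ℂ) *
          ∑ b ∈ (range f).filter (fun b => b.Coprime f),
            ex ((b : ℝ) * N / f) * Q2 F (∏ p ∈ T, p) 1 f b else 0) =
      if f ∣ ∏ p ∈ T, p then ((c T / ((∏ p ∈ T, p : ℕ) : ℝ) : ℝ) : ℂ) *
          ∑ b ∈ (range f).filter (fun b => b.Coprime f),
            ex ((b : ℝ) * N / f) * Q2 F (∏ p ∈ T, p) 1 f b else 0 := by
    intro f _
    simp only [hTD, true_and]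
  rw [sum_congr rfl h2, ← sum_filter]
  have h3 : (Icc 1 D).filter (fun f => f ∣ ∏ p ∈ T, p) = (∏ p ∈ T, p).divisors := by
    ext f
    rw [mem_filter, mem_Icc, Nat.mem_divisors]
    constructor
    · rintro ⟨_, h⟩
      exact ⟨h, (hpos T hT).ne'⟩
    · rintro ⟨h, _⟩
      exact ⟨⟨Nat.pos_of_dvd_of_pos h (hpos T hT),
        (Nat.le_of_dvd (hpos T hT) h).trans hTD⟩, h⟩
  rw [h3, ← mul_sum]
  rw [Complex.ofReal_mul, ri_four F _ 1 N (hpos T hT)]
  push_cast
  ring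

theorem Q2_le (F : ℤ[X]) (q f b : ℕ) (B : ℝ) (hB : (ro F 0 q : ℝ) ≤ B) :
    ‖Q2 F q 1 f b‖ ≤ B := by
  have hB0 : 0 ≤ B := le_trans (Nat.cast_nonneg _) hB
  unfold Q2
  split_ifs
  · simpa using hB0
  · rw [norm_mul]
    have h1 : ‖RS F q f b‖ ≤ B := by
      unfold RS
      refine (norm_sum_le _ _).trans ?_
      simp_rw [norm_ex]
      rw [sum_const, nsmul_eq_mul, mul_one, RT_card]
      exact hB
    have h2 : ‖KS 1 f b‖ ≤ 1 := by
      unfold KS
      refine (norm_sum_le _ _).trans ?_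
      simp_rw [norm_ex]
      simp
    calc ‖RS F q f b‖ * ‖KS 1 f b‖ ≤ B * 1 := mul_le_mul h1 h2 (norm_nonneg _) hB0
      _ = B := mul_one _

theorem GA_le (F : ℤ[X]) (P : Finset ℕ) (hP : ∀ p ∈ P, p.Prime) (c : Finset ℕ → ℝ) (L : ℝ)
    (hL : ∀ T, |c T| ≤ L) (D : ℕ) (B : ℝ)
    (hB : ∀ T ⊆ P, ∏ p ∈ T, p ≤ D → (ro F 0 (∏ p ∈ T, p) : ℝ) ≤ B) (hB0 : 0 ≤ B)
    (f b : ℕ) (hf : 0 < f) : ‖GA F P c D f b‖ ≤ L * B * (1 + Real.log D) / f := by
  have hL0 : 0 ≤ L := (abs_nonneg _).trans (hL ∅)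
  unfold GA
  refine (norm_sum_le _ _).trans ?_
  calc ∑ T ∈ P.powerset.filter (fun T => ∏ p ∈ T, p ≤ D ∧ f ∣ ∏ p ∈ T, p),
      ‖((c T / ((∏ p ∈ T, p : ℕ) : ℝ) : ℝ) : ℂ) * Q2 F (∏ p ∈ T, p) 1 f b‖ ≤
      ∑ T ∈ P.powerset.filter (fun T => ∏ p ∈ T, p ≤ D ∧ f ∣ ∏ p ∈ T, p),
        L * B * (1 / ((∏ p ∈ T, p : ℕ) : ℝ)) := by
        apply sum_le_sum
        intro T hT
        rw [mem_filter, mem_powerset] at hT
        rw [norm_mul, Complex.norm_real, Real.norm_eq_abs, abs_div, Nat.abs_cast]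
        calc |c T| / ((∏ p ∈ T, p : ℕ) : ℝ) * ‖Q2 F (∏ p ∈ T, p) 1 f b‖ ≤
            L / ((∏ p ∈ T, p : ℕ) : ℝ) * B := by
              apply mul_le_mul _ (Q2_le F _ f b B (hB T hT.1 hT.2.1)) (norm_nonneg _) (by positivity)
              exact div_le_div_of_nonneg_right (hL T) (Nat.cast_nonneg _)
          _ = _ := by ring
    _ = L * B * ∑ T ∈ P.powerset.filter (fun T => ∏ p ∈ T, p ≤ D ∧ f ∣ ∏ p ∈ T, p),
        (1 / ((∏ p ∈ T, p : ℕ) : ℝ)) := by rw [mul_sum]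
    _ ≤ L * B * ((1 + Real.log D) / f) :=
        mul_le_mul_of_nonneg_left (tail_le P hP D f hf) (by positivity)
    _ = _ := by ring

theorem GA_zero (F : ℤ[X]) (P : Finset ℕ) (hP : ∀ p ∈ P, p.Prime) (c : Finset ℕ → ℝ) (D q : ℕ)
    (hPq : ∀ p ∈ P, ¬ p ∣ q) (f b : ℕ) (hf : ¬ q.Coprime f) : GA F P c D f b = 0 := by
  unfold GA
  apply sum_eq_zero
  intro T hT
  exfalso
  rw [mem_filter, mem_powerset] at hT
  obtain ⟨p, hp, hp1, hp2⟩ := Nat.Prime.not_coprime_iff_dvd.1 hf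
  have h1 : p ∣ ∏ p ∈ T, p := hp2.trans hT.2.2
  rw [hp.prime.dvd_finset_prod_iff] at h1
  obtain ⟨l, hl, hpl⟩ := h1
  have h2 : p = l := (Nat.prime_dvd_prime_iff_eq hp (hP l (hT.1 hl))).1 hpl
  rw [h2] at hp1
  exact hPq l (hT.1 hl) hp1

theorem GA_one (F : ℤ[X]) (P : Finset ℕ) (c : Finset ℕ → ℝ) (D f : ℕ) : GA F P c D f 0 = 0 := by
  unfold GA Q2
  simp

/-- the sum over a residue class -/
noncomputable def TC (u : ℕ → ℝ) (q X a : ℕ) : ℝ :=
  ∑ N ∈ (range X).filter (fun N => (N + 1) % q = a), u N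

theorem TC_four (u : ℕ → ℝ) (q X : ℕ) (hq : 0 < q) (k : ℕ) :
    ∑ b ∈ range q, ex ((b : ℝ) * (k : ℤ) / q) * ((TC u q X b : ℝ) : ℂ) =
      ∑ N ∈ range X, ex (((N : ℝ) + 1) * k / q) * ((u N : ℝ) : ℂ) := by
  have h1 : ∀ N ∈ range X, (N + 1) % q ∈ range q := fun N _ => mem_range.2 (Nat.mod_lt _ hq)
  rw [← sum_fiberwise_of_maps_to h1]
  apply sum_congr rfl
  intro b _
  unfold TC
  rw [Complex.ofReal_sum, mul_sum]
  apply sum_congr rfl
  intro N hN
  rw [mem_filter] at hN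
  congr 1
  have h2 := ex_congr q hq (((b : ℤ)) * k) (((N : ℤ) + 1) * k) (by
    rw [← sub_mul]
    apply Dvd.dvd.mul_right
    have h3 : ((N + 1 : ℕ) : ℤ) % q = b := by
      rw [← hN.2]
      push_cast
      rfl
    have h4 : (q : ℤ) ∣ ((N + 1 : ℕ) : ℤ) - ((N + 1 : ℕ) : ℤ) % q := Int.dvd_self_sub_emod
    rw [h3] at h4
    push_cast at h4
    have h5 := (dvd_neg).2 h4
    rwa [neg_sub] at h5)
  push_cast at h2 ⊢
  exact h2

/-- **The mean square over the residue classes.** -/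
theorem err_sq_cls (F : ℤ[X]) (P : Finset ℕ) (hP : ∀ p ∈ P, p.Prime) (c : Finset ℕ → ℝ) (L : ℝ)
    (hL : ∀ T, |c T| ≤ L) (D : ℕ) (hD : 1 ≤ D) (B : ℝ)
    (hB : ∀ T ⊆ P, ∏ p ∈ T, p ≤ D → (ro F 0 (∏ p ∈ T, p) : ℝ) ≤ B)
    (hc : ∀ T ⊆ P, c T ≠ 0 → ∏ p ∈ T, p ≤ D) (X q : ℕ) (hq : 0 < q) (hPq : ∀ p ∈ P, ¬ p ∣ q) :
    ∑ a ∈ range q, TC (UU F P c) q X a ^ 2 ≤
      (2 * X + (D : ℝ) ^ 2 * (1 + 2 * Real.log D)) * ((L * B) ^ 2 * (1 + Real.log D) ^ 3 *
        (2 + Real.log D + Real.log q)) := by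
  classical
  have hL0 : 0 ≤ L := (abs_nonneg _).trans (hL ∅)
  have hB0 : 0 ≤ B := le_trans (Nat.cast_nonneg _) (hB ∅ (empty_subset _) (by simpa using hD))
  have hlD : 0 ≤ Real.log D := Real.log_natCast_nonneg D
  have hlq : 0 ≤ Real.log q := Real.log_natCast_nonneg q
  have hq0 : (0 : ℝ) < q := by exact_mod_cast hq
  set R : Finset (Σ _ : ℕ, ℕ) :=
    (Icc 1 D).sigma (fun f => (range f).filter (fun a => a.Coprime f)) with hR
  set g : (Σ _ : ℕ, ℕ) → ℝ := fun r => ‖GA F P c D r.1 r.2‖ with hg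
  set w : ℕ → (Σ _ : ℕ, ℕ) → ℝ := fun k r => ‖lsD X ((r.2 : ℝ) / r.1 + (k : ℝ) / q)‖ with hw
  have hw0 : ∀ k r, 0 ≤ w k r := fun k r => norm_nonneg _
  have hg0 : ∀ r, 0 ≤ g r := fun r => norm_nonneg _
  set L1 : ℝ := 2 * X + (D : ℝ) ^ 2 * (1 + 2 * Real.log D) with hL1
  have hL10 : 0 ≤ L1 := by positivity
  set W : ℕ → ℂ := fun k => ∑ N ∈ range X, ex (((N : ℝ) + 1) * k / q) * ((UU F P c N : ℝ) : ℂ) with hW
  have hWk : ∀ k, ‖W k‖ ≤ ∑ r ∈ R, g r * w k r := by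
    intro k
    have h1 : W k = ∑ r ∈ R, GA F P c D r.1 r.2 * (ex ((k : ℝ) / q) *
        lsD X ((r.2 : ℝ) / r.1 + (k : ℝ) / q)) := by
      rw [hR, sum_sigma]
      simp only [hW]
      have h2 : ∀ N ∈ range X, ex (((N : ℝ) + 1) * k / q) * ((UU F P c N : ℝ) : ℂ) =
          ∑ f ∈ Icc 1 D, ∑ b ∈ (range f).filter (fun b => b.Coprime f),
            GA F P c D f b * (ex ((k : ℝ) / q) * ee ((N : ℝ) * ((b : ℝ) / f + (k : ℝ) / q))) := by
        intro N _
        rw [UU_four F P hP c D hc N, mul_sum]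
        apply sum_congr rfl
        intro f _
        rw [mul_sum]
        apply sum_congr rfl
        intro b _
        rw [← H343.PVaux.ex_eq_ee]
        have h3 : ex (((N : ℝ) + 1) * k / q) * ex ((N : ℝ) * b / f) =
            ex ((k : ℝ) / q) * ex ((N : ℝ) * ((b : ℝ) / f + (k : ℝ) / q)) := by
          rw [← H343.Gauss.ex_add, ← H343.Gauss.ex_add]
          congr 1
          ring
        rw [← mul_assoc, h3]
        ring
      rw [sum_congr rfl h2, sum_comm]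
      apply sum_congr rfl
      intro f _
      rw [sum_comm]
      apply sum_congr rfl
      intro b _
      unfold lsD
      rw [← mul_sum, ← mul_sum]
    rw [h1]
    refine (norm_sum_le _ _).trans (le_of_eq ?_)
    apply sum_congr rfl
    intro r _
    rw [norm_mul, norm_mul, norm_ex, one_mul]
  have hA1 : ∀ k, ∑ r ∈ R, w k r ≤ L1 := by
    intro k
    rw [hR, sum_sigma]
    exact farey_sum D X hD ((k : ℝ) / q)
  have hWk2 : ∀ k, ‖W k‖ ^ 2 ≤ L1 * ∑ r ∈ R, g r ^ 2 * w k r := by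
    intro k
    calc ‖W k‖ ^ 2 ≤ (∑ r ∈ R, g r * w k r) ^ 2 := pow_le_pow_left₀ (norm_nonneg _) (hWk k) 2
      _ ≤ (∑ r ∈ R, w k r) * ∑ r ∈ R, g r ^ 2 * w k r := by
          apply Finset.sum_sq_le_sum_mul_sum_of_sq_le_mul
          · intro r _; exact hw0 k r
          · intro r _
            have := hw0 k r
            positivity
          · intro r _
            exact le_of_eq (by ring)
      _ ≤ _ := by
          apply mul_le_mul_of_nonneg_right (hA1 k)
          exact sum_nonneg fun r _ => mul_nonneg (by positivity) (hw0 k r)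
  set A : ℝ := (L * B) ^ 2 * (1 + Real.log D) ^ 2 with hA
  have hA0 : 0 ≤ A := by positivity
  have hB2 : ∑ k ∈ range q, ∑ r ∈ R, g r ^ 2 * w k r ≤
      q * (A * (1 + Real.log D) * (2 + Real.log D + Real.log q)) := by
    rw [sum_comm, hR, sum_sigma]
    have h1 : ∀ f ∈ Icc 1 D, ∑ b ∈ (range f).filter (fun a => a.Coprime f),
        ∑ k ∈ range q, g ⟨f, b⟩ ^ 2 * w k ⟨f, b⟩ ≤
        q * (A * (2 + Real.log D + Real.log q)) * (1 / (f : ℝ)) := by
      intro f hf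
      rw [mem_Icc] at hf
      have hf0 : (0 : ℝ) < f := by exact_mod_cast hf.1
      have hrhs : 0 ≤ q * (A * (2 + Real.log D + Real.log q)) * (1 / (f : ℝ)) := by positivity
      by_cases hcop : q.Coprime f
      · rcases Nat.lt_or_ge f 2 with h2 | h2
        · have hf1 : f = 1 := by omega
          subst hf1
          refine le_trans (le_of_eq ?_) hrhs
          apply sum_eq_zero
          intro b hb
          rw [mem_filter, mem_range] at hb
          have hb0 : b = 0 := by omega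
          subst hb0
          apply sum_eq_zero
          intro k _
          simp only [hg]
          rw [GA_one]
          simp
        · have h3 : ∀ b, g ⟨f, b⟩ ^ 2 ≤ A / (f : ℝ) ^ 2 := by
            intro b
            have h4 := GA_le F P hP c L hL D B hB hB0 f b (by omega)
            calc g ⟨f, b⟩ ^ 2 ≤ (L * B * (1 + Real.log D) / f) ^ 2 :=
                  pow_le_pow_left₀ (norm_nonneg _) h4 2
              _ = _ := by
                  rw [hA, div_pow]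
                  ring
          calc ∑ b ∈ (range f).filter (fun a => a.Coprime f),
              ∑ k ∈ range q, g ⟨f, b⟩ ^ 2 * w k ⟨f, b⟩ ≤
              ∑ b ∈ (range f).filter (fun a => a.Coprime f),
              ∑ k ∈ range q, A / (f : ℝ) ^ 2 * w k ⟨f, b⟩ := by
                apply sum_le_sum
                intro b _
                apply sum_le_sum
                intro k _
                exact mul_le_mul_of_nonneg_right (h3 b) (hw0 _ _)
            _ = A / (f : ℝ) ^ 2 * ∑ b ∈ (range f).filter (fun a => a.Coprime f),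
              ∑ k ∈ range q, w k ⟨f, b⟩ := by
                rw [mul_sum]
                apply sum_congr rfl
                intro b _
                rw [mul_sum]
            _ ≤ A / (f : ℝ) ^ 2 * (q * (f * (2 + Real.log f + Real.log q))) := by
                apply mul_le_mul_of_nonneg_left _ (by positivity)
                exact shift_sum2 q f X hq h2 hcop
            _ ≤ A / (f : ℝ) ^ 2 * (q * (f * (2 + Real.log D + Real.log q))) := by
                have : Real.log f ≤ Real.log D :=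
                  Real.log_le_log hf0 (by exact_mod_cast hf.2)
                gcongr
            _ = _ := by
                field_simp
      · refine le_trans (le_of_eq ?_) hrhs
        apply sum_eq_zero
        intro b _
        apply sum_eq_zero
        intro k _
        simp only [hg]
        rw [GA_zero F P hP c D q hPq f b hcop]
        simp
    calc ∑ f ∈ Icc 1 D, ∑ b ∈ (range f).filter (fun a => a.Coprime f),
        ∑ k ∈ range q, g ⟨f, b⟩ ^ 2 * w k ⟨f, b⟩ ≤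
        ∑ f ∈ Icc 1 D, q * (A * (2 + Real.log D + Real.log q)) * (1 / (f : ℝ)) := sum_le_sum h1
      _ = q * (A * (2 + Real.log D + Real.log q)) * ∑ f ∈ Icc 1 D, (1 / (f : ℝ)) := by rw [mul_sum]
      _ ≤ q * (A * (2 + Real.log D + Real.log q)) * (1 + Real.log D) :=
          mul_le_mul_of_nonneg_left (harm_le D) (by positivity)
      _ = _ := by ring
  have hpar := parseval' q hq (fun b => ((TC (UU F P c) q X b : ℝ) : ℂ))
  have h3 : ∑ b ∈ range q, ‖((TC (UU F P c) q X b : ℝ) : ℂ)‖ ^ 2 =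
      ∑ a ∈ range q, TC (UU F P c) q X a ^ 2 := by
    apply sum_congr rfl
    intro a _
    rw [Complex.norm_real, Real.norm_eq_abs, sq_abs]
  rw [h3] at hpar
  have h4 : (q : ℝ) * ∑ a ∈ range q, TC (UU F P c) q X a ^ 2 ≤
      q * (L1 * (A * (1 + Real.log D) * (2 + Real.log D + Real.log q))) := by
    rw [← hpar]
    calc ∑ k ∈ range q, ‖∑ b ∈ range q, ex ((b : ℝ) * (k : ℤ) / q) *
        ((TC (UU F P c) q X b : ℝ) : ℂ)‖ ^ 2 = ∑ k ∈ range q, ‖W k‖ ^ 2 := by
          apply sum_congr rfl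
          intro k _
          rw [TC_four (UU F P c) q X hq k]
      _ ≤ ∑ k ∈ range q, L1 * ∑ r ∈ R, g r ^ 2 * w k r := sum_le_sum fun k _ => hWk2 k
      _ = L1 * ∑ k ∈ range q, ∑ r ∈ R, g r ^ 2 * w k r := by rw [mul_sum]
      _ ≤ L1 * (q * (A * (1 + Real.log D) * (2 + Real.log D + Real.log q))) :=
          mul_le_mul_of_nonneg_left hB2 hL10
      _ = _ := by ring
  have h5 := le_of_mul_le_mul_left h4 hq0
  refine h5.trans (le_of_eq ?_)
  rw [hA]
  ring

end Pool.Agent.H662.RC
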